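import Pool.Agent.H34.GSSplit2

/-!
The concrete algebra: `B` is a symmetric Nakayama algebra with three simple modules and Loewy
length `4`, acting on a sixteen-dimensional space `V`, and `A = End_B(V)`.
-/

open CategoryTheory TensorProduct MulOpposite

namespace Pool.Agent.H34.GS

section Alg

/-- The component (vertex) of a basis vector. -/
def cmp : Fin 16 → Fin 3 := ![0,1,2,0,1,2,0,1,2,0,1,2,0,0,1,1]

/-- The heads of the chains. -/
def hd : Fin 16 → Bool :=
  ![true,false,false,false,true,false,false,false,true,false,false,false,true,true,false,true]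

/-- The chain of a basis vector. -/
def chn : Fin 16 → Fin 6 := ![0,0,0,0,1,1,1,1,2,2,2,2,3,4,4,5]

lemma cmp_pred : ∀ n, hd n = false → cmp n = cmp (n - 1) + 1 := by decide

lemma chn_pred : ∀ n, hd n = false → chn n = chn (n - 1) := by decide

variable (K : Type) [Field K]

/-- The sixteen-dimensional space. -/
abbrev V : Type := Fin 16 → K

/-- The action of the arrows. -/
def X : Module.End K (V K) where
  toFun m := fun n => if hd n then 0 else m (n - 1)
  map_add' m m' := by
    ext n
    by_cases h : hd n <;> simp [h]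
  map_smul' k m := by
    ext n
    by_cases h : hd n <;> simp [h]

/-- The action of the vertices. -/
def E (i : Fin 3) : Module.End K (V K) where
  toFun m := fun n => if cmp n = i then m n else 0
  map_add' m m' := by
    ext n
    by_cases h : cmp n = i <;> simp [h]
  map_smul' k m := by
    ext n
    by_cases h : cmp n = i <;> simp [h]

variable {K}

lemma X_apply (m : V K) (n : Fin 16) : X K m n = if hd n then 0 else m (n - 1) := rfl

lemma E_apply (i : Fin 3) (m : V K) (n : Fin 16) : E K i m n = if cmp n = i then m n else 0 := rfl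

lemma E_mul_E (i j : Fin 3) : E K i * E K j = if i = j then E K j else 0 := by
  apply LinearMap.ext
  intro m
  ext n
  rw [Module.End.mul_apply, E_apply, E_apply]
  by_cases h : i = j
  · subst h
    rw [if_pos rfl, E_apply]
    by_cases h : cmp n = i <;> simp [h]
  · rw [if_neg h, LinearMap.zero_apply, Pi.zero_apply]
    by_cases h1 : cmp n = i
    · rw [if_pos h1, if_neg (fun h2 => h (h1.symm.trans h2))]
    · rw [if_neg h1]

lemma E_mul_X (i : Fin 3) : E K (i + 1) * X K = X K * E K i := by
  apply LinearMap.ext
  intro m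
  ext n
  rw [Module.End.mul_apply, Module.End.mul_apply, E_apply, X_apply, X_apply, E_apply]
  by_cases h : hd n
  · simp [h]
  · have h' : hd n = false := by simpa using h
    rw [cmp_pred n h']
    simp [h]

/-- The residue of a natural number. -/
def rs (l : ℕ) : Fin 3 := Fin.ofNat 3 l

lemma rs_succ (l : ℕ) : rs (l + 1) = rs l + 1 := by
  simp [rs, Fin.ext_iff, Fin.val_add]

lemma E_mul_X_pow (i : Fin 3) (l : ℕ) : E K (i + rs l) * X K ^ l = X K ^ l * E K i := by
  induction l with
  | zero => simp [rs]
  | succ l ih =>
    rw [pow_succ', ← mul_assoc, rs_succ, ← add_assoc, E_mul_X, mul_assoc, ih, mul_assoc]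

lemma X_pow_four : X K ^ 4 = 0 := by
  apply LinearMap.ext
  intro m
  ext n
  simp only [pow_succ, pow_zero, one_mul, Module.End.mul_apply, X_apply, LinearMap.zero_apply,
    Pi.zero_apply]
  fin_cases n <;> simp [hd]

lemma X_pow_eq_zero {l : ℕ} (h : 4 ≤ l) : X K ^ l = 0 := by
  obtain ⟨k, rfl⟩ := Nat.exists_eq_add_of_le h
  rw [pow_add, X_pow_four, zero_mul]

lemma sum_E : ∑ i, E K i = 1 := by
  apply LinearMap.ext
  intro m
  ext n
  simp only [Fin.sum_univ_three, LinearMap.add_apply, Pi.add_apply, E_apply, Module.End.one_apply]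
  have : cmp n = 0 ∨ cmp n = 1 ∨ cmp n = 2 := by
    generalize cmp n = t
    fin_cases t <;> simp
  rcases this with h | h | h <;> simp [h]

/-- The spanning set of `B`. -/
def bet (p : Fin 4 × Fin 3) : Module.End K (V K) := X K ^ (p.1 : ℕ) * E K p.2

lemma bet_mul (p q : Fin 4 × Fin 3) :
    (bet p * bet q : Module.End K (V K)) =
      if h : p.2 = q.2 + rs q.1 ∧ (p.1 : ℕ) + q.1 < 4 then
        bet (⟨(p.1 : ℕ) + q.1, h.2⟩, q.2) else 0 := by
  have h1 : (bet p * bet q : Module.End K (V K))
      = X K ^ (p.1 : ℕ) * (E K p.2 * E K (q.2 + rs q.1)) * X K ^ (q.1 : ℕ) := by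
    rw [bet, bet]
    simp only [mul_assoc]
    rw [E_mul_X_pow]
  rw [h1, E_mul_E]
  by_cases h2 : p.2 = q.2 + rs q.1
  · rw [if_pos h2, mul_assoc, E_mul_X_pow, ← mul_assoc, ← pow_add]
    by_cases h3 : (p.1 : ℕ) + q.1 < 4
    · rw [dif_pos ⟨h2, h3⟩, bet]
    · rw [dif_neg (fun h => h3 h.2), X_pow_eq_zero (by omega), zero_mul]
  · rw [if_neg h2, dif_neg (fun h => h2 h.1)]
    simp

variable (K) in
/-- The symmetric Nakayama algebra `B`, as an algebra of endomorphisms of `V`. -/
def BB : Subalgebra K (Module.End K (V K)) :=
  (Submodule.span K (Set.range (bet (K := K)))).toSubalgebra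
    (by
      rw [← sum_E]
      refine Submodule.sum_mem _ fun i _ => Submodule.subset_span ⟨(0, i), ?_⟩
      simp [bet])
    (by
      intro x y hx hy
      induction hx using Submodule.span_induction with
      | mem x hx =>
        obtain ⟨p, rfl⟩ := hx
        induction hy using Submodule.span_induction with
        | mem y hy =>
          obtain ⟨q, rfl⟩ := hy
          rw [bet_mul]
          split_ifs with h
          · exact Submodule.subset_span ⟨_, rfl⟩
          · exact Submodule.zero_mem _
        | zero => rw [mul_zero]; exact Submodule.zero_mem _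
        | add a b _ _ ha hb => rw [mul_add]; exact Submodule.add_mem _ ha hb
        | smul k a _ ha => rw [mul_smul_comm]; exact Submodule.smul_mem _ _ ha
      | zero => rw [zero_mul]; exact Submodule.zero_mem _
      | add a b _ _ ha hb => rw [add_mul]; exact Submodule.add_mem _ ha hb
      | smul k a _ ha => rw [smul_mul_assoc]; exact Submodule.smul_mem _ _ ha)

lemma mem_BB {b : Module.End K (V K)} : b ∈ BB K ↔ b ∈ Submodule.span K (Set.range (bet (K := K))) :=
  Iff.rfl

lemma bet_mem (p : Fin 4 × Fin 3) : (bet p : Module.End K (V K)) ∈ BB K :=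
  mem_BB.2 (Submodule.subset_span ⟨p, rfl⟩)

lemma E_mem (i : Fin 3) : E K i ∈ BB K := by
  have := bet_mem (K := K) (0, i)
  simpa [bet] using this

lemma X_mem : X K ∈ BB K := by
  have : X K = ∑ i, bet (1, i) := by
    simp only [bet]
    rw [← Finset.mul_sum, sum_E]
    simp
  rw [this]
  exact Subalgebra.sum_mem _ fun i _ => bet_mem _

variable (K) in
/-- The algebra `A = End_B(V)`. -/
def AA : Type := Module.End (BB K) (V K)

instance : Ring (AA K) := inferInstanceAs (Ring (Module.End (BB K) (V K)))

instance : Algebra K (AA K) := inferInstanceAs (Algebra K (Module.End (BB K) (V K)))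

instance : Module (AA K) (V K) := inferInstanceAs (Module (Module.End (BB K) (V K)) (V K))

instance : IsScalarTower K (AA K) (V K) := ⟨fun _ _ _ => rfl⟩

lemma AA.ext' {a b : AA K} (h : ∀ v : V K, a • v = b • v) : a = b :=
  LinearMap.ext (f := (show Module.End (BB K) (V K) from a)) h

lemma AA.comm_X (a : AA K) (m : V K) : a • (X K m) = X K (a • m) :=
  (show Module.End (BB K) (V K) from a).map_smul (⟨X K, X_mem⟩ : BB K) m

lemma AA.comm_E (a : AA K) (i : Fin 3) (m : V K) : a • (E K i m) = E K i (a • m) :=
  (show Module.End (BB K) (V K) from a).map_smul (⟨E K i, E_mem i⟩ : BB K) m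

lemma AA.ksmul (a : AA K) (k : K) (m : V K) : a • (k • m) = k • (a • m) := by
  have := (show Module.End (BB K) (V K) from a).map_smul (algebraMap K (BB K) k) m
  exact this

/-- Construct an element of `A`. -/
def AA.mk' (f : Module.End K (V K)) (hX : ∀ m, f (X K m) = X K (f m))
    (hE : ∀ i m, f (E K i m) = E K i (f m)) : AA K where
  toFun := f
  map_add' := f.map_add
  map_smul' := by
    rintro ⟨b, hb⟩ m
    change f (b m) = b (f m)
    rw [mem_BB] at hb
    induction hb using Submodule.span_induction generalizing m with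
    | mem x hx =>
      obtain ⟨p, rfl⟩ := hx
      simp only [bet, Module.End.mul_apply]
      rw [← hE]
      generalize E K p.2 m = w
      generalize (p.1 : ℕ) = l
      induction l generalizing w with
      | zero => simp
      | succ l ih => rw [pow_succ, Module.End.mul_apply, ih, hX]; rfl
    | zero => simp
    | add a b _ _ ha hb => simp [ha, hb]
    | smul k a _ ha => simp [ha]

lemma AA.mk'_smul (f : Module.End K (V K)) (hX hE) (m : V K) :
    AA.mk' f hX hE • m = f m := rfl

end Alg

end Pool.Agent.H34.GS
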