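import Pool.Agent.H34.GSAlg

/-!
The `A`-submodules `{v ∈ M_j : X^l v = 0}` of `V`.
-/

open CategoryTheory TensorProduct MulOpposite

namespace Pool.Agent.H34.GS

section Alg

/-- The position in the chain. -/
def pos : Fin 16 → ℕ := ![0,1,2,3,0,1,2,3,0,1,2,3,0,0,1,0]

/-- The length of the rest of the chain. -/
def rem : Fin 16 → ℕ := ![4,3,2,1,4,3,2,1,4,3,2,1,1,2,1,1]

/-- The support of `{v ∈ M_j : X^l v = 0}`. -/
def inn (j : Fin 3) (l : ℕ) (n : Fin 16) : Bool := decide (cmp n = j) && decide (rem n ≤ l)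

lemma pos_pred : ∀ n, hd n = false → pos n = pos (n - 1) + 1 := by decide

lemma pos_hd : ∀ n, hd n = true → pos n = 0 := by decide

lemma pos_lt : ∀ n, pos n < 4 := by decide

lemma rem_le : ∀ n, rem n ≤ 4 := by decide

lemma rem_pos : ∀ n, ∀ l < 4, l < rem n → l ≤ pos (n + Fin.ofNat 16 l) := by decide

lemma pos_rem : ∀ n, ∀ l < 4, l ≤ pos n → l < rem (n - Fin.ofNat 16 l) := by decide

variable {K : Type} [Field K]

lemma ofNat_succ' (l : ℕ) : Fin.ofNat 16 (l + 1) = Fin.ofNat 16 l + 1 := by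
  simp [Fin.ext_iff, Fin.val_add]

lemma Xpow_apply (l : ℕ) (m : V K) (n : Fin 16) :
    (X K ^ l) m n = if l ≤ pos n then m (n - Fin.ofNat 16 l) else 0 := by
  induction l generalizing n with
  | zero => simp
  | succ l ih =>
    rw [pow_succ', Module.End.mul_apply, X_apply, ih, ofNat_succ']
    by_cases h : hd n
    · rw [if_pos h, if_neg]
      rw [pos_hd n h]
      omega
    · have h' : hd n = false := by simpa using h
      rw [if_neg h, pos_pred n h']
      have : n - 1 - Fin.ofNat 16 l = n - (Fin.ofNat 16 l + 1) := by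
        rw [sub_sub, add_comm]
      rw [this]
      by_cases h2 : l ≤ pos (n - 1)
      · rw [if_pos h2, if_pos (by omega)]
      · rw [if_neg h2, if_neg (by omega)]

lemma Xpow_eq_zero_iff (l : ℕ) (v : V K) :
    (X K ^ l) v = 0 ↔ ∀ n, l < rem n → v n = 0 := by
  constructor
  · intro h n hn
    have h1 := congrFun h (n + Fin.ofNat 16 l)
    rw [Xpow_apply, if_pos (rem_pos n l (lt_of_lt_of_le hn (rem_le n)) hn)] at h1
    simpa using h1
  · intro h
    ext n
    rw [Xpow_apply]
    split_ifs with h1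
    · rw [h _ (pos_rem n l (lt_of_le_of_lt h1 (pos_lt n)) h1)]
      rfl
    · rfl

lemma E_eq_iff (j : Fin 3) (v : V K) : E K j v = v ↔ ∀ n, cmp n ≠ j → v n = 0 := by
  constructor
  · intro h n hn
    rw [← h, E_apply, if_neg hn]
  · intro h
    ext n
    rw [E_apply]
    split_ifs with h1
    · rfl
    · rw [h n h1]

lemma AA.comm_Xpow (a : AA K) (l : ℕ) (m : V K) : a • ((X K ^ l) m) = (X K ^ l) (a • m) := by
  induction l with
  | zero => simp
  | succ l ih => rw [pow_succ', Module.End.mul_apply, Module.End.mul_apply, AA.comm_X, ih]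

variable (K) in
/-- The submodule `{v ∈ M_j : X^l v = 0}`. -/
def KK (j : Fin 3) (l : ℕ) : Submodule (AA K) (V K) where
  carrier := {v | E K j v = v ∧ (X K ^ l) v = 0}
  add_mem' := by
    rintro v w ⟨h1, h2⟩ ⟨h3, h4⟩
    exact ⟨by rw [map_add, h1, h3], by rw [map_add, h2, h4, add_zero]⟩
  zero_mem' := ⟨by simp, by simp⟩
  smul_mem' := by
    rintro a v ⟨h1, h2⟩
    refine ⟨?_, ?_⟩
    · rw [← AA.comm_E, h1]
    · rw [← AA.comm_Xpow, h2, smul_zero]

lemma mem_KK' {j : Fin 3} {l : ℕ} {v : V K} : v ∈ KK K j l ↔ E K j v = v ∧ (X K ^ l) v = 0 :=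
  Iff.rfl

lemma mem_KK {j : Fin 3} {l : ℕ} {v : V K} : v ∈ KK K j l ↔ ∀ n, inn j l n = false → v n = 0 := by
  rw [mem_KK', E_eq_iff, Xpow_eq_zero_iff]
  constructor
  · rintro ⟨h1, h2⟩ n hn
    by_cases h : cmp n = j
    · apply h2
      by_contra h3
      simp [inn, h] at hn
      omega
    · exact h1 n h
  · intro h
    refine ⟨fun n hn => h n (by simp [inn, hn]), fun n hn => h n ?_⟩
    simp [inn]
    omega

lemma E_Xpow_of_mem {i j : Fin 3} {v : V K} (hv : E K j v = v) (k : ℕ) :
    E K i ((X K ^ k) v) = if i = j + rs k then (X K ^ k) v else 0 := by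
  have h1 : (X K ^ k) v = E K (j + rs k) ((X K ^ k) v) := by
    have := E_mul_X_pow (K := K) j k
    have h2 := congrArg (fun t => t v) this
    simp only [Module.End.mul_apply] at h2
    rw [h2, hv]
  rw [h1, ← Module.End.mul_apply, E_mul_E]
  split_ifs with h
  · rfl
  · rfl

/-- The heads of the chains. -/
def hx : Fin 6 → Fin 16 := ![0,4,8,12,13,15]

/-- The lengths of the chains. -/
def ln : Fin 6 → ℕ := ![4,4,4,1,2,1]

/-- The components of the heads. -/
def cx : Fin 6 → Fin 3 := ![0,1,2,0,0,1]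

variable (K) in
/-- The submodule generated by the head of a chain. -/
abbrev GG (x : Fin 6) : Submodule (AA K) (V K) := KK K (cx x) (ln x)

lemma hx_inn : ∀ x, inn (cx x) (ln x) (hx x) = true := by decide

lemma single_mem {j : Fin 3} {l : ℕ} {n : Fin 16} (h : inn j l n = true) :
    (Pi.single n (1 : K) : V K) ∈ KK K j l := by
  rw [mem_KK]
  intro n' hn'
  rw [Pi.single_apply, if_neg]
  rintro rfl
  rw [h] at hn'
  exact absurd hn' (by decide)

variable (K) in
/-- The generator. -/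
def mg (x : Fin 6) : GG K x := ⟨Pi.single (hx x) 1, single_mem (hx_inn x)⟩

/-- The linear map sending the head of a chain to a given vector. -/
def genL (x : Fin 6) (v : V K) : Module.End K (V K) :=
  ∑ k : Fin 4, (LinearMap.proj (hx x + Fin.ofNat 16 k) : V K →ₗ[K] K).smulRight
    ((X K ^ (k : ℕ)) v)

lemma genL_apply (x : Fin 6) (v m : V K) :
    genL x v m = ∑ k : Fin 4, m (hx x + Fin.ofNat 16 k) • (X K ^ (k : ℕ)) v := by
  simp [genL]

lemma cmp_hx : ∀ x, ∀ k : Fin 4, (k : ℕ) < ln x → cmp (hx x + Fin.ofNat 16 k) = cx x + rs k := by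
  decide

lemma Xpow_GG {x : Fin 6} {v : V K} (hv : (X K ^ ln x) v = 0) {k : ℕ} (hk : ln x ≤ k) :
    (X K ^ k) v = 0 := by
  obtain ⟨c, rfl⟩ := Nat.exists_eq_add_of_le hk
  rw [add_comm, pow_add, Module.End.mul_apply, hv, map_zero]

lemma genL_E (x : Fin 6) (v : V K) (hv : v ∈ GG K x) (i : Fin 3) (m : V K) :
    genL x v (E K i m) = E K i (genL x v m) := by
  rw [genL_apply, genL_apply, map_sum]
  refine Finset.sum_congr rfl fun k _ => ?_
  rw [map_smul, E_apply, E_Xpow_of_mem hv.1]
  by_cases hk : (k : ℕ) < ln x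
  · rw [cmp_hx x k hk]
    by_cases hi : i = cx x + rs k
    · rw [if_pos hi, if_pos hi.symm]
    · rw [if_neg hi, if_neg (fun h => hi h.symm), smul_zero, zero_smul]
  · rw [Xpow_GG hv.2 (by omega)]
    simp

lemma hd_hx0 : ∀ x, hd (hx x) = true := by decide

lemma hd_hx : ∀ x, ∀ k : Fin 4, (k : ℕ) + 1 < ln x →
    hd (hx x + Fin.ofNat 16 k + 1) = false := by
  decide

lemma ln_le : ∀ x, ln x ≤ 4 := by decide

lemma genL_X (x : Fin 6) (v : V K) (hv : v ∈ GG K x) (m : V K) :
    genL x v (X K m) = X K (genL x v m) := by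
  have key : ∀ k : ℕ, k < 4 →
      (X K m) (hx x + Fin.ofNat 16 (k + 1)) • (X K ^ (k + 1)) v
        = X K (m (hx x + Fin.ofNat 16 k) • (X K ^ k) v) := by
    intro k hk
    by_cases h : k + 1 < ln x
    · rw [X_apply, ofNat_succ', ← add_assoc, hd_hx x ⟨k, hk⟩ h, map_smul, pow_succ',
        Module.End.mul_apply]
      simp
    · rw [Xpow_GG hv.2 (by omega : ln x ≤ k + 1), smul_zero, map_smul, ← Module.End.mul_apply,
        ← pow_succ', Xpow_GG hv.2 (by omega : ln x ≤ k + 1), smul_zero]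
  have h0 : (X K m) (hx x + Fin.ofNat 16 (0 : ℕ)) = 0 := by
    rw [X_apply]
    have : hx x + Fin.ofNat 16 (0 : ℕ) = hx x := by simp
    rw [this, hd_hx0 x]
    simp
  have k3 := key 3 (by norm_num)
  have h4 : (X K ^ (3 + 1)) v = 0 := Xpow_GG hv.2 (ln_le x)
  rw [h4, smul_zero] at k3
  rw [genL_apply, genL_apply, map_sum]
  rw [Fin.sum_univ_eq_sum_range (fun k : ℕ => (X K m) (hx x + Fin.ofNat 16 k) • (X K ^ k) v) 4,
    Fin.sum_univ_eq_sum_range (fun k : ℕ => X K (m (hx x + Fin.ofNat 16 k) • (X K ^ k) v)) 4,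
    Finset.sum_range_succ' _ 3,
    Finset.sum_range_succ (fun k : ℕ => X K (m (hx x + Fin.ofNat 16 k) • (X K ^ k) v)) 3,
    ← k3, h0, zero_smul, add_zero, add_zero]
  exact Finset.sum_congr rfl fun k hk => key k (by simp at hk; omega)

/-- The element of `A` sending the head of a chain to a given vector. -/
def gen (x : Fin 6) (v : GG K x) : AA K :=
  AA.mk' (genL x (v : V K)) (genL_X x (v : V K) v.2) (genL_E x (v : V K) v.2)

lemma gen_smul (x : Fin 6) (v : GG K x) (m : V K) :
    gen x v • m = ∑ k : Fin 4, m (hx x + Fin.ofNat 16 k) • (X K ^ (k : ℕ)) (v : V K) := by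
  rw [gen, AA.mk'_smul, genL_apply]

lemma hx_ofNat : ∀ x, ∀ k : Fin 4, (k : ℕ) < ln x → hx x + Fin.ofNat 16 k = hx x → k = 0 := by
  decide

lemma gen_mg (x : Fin 6) (v : GG K x) : gen x v • (Pi.single (hx x) 1 : V K) = v := by
  rw [gen_smul, Finset.sum_eq_single 0]
  · simp
  · intro k _ hk
    by_cases h : (k : ℕ) < ln x
    · rw [Pi.single_apply, if_neg (fun h' => hk (hx_ofNat x k h h')), zero_smul]
    · rw [Xpow_GG v.2.2 (by omega), smul_zero]
  · simp

instance projective_GG (x : Fin 6) : Module.Projective (AA K) (GG K x) := by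
  let i : GG K x →ₗ[AA K] AA K :=
    { toFun := gen x
      map_add' := fun v w => by
        apply AA.ext'
        intro m
        rw [add_smul, gen_smul, gen_smul, gen_smul, ← Finset.sum_add_distrib]
        refine Finset.sum_congr rfl fun k _ => ?_
        rw [Submodule.coe_add, map_add, smul_add]
      map_smul' := fun a v => by
        apply AA.ext'
        intro m
        rw [RingHom.id_apply, smul_eq_mul, mul_smul, gen_smul, gen_smul, Finset.smul_sum]
        refine Finset.sum_congr rfl fun k _ => ?_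
        rw [AA.ksmul, AA.comm_Xpow]
        rfl }
  let s : AA K →ₗ[AA K] GG K x := LinearMap.toSpanSingleton (AA K) (GG K x) (mg K x)
  refine Module.Projective.of_split i s ?_
  apply LinearMap.ext
  intro v
  apply Subtype.ext
  exact gen_mg x v

end Alg

end Pool.Agent.H34.GS
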