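import Pool.Agent.H34.GSAlg2

/-!
Characters and nilpotency of the radical of `A`.
-/

open CategoryTheory TensorProduct MulOpposite

namespace Pool.Agent.H34.GS

section Alg

/-- Data describing the radicals of the indecomposable projective modules. -/
def kx : Fin 6 → ℕ := ![1,1,1,3,2,1]
/-- Data describing the radicals of the indecomposable projective modules. -/
def jx : Fin 6 → Fin 3 := ![2,0,1,0,1,0]
/-- Data describing the radicals of the indecomposable projective modules. -/
def lx : Fin 6 → ℕ := ![0,0,0,4,4,2]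
/-- Data describing the radicals of the indecomposable projective modules. -/
def l2x : Fin 6 → ℕ := ![3,3,3,0,1,0]

/-- Levels, for the nilpotency of the radical. -/
def lev : Fin 16 → ℕ := ![5,4,1,0, 5,2,2,0, 3,4,3,0, 1,3,1,2]

lemma cov_x : ∀ x t, inn (cx x) (ln x) t = false ∨ t = hx x ∨
    (inn (cx x) (l2x x) t = true ∨
      (kx x ≤ pos t ∧ inn (jx x) (lx x) (t - Fin.ofNat 16 (kx x)) = true)) := by decide

lemma hx_pos : ∀ x, pos (hx x) < kx x := by decide

lemma hx_l2x : ∀ x, inn (cx x) (l2x x) (hx x) = false := by decide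

lemma eq_hx_add : ∀ n, n = hx (chn n) + Fin.ofNat 16 (pos n) := by decide

lemma lev_key : ∀ n n', pos n ≤ pos n' →
    inn (cx (chn n)) (ln (chn n)) (n' - Fin.ofNat 16 (pos n)) = true →
    n' - Fin.ofNat 16 (pos n) ≠ hx (chn n) → lev n' < lev n := by decide

lemma lev_lt : ∀ n, lev n < 6 := by decide

variable {K : Type} [Field K]

lemma dec_gen (k : ℕ) (j : Fin 3) (l : ℕ) (j' : Fin 3) (l2 : ℕ) (v : V K)
    (hcov : ∀ t, v t = 0 ∨ (inn j' l2 t = true ∨
      (k ≤ pos t ∧ inn j l (t - Fin.ofNat 16 k) = true))) :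
    ∃ n ∈ KK K j l, ∃ m ∈ KK K j' l2, (X K ^ k) n + m = v := by
  refine ⟨fun t => if inn j l t = true ∧ inn j' l2 (t + Fin.ofNat 16 k) = false then
    v (t + Fin.ofNat 16 k) else 0, ?_, fun t => if inn j' l2 t = true then v t else 0, ?_, ?_⟩
  · rw [mem_KK]
    intro t ht
    rw [if_neg]
    rintro ⟨h, -⟩
    rw [h] at ht
    exact absurd ht (by decide)
  · rw [mem_KK]
    intro t ht
    rw [if_neg]
    intro h
    rw [h] at ht
    exact absurd ht (by decide)
  · ext t
    rw [Pi.add_apply, Xpow_apply, sub_add_cancel]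
    by_cases h1 : inn j' l2 t = true
    · simp [h1]
    · have h1' : inn j' l2 t = false := by simpa using h1
      rw [if_neg h1, add_zero]
      rcases hcov t with h | h | ⟨h2, h3⟩
      · rw [h]
        simp
      · exact absurd h h1
      · rw [if_pos h2, if_pos ⟨h3, h1'⟩]

lemma dec_x (x : Fin 6) (v : V K) (hv : v ∈ GG K x) (h0 : v (hx x) = 0) :
    ∃ n ∈ KK K (jx x) (lx x), ∃ m ∈ KK K (cx x) (l2x x), (X K ^ kx x) n + m = v := by
  apply dec_gen
  intro t
  rcases cov_x x t with h | h | h
  · exact Or.inl (mem_KK.1 hv t h)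
  · rw [h]; exact Or.inl h0
  · exact Or.inr h

lemma rad_x (x : Fin 6) (a : AA K) (v : V K) (hv : v ∈ GG K x) (h0 : v (hx x) = 0) :
    (a • v) (hx x) = 0 := by
  obtain ⟨n, -, m, hm, rfl⟩ := dec_x x v hv h0
  rw [smul_add, AA.comm_Xpow, Pi.add_apply, Xpow_apply, if_neg (by have := hx_pos x; omega),
    zero_add]
  exact mem_KK.1 ((KK K (cx x) (l2x x)).smul_mem a hm) _ (hx_l2x x)

/-- The values of the characters. -/
def chiF (x : Fin 6) (a : AA K) : K := (a • (Pi.single (hx x) 1 : V K)) (hx x)

lemma coord_smul (x : Fin 6) (a : AA K) (v : V K) (hv : v ∈ GG K x) :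
    (a • v) (hx x) = chiF x a * v (hx x) := by
  have hs : (Pi.single (hx x) (1 : K) : V K) ∈ GG K x := single_mem (hx_inn x)
  have h1 : (v - v (hx x) • (Pi.single (hx x) (1 : K) : V K)) ∈ GG K x := by
    refine Submodule.sub_mem _ hv ?_
    have h3 : algebraMap K (AA K) (v (hx x)) • (Pi.single (hx x) (1 : K) : V K) ∈ GG K x :=
      Submodule.smul_mem _ _ hs
    exact h3
  have h2 := rad_x x a _ h1 (by simp)
  rw [smul_sub, AA.ksmul, Pi.sub_apply, sub_eq_zero] at h2
  rw [h2, chiF, Pi.smul_apply, smul_eq_mul, mul_comm]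

/-- The characters of `A`. -/
def chi (x : Fin 6) : AA K →ₐ[K] K where
  toFun := chiF x
  map_one' := by simp [chiF]
  map_mul' a b := by
    have h := coord_smul x a (b • (Pi.single (hx x) 1 : V K))
      ((GG K x).smul_mem b (single_mem (hx_inn x)))
    rw [← mul_smul] at h
    exact h
  map_zero' := by simp [chiF]
  map_add' a b := by simp [chiF, add_smul]
  commutes' k := by
    change (k • (Pi.single (hx x) (1 : K) : V K)) (hx x) = k
    simp

lemma chi_apply (x : Fin 6) (a : AA K) :
    chi x a = (a • (Pi.single (hx x) 1 : V K)) (hx x) := rfl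

/-- The projection to a chain. -/
def ee (x : Fin 6) : AA K :=
  AA.mk'
    { toFun := fun m n => if chn n = x then m n else 0
      map_add' := fun m m' => by
        ext n
        by_cases h : chn n = x <;> simp [h]
      map_smul' := fun k m => by
        ext n
        by_cases h : chn n = x <;> simp [h] }
    (fun m => by
      ext n
      change (if chn n = x then (X K m) n else 0) =
        if hd n = true then 0 else (if chn (n - 1) = x then m (n - 1) else 0)
      rw [X_apply]
      by_cases h : hd n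
      · simp [h]
      · have h' : hd n = false := by simpa using h
        rw [if_neg h, if_neg h, chn_pred n h'])
    (fun i m => by
      ext n
      change (if chn n = x then (E K i m) n else 0) =
        if cmp n = i then (if chn n = x then m n else 0) else 0
      rw [E_apply]
      by_cases h : chn n = x <;> by_cases h' : cmp n = i <;> simp [h, h'])

lemma ee_apply (x : Fin 6) (m : V K) (n : Fin 16) :
    ((ee x : AA K) • m) n = if chn n = x then m n else 0 := rfl

lemma chn_hx : ∀ x, chn (hx x) = x := by decide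

lemma chi_ee (x y : Fin 6) : chi y (ee x : AA K) = if x = y then 1 else 0 := by
  rw [chi_apply, ee_apply, chn_hx]
  by_cases h : x = y
  · subst h; simp
  · rw [if_neg h, if_neg (fun h' => h h'.symm)]

lemma single_eq (n : Fin 16) : (Pi.single n (1 : K) : V K) =
    (X K ^ pos n) (Pi.single (hx (chn n)) 1) := by
  ext t
  rw [Xpow_apply]
  by_cases h : t = n
  · subst h
    rw [if_pos le_rfl]
    have h2 : t - Fin.ofNat 16 (pos t) = hx (chn t) := sub_eq_iff_eq_add.2 (eq_hx_add t)
    rw [h2]
    simp
  · rw [Pi.single_apply, if_neg h]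
    split_ifs with h2
    · rw [Pi.single_apply, if_neg]
      intro h3
      exact h ((sub_eq_iff_eq_add.1 h3).trans (eq_hx_add n).symm)
    · rfl

lemma entry_zero (a : AA K) (ha : ∀ x, chi x a = 0) (n n' : Fin 16) (h : lev n ≤ lev n') :
    (a • (Pi.single n 1 : V K)) n' = 0 := by
  rw [single_eq, AA.comm_Xpow, Xpow_apply]
  split_ifs with h1
  · by_cases h2 : n' - Fin.ofNat 16 (pos n) = hx (chn n)
    · rw [h2]; exact ha _
    · have hmem : a • (Pi.single (hx (chn n)) 1 : V K) ∈ GG K (chn n) :=
        (GG K (chn n)).smul_mem a (single_mem (hx_inn _))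
      by_cases h3 : inn (cx (chn n)) (ln (chn n)) (n' - Fin.ofNat 16 (pos n)) = true
      · have := lev_key n n' h1 h3 h2
        omega
      · exact mem_KK.1 hmem _ (by simpa using h3)
  · rfl

lemma apply_eq_sum (a : AA K) (v : V K) (n' : Fin 16) :
    (a • v) n' = ∑ n, v n * (a • (Pi.single n 1 : V K)) n' := by
  have h1 : v = ∑ n, v n • (Pi.single n (1 : K) : V K) := by
    ext t
    simp [Finset.sum_apply, Pi.single_apply]
  conv_lhs => rw [h1]
  rw [Finset.smul_sum, Finset.sum_apply]
  refine Finset.sum_congr rfl fun n _ => ?_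
  rw [AA.ksmul]
  rfl

lemma lev_step (a : AA K) (ha : ∀ x, chi x a = 0) (t : ℕ) (v : V K)
    (hv : ∀ n, t + 1 ≤ lev n → v n = 0) : ∀ n, t ≤ lev n → (a • v) n = 0 := by
  intro n' hn'
  rw [apply_eq_sum]
  refine Finset.sum_eq_zero fun n _ => ?_
  by_cases h : t + 1 ≤ lev n
  · rw [hv n h, zero_mul]
  · rw [entry_zero a ha n n' (by omega), mul_zero]

lemma nil_list (l : List (AA K)) (hl : ∀ a ∈ l, ∀ x, chi x a = 0) (t : ℕ) (v : V K)
    (hv : ∀ n, t + l.length ≤ lev n → v n = 0) : ∀ n, t ≤ lev n → (l.prod • v) n = 0 := by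
  induction l generalizing t with
  | nil => simpa using hv
  | cons a l ih =>
    intro n hn
    rw [List.prod_cons, mul_smul]
    refine lev_step a (hl a (by simp)) t _ ?_ n hn
    refine ih (fun b hb => hl b (by simp [hb])) (t + 1) ?_
    intro n hn
    apply hv
    rw [List.length_cons]
    omega

variable (K) in
/-- `A` is split basic. -/
def DD : SplitBasic K (AA K) (Fin 6) where
  χ := chi
  e := ee
  χe := chi_ee
  r := 6
  nil l h1 h2 := by
    apply AA.ext'
    intro v
    rw [zero_smul]
    ext n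
    refine nil_list l h2 0 v ?_ n (Nat.zero_le _)
    intro n hn
    have := lev_lt n
    omega

end Alg

end Pool.Agent.H34.GS
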