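import Pool.Agent.H34.GSAlg3

/-!
Exact sequences and projective dimensions of the simple `A`-modules.
-/

open CategoryTheory TensorProduct MulOpposite Abelian

namespace Pool.Agent.H34.GS

section FourTerm

variable {R : Type} [Ring R] {L P Q S : Type} [AddCommGroup L] [AddCommGroup P] [AddCommGroup Q]
  [AddCommGroup S] [Module R L] [Module R P] [Module R Q] [Module R S]
  (f : L →ₗ[R] P) (g : P →ₗ[R] Q) (h : Q →ₗ[R] S) (hfg : Function.Exact f g)
  (hgh : Function.Exact g h) (hf : Function.Injective f) (hh : Function.Surjective h)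

include hfg in
lemma exact_rangeRestrict : Function.Exact f g.rangeRestrict := by
  intro p
  rw [← hfg p]
  constructor
  · intro hp
    exact congrArg Subtype.val hp
  · intro hp
    exact Subtype.ext hp

include hgh in
lemma exact_subtype : Function.Exact (LinearMap.range g).subtype h := by
  intro q
  rw [hgh q]
  constructor
  · intro hq
    exact ⟨⟨q, hq⟩, rfl⟩
  · rintro ⟨⟨q', hq'⟩, rfl⟩
    exact hq'

include hfg hgh hf hh in
lemma four_ext [Module.Projective R P] [Module.Projective R Q] {Y : ModuleCat.{0} R} {n : ℕ}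
    (hL : ExtZ (ModuleCat.of R L) Y n) : ExtZ (ModuleCat.of R S) Y (n + 2) :=
  extZ_X3 (LinearMap.range g).subtype h (exact_subtype g h hgh) (Submodule.injective_subtype _) hh
    (extZ_X3 f g.rangeRestrict (exact_rangeRestrict f g hfg) hf g.surjective_rangeRestrict hL)

include hfg hgh hf hh in
lemma four_pd [Module.Projective R P] [Module.Projective R Q] {n : ℕ} :
    PD R S (n + 3) ↔ PD R L (n + 1) :=
  (pd_X3_iff (n := n + 1) (LinearMap.range g).subtype h (exact_subtype g h hgh)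
    (Submodule.injective_subtype _) hh).trans
    (pd_X3_iff (n := n) f g.rangeRestrict (exact_rangeRestrict f g hfg) hf
      g.surjective_rangeRestrict)

end FourTerm

section Alg

variable {K : Type} [Field K]

lemma KK_mono {j : Fin 3} {l l' : ℕ} (h : l ≤ l') : KK K j l ≤ KK K j l' := by
  rintro v ⟨h1, h2⟩
  refine ⟨h1, ?_⟩
  obtain ⟨c, rfl⟩ := Nat.exists_eq_add_of_le h
  rw [add_comm, pow_add, Module.End.mul_apply, h2, map_zero]

lemma Xpow_mem {k : ℕ} {j : Fin 3} {l : ℕ} {j' : Fin 3} {l' : ℕ} (hj : j + rs k = j')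
    (hl : l ≤ l' + k) {v : V K} (hv : v ∈ KK K j l) : (X K ^ k) v ∈ KK K j' l' := by
  refine ⟨?_, ?_⟩
  · rw [E_Xpow_of_mem hv.1, if_pos hj.symm]
  · rw [← Module.End.mul_apply, ← pow_add]
    exact (KK_mono hl hv).2

/-- Inclusion. -/
def incl {j : Fin 3} {l l' : ℕ} (h : l ≤ l') : KK K j l →ₗ[AA K] KK K j l' :=
  Submodule.inclusion (KK_mono h)

/-- Multiplication by a power of `X`. -/
def powM (k : ℕ) {j : Fin 3} {l : ℕ} {j' : Fin 3} {l' : ℕ} (hj : j + rs k = j')
    (hl : l ≤ l' + k) : KK K j l →ₗ[AA K] KK K j' l' where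
  toFun v := ⟨(X K ^ k) (v : V K), Xpow_mem hj hl v.2⟩
  map_add' v w := Subtype.ext (by simp)
  map_smul' a v := Subtype.ext (by
    change (X K ^ k) (a • (v : V K)) = a • ((X K ^ k) (v : V K))
    rw [AA.comm_Xpow])

@[simp] lemma incl_coe {j : Fin 3} {l l' : ℕ} (h : l ≤ l') (v : KK K j l) :
    ((incl h v : KK K j l') : V K) = v := rfl

@[simp] lemma powM_coe (k : ℕ) {j : Fin 3} {l : ℕ} {j' : Fin 3} {l' : ℕ} (hj : j + rs k = j')
    (hl : l ≤ l' + k) (v : KK K j l) : ((powM k hj hl v : KK K j' l') : V K)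
      = (X K ^ k) (v : V K) := rfl

/-- The first map of the basic sequence. -/
def fB (k : ℕ) {j : Fin 3} {l : ℕ} {j' : Fin 3} {l2 : ℕ} (hj : j + rs k = j')
    (h1 : l2 + k ≤ l) : KK K j (l2 + k) →ₗ[AA K] KK K j l × KK K j' l2 where
  toFun v := (⟨(v : V K), KK_mono h1 v.2⟩,
    ⟨-(X K ^ k) (v : V K), Submodule.neg_mem _ (Xpow_mem hj le_rfl v.2)⟩)
  map_add' v w := Prod.ext (Subtype.ext rfl) (Subtype.ext (by
    change -(X K ^ k) ((v : V K) + w) = -(X K ^ k) (v : V K) + -(X K ^ k) (w : V K)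
    rw [map_add, neg_add]))
  map_smul' a v := Prod.ext (Subtype.ext rfl) (Subtype.ext (by
    change -(X K ^ k) (a • (v : V K)) = a • (-(X K ^ k) (v : V K))
    rw [← AA.comm_Xpow, smul_neg]))

/-- The second map of the basic sequence. -/
def gB (k : ℕ) {j : Fin 3} {l : ℕ} {j' : Fin 3} {l2 l3 : ℕ} (hj : j + rs k = j')
    (h3 : l ≤ l3 + k) (h4 : l2 ≤ l3) : KK K j l × KK K j' l2 →ₗ[AA K] KK K j' l3 :=
  (powM k hj h3).coprod (incl h4)

variable (k : ℕ) {j : Fin 3} {l : ℕ} {j' : Fin 3} {l2 l3 : ℕ} (hj : j + rs k = j')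
  (h1 : l2 + k ≤ l) (h3 : l ≤ l3 + k) (h4 : l2 ≤ l3)

lemma gB_coe (p : KK K j l × KK K j' l2) :
    ((gB k hj h3 h4 p : KK K j' l3) : V K) = (X K ^ k) (p.1 : V K) + p.2 := rfl

lemma fB_inj : Function.Injective (fB (K := K) k hj h1) := by
  intro v w h
  have := congrArg (fun p => ((p.1 : KK K j l) : V K)) h
  exact Subtype.ext this

lemma fgB_exact : Function.Exact (fB (K := K) k hj h1) (gB (K := K) k hj h3 h4) := by
  rintro ⟨n, m⟩
  constructor
  · intro h
    have h5 : (X K ^ k) (n : V K) + m = 0 := congrArg Subtype.val h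
    have h6 : (m : V K) = -(X K ^ k) (n : V K) := by
      rw [eq_neg_iff_add_eq_zero, add_comm, h5]
    have h7 : (X K ^ (l2 + k)) (n : V K) = 0 := by
      rw [pow_add, Module.End.mul_apply]
      have h8 := m.2.2
      rw [h6, map_neg, neg_eq_zero] at h8
      exact h8
    refine ⟨⟨(n : V K), n.2.1, h7⟩, ?_⟩
    refine Prod.ext (Subtype.ext rfl) (Subtype.ext ?_)
    exact h6.symm
  · rintro ⟨v, hv⟩
    rw [← hv]
    apply Subtype.ext
    rw [gB_coe]
    exact add_neg_cancel ((X K ^ k) (v : V K))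

lemma gB_surj (hcov : ∀ t, inn j' l3 t = false ∨ (inn j' l2 t = true ∨
      (k ≤ pos t ∧ inn j l (t - Fin.ofNat 16 k) = true))) :
    Function.Surjective (gB (K := K) k hj h3 h4) := by
  rintro ⟨v, hv⟩
  obtain ⟨n, hn, m, hm, h⟩ := dec_gen k j l j' l2 v (fun t => by
    rcases hcov t with h | h
    · exact Or.inl (mem_KK.1 hv t h)
    · exact Or.inr h)
  exact ⟨(⟨n, hn⟩, ⟨m, hm⟩), Subtype.ext h⟩

/-- The coordinate map. -/
def cd (x : Fin 6) : GG K x →ₗ[AA K] Sm ((DD K).χ x) where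
  toFun v := ((v : V K) (hx x) : K)
  map_add' _ _ := rfl
  map_smul' a v := coord_smul x a v v.2

lemma cd_surj (x : Fin 6) : Function.Surjective (cd (K := K) x) := by
  intro c
  let c' : K := c
  refine ⟨⟨c' • (Pi.single (hx x) (1 : K) : V K), ?_⟩, ?_⟩
  · exact (GG K x).smul_mem (algebraMap K (AA K) c') (single_mem (hx_inn x))
  · change (c' • (Pi.single (hx x) (1 : K) : V K)) (hx x) = c'
    rw [Pi.smul_apply, Pi.single_eq_same, smul_eq_mul, mul_one]

lemma cd_eq_zero {x : Fin 6} {v : GG K x} : cd (K := K) x v = 0 ↔ (v : V K) (hx x) = 0 := Iff.rfl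

lemma gcd_exact (x : Fin 6) (hj : jx x + rs (kx x) = cx x) (h3 : lx x ≤ ln x + kx x)
    (h4 : l2x x ≤ ln x) :
    Function.Exact (gB (K := K) (kx x) (l := lx x) (l2 := l2x x) (l3 := ln x) hj h3 h4)
      (cd (K := K) x) := by
  intro v
  rw [cd_eq_zero]
  constructor
  · intro h
    obtain ⟨n, hn, m, hm, h5⟩ := dec_x x (v : V K) v.2 h
    exact ⟨(⟨n, hn⟩, ⟨m, hm⟩), Subtype.ext h5⟩
  · rintro ⟨⟨n, m⟩, rfl⟩
    rw [gB_coe, Pi.add_apply, Xpow_apply, if_neg (by have := hx_pos x; omega), zero_add]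
    exact mem_KK.1 m.2 _ (hx_l2x x)

instance : Subsingleton (KK K j 0) := by
  constructor
  rintro ⟨v, hv⟩ ⟨w, hw⟩
  have h1 := hv.2
  have h2 := hw.2
  simp only [pow_zero, Module.End.one_apply] at h1 h2
  exact Subtype.ext (h1.trans h2.symm)

instance p_zero : Module.Projective (AA K) (KK K j 0) :=
  Module.Projective.of_split (0 : KK K j 0 →ₗ[AA K] AA K) 0
    (LinearMap.ext fun _ => Subsingleton.elim _ _)

instance p04 : Module.Projective (AA K) (KK K 0 4) := projective_GG 0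
instance p14 : Module.Projective (AA K) (KK K 1 4) := projective_GG 1
instance p24 : Module.Projective (AA K) (KK K 2 4) := projective_GG 2
instance p01 : Module.Projective (AA K) (KK K 0 1) := projective_GG 3
instance p02 : Module.Projective (AA K) (KK K 0 2) := projective_GG 4
instance p11 : Module.Projective (AA K) (KK K 1 1) := projective_GG 5

end Alg

end Pool.Agent.H34.GS
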