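import Pool.Agent.H34.GSAlg4

/-!
Projective dimensions of the simple `A`-modules.
-/

open CategoryTheory TensorProduct MulOpposite Abelian

namespace Pool.Agent.H34.GS

section Alg

variable {K : Type} [Field K]

/-- The simple modules. -/
abbrev SS (K : Type) [Field K] (x : Fin 6) : Type := Sm ((DD K).χ x)

section s1
/-- `0 → K(1,1) → M_1 → K(2,3) → 0` -/
lemma s1_exact : Function.Exact (fB (K := K) 1 (j := 1) (l := 4) (j' := 2) (l2 := 0) rfl
    (by norm_num)) (gB (K := K) 1 (j := 1) (l := 4) (j' := 2) (l2 := 0) (l3 := 3) rfl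
    (by norm_num) (by norm_num)) := fgB_exact 1 _ _ _ _

lemma s1_inj : Function.Injective (fB (K := K) 1 (j := 1) (l := 4) (j' := 2) (l2 := 0) rfl
    (by norm_num)) := fB_inj 1 _ _

lemma s1_surj : Function.Surjective (gB (K := K) 1 (j := 1) (l := 4) (j' := 2) (l2 := 0)
    (l3 := 3) rfl (by norm_num) (by norm_num)) := gB_surj 1 _ _ _ (by decide)
end s1

section s2
/-- `0 → K(2,3) → M_2 × K(0,2) → K(0,3) → 0` -/
lemma s2_exact : Function.Exact (fB (K := K) 1 (j := 2) (l := 4) (j' := 0) (l2 := 2) rfl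
    (by norm_num)) (gB (K := K) 1 (j := 2) (l := 4) (j' := 0) (l2 := 2) (l3 := 3) rfl
    (by norm_num) (by norm_num)) := fgB_exact 1 _ _ _ _

lemma s2_inj : Function.Injective (fB (K := K) 1 (j := 2) (l := 4) (j' := 0) (l2 := 2) rfl
    (by norm_num)) := fB_inj 1 _ _

lemma s2_surj : Function.Surjective (gB (K := K) 1 (j := 2) (l := 4) (j' := 0) (l2 := 2)
    (l3 := 3) rfl (by norm_num) (by norm_num)) := gB_surj 1 _ _ _ (by decide)
end s2

section s3
/-- `0 → K(0,2) → M_0 × K(1,1) → K(1,3) → 0` -/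
lemma s3_exact : Function.Exact (fB (K := K) 1 (j := 0) (l := 4) (j' := 1) (l2 := 1) rfl
    (by norm_num)) (gB (K := K) 1 (j := 0) (l := 4) (j' := 1) (l2 := 1) (l3 := 3) rfl
    (by norm_num) (by norm_num)) := fgB_exact 1 _ _ _ _

lemma s3_inj : Function.Injective (fB (K := K) 1 (j := 0) (l := 4) (j' := 1) (l2 := 1) rfl
    (by norm_num)) := fB_inj 1 _ _

lemma s3_surj : Function.Surjective (gB (K := K) 1 (j := 0) (l := 4) (j' := 1) (l2 := 1)
    (l3 := 3) rfl (by norm_num) (by norm_num)) := gB_surj 1 _ _ _ (by decide)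
end s3

lemma pd23_iff (n : ℕ) : PD (AA K) (KK K 2 3) (n + 2) ↔ PD (AA K) (KK K 1 1) (n + 1) :=
  pd_X3_iff _ _ s1_exact s1_inj s1_surj

lemma pd03_iff (n : ℕ) : PD (AA K) (KK K 0 3) (n + 2) ↔ PD (AA K) (KK K 2 3) (n + 1) :=
  pd_X3_iff _ _ s2_exact s2_inj s2_surj

lemma pd13_iff (n : ℕ) : PD (AA K) (KK K 1 3) (n + 2) ↔ PD (AA K) (KK K 0 2) (n + 1) :=
  pd_X3_iff _ _ s3_exact s3_inj s3_surj

lemma ext23 {Y : ModuleCat.{0} (AA K)} {n : ℕ} (h : ExtZ (ModuleCat.of (AA K) (KK K 1 1)) Y n) :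
    ExtZ (ModuleCat.of (AA K) (KK K 2 3)) Y (n + 1) :=
  extZ_X3 _ _ s1_exact s1_inj s1_surj h

lemma ext03 {Y : ModuleCat.{0} (AA K)} {n : ℕ} (h : ExtZ (ModuleCat.of (AA K) (KK K 2 3)) Y n) :
    ExtZ (ModuleCat.of (AA K) (KK K 0 3)) Y (n + 1) :=
  extZ_X3 _ _ s2_exact s2_inj s2_surj h

lemma ta_exact : Function.Exact (gB (K := K) 3 (j := 0) (l := 4) (j' := 0) (l2 := 0) (l3 := 1) rfl
    (by norm_num) (by norm_num)) (cd (K := K) 3) := gcd_exact 3 rfl (by decide) (by decide)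

lemma tb_exact : Function.Exact (gB (K := K) 2 (j := 1) (l := 4) (j' := 0) (l2 := 1) (l3 := 2) rfl
    (by norm_num) (by norm_num)) (cd (K := K) 4) := gcd_exact 4 rfl (by decide) (by decide)

lemma tc_exact : Function.Exact (gB (K := K) 1 (j := 0) (l := 2) (j' := 1) (l2 := 0) (l3 := 1) rfl
    (by norm_num) (by norm_num)) (cd (K := K) 5) := gcd_exact 5 rfl (by decide) (by decide)

lemma pdSa_iff (n : ℕ) : PD (AA K) (SS K 3) (n + 3) ↔ PD (AA K) (KK K 0 3) (n + 1) :=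
  four_pd (fB (K := K) 3 (j := 0) (l := 4) (j' := 0) (l2 := 0) rfl (by norm_num))
    _ _ (fgB_exact 3 _ _ _ _) ta_exact (fB_inj 3 _ _) (cd_surj 3)

lemma pdSb_iff (n : ℕ) : PD (AA K) (SS K 4) (n + 3) ↔ PD (AA K) (KK K 1 3) (n + 1) :=
  four_pd (fB (K := K) 2 (j := 1) (l := 4) (j' := 0) (l2 := 1) rfl (by norm_num))
    _ _ (fgB_exact 2 _ _ _ _) tb_exact (fB_inj 2 _ _) (cd_surj 4)

lemma pdSc_iff (n : ℕ) : PD (AA K) (SS K 5) (n + 3) ↔ PD (AA K) (KK K 0 1) (n + 1) :=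
  four_pd (fB (K := K) 1 (j := 0) (l := 2) (j' := 1) (l2 := 0) rfl (by norm_num))
    _ _ (fgB_exact 1 _ _ _ _) tc_exact (fB_inj 1 _ _) (cd_surj 5)

lemma extSa {Y : ModuleCat.{0} (AA K)} {n : ℕ} (h : ExtZ (ModuleCat.of (AA K) (KK K 0 3)) Y n) :
    ExtZ (ModuleCat.of (AA K) (SS K 3)) Y (n + 2) :=
  four_ext (fB (K := K) 3 (j := 0) (l := 4) (j' := 0) (l2 := 0) rfl (by norm_num))
    _ _ (fgB_exact 3 _ _ _ _) ta_exact (fB_inj 3 _ _) (cd_surj 3) h

lemma pd_rad_iff (i : Fin 3) (x : Fin 6) (hx' : cx x = i) (hl : ln x = 4) (hl' : ∀ t,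
    inn i 3 t = false ↔ (inn (cx x) (ln x) t = false ∨ t = hx x)) (n : ℕ) :
    PD (AA K) (SS K x) (n + 2) ↔ PD (AA K) (KK K i 3) (n + 1) := by
  subst hx'
  have hle : (KK K (cx x) 3) ≤ GG K x := KK_mono (by omega)
  refine pd_X3_iff (Submodule.inclusion hle) (cd (K := K) x) ?_
    (Submodule.inclusion_injective hle) (cd_surj x)
  intro v
  rw [cd_eq_zero]
  constructor
  · intro h
    refine ⟨⟨(v : V K), ?_⟩, Subtype.ext rfl⟩
    rw [mem_KK]
    intro t ht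
    rcases (hl' t).1 ht with h1 | h1
    · exact mem_KK.1 v.2 t h1
    · rw [h1]; exact h
  · rintro ⟨w, rfl⟩
    exact mem_KK.1 w.2 _ ((hl' _).2 (Or.inr rfl))

lemma pdS0_iff (n : ℕ) : PD (AA K) (SS K 0) (n + 2) ↔ PD (AA K) (KK K 0 3) (n + 1) :=
  pd_rad_iff 0 0 rfl rfl (by decide) n

lemma pdS1_iff (n : ℕ) : PD (AA K) (SS K 1) (n + 2) ↔ PD (AA K) (KK K 1 3) (n + 1) :=
  pd_rad_iff 1 1 rfl rfl (by decide) n

lemma pdS2_iff (n : ℕ) : PD (AA K) (SS K 2) (n + 2) ↔ PD (AA K) (KK K 2 3) (n + 1) :=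
  pd_rad_iff 2 2 rfl rfl (by decide) n

lemma pd23 : PD (AA K) (KK K 2 3) 2 := (pd23_iff 0).2 pd_of_projective
lemma pd03 : PD (AA K) (KK K 0 3) 3 := (pd03_iff 1).2 pd23
lemma pd13 : PD (AA K) (KK K 1 3) 2 := (pd13_iff 0).2 pd_of_projective
lemma pdSa : PD (AA K) (SS K 3) 5 := (pdSa_iff 2).2 pd03
lemma pdSb : PD (AA K) (SS K 4) 4 := (pdSb_iff 1).2 pd13
lemma pdSc : PD (AA K) (SS K 5) 3 := (pdSc_iff 0).2 pd_of_projective
lemma pdS0 : PD (AA K) (SS K 0) 4 := (pdS0_iff 2).2 pd03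
lemma pdS1 : PD (AA K) (SS K 1) 3 := (pdS1_iff 1).2 pd13
lemma pdS2 : PD (AA K) (SS K 2) 3 := (pdS2_iff 1).2 pd23

lemma pdS_five (x : Fin 6) : PD (AA K) (SS K x) 5 := by
  fin_cases x
  · exact pd_mono (by norm_num) pdS0
  · exact pd_mono (by norm_num) pdS1
  · exact pd_mono (by norm_num) pdS2
  · exact pdSa
  · exact pd_mono (by norm_num) pdSb
  · exact pd_mono (by norm_num) pdSc

lemma pdS_four (x : Fin 6) (h : x ≠ 3) : PD (AA K) (SS K x) 4 := by
  fin_cases x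
  · exact pdS0
  · exact pd_mono (by norm_num) pdS1
  · exact pd_mono (by norm_num) pdS2
  · exact absurd rfl h
  · exact pdSb
  · exact pd_mono (by norm_num) pdSc

lemma not_projective : ¬ Module.Projective (AA K) (KK K 2 3) := by
  intro hP
  obtain ⟨s, hs⟩ := Module.projective_lifting_property
    (gB (K := K) 1 (j := 1) (l := 4) (j' := 2) (l2 := 0) (l3 := 3) rfl
    (by norm_num) (by norm_num)) LinearMap.id s1_surj
  let e5 : KK K 2 3 := ⟨Pi.single 5 1, single_mem (by decide)⟩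
  let e15 : GG K 1 := ⟨Pi.single 15 1, single_mem (by decide)⟩
  have he : (X K ^ 1) (e15 : V K) = 0 := by
    rw [Xpow_eq_zero_iff]
    intro n hn
    change (Pi.single 15 (1 : K) : V K) n = 0
    rw [Pi.single_apply, if_neg]
    rintro rfl
    exact absurd hn (by decide)
  have h1 : gen 1 e15 • e5 = 0 := by
    apply Subtype.ext
    change gen 1 e15 • (Pi.single 5 1 : V K) = 0
    have h : (Pi.single 5 (1 : K) : V K) = (X K ^ 1) (Pi.single (hx 1) 1) := single_eq (K := K) 5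
    rw [h, AA.comm_Xpow, gen_mg, he]
  have h2 : gen 1 e15 • (s e5) = 0 := by
    rw [← map_smul, h1, map_zero]
  have h3 : gen 1 e15 • ((s e5).1 : V K) = 0 := congrArg (fun p => ((p.1 : KK K 1 4) : V K)) h2
  have h4 : (X K ^ 1) ((s e5).1 : V K) + ((s e5).2 : V K) = Pi.single 5 1 := by
    have := congrArg (fun t => ((t e5 : KK K 2 3) : V K)) hs
    exact this
  have h5 : ((s e5).2 : V K) = 0 := by
    have : (s e5).2 = 0 := Subsingleton.elim _ _
    rw [this]; rfl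
  rw [h5, add_zero] at h4
  have h6 := congrFun h4 5
  rw [Xpow_apply, if_pos (by decide)] at h6
  have h7 : ((s e5).1 : V K) 4 = 1 := by
    have e : (5 : Fin 16) - Fin.ofNat 16 1 = 4 := by decide
    rw [e] at h6
    simpa using h6
  rw [gen_smul, Finset.sum_eq_single 0] at h3
  · have h8 := congrFun h3 15
    have h9 : ((s e5).1 : V K) 4 * 1 = 0 := by
      simpa [hx, e15] using h8
    rw [h7] at h9
    simp at h9
  · intro k _ hk
    have : (X K ^ (k : ℕ)) (e15 : V K) = 0 := by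
      have hk1 : 1 ≤ (k : ℕ) := by
        rcases Nat.eq_zero_or_pos (k : ℕ) with h | h
        · exact absurd (Fin.ext h) hk
        · exact h
      obtain ⟨c, hc⟩ := Nat.exists_eq_add_of_le hk1
      rw [hc, add_comm, pow_add, Module.End.mul_apply, he, map_zero]
    rw [this, smul_zero]
  · simp

lemma not_pdSa : ¬ PD (AA K) (SS K 3) 4 := by
  intro h
  have h1 : PD (AA K) (KK K 2 3) 1 := (pd03_iff 0).1 ((pdSa_iff 1).1 h)
  have h2 : Projective (ModuleCat.of (AA K) (KK K 2 3)) := inferInstance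
  exact not_projective ((IsProjective.iff_projective _).2 h2)

end Alg

end Pool.Agent.H34.GS
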