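import Pool.Agent.H34.GSAlg5

/-!
Global dimension of `A` and injective dimension of `A` as a bimodule.
-/

open CategoryTheory TensorProduct MulOpposite Abelian

namespace Pool.Agent.H34.GS

section Alg

variable {K : Type} [Field K]

lemma mg_smul (v : GG K 5) : gen 5 v • mg K 5 = v := Subtype.ext (gen_mg 5 v)

lemma ee_mg : (ee 5 : AA K) • mg K 5 = mg K 5 := by
  apply Subtype.ext
  ext n
  change ((ee 5 : AA K) • (Pi.single (hx 5) 1 : V K)) n = (Pi.single (hx 5) 1 : V K) n
  rw [ee_apply]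
  split_ifs with h
  · rfl
  · rw [Pi.single_apply, if_neg]
    rintro rfl
    exact h (by decide)

lemma hom_zero {i : Fin 6} (hi : i ≠ 5) (f : GG K 5 →ₗ[AA K] SS K i) : f = 0 := by
  have h1 : f (mg K 5) = 0 := by
    rw [← ee_mg, map_smul]
    change (DD K).χ i (ee 5) • f (mg K 5) = 0
    have : (DD K).χ i (ee 5) = 0 := by
      have := (DD K).χe 5 i
      rw [if_neg (fun h => hi h.symm)] at this
      exact this
    rw [this, zero_smul]
  apply LinearMap.ext
  intro v
  rw [← mg_smul v, map_smul, h1, smul_zero]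
  rfl

lemma extSa_four {i : Fin 6} (hi : i ≠ 5) :
    ExtZ (ModuleCat.of (AA K) (SS K 3)) (ModuleCat.of (AA K) (SS K i)) 4 :=
  extSa (ext03 (ext23 (extZ_zero_of_hom (N := GG K 5) (fun f => hom_zero hi f))))

lemma extS_four {i : Fin 6} (hi : i ≠ 5) (j : Fin 6) :
    ExtZ (ModuleCat.of (AA K) (SS K j)) (ModuleCat.of (AA K) (SS K i)) 4 := by
  by_cases hj : j = 3
  · subst hj
    exact extSa_four hi
  · exact extZ_of_pd le_rfl (pdS_four j hj)

lemma extS_five (i j : Fin 6) :
    ExtZ (ModuleCat.of (AA K) (SS K j)) (ModuleCat.of (AA K) (SS K i)) 5 :=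
  extZ_of_pd le_rfl (pdS_five j)

instance finite_AA : Module.Finite K (AA K) := by
  let f : AA K →ₗ[K] Module.End K (V K) :=
    { toFun := fun a =>
        { toFun := fun v => a • v
          map_add' := fun v w => smul_add a v w
          map_smul' := fun k v => AA.ksmul a k v }
      map_add' := fun a b => LinearMap.ext fun v => add_smul a b v
      map_smul' := fun k a => LinearMap.ext fun v => smul_assoc k a v }
  refine Module.Finite.of_injective f ?_
  intro a b h
  apply AA.ext'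
  intro v
  exact LinearMap.congr_fun h v

/-- Induction over finite-dimensional modules, for vanishing of `Ext`. -/
lemma ext_fd (Y : ModuleCat.{0} (AA K)) (n : ℕ)
    (h : ∀ j, ExtZ (ModuleCat.of (AA K) (SS K j)) Y n)
    (Z : Type) [AddCommGroup Z] [Module K Z] [Module (AA K) Z] [IsScalarTower K (AA K) Z]
    [FiniteDimensional K Z] : ExtZ (ModuleCat.of (AA K) Z) Y n := by
  refine (DD K).module_induction (fun Z => ExtZ Z Y n) ?_ h ?_ ?_ _ Z rfl
  · intro Z hZ
    have h0 : HasProjectiveDimensionLT Z 0 :=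
      (ModuleCat.isZero_of_subsingleton Z).hasProjectiveDimensionLT_zero
    intro e
    exact e.eq_zero_of_hasProjectiveDimensionLT 0 (Nat.zero_le _)
  · intro S hS h1 h3 e
    obtain ⟨x, hx⟩ := Ext.contravariant_sequence_exact₂ hS Y e (h1 _)
    rw [← hx, h3 x, Ext.comp_zero]
  · intro Z Z' i hZ x
    have h := hZ ((Ext.mk₀ i.hom).comp x (zero_add n))
    have h2 : (Ext.mk₀ i.inv).comp ((Ext.mk₀ i.hom).comp x (zero_add n))
      (zero_add n) = x := by
      rw [Ext.mk₀_comp_mk₀_assoc, i.inv_hom_id, Ext.mk₀_id_comp]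
    rw [← h2, h, Ext.comp_zero]

lemma pd_fd (Z : Type) [AddCommGroup Z] [Module K Z] [Module (AA K) Z] [IsScalarTower K (AA K) Z]
    [FiniteDimensional K Z] : PD (AA K) Z 5 := by
  refine (DD K).module_induction (fun Z => HasProjectiveDimensionLT Z 5) ?_ pdS_five ?_ ?_ _ Z rfl
  · intro Z hZ
    have h0 : HasProjectiveDimensionLT Z 0 :=
      (ModuleCat.isZero_of_subsingleton Z).hasProjectiveDimensionLT_zero
    exact hasProjectiveDimensionLT_of_ge _ 0 5 (Nat.zero_le _)
  · intro S hS h1 h3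
    exact hS.hasProjectiveDimensionLT_X₂ 5 h1 h3
  · intro Z Z' i hZ
    exact hasProjectiveDimensionLT_of_iso i 5

lemma id_of_ext (Y : ModuleCat.{0} (AA K)) (n : ℕ)
    (h : ∀ j, ExtZ (ModuleCat.of (AA K) (SS K j)) Y (n + 1)) : HasInjectiveDimensionLT Y (n + 1) := by
  apply id_of_cyclic
  intro I
  have : FiniteDimensional K (AA K ⧸ I) :=
    Module.Finite.of_surjective ((Submodule.mkQ I).restrictScalars K) I.mkQ_surjective
  exact ext_fd Y (n + 1) h (AA K ⧸ I)

lemma id_four {i : Fin 6} (hi : i ≠ 5) : ID (AA K) (SS K i) 4 :=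
  id_of_ext _ 3 (fun j => extS_four hi j)

lemma id_five (i : Fin 6) : ID (AA K) (SS K i) 5 :=
  id_of_ext _ 4 (fun j => extS_five i j)

lemma id_HomB {i j : Fin 6} (h : ¬ (i = 5 ∧ j = 3)) :
    ID (AA K ⊗[K] (AA K)ᵐᵒᵖ) (HomB K (SS K j) (SS K i)) 8 := by
  by_cases hi : i = 5
  · have hj : j ≠ 3 := fun hj => h ⟨hi, hj⟩
    exact id_homB (SS K i) 4 (id_five i) 3 (SS K j) (pdS_four j hj)
  · exact id_homB (SS K i) 3 (id_four hi) 4 (SS K j) (pdS_five j)

lemma ee_mul_ee (x : AA K) : ee 5 * x * ee 3 = 0 := by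
  apply AA.ext'
  intro v
  rw [zero_smul, mul_smul, mul_smul]
  have h1 : (ee 3 : AA K) • v ∈ GG K 3 := by
    rw [mem_KK]
    intro n hn
    rw [ee_apply, if_neg]
    revert hn
    revert n
    decide
  have h2 := (GG K 3).smul_mem x h1
  ext n
  rw [ee_apply]
  split_ifs with h
  · refine mem_KK.1 h2 n ?_
    revert h
    revert n
    decide
  · rfl

end Alg

end Pool.Agent.H34.GS
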