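import Pool.Agent.H34.GSHom

/-!
For modules `N`, `M` over a `K`-algebra `A` the injective dimension of the `A ⊗ Aᵐᵒᵖ`-module
`Hom_K(N, M)` is at most the projective dimension of `N` plus the injective dimension of `M`.
-/

open CategoryTheory TensorProduct MulOpposite

namespace Pool.Agent.H34.GS

section hommod

variable (K : Type) [Field K] {A : Type} [Ring A] [Algebra K A]
variable (N M : Type) [AddCommGroup N] [AddCommGroup M] [Module K N] [Module K M]
  [Module A N] [Module A M] [IsScalarTower K A N] [IsScalarTower K A M]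

/-- Left multiplication on `Hom_K(N, M)`. -/
def leftHom : A →ₐ[K] Module.End K (N →ₗ[K] M) :=
  AlgHom.ofLinearMap
    { toFun := fun a =>
        { toFun := fun φ => (Algebra.lsmul K K M a) ∘ₗ φ
          map_add' := fun φ ψ => by ext; simp
          map_smul' := fun k φ => by
            ext n
            exact LinearMap.map_smul (Algebra.lsmul K K M a) k (φ n) }
      map_add' := fun a b => by ext; simp
      map_smul' := fun k a => by ext; simp }
    (by ext; simp) (fun a b => by ext; simp)

/-- Right multiplication on `Hom_K(N, M)`. -/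
def rightHom : Aᵐᵒᵖ →ₐ[K] Module.End K (N →ₗ[K] M) :=
  AlgHom.ofLinearMap
    { toFun := fun a =>
        { toFun := fun φ => φ ∘ₗ (Algebra.lsmul K K N a.unop)
          map_add' := fun φ ψ => by ext; simp
          map_smul' := fun k φ => by ext; simp }
      map_add' := fun a b => by ext; simp
      map_smul' := fun k a => by ext; simp }
    (by ext; simp) (fun a b => by ext; simp)

/-- The bimodule structure of `Hom_K(N, M)`. -/
def bimHom : A ⊗[K] Aᵐᵒᵖ →ₐ[K] Module.End K (N →ₗ[K] M) :=
  Algebra.TensorProduct.lift (leftHom K N M) (rightHom K N M) (fun a b => by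
    ext φ n
    simp [leftHom, rightHom])

/-- `Hom_K(N, M)` with its structure of a module over `A ⊗ Aᵐᵒᵖ`. -/
def HomB : Type := N →ₗ[K] M

instance : AddCommGroup (HomB K N M) := inferInstanceAs (AddCommGroup (N →ₗ[K] M))

instance : Module K (HomB K N M) := inferInstanceAs (Module K (N →ₗ[K] M))

instance : Module (A ⊗[K] Aᵐᵒᵖ) (HomB K N M) :=
  letI : Module (Module.End K (N →ₗ[K] M)) (HomB K N M) :=
    inferInstanceAs (Module (Module.End K (N →ₗ[K] M)) (N →ₗ[K] M))
  Module.compHom _ (bimHom K N M).toRingHom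

variable {K N M}

/-- Evaluation. -/
def HomB.ev (φ : HomB K N M) (n : N) : M := (show N →ₗ[K] M from φ) n

/-- Build an element. -/
def HomB.mk (φ : N →ₗ[K] M) : HomB K N M := φ

@[simp] lemma HomB.ev_mk (φ : N →ₗ[K] M) (n : N) : (HomB.mk φ).ev n = φ n := rfl

lemma HomB.ext' {φ ψ : HomB K N M} (h : ∀ n, φ.ev n = ψ.ev n) : φ = ψ :=
  LinearMap.ext (f := (show N →ₗ[K] M from φ)) h

@[simp] lemma HomB.ev_add (φ ψ : HomB K N M) (n : N) : (φ + ψ).ev n = φ.ev n + ψ.ev n := rfl

@[simp] lemma HomB.ev_zero (n : N) : (0 : HomB K N M).ev n = 0 := rfl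

lemma HomB.ev_add_right (φ : HomB K N M) (n m : N) : φ.ev (n + m) = φ.ev n + φ.ev m :=
  LinearMap.map_add (show N →ₗ[K] M from φ) n m

lemma HomB.ev_smul_right (φ : HomB K N M) (k : K) (n : N) : φ.ev (k • n) = k • φ.ev n :=
  LinearMap.map_smul (show N →ₗ[K] M from φ) k n

lemma HomB.ev_tmul (a : A) (b : Aᵐᵒᵖ) (φ : HomB K N M) (n : N) :
    ((a ⊗ₜ[K] b) • φ).ev n = a • φ.ev (b.unop • n) := by
  change (bimHom K N M (a ⊗ₜ[K] b) φ) n = _
  simp [bimHom, leftHom, rightHom]
  rfl

end hommod

/-- An additive map compatible with pure tensors is linear. -/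
def linOfTmul {K : Type} [Field K] {A B : Type} [Ring A] [Algebra K A] [Ring B] [Algebra K B]
    {X Y : Type} [AddCommGroup X] [AddCommGroup Y] [Module (A ⊗[K] B) X] [Module (A ⊗[K] B) Y]
    (f : X →+ Y) (hf : ∀ (a : A) (b : B) (x : X), f ((a ⊗ₜ[K] b) • x) = (a ⊗ₜ[K] b) • f x) :
    X →ₗ[A ⊗[K] B] Y where
  toFun := f
  map_add' := f.map_add
  map_smul' := fun t x => by
    induction t using TensorProduct.induction_on with
    | zero => simp
    | tmul a b => exact hf a b x
    | add s t hs ht => simp only [add_smul, map_add, hs, ht, RingHom.id_apply] at *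

section inj

variable {K : Type} [Field K] {A : Type} [Ring A] [Algebra K A]
variable {P I : Type} [AddCommGroup P] [AddCommGroup I] [Module K P] [Module K I]
  [Module A P] [Module A I] [IsScalarTower K A P] [IsScalarTower K A I]

lemma injective_homB [hP : Module.Projective A P] [hI : Module.Injective A I] :
    Module.Injective (A ⊗[K] Aᵐᵒᵖ) (HomB K P I) := by
  constructor
  intro X Y _ _ _ _ f hf g
  let ι : A →+* (A ⊗[K] Aᵐᵒᵖ) := (Algebra.TensorProduct.includeLeft : A →ₐ[K] _).toRingHom
  let _ : Module A X := Module.compHom X ι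
  let _ : Module A Y := Module.compHom Y ι
  have smX : ∀ (a : A) (x : X), a • x = (a ⊗ₜ[K] (1 : Aᵐᵒᵖ)) • x := fun a x => rfl
  have smY : ∀ (a : A) (x : Y), a • x = (a ⊗ₜ[K] (1 : Aᵐᵒᵖ)) • x := fun a x => rfl
  let fA : X →ₗ[A] Y :=
    { toFun := f
      map_add' := f.map_add
      map_smul' := fun a x => f.map_smul (ι a) x }
  obtain ⟨s, hs⟩ := Module.projective_def.1 hP
  let g' : P → (X →ₗ[A] I) := fun q =>
    { toFun := fun x => (g x).ev q
      map_add' := fun x y => by rw [map_add]; rfl
      map_smul' := fun a x => by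
        rw [smX, map_smul, HomB.ev_tmul]; simp }
  choose h' hh' using fun q => hI.out fA hf (g' q)
  have hk : ∀ q (k : K) (y : Y) (a : A), h' q (((1 : A) ⊗ₜ[K] op (k • a)) • y)
      = k • h' q (((1 : A) ⊗ₜ[K] op a) • y) := by
    intro q k y a
    have : ((1 : A) ⊗ₜ[K] op (k • a)) = ((algebraMap K A k) ⊗ₜ[K] (1 : Aᵐᵒᵖ)) *
        ((1 : A) ⊗ₜ[K] op a) := by
      rw [Algebra.TensorProduct.tmul_mul_tmul, mul_one, one_mul, op_smul,
        TensorProduct.tmul_smul, Algebra.algebraMap_eq_smul_one, TensorProduct.smul_tmul']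
    rw [this, mul_smul, ← smY, map_smul, algebraMap_smul]
  let φ : Y → P → (A →ₗ[K] I) := fun y q =>
    { toFun := fun a => h' q (((1 : A) ⊗ₜ[K] op a) • y)
      map_add' := fun a b => by
        rw [MulOpposite.op_add, TensorProduct.tmul_add, add_smul, map_add]
      map_smul' := fun k a => hk q k y a }
  let hfun : Y → HomB K P I := fun y =>
    HomB.mk ((Finsupp.lsum K (φ y)) ∘ₗ (s.restrictScalars K))
  have hval : ∀ y p, (hfun y).ev p = (s p).sum (fun q a => h' q (((1 : A) ⊗ₜ[K] op a) • y)) := by
    intro y p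
    simp [hfun, φ]
  refine ⟨linOfTmul (AddMonoidHom.mk' hfun ?_) ?_, ?_⟩
  · intro y z
    apply HomB.ext'
    intro p
    rw [HomB.ev_add, hval, hval, hval, ← Finsupp.sum_add]
    apply Finsupp.sum_congr
    intro q _
    rw [smul_add, map_add]
  · intro a b y
    apply HomB.ext'
    intro p
    change (hfun _).ev p = ((a ⊗ₜ[K] b) • hfun y).ev p
    rw [HomB.ev_tmul, hval, hval, map_smul, Finsupp.smul_sum]
    have h1 : (b.unop • s p).sum (fun q c => a • h' q (((1 : A) ⊗ₜ[K] op c) • y))
        = (s p).sum (fun q c => a • h' q (((1 : A) ⊗ₜ[K] op (b.unop * c)) • y)) := by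
      rw [Finsupp.sum_smul_index']
      · simp only [smul_eq_mul]
      · intro q
        have h0 := hk q 0 y 0
        rw [zero_smul, zero_smul] at h0
        rw [h0, smul_zero]
    rw [h1]
    apply Finsupp.sum_congr
    intro q _
    rw [← map_smul, smY, ← mul_smul, ← mul_smul]
    simp
  · intro x
    apply HomB.ext'
    intro p
    change (hfun (f x)).ev p = _
    rw [hval]
    have h1 : ∀ (q : P) (a : A), h' q (((1 : A) ⊗ₜ[K] op a) • f x) = (g x).ev (a • q) := by
      intro q a
      rw [← map_smul]
      have := hh' q (((1 : A) ⊗ₜ[K] op a) • x)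
      change h' q (f _) = _ at this
      rw [this]
      change (g _).ev q = _
      rw [map_smul, HomB.ev_tmul]
      simp
    simp only [h1]
    conv_rhs => rw [← hs p]
    rw [Finsupp.linearCombination_apply, Finsupp.sum, Finsupp.sum]
    change _ = (show P →ₗ[K] I from g x) _
    rw [map_sum]
    rfl

end inj

section seq

variable {K : Type} [Field K] {A : Type} [Ring A] [Algebra K A]
variable {L P N : Type} [AddCommGroup L] [AddCommGroup P] [AddCommGroup N]
  [Module K L] [Module K P] [Module K N] [Module A L] [Module A P] [Module A N]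
  [IsScalarTower K A L] [IsScalarTower K A P] [IsScalarTower K A N]

/-- Composition after. -/
def postc (M : Type) [AddCommGroup M] [Module K M] [Module A M] [IsScalarTower K A M]
    (g : L →ₗ[A] P) : HomB K M L →ₗ[A ⊗[K] Aᵐᵒᵖ] HomB K M P :=
  linOfTmul (AddMonoidHom.mk' (fun φ => HomB.mk ((g.restrictScalars K) ∘ₗ φ))
    (fun φ ψ => by apply HomB.ext'; intro n; exact map_add g _ _))
    (fun a b φ => by
      apply HomB.ext'
      intro n
      change g (((a ⊗ₜ[K] b) • φ).ev n) = _
      rw [HomB.ev_tmul, map_smul, HomB.ev_tmul]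
      rfl)

lemma postc_ev (M : Type) [AddCommGroup M] [Module K M] [Module A M] [IsScalarTower K A M]
    (g : L →ₗ[A] P) (φ : HomB K M L) (m : M) : (postc M g φ).ev m = g (φ.ev m) := rfl

/-- Composition before. -/
def prec (M : Type) [AddCommGroup M] [Module K M] [Module A M] [IsScalarTower K A M]
    (g : L →ₗ[A] P) : HomB K P M →ₗ[A ⊗[K] Aᵐᵒᵖ] HomB K L M :=
  linOfTmul (AddMonoidHom.mk' (fun φ => HomB.mk (φ ∘ₗ (g.restrictScalars K)))
    (fun φ ψ => by apply HomB.ext'; intro n; rfl))
    (fun a b φ => by
      apply HomB.ext'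
      intro n
      change ((a ⊗ₜ[K] b) • φ).ev (g n) = _
      rw [HomB.ev_tmul, ← map_smul, HomB.ev_tmul]
      rfl)

lemma prec_ev (M : Type) [AddCommGroup M] [Module K M] [Module A M] [IsScalarTower K A M]
    (g : L →ₗ[A] P) (φ : HomB K P M) (m : L) : (prec M g φ).ev m = φ.ev (g m) := rfl

variable (f : L →ₗ[A] P) (g : P →ₗ[A] N) (hfg : Function.Exact f g)
  (hf : Function.Injective f) (hg : Function.Surjective g)
  (M : Type) [AddCommGroup M] [Module K M] [Module A M] [IsScalarTower K A M]

include hf in
lemma postc_inj : Function.Injective (postc (K := K) M f) := by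
  intro φ ψ h
  apply HomB.ext'
  intro m
  apply hf
  have := congrArg (fun t => HomB.ev t m) h
  exact this

include hg in
lemma postc_surj : Function.Surjective (postc (K := K) M g) := by
  intro φ
  obtain ⟨s, hs⟩ := LinearMap.exists_rightInverse_of_surjective (g.restrictScalars K)
    (LinearMap.range_eq_top.2 hg)
  refine ⟨HomB.mk (s ∘ₗ φ), ?_⟩
  apply HomB.ext'
  intro m
  have := LinearMap.congr_fun hs (φ.ev m)
  exact this

include hfg hf in
lemma postc_exact : Function.Exact (postc (K := K) M f) (postc (K := K) M g) := by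
  intro φ
  constructor
  · intro h
    have hm : ∀ m, g (φ.ev m) = 0 := fun m => congrArg (fun t => HomB.ev t m) h
    have hr : ∀ m, φ.ev m ∈ LinearMap.range (f.restrictScalars K) := fun m => (hfg _).1 (hm m)
    let e := LinearEquiv.ofInjective (f.restrictScalars K) hf
    refine ⟨HomB.mk (e.symm.toLinearMap ∘ₗ
      (LinearMap.codRestrict (LinearMap.range (f.restrictScalars K)) φ hr)), ?_⟩
    apply HomB.ext'
    intro m
    have := congrArg Subtype.val (e.apply_symm_apply ⟨φ.ev m, hr m⟩)
    exact this
  · rintro ⟨ψ, rfl⟩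
    apply HomB.ext'
    intro m
    exact (hfg _).2 ⟨_, rfl⟩

include hg in
lemma prec_inj : Function.Injective (prec (K := K) M g) := by
  intro φ ψ h
  apply HomB.ext'
  intro n
  obtain ⟨p, rfl⟩ := hg n
  exact congrArg (fun t => HomB.ev t p) h

include hf in
lemma prec_surj : Function.Surjective (prec (K := K) M f) := by
  intro φ
  obtain ⟨s, hs⟩ := LinearMap.exists_leftInverse_of_injective (f.restrictScalars K)
    (LinearMap.ker_eq_bot.2 hf)
  refine ⟨HomB.mk (φ ∘ₗ s), ?_⟩
  apply HomB.ext'
  intro m
  have := LinearMap.congr_fun hs m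
  exact congrArg φ.ev this

include hfg hg in
lemma prec_exact : Function.Exact (prec (K := K) M g) (prec (K := K) M f) := by
  intro φ
  constructor
  · intro h
    have hm : ∀ m, φ.ev (f m) = 0 := fun m => congrArg (fun t => HomB.ev t m) h
    obtain ⟨s, hs⟩ := LinearMap.exists_rightInverse_of_surjective (g.restrictScalars K)
      (LinearMap.range_eq_top.2 hg)
    refine ⟨HomB.mk (φ ∘ₗ s), ?_⟩
    apply HomB.ext'
    intro p
    change φ.ev (s (g p)) = φ.ev p
    have h1 : g (s (g p) - p) = 0 := by
      rw [map_sub]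
      have := LinearMap.congr_fun hs (g p)
      change g (s (g p)) = g p at this
      rw [this, sub_self]
    obtain ⟨l, hl⟩ := (hfg _).1 h1
    have h2 : s (g p) = p + f l := by rw [hl]; abel
    rw [h2, HomB.ev_add_right, hm, add_zero]
  · rintro ⟨ψ, rfl⟩
    apply HomB.ext'
    intro m
    change ψ.ev (g (f m)) = 0
    rw [(hfg _).2 ⟨m, rfl⟩]
    exact LinearMap.map_zero (show N →ₗ[K] M from ψ)

end seq

section main

variable {K : Type} [Field K] {A : Type} [Ring A] [Algebra K A]

lemma module_injective_of_id {M : Type} [AddCommGroup M] [Module A M] (h : ID A M 1) :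
    Module.Injective A M := by
  have : Injective (ModuleCat.of A M) := inferInstance
  exact (Module.injective_iff_injective_object A M).2 this

lemma id_of_module_injective {R : Type} [Ring R] {M : Type} [AddCommGroup M] [Module R M]
    (h : Module.Injective R M) : ID R M 1 := by
  have : Injective (ModuleCat.of R M) := (Module.injective_iff_injective_object R M).1 h
  infer_instance

lemma homB_projective (N : Type) [AddCommGroup N] [Module K N] [Module A N] [IsScalarTower K A N]
    [Module.Projective A N] (q : ℕ) :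
    ∀ (M : Type) [AddCommGroup M] [Module K M] [Module A M] [IsScalarTower K A M],
      ID A M (q + 1) → ID (A ⊗[K] Aᵐᵒᵖ) (HomB K N M) (q + 1) := by
  induction q with
  | zero =>
    intro M _ _ _ _ h
    have := module_injective_of_id h
    exact id_of_module_injective injective_homB
  | succ q ih =>
    intro M _ _ _ _ h
    let S : ShortComplex (ModuleCat.{0} A) :=
      ShortComplex.mk (Injective.ι (ModuleCat.of A M))
        (Limits.cokernel.π (Injective.ι (ModuleCat.of A M))) (by simp)
    have hS : S.ShortExact :=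
      { exact := ShortComplex.exact_cokernel _
        mono_f := by dsimp [S]; infer_instance
        epi_g := by dsimp [S]; infer_instance }
    have hinj : Injective S.X₂ := by dsimp [S]; infer_instance
    have h3 : HasInjectiveDimensionLT S.X₃ (q + 1) :=
      (hS.hasInjectiveDimensionLT_X₃_iff q hinj).2 h
    let _ : Module K S.X₂ := Module.compHom S.X₂ (algebraMap K A)
    have _ : IsScalarTower K A S.X₂ :=
      ⟨fun k a x => by rw [Algebra.smul_def, mul_smul]; rfl⟩
    let _ : Module K S.X₃ := Module.compHom S.X₃ (algebraMap K A)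
    have _ : IsScalarTower K A S.X₃ :=
      ⟨fun k a x => by rw [Algebra.smul_def, mul_smul]; rfl⟩
    have hex : Function.Exact S.f.hom S.g.hom :=
      (ShortComplex.ShortExact.moduleCat_exact_iff_function_exact _).1 hS.exact
    let f : M →ₗ[A] S.X₂ := S.f.hom
    let g : S.X₂ →ₗ[A] S.X₃ := S.g.hom
    have hf : Function.Injective f := hS.moduleCat_injective_f
    have hg : Function.Surjective g := hS.moduleCat_surjective_g
    have hI : Module.Injective A S.X₂ := (Module.injective_iff_injective_object A S.X₂).2 hinj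
    have i3 : ID (A ⊗[K] Aᵐᵒᵖ) (HomB K N S.X₃) (q + 1) := ih S.X₃ h3
    have i2 : ID (A ⊗[K] Aᵐᵒᵖ) (HomB K N S.X₂) (q + 2) :=
      id_mono (by omega) (id_of_module_injective injective_homB)
    exact id_X1 (postc (K := K) N f) (postc (K := K) N g) (postc_exact f g hex hf N)
      (postc_inj f hf N) (postc_surj g hg N) i3 i2

lemma id_homB_step {L P N : Type} [AddCommGroup L] [AddCommGroup P] [AddCommGroup N]
    [Module K L] [Module K P] [Module K N] [Module A L] [Module A P] [Module A N]
    [IsScalarTower K A L] [IsScalarTower K A P] [IsScalarTower K A N]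
    (f : L →ₗ[A] P) (g : P →ₗ[A] N) (hfg : Function.Exact f g)
    (hf : Function.Injective f) (hg : Function.Surjective g) [Module.Projective A P]
    (M : Type) [AddCommGroup M] [Module K M] [Module A M] [IsScalarTower K A M]
    (q : ℕ) (hM : ID A M (q + 1)) (p : ℕ) (h1 : ID (A ⊗[K] Aᵐᵒᵖ) (HomB K L M) (p + q + 1)) :
    ID (A ⊗[K] Aᵐᵒᵖ) (HomB K N M) (p + q + 2) := by
  have i2 : ID (A ⊗[K] Aᵐᵒᵖ) (HomB K P M) (p + q + 2) :=
    id_mono (by omega) (homB_projective P q M hM)
  exact id_X1 (prec (K := K) M g) (prec (K := K) M f)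
      (prec_exact f g hfg hg M) (prec_inj g hg M) (prec_surj f hf M) h1 i2

theorem id_homB (M : Type) [AddCommGroup M] [Module K M] [Module A M] [IsScalarTower K A M]
    (q : ℕ) (hM : ID A M (q + 1)) (p : ℕ) :
    ∀ (N : Type) [AddCommGroup N] [Module K N] [Module A N] [IsScalarTower K A N],
      PD A N (p + 1) → ID (A ⊗[K] Aᵐᵒᵖ) (HomB K N M) (p + q + 1) := by
  induction p with
  | zero =>
    intro N _ _ _ _ h
    have : Projective (ModuleCat.of A N) := inferInstance
    have : Module.Projective A N := (IsProjective.iff_projective N).2 this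
    exact id_mono (by omega) (homB_projective N q M hM)
  | succ p ih =>
    intro N _ _ _ _ h
    let P := N →₀ A
    let g : P →ₗ[A] N := Finsupp.linearCombination A id
    have hg : Function.Surjective g := Finsupp.linearCombination_id_surjective A N
    let L := LinearMap.ker g
    have hex : Function.Exact L.subtype g := by
      rw [LinearMap.exact_iff]; simp [L]
    have h1 : PD A L (p + 1) := (pd_X3_iff L.subtype g hex L.injective_subtype hg).1 h
    have i1 := ih L h1
    have := id_homB_step L.subtype g hex L.injective_subtype hg M q hM p i1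
    exact id_mono (by omega) this

end main

end Pool.Agent.H34.GS
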