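import Mathlib

/-!
Homological preliminaries: projective and injective dimension over a ring through explicit exact
sequences of modules.
-/

open CategoryTheory Abelian

namespace Pool.Agent.H34.GS

section General

variable {R : Type} [Ring R]

/-- `PD R M n`: the module `M` has projective dimension `< n`. -/
abbrev PD (R : Type) [Ring R] (M : Type) [AddCommGroup M] [Module R M] (n : ℕ) : Prop :=
  HasProjectiveDimensionLT (ModuleCat.of R M) n

/-- `ID R M n`: the module `M` has injective dimension `< n`. -/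
abbrev ID (R : Type) [Ring R] (M : Type) [AddCommGroup M] [Module R M] (n : ℕ) : Prop :=
  HasInjectiveDimensionLT (ModuleCat.of R M) n

/-- `ExtZ X Y n`: `Ext^n(X, Y) = 0`. -/
def ExtZ (X Y : ModuleCat.{0} R) (n : ℕ) : Prop := ∀ e : Ext X Y n, e = 0

variable {L P N : Type} [AddCommGroup L] [AddCommGroup P] [AddCommGroup N]
  [Module R L] [Module R P] [Module R N]

/-- The short complex of two composable linear maps. -/
abbrev sc (f : L →ₗ[R] P) (g : P →ₗ[R] N) (h : Function.Exact f g) :
    ShortComplex (ModuleCat.{0} R) :=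
  ModuleCat.shortComplexOfCompEqZero f g (h.linearMap_comp_eq_zero)

lemma sc_shortExact (f : L →ₗ[R] P) (g : P →ₗ[R] N) (h : Function.Exact f g)
    (hf : Function.Injective f) (hg : Function.Surjective g) : (sc f g h).ShortExact :=
  ModuleCat.shortComplex_shortExact _ h hf hg

lemma pd_of_projective [Module.Projective R P] : PD R P 1 := by
  have : Projective (ModuleCat.of R P) := by
    rw [← IsProjective.iff_projective]; infer_instance
  infer_instance

lemma pd_X3 (f : L →ₗ[R] P) (g : P →ₗ[R] N) (h : Function.Exact f g)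
    (hf : Function.Injective f) (hg : Function.Surjective g) {n : ℕ}
    (hP : PD R P (n + 1)) (hL : PD R L n) : PD R N (n + 1) :=
  (sc_shortExact f g h hf hg).hasProjectiveDimensionLT_X₃ n hL hP

lemma pd_X2 (f : L →ₗ[R] P) (g : P →ₗ[R] N) (h : Function.Exact f g)
    (hf : Function.Injective f) (hg : Function.Surjective g) {n : ℕ}
    (hL : PD R L n) (hN : PD R N n) : PD R P n :=
  (sc_shortExact f g h hf hg).hasProjectiveDimensionLT_X₂ n hL hN

lemma pd_X3_iff (f : L →ₗ[R] P) (g : P →ₗ[R] N) (h : Function.Exact f g)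
    (hf : Function.Injective f) (hg : Function.Surjective g) [Module.Projective R P] {n : ℕ} :
    PD R N (n + 2) ↔ PD R L (n + 1) := by
  have : Projective (ModuleCat.of R P) := by
    rw [← IsProjective.iff_projective]; infer_instance
  exact (sc_shortExact f g h hf hg).hasProjectiveDimensionLT_X₃_iff n this

lemma pd_mono {n m : ℕ} (h : n ≤ m) (hN : PD R N n) : PD R N m :=
  hasProjectiveDimensionLT_of_ge _ n m h

lemma pd_equiv (e : P ≃ₗ[R] N) {n : ℕ} (hP : PD R P n) : PD R N n :=
  hasProjectiveDimensionLT_of_iso e.toModuleIso n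

lemma id_X2 (f : L →ₗ[R] P) (g : P →ₗ[R] N) (h : Function.Exact f g)
    (hf : Function.Injective f) (hg : Function.Surjective g) {n : ℕ}
    (hL : ID R L n) (hN : ID R N n) : ID R P n :=
  (sc_shortExact f g h hf hg).hasInjectiveDimensionLT_X₂ n hL hN

lemma id_X1 (f : L →ₗ[R] P) (g : P →ₗ[R] N) (h : Function.Exact f g)
    (hf : Function.Injective f) (hg : Function.Surjective g) {n : ℕ}
    (hN : ID R N n) (hP : ID R P (n + 1)) : ID R L (n + 1) :=
  (sc_shortExact f g h hf hg).hasInjectiveDimensionLT_X₁ n hN hP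

lemma id_mono {n m : ℕ} (h : n ≤ m) (hN : ID R N n) : ID R N m :=
  hasInjectiveDimensionLT_of_ge _ n m h

lemma id_equiv (e : P ≃ₗ[R] N) {n : ℕ} (hP : ID R P n) : ID R N n :=
  hasInjectiveDimensionLT_of_iso e.toModuleIso n

lemma extZ_X3 (f : L →ₗ[R] P) (g : P →ₗ[R] N) (h : Function.Exact f g)
    (hf : Function.Injective f) (hg : Function.Surjective g) [Module.Projective R P]
    {Y : ModuleCat.{0} R} {n : ℕ} (hL : ExtZ (ModuleCat.of R L) Y n) :
    ExtZ (ModuleCat.of R N) Y (n + 1) := by
  have : Projective (ModuleCat.of R P) := by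
    rw [← IsProjective.iff_projective]; infer_instance
  intro e
  obtain ⟨x, hx⟩ := Ext.contravariant_sequence_exact₃ (sc_shortExact f g h hf hg) Y e
    (Ext.eq_zero_of_projective _) (by omega : 1 + n = n + 1)
  rw [← hx, hL x, Ext.comp_zero]

lemma extZ_X2 (f : L →ₗ[R] P) (g : P →ₗ[R] N) (h : Function.Exact f g)
    (hf : Function.Injective f) (hg : Function.Surjective g)
    {Y : ModuleCat.{0} R} {n : ℕ} (hL : ExtZ (ModuleCat.of R L) Y n)
    (hN : ExtZ (ModuleCat.of R N) Y n) :
    ExtZ (ModuleCat.of R P) Y n := by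
  intro e
  obtain ⟨x, hx⟩ := Ext.contravariant_sequence_exact₂ (sc_shortExact f g h hf hg) Y e
    (hL _)
  rw [← hx, hN x, Ext.comp_zero]

lemma extZ_equiv (e : P ≃ₗ[R] N) {Y : ModuleCat.{0} R} {n : ℕ}
    (hP : ExtZ (ModuleCat.of R P) Y n) : ExtZ (ModuleCat.of R N) Y n := by
  intro x
  have h := hP ((Ext.mk₀ e.toModuleIso.hom).comp x (zero_add n))
  have h2 : (Ext.mk₀ e.toModuleIso.inv).comp ((Ext.mk₀ e.toModuleIso.hom).comp x (zero_add n))
    (zero_add n) = x := by
    rw [Ext.mk₀_comp_mk₀_assoc, e.toModuleIso.inv_hom_id, Ext.mk₀_id_comp]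
  rw [← h2, h, Ext.comp_zero]

lemma extZ_of_pd {Y : ModuleCat.{0} R} {n m : ℕ} (h : n ≤ m) (hN : PD R N n) :
    ExtZ (ModuleCat.of R N) Y m := by
  intro e
  exact e.eq_zero_of_hasProjectiveDimensionLT n h

lemma extZ_zero_of_hom {Y : ModuleCat.{0} R} (h : ∀ f : N →ₗ[R] Y, f = 0) :
    ExtZ (ModuleCat.of R N) Y 0 := by
  intro e
  obtain ⟨f, rfl⟩ := Ext.homEquiv₀.symm.surjective e
  have : f = 0 := by
    ext x
    have := h f.hom
    simp [this]
  rw [this]
  simp

/-- Baer's criterion in higher degree. -/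
lemma id_of_cyclic (n : ℕ) : ∀ (Y : ModuleCat.{0} R),
    (∀ I : Ideal R, ExtZ (ModuleCat.of R (R ⧸ I)) Y (n + 1)) →
    HasInjectiveDimensionLT Y (n + 1) := by
  induction n with
  | zero =>
    intro Y hY
    have hb : Module.Baer R Y := by
      intro I g
      have hex : Function.Exact I.subtype I.mkQ := by
        rw [LinearMap.exact_iff]
        simp
      have hS := sc_shortExact I.subtype I.mkQ hex I.injective_subtype I.mkQ_surjective
      obtain ⟨x, hx⟩ := Ext.contravariant_sequence_exact₁ hS Y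
        (Ext.mk₀ (ModuleCat.ofHom g : ModuleCat.of R I ⟶ Y)) (by omega : 1 + 0 = 1) (hY I _)
      obtain ⟨φ, rfl⟩ := Ext.homEquiv₀.symm.surjective x
      refine ⟨φ.hom, fun r hr => ?_⟩
      have h2 : (Ext.mk₀ (ModuleCat.ofHom I.subtype ≫ φ) : Ext (ModuleCat.of R I) Y 0)
          = Ext.mk₀ (ModuleCat.ofHom g) := by
        rw [← hx]
        simp
      have h3 := Ext.homEquiv₀.symm.injective h2
      have h4 := congrArg (fun t => t.hom ⟨r, hr⟩) h3
      simpa using h4
    have hi : Module.Injective R Y := hb.injective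
    have : Injective Y := Module.injective_object_of_injective_module (inj := hi) R Y
    infer_instance
  | succ n ih =>
    intro Y hY
    let S : ShortComplex (ModuleCat.{0} R) :=
      ShortComplex.mk (Injective.ι Y) (Limits.cokernel.π (Injective.ι Y)) (by simp)
    have hS : S.ShortExact :=
      { exact := ShortComplex.exact_cokernel _
        mono_f := by dsimp [S]; infer_instance
        epi_g := by dsimp [S]; infer_instance }
    have hinj : Injective S.X₂ := by dsimp [S]; infer_instance
    have h3 : HasInjectiveDimensionLT S.X₃ (n + 1) := by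
      apply ih
      intro I e
      obtain ⟨x, hx⟩ := Ext.covariant_sequence_exact₃ _ hS e (by rfl : n + 1 + 1 = n + 2)
        (hY I _)
      rw [← hx, x.eq_zero_of_injective, Ext.zero_comp]
    exact (hS.hasInjectiveDimensionLT_X₃_iff n hinj).1 h3

end General

end Pool.Agent.H34.GS
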