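import Pool.Agent.H34.GSBim

/-!
Finite-dimensional modules over a split basic algebra (and bimodules over it) are built from the
one-dimensional modules given by the characters.
-/

open CategoryTheory TensorProduct MulOpposite

namespace Pool.Agent.H34.GS

/-- The one-dimensional module given by a character. -/
def Sm {K A : Type} [Field K] [Ring A] [Algebra K A] (_χ : A →ₐ[K] K) : Type := K

section Sm

variable {K A : Type} [Field K] [Ring A] [Algebra K A] (χ : A →ₐ[K] K)

instance : AddCommGroup (Sm χ) := inferInstanceAs (AddCommGroup K)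
instance : Module K (Sm χ) := inferInstanceAs (Module K K)
instance : Module A (Sm χ) :=
  letI : Module K (Sm χ) := inferInstanceAs (Module K K)
  Module.compHom (Sm χ) χ.toRingHom

/-- The generator. -/
def Sm.one : Sm χ := (1 : K)

lemma Sm.smul_def (a : A) (x : Sm χ) : a • x = χ a • x := rfl

instance : IsScalarTower K A (Sm χ) :=
  ⟨fun k a x => by rw [Sm.smul_def, Sm.smul_def, map_smul, smul_assoc]⟩

lemma Sm.eq_smul_one (x : Sm χ) : x = (show K from x) • Sm.one χ :=
  (mul_one (show K from x)).symm

lemma Sm.one_ne_zero' : Sm.one χ ≠ 0 := (_root_.one_ne_zero : (1 : K) ≠ 0)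

end Sm

/-- The data of a split basic algebra: characters, orthogonal elements dual to them, and the
common kernel of the characters is nilpotent. -/
structure SplitBasic (K A ι : Type) [Field K] [Ring A] [Algebra K A] [Fintype ι]
    [DecidableEq ι] where
  χ : ι → (A →ₐ[K] K)
  e : ι → A
  χe : ∀ i j, χ j (e i) = if i = j then 1 else 0
  r : ℕ
  nil : ∀ l : List A, l.length = r → (∀ a ∈ l, ∀ i, χ i a = 0) → l.prod = 0

namespace SplitBasic

variable {K A ι : Type} [Field K] [Ring A] [Algebra K A] [Fintype ι] [DecidableEq ι]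
  (D : SplitBasic K A ι)

/-- `J`. -/
def inJ (a : A) : Prop := ∀ i, D.χ i a = 0

lemma one_sub_mem : D.inJ (1 - ∑ i, D.e i) := by
  intro j
  simp [D.χe]

lemma mul_e_sub (a : A) (i : ι) : D.inJ (a * D.e i - D.χ i a • D.e i) := by
  intro j
  simp only [map_sub, map_mul, map_smul, D.χe]
  by_cases h : i = j
  · subst h; simp
  · simp [h]

lemma e_mul_sub (a : A) (i : ι) : D.inJ (D.e i * a - D.χ i a • D.e i) := by
  intro j
  simp only [map_sub, map_mul, map_smul, D.χe]
  by_cases h : i = j
  · subst h; simp
  · simp [h]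

/-- A nonzero additive group on which the elements of `J` act and on which sufficiently long
products of them vanish contains a nonzero vector killed by `J`, inside any stable subset. -/
lemma exists_killed {Y : Type} [AddCommGroup Y] (act : A → Y → Y) (S : Set Y)
    (hS : ∀ a, D.inJ a → ∀ y ∈ S, act a y ∈ S) (y₀ : Y) (hy₀ : y₀ ∈ S) (hne : y₀ ≠ 0)
    (hnil : ∀ l : List A, l.length = D.r → (∀ a ∈ l, D.inJ a) → l.foldr act y₀ = 0) :
    ∃ v ∈ S, v ≠ 0 ∧ ∀ a, D.inJ a → act a v = 0 := by
  by_contra hcon
  push Not at hcon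
  have key : ∀ k : ℕ, ∃ l : List A, l.length = k ∧ (∀ a ∈ l, D.inJ a) ∧
      l.foldr act y₀ ≠ 0 ∧ l.foldr act y₀ ∈ S := by
    intro k
    induction k with
    | zero => exact ⟨[], rfl, by simp, by simpa using hne, by simpa using hy₀⟩
    | succ k ih =>
      obtain ⟨l, h1, h2, h3, h4⟩ := ih
      obtain ⟨a, ha, hv⟩ := hcon _ h4 h3
      refine ⟨a :: l, by simp [h1], ?_, by simpa using hv, by simpa using hS a ha _ h4⟩
      intro b hb
      rcases List.mem_cons.1 hb with rfl | hb
      · exact ha
      · exact h2 b hb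
  obtain ⟨l, h1, h2, h3, _⟩ := key D.r
  exact h3 (hnil l h1 h2)

lemma exists_eigen {Y : Type} [AddCommGroup Y] [Module K Y] [Module A Y] [IsScalarTower K A Y]
    [Nontrivial Y] : ∃ i, ∃ w : Y, w ≠ 0 ∧ ∀ a : A, a • w = D.χ i a • w := by
  obtain ⟨y₀, hne⟩ := exists_ne (0 : Y)
  have hf : ∀ (l : List A) (y : Y), l.foldr (fun a y => a • y) y = l.prod • y := by
    intro l y
    induction l with
    | nil => simp
    | cons a l ih => simp [ih, mul_smul]
  obtain ⟨v, -, hv0, hv⟩ := D.exists_killed (fun a (y : Y) => a • y) Set.univ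
    (fun _ _ _ _ => trivial) y₀ trivial hne (fun l h1 h2 => by
      rw [hf, D.nil l h1 h2, zero_smul])
  have h1 : ∑ i, D.e i • v = v := by
    have := hv _ D.one_sub_mem
    rw [sub_smul, one_smul, Finset.sum_smul, sub_eq_zero] at this
    exact this.symm
  have h2 : ∃ i, D.e i • v ≠ 0 := by
    by_contra h
    push Not at h
    rw [Finset.sum_eq_zero (fun i _ => h i)] at h1
    exact hv0 h1.symm
  obtain ⟨i, hi⟩ := h2
  refine ⟨i, D.e i • v, hi, fun a => ?_⟩
  have := hv _ (D.mul_e_sub a i)
  rw [sub_smul, mul_smul, sub_eq_zero] at this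
  rw [this, smul_assoc]

/-- The submodule spanned by an eigenvector. -/
def eigenSub {Y : Type} [AddCommGroup Y] [Module K Y] [Module A Y] [IsScalarTower K A Y]
    {χ : A →ₐ[K] K} {w : Y} (hw : ∀ a : A, a • w = χ a • w) : Submodule A Y where
  carrier := {y | ∃ c : K, y = c • w}
  add_mem' := by
    rintro _ _ ⟨c, rfl⟩ ⟨d, rfl⟩
    exact ⟨c + d, by rw [add_smul]⟩
  zero_mem' := ⟨0, by simp⟩
  smul_mem' := by
    rintro a _ ⟨c, rfl⟩
    refine ⟨c * χ a, ?_⟩
    have : a • c • w = c • a • w := by
      rw [← algebraMap_smul A c w, ← algebraMap_smul A c (a • w), ← mul_smul, ← mul_smul,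
        Algebra.commutes]
    rw [this, hw, mul_smul]

/-- The map onto the span of an eigenvector. -/
def eigenMap {Y : Type} [AddCommGroup Y] [Module K Y] [Module A Y]
    [IsScalarTower K A Y]
    {χ : A →ₐ[K] K} {w : Y} (hw : ∀ a : A, a • w = χ a • w) :
    Sm χ →ₗ[A] eigenSub hw where
  toFun := fun c => ⟨(show K from c) • w, ⟨_, rfl⟩⟩
  map_add' := fun c d => Subtype.ext (add_smul (show K from c) (show K from d) w)
  map_smul' := fun a c => Subtype.ext (by
    change (χ a * (show K from c)) • w = a • ((show K from c) • w)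
    have : a • (show K from c) • w = (show K from c) • a • w := by
      rw [← algebraMap_smul A (show K from c) w, ← algebraMap_smul A (show K from c) (a • w),
        ← mul_smul, ← mul_smul, Algebra.commutes]
    rw [this, hw, ← mul_smul, mul_comm])

/-- The eigenvector spans a copy of the simple module. -/
noncomputable def eigenEquiv {Y : Type} [AddCommGroup Y] [Module K Y] [Module A Y]
    [IsScalarTower K A Y]
    {χ : A →ₐ[K] K} {w : Y} (hw0 : w ≠ 0) (hw : ∀ a : A, a • w = χ a • w) :
    Sm χ ≃ₗ[A] eigenSub hw :=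
  LinearEquiv.ofBijective (eigenMap hw)
    ⟨by
      intro c d h
      have h1 : (show K from c) • w = (show K from d) • w := congrArg Subtype.val h
      exact smul_left_injective K hw0 h1, by
      rintro ⟨_, ⟨c, rfl⟩⟩
      exact ⟨c, rfl⟩⟩

/-- Induction over finite-dimensional modules. -/
theorem module_induction (Pr : ModuleCat.{0} A → Prop)
    (h0 : ∀ Y : ModuleCat.{0} A, Subsingleton Y → Pr Y)
    (hS : ∀ i, Pr (ModuleCat.of A (Sm (D.χ i))))
    (hext : ∀ S : ShortComplex (ModuleCat.{0} A), S.ShortExact → Pr S.X₁ → Pr S.X₃ → Pr S.X₂)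
    (hiso : ∀ X Y : ModuleCat.{0} A, (X ≅ Y) → Pr X → Pr Y) (n : ℕ) :
    ∀ (Y : Type) [AddCommGroup Y] [Module K Y] [Module A Y] [IsScalarTower K A Y]
      [FiniteDimensional K Y], Module.finrank K Y = n → Pr (ModuleCat.of A Y) := by
  induction n using Nat.strong_induction_on with
  | _ n ih =>
    intro Y _ _ _ _ _ hn
    rcases subsingleton_or_nontrivial Y with hs | hnt
    · exact h0 _ hs
    · obtain ⟨i, w, hw0, hw⟩ := D.exists_eigen (Y := Y)
      let T : Submodule A Y := eigenSub hw
      have hex : Function.Exact T.subtype T.mkQ := by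
        rw [LinearMap.exact_iff]
        simp
      have hse := sc_shortExact T.subtype T.mkQ hex T.injective_subtype T.mkQ_surjective
      refine hext _ hse ?_ ?_
      · exact hiso _ _ (eigenEquiv hw0 hw).toModuleIso (hS i)
      · have hT : Module.finrank K (Y ⧸ T) < n := by
          rw [← hn]
          let g : Y →ₗ[K] (Y ⧸ T) := T.mkQ.restrictScalars K
          have hr : Module.finrank K (LinearMap.range g) + Module.finrank K (LinearMap.ker g)
              = Module.finrank K Y := LinearMap.finrank_range_add_finrank_ker g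
          have hr2 : LinearMap.range g = ⊤ := LinearMap.range_eq_top.2 T.mkQ_surjective
          have hk : 0 < Module.finrank K (LinearMap.ker g) := by
            apply Module.finrank_pos_iff_exists_ne_zero.2
            refine ⟨⟨w, ?_⟩, fun h => hw0 (congrArg Subtype.val h)⟩
            rw [LinearMap.mem_ker]
            change T.mkQ w = 0
            rw [Submodule.mkQ_apply, Submodule.Quotient.mk_eq_zero]
            exact ⟨1, by simp⟩
          rw [hr2, finrank_top] at hr
          omega
        have : FiniteDimensional K (Y ⧸ T) :=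
          Module.Finite.of_surjective (T.mkQ.restrictScalars K) T.mkQ_surjective
        exact ih _ hT (Y ⧸ T) rfl

end SplitBasic

end Pool.Agent.H34.GS
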