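import Pool.Agent.H34.GSSplit

/-!
Bimodules over a split basic algebra.
-/

open CategoryTheory TensorProduct MulOpposite

namespace Pool.Agent.H34.GS

namespace SplitBasic

variable {K A ι : Type} [Field K] [Ring A] [Algebra K A] [Fintype ι] [DecidableEq ι]
  (D : SplitBasic K A ι)

/-- The character of `A ⊗ Aᵐᵒᵖ` of the pair `(i, j)`. -/
noncomputable def chi2 (i j : ι) : A ⊗[K] Aᵐᵒᵖ →ₐ[K] K :=
  Algebra.TensorProduct.lift (D.χ i) (AlgHom.fromOpposite (D.χ j) (fun _ _ => Commute.all _ _))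
    (fun _ _ => Commute.all _ _)

lemma chi2_tmul (i j : ι) (a : A) (b : Aᵐᵒᵖ) :
    D.chi2 i j (a ⊗ₜ[K] b) = D.χ i a * D.χ j b.unop := by
  simp [chi2]

/-- The map from the simple bimodule to `Hom_K` of simple modules. -/
noncomputable def smHom (i j : ι) : Sm (D.chi2 i j) →ₗ[A ⊗[K] Aᵐᵒᵖ] HomB K (Sm (D.χ j)) (Sm (D.χ i)) :=
  linOfTmul (AddMonoidHom.mk' (fun c => HomB.mk
      (LinearMap.mulLeft K (show K from c) : K →ₗ[K] K))
      (fun c d => by
        apply HomB.ext'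
        intro n
        exact add_mul (show K from c) (show K from d) (show K from n)))
    (fun a b c => by
      apply HomB.ext'
      intro n
      rw [HomB.ev_tmul, Sm.smul_def, Sm.smul_def, Sm.smul_def, chi2_tmul]
      change (D.χ i a * D.χ j b.unop * (show K from c)) * (show K from n) =
        D.χ i a * ((show K from c) * (D.χ j b.unop * (show K from n)))
      ring)

lemma smHom_ev (i j : ι) (c : Sm (D.chi2 i j)) (n : Sm (D.χ j)) :
    (D.smHom i j c).ev n = ((show K from c) * (show K from n) : K) := rfl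

lemma smHom_bijective (i j : ι) : Function.Bijective (D.smHom i j) := by
  constructor
  · intro c d h
    have := congrArg (fun t => HomB.ev t (Sm.one (D.χ j))) h
    change ((show K from c) * 1 : K) = (show K from d) * 1 at this
    rw [mul_one, mul_one] at this
    exact this
  · intro φ
    let c : K := φ.ev (Sm.one (D.χ j))
    refine ⟨(c : Sm (D.chi2 i j)), ?_⟩
    apply HomB.ext'
    intro n
    have h1 : φ.ev n = (show K from n) • φ.ev (Sm.one (D.χ j)) := by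
      conv_lhs => rw [Sm.eq_smul_one _ n]
      exact HomB.ev_smul_right φ (show K from n) _
    rw [h1]
    exact mul_comm c (show K from n)

/-- The simple bimodule is `Hom_K` of simple modules. -/
noncomputable def smEquiv (i j : ι) :
    Sm (D.chi2 i j) ≃ₗ[A ⊗[K] Aᵐᵒᵖ] HomB K (Sm (D.χ j)) (Sm (D.χ i)) :=
  LinearEquiv.ofBijective (D.smHom i j) (D.smHom_bijective i j)

lemma exists_eigen2 {X : Type} [AddCommGroup X] [Module K X] [Module (A ⊗[K] Aᵐᵒᵖ) X]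
    [IsScalarTower K (A ⊗[K] Aᵐᵒᵖ) X] [Nontrivial X] :
    ∃ i j, ∃ w : X, w ≠ 0 ∧ ∀ t : A ⊗[K] Aᵐᵒᵖ, t • w = D.chi2 i j t • w := by
  obtain ⟨y₀, hne⟩ := exists_ne (0 : X)
  have hcomm : ∀ (a : A) (b : Aᵐᵒᵖ) (x : X),
      (a ⊗ₜ[K] (1 : Aᵐᵒᵖ)) • ((1 : A) ⊗ₜ[K] b) • x = ((1 : A) ⊗ₜ[K] b) • (a ⊗ₜ[K] (1 : Aᵐᵒᵖ)) • x := by
    intro a b x
    rw [← mul_smul, ← mul_smul]
    simp
  have hf : ∀ (l : List A) (y : X), l.foldr (fun a y => (a ⊗ₜ[K] (1 : Aᵐᵒᵖ)) • y) y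
      = (l.prod ⊗ₜ[K] (1 : Aᵐᵒᵖ)) • y := by
    intro l y
    induction l with
    | nil => simp [← Algebra.TensorProduct.one_def]
    | cons a l ih => simp [ih, ← mul_smul]
  have hf2 : ∀ (l : List A) (y : X), l.foldr (fun a y => ((1 : A) ⊗ₜ[K] op a) • y) y
      = ((1 : A) ⊗ₜ[K] op (l.reverse.prod)) • y := by
    intro l y
    induction l with
    | nil => simp [← Algebra.TensorProduct.one_def]
    | cons a l ih => simp [ih, ← mul_smul]
  have z1 : ∀ y : X, ((0 : A) ⊗ₜ[K] (1 : Aᵐᵒᵖ)) • y = 0 := by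
    intro y
    have : (0 : A) ⊗ₜ[K] (1 : Aᵐᵒᵖ) = 0 := TensorProduct.zero_tmul _ _
    rw [this]
    exact zero_smul (A ⊗[K] Aᵐᵒᵖ) y
  have z2 : ∀ y : X, ((1 : A) ⊗ₜ[K] op (0 : A)) • y = 0 := by
    intro y
    have : (1 : A) ⊗ₜ[K] op (0 : A) = 0 := TensorProduct.tmul_zero _ _
    rw [this]
    exact zero_smul (A ⊗[K] Aᵐᵒᵖ) y
  obtain ⟨v₀, -, hv₀, hk₀⟩ := D.exists_killed (fun a (y : X) => (a ⊗ₜ[K] (1 : Aᵐᵒᵖ)) • y)
    Set.univ (fun _ _ _ _ => trivial) y₀ trivial hne (fun l h1 h2 => by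
      rw [hf, D.nil l h1 h2, z1])
  obtain ⟨v, hvS, hv, hk⟩ := D.exists_killed (fun a (y : X) => ((1 : A) ⊗ₜ[K] op a) • y)
    {y | ∀ a, D.inJ a → (a ⊗ₜ[K] (1 : Aᵐᵒᵖ)) • y = 0}
    (fun a _ y hy b hb => by rw [hcomm, hy b hb, smul_zero]) v₀ hk₀ hv₀ (fun l h1 h2 => by
      rw [hf2, D.nil l.reverse (by simpa using h1) (fun a ha => h2 a (by simpa using ha)), z2])
  -- left eigenvector
  have sub1 : ∀ (a b : A) (y : X), ((a - b) ⊗ₜ[K] (1 : Aᵐᵒᵖ)) • y
      = (a ⊗ₜ[K] (1 : Aᵐᵒᵖ)) • y - (b ⊗ₜ[K] (1 : Aᵐᵒᵖ)) • y := by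
    intro a b y
    rw [TensorProduct.sub_tmul, sub_smul]
  have sub2 : ∀ (a b : A) (y : X), ((1 : A) ⊗ₜ[K] op (a - b)) • y
      = ((1 : A) ⊗ₜ[K] op a) • y - ((1 : A) ⊗ₜ[K] op b) • y := by
    intro a b y
    rw [MulOpposite.op_sub, TensorProduct.tmul_sub, sub_smul]
  have sm1 : ∀ (k : K) (b : A) (y : X), ((k • b) ⊗ₜ[K] (1 : Aᵐᵒᵖ)) • y
      = k • (b ⊗ₜ[K] (1 : Aᵐᵒᵖ)) • y := by
    intro k b y
    rw [← TensorProduct.smul_tmul', smul_assoc]
  have sm2 : ∀ (k : K) (b : A) (y : X), ((1 : A) ⊗ₜ[K] op (k • b)) • y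
      = k • ((1 : A) ⊗ₜ[K] op b) • y := by
    intro k b y
    rw [MulOpposite.op_smul, TensorProduct.tmul_smul, smul_assoc]
  have su1 : ∀ (y : X), ((∑ i, D.e i) ⊗ₜ[K] (1 : Aᵐᵒᵖ)) • y
      = ∑ i, (D.e i ⊗ₜ[K] (1 : Aᵐᵒᵖ)) • y := by
    intro y
    rw [TensorProduct.sum_tmul, Finset.sum_smul]
  have su2 : ∀ (y : X), ((1 : A) ⊗ₜ[K] op (∑ i, D.e i)) • y
      = ∑ i, ((1 : A) ⊗ₜ[K] op (D.e i)) • y := by
    intro y
    rw [Finset.op_sum, TensorProduct.tmul_sum, Finset.sum_smul]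
  have one1 : ∀ y : X, ((1 : A) ⊗ₜ[K] (1 : Aᵐᵒᵖ)) • y = y := by
    intro y
    rw [← Algebra.TensorProduct.one_def, one_smul]
  have h1 : ∑ i, (D.e i ⊗ₜ[K] (1 : Aᵐᵒᵖ)) • v = v := by
    have := hvS _ D.one_sub_mem
    rw [sub1, su1, one1, sub_eq_zero] at this
    exact this.symm
  obtain ⟨i, hi⟩ : ∃ i, (D.e i ⊗ₜ[K] (1 : Aᵐᵒᵖ)) • v ≠ 0 := by
    by_contra h
    push Not at h
    rw [Finset.sum_eq_zero (fun i _ => h i)] at h1
    exact hv h1.symm
  set u := (D.e i ⊗ₜ[K] (1 : Aᵐᵒᵖ)) • v with hu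
  have hul : ∀ a : A, (a ⊗ₜ[K] (1 : Aᵐᵒᵖ)) • u = D.χ i a • u := by
    intro a
    have := hvS _ (D.mul_e_sub a i)
    rw [sub1, sm1, sub_eq_zero] at this
    rw [hu, ← this, ← mul_smul]
    simp
  have hur : ∀ a, D.inJ a → ((1 : A) ⊗ₜ[K] op a) • u = 0 := by
    intro a ha
    rw [hu, ← hcomm, hk a ha, smul_zero]
  have h2 : ∑ j, ((1 : A) ⊗ₜ[K] op (D.e j)) • u = u := by
    have := hur _ D.one_sub_mem
    rw [sub2, su2, MulOpposite.op_one, one1, sub_eq_zero] at this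
    exact this.symm
  obtain ⟨j, hj⟩ : ∃ j, ((1 : A) ⊗ₜ[K] op (D.e j)) • u ≠ 0 := by
    by_contra h
    push Not at h
    rw [Finset.sum_eq_zero (fun i _ => h i)] at h2
    exact hi h2.symm
  refine ⟨i, j, ((1 : A) ⊗ₜ[K] op (D.e j)) • u, hj, ?_⟩
  intro t
  induction t using TensorProduct.induction_on with
  | zero =>
    rw [map_zero, zero_smul K]
    exact zero_smul (A ⊗[K] Aᵐᵒᵖ) (((1 : A) ⊗ₜ[K] op (D.e j)) • u)
  | add s t hs ht => rw [add_smul, hs, ht, map_add, add_smul]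
  | tmul a b =>
    have e1 : (a ⊗ₜ[K] b) = ((1 : A) ⊗ₜ[K] b) * (a ⊗ₜ[K] (1 : Aᵐᵒᵖ)) := by simp
    rw [e1, mul_smul, hcomm, hul, ← e1, chi2_tmul]
    have e2 : ∀ (k : K) (s : A ⊗[K] Aᵐᵒᵖ) (x : X), s • k • x = k • s • x := by
      intro k s x
      rw [← algebraMap_smul (A ⊗[K] Aᵐᵒᵖ) k x, ← algebraMap_smul (A ⊗[K] Aᵐᵒᵖ) k (s • x),
        ← mul_smul, ← mul_smul, Algebra.commutes]
    rw [e2, e2]
    have e3 : ((1 : A) ⊗ₜ[K] b) • ((1 : A) ⊗ₜ[K] op (D.e j)) • u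
        = D.χ j b.unop • ((1 : A) ⊗ₜ[K] op (D.e j)) • u := by
      have := hur _ (D.e_mul_sub b.unop j)
      rw [sub2, sm2, sub_eq_zero] at this
      rw [← this, ← mul_smul]
      simp
    rw [e3, mul_smul]

/-- Injective dimension of a finite-dimensional bimodule. -/
theorem id_bimodule (p : ℕ) (G : ι → ι → Prop)
    (hG : ∀ i j, G i j → ID (A ⊗[K] Aᵐᵒᵖ) (HomB K (Sm (D.χ j)) (Sm (D.χ i))) p) (n : ℕ) :
    ∀ (X : Type) [AddCommGroup X] [Module K X] [Module (A ⊗[K] Aᵐᵒᵖ) X]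
      [IsScalarTower K (A ⊗[K] Aᵐᵒᵖ) X] [FiniteDimensional K X],
      (∀ i j, ¬ G i j → ∀ x : X, (D.e i ⊗ₜ[K] op (D.e j)) • x = 0) →
      Module.finrank K X = n → ID (A ⊗[K] Aᵐᵒᵖ) X p := by
  induction n using Nat.strong_induction_on with
  | _ n ih =>
    intro X _ _ _ _ _ hX hn
    rcases subsingleton_or_nontrivial X with hs | hnt
    · have := (ModuleCat.isZero_of_subsingleton
        (ModuleCat.of (A ⊗[K] Aᵐᵒᵖ) X)).hasInjectiveDimensionLT_zero
      exact hasInjectiveDimensionLT_of_ge _ 0 p (Nat.zero_le p)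
    · obtain ⟨i, j, w, hw0, hw⟩ := D.exists_eigen2 (X := X)
      let T : Submodule (A ⊗[K] Aᵐᵒᵖ) X := eigenSub hw
      have hex : Function.Exact T.subtype T.mkQ := by
        rw [LinearMap.exact_iff]
        simp
      have hgij : G i j := by
        by_contra hcon
        have h1 := hX i j hcon w
        rw [hw, chi2_tmul, unop_op, D.χe, D.χe, if_pos rfl, if_pos rfl, mul_one, one_smul] at h1
        exact hw0 h1
      refine id_X2 (R := A ⊗[K] Aᵐᵒᵖ) (L := T) (P := X) (N := X ⧸ T) T.subtype T.mkQ hex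
        T.injective_subtype T.mkQ_surjective ?_ ?_
      · exact id_equiv (eigenEquiv hw0 hw) (id_equiv (D.smEquiv i j).symm (hG i j hgij))
      · have hT : Module.finrank K (X ⧸ T) < n := by
          rw [← hn]
          let g : X →ₗ[K] (X ⧸ T) := T.mkQ.restrictScalars K
          have hr : Module.finrank K (LinearMap.range g) + Module.finrank K (LinearMap.ker g)
              = Module.finrank K X := LinearMap.finrank_range_add_finrank_ker g
          have hr2 : LinearMap.range g = ⊤ := LinearMap.range_eq_top.2 T.mkQ_surjective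
          have hk : 0 < Module.finrank K (LinearMap.ker g) := by
            apply Module.finrank_pos_iff_exists_ne_zero.2
            refine ⟨⟨w, ?_⟩, fun h => hw0 (congrArg Subtype.val h)⟩
            rw [LinearMap.mem_ker]
            change T.mkQ w = 0
            rw [Submodule.mkQ_apply, Submodule.Quotient.mk_eq_zero]
            exact ⟨1, by simp⟩
          rw [hr2, finrank_top] at hr
          omega
        have : FiniteDimensional K (X ⧸ T) :=
          Module.Finite.of_surjective (T.mkQ.restrictScalars K) T.mkQ_surjective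
        refine ih _ hT (X ⧸ T) ?_ rfl
        intro i j hij x
        obtain ⟨y, rfl⟩ := T.mkQ_surjective x
        rw [← map_smul, hX i j hij, map_zero]

end SplitBasic

end Pool.Agent.H34.GS
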