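import Pool.Agent.H34.GSAlg6

/-!
The algebra `B` is symmetric and `V` is a generator.
-/

open CategoryTheory TensorProduct MulOpposite Abelian

namespace Pool.Agent.H34.GS

section Alg

variable {K : Type} [Field K]

/-- The symmetrising form, on all endomorphisms. -/
def lam : Module.End K (V K) →ₗ[K] K where
  toFun b := (b (Pi.single 0 1)) 3 + (b (Pi.single 4 1)) 7 + (b (Pi.single 8 1)) 11
  map_add' b c := by
    simp only [LinearMap.add_apply, Pi.add_apply]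
    ring
  map_smul' k b := by
    simp only [LinearMap.smul_apply, Pi.smul_apply, smul_eq_mul, RingHom.id_apply]
    ring

lemma lam_apply (b : Module.End K (V K)) :
    lam b = (b (Pi.single 0 1)) 3 + (b (Pi.single 4 1)) 7 + (b (Pi.single 8 1)) 11 := rfl

/-- The index of a basis vector of a long chain. -/
def ix (p : Fin 4 × Fin 3) : Fin 16 := ⟨4 * p.2 + p.1, by omega⟩

lemma bet_single (p : Fin 4 × Fin 3) (s t : Fin 16) :
    (bet p (Pi.single s 1 : V K)) t =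
      if cmp s = p.2 ∧ (p.1 : ℕ) ≤ pos t ∧ t - Fin.ofNat 16 p.1 = s then 1 else 0 := by
  rw [bet, Module.End.mul_apply, Xpow_apply]
  split_ifs with h1 h2 h2
  · rw [E_apply, h2.2.2, h2.1]; simp
  · rw [E_apply]
    split_ifs with h3
    · rw [Pi.single_apply, if_neg]
      intro h4
      exact h2 ⟨h4 ▸ h3, h1, h4⟩
    · rfl
  · exact absurd h2.2.1 h1
  · rfl

/-- The condition for a product of two spanning elements to be in the support of the form. -/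
def cond (p q : Fin 4 × Fin 3) : Prop := p.2 = q.2 + rs q.1 ∧ (p.1 : ℕ) + q.1 = 3

instance (p q : Fin 4 × Fin 3) : Decidable (cond p q) := by unfold cond; infer_instance

lemma lam_bet (p : Fin 4 × Fin 3) : lam (bet p : Module.End K (V K)) = if p.1 = 3 then 1 else 0 := by
  rw [lam_apply, bet_single, bet_single, bet_single]
  have h : ∀ p : Fin 4 × Fin 3,
    (p.1 = 3 ∧ (cmp 0 = p.2 ∧ (p.1 : ℕ) ≤ pos 3 ∧ (3 : Fin 16) - Fin.ofNat 16 p.1 = 0) ∧
      ¬ (cmp 4 = p.2 ∧ (p.1 : ℕ) ≤ pos 7 ∧ (7 : Fin 16) - Fin.ofNat 16 p.1 = 4) ∧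
      ¬ (cmp 8 = p.2 ∧ (p.1 : ℕ) ≤ pos 11 ∧ (11 : Fin 16) - Fin.ofNat 16 p.1 = 8)) ∨
    (p.1 = 3 ∧ ¬ (cmp 0 = p.2 ∧ (p.1 : ℕ) ≤ pos 3 ∧ (3 : Fin 16) - Fin.ofNat 16 p.1 = 0) ∧
      (cmp 4 = p.2 ∧ (p.1 : ℕ) ≤ pos 7 ∧ (7 : Fin 16) - Fin.ofNat 16 p.1 = 4) ∧
      ¬ (cmp 8 = p.2 ∧ (p.1 : ℕ) ≤ pos 11 ∧ (11 : Fin 16) - Fin.ofNat 16 p.1 = 8)) ∨
    (p.1 = 3 ∧ ¬ (cmp 0 = p.2 ∧ (p.1 : ℕ) ≤ pos 3 ∧ (3 : Fin 16) - Fin.ofNat 16 p.1 = 0) ∧
      ¬ (cmp 4 = p.2 ∧ (p.1 : ℕ) ≤ pos 7 ∧ (7 : Fin 16) - Fin.ofNat 16 p.1 = 4) ∧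
      (cmp 8 = p.2 ∧ (p.1 : ℕ) ≤ pos 11 ∧ (11 : Fin 16) - Fin.ofNat 16 p.1 = 8)) ∨
    (p.1 ≠ 3 ∧ ¬ (cmp 0 = p.2 ∧ (p.1 : ℕ) ≤ pos 3 ∧ (3 : Fin 16) - Fin.ofNat 16 p.1 = 0) ∧
      ¬ (cmp 4 = p.2 ∧ (p.1 : ℕ) ≤ pos 7 ∧ (7 : Fin 16) - Fin.ofNat 16 p.1 = 4) ∧
      ¬ (cmp 8 = p.2 ∧ (p.1 : ℕ) ≤ pos 11 ∧ (11 : Fin 16) - Fin.ofNat 16 p.1 = 8)) := by
    decide
  rcases h p with ⟨h0, h1, h2, h3⟩ | ⟨h0, h1, h2, h3⟩ | ⟨h0, h1, h2, h3⟩ | ⟨h0, h1, h2, h3⟩
  · rw [if_pos h0, if_pos h1, if_neg h2, if_neg h3]; ring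
  · rw [if_pos h0, if_neg h1, if_pos h2, if_neg h3]; ring
  · rw [if_pos h0, if_neg h1, if_neg h2, if_pos h3]; ring
  · rw [if_neg h0, if_neg h1, if_neg h2, if_neg h3]; ring

lemma lam_mul (p q : Fin 4 × Fin 3) : lam (bet p * bet q : Module.End K (V K))
    = if cond p q then 1 else 0 := by
  rw [bet_mul]
  by_cases h : p.2 = q.2 + rs q.1 ∧ (p.1 : ℕ) + q.1 < 4
  · rw [dif_pos h, lam_bet]
    by_cases h3 : (p.1 : ℕ) + q.1 = 3
    · rw [if_pos (Fin.ext h3), if_pos ⟨h.1, h3⟩]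
    · rw [if_neg (fun h' => h3 (congrArg Fin.val h')), if_neg (fun h' => h3 h'.2)]
  · rw [dif_neg h, map_zero, if_neg]
    rintro ⟨h1, h2⟩
    exact h ⟨h1, by omega⟩

lemma cond_comm : ∀ p q, cond p q ↔ cond q p := by decide

lemma cond_sep : ∀ p, ∃ q, ∀ p', cond p' q ↔ p' = p := by decide

lemma lam_comm {b c : Module.End K (V K)} (hb : b ∈ BB K) (hc : c ∈ BB K) :
    lam (b * c) = lam (c * b) := by
  rw [mem_BB] at hb hc
  induction hb using Submodule.span_induction with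
  | mem x hx =>
    obtain ⟨p, rfl⟩ := hx
    induction hc using Submodule.span_induction with
    | mem y hy =>
      obtain ⟨q, rfl⟩ := hy
      rw [lam_mul, lam_mul]
      exact if_congr (cond_comm p q) rfl rfl
    | zero => simp
    | add a b _ _ ha hb => rw [mul_add, add_mul, map_add, map_add, ha, hb]
    | smul k a _ ha => rw [mul_smul_comm, smul_mul_assoc, map_smul, map_smul, ha]
  | zero => simp
  | add a b _ _ ha hb => rw [mul_add, add_mul, map_add, map_add, ha, hb]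
  | smul k a _ ha => rw [mul_smul_comm, smul_mul_assoc, map_smul, map_smul, ha]

lemma lam_nondeg {b : Module.End K (V K)} (hb : b ∈ BB K) (h : ∀ c ∈ BB K, lam (b * c) = 0) :
    b = 0 := by
  rw [mem_BB, Submodule.mem_span_range_iff_exists_fun] at hb
  obtain ⟨c, rfl⟩ := hb
  refine Finset.sum_eq_zero fun p _ => ?_
  obtain ⟨q, hq⟩ := cond_sep p
  have h1 := h (bet q) (bet_mem q)
  rw [Finset.sum_mul, map_sum, Finset.sum_eq_single p] at h1
  · rw [smul_mul_assoc, map_smul, lam_mul, if_pos ((hq p).2 rfl), smul_eq_mul, mul_one] at h1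
    rw [h1, zero_smul]
  · intro p' _ hp'
    rw [smul_mul_assoc, map_smul, lam_mul, if_neg (fun h => hp' ((hq p').1 h)), smul_zero]
  · simp

instance finite_BB : FiniteDimensional K (BB K) :=
  Module.Finite.of_injective ((BB K).val.toLinearMap) Subtype.val_injective

lemma dual_surj {W : Type} [AddCommGroup W] [Module K W] [FiniteDimensional K W]
    (f : W →ₗ[K] Module.Dual K W) (hf : Function.Injective f) : Function.Surjective f :=
  (LinearMap.injective_iff_surjective_of_finrank_eq_finrank (Subspace.dual_finrank_eq).symm).1 hf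

/-- A nondegenerate trace form gives an isomorphism with the dual. -/
lemma exists_dual_equiv {C : Type} [Ring C] [Algebra K C] (B : Subalgebra K C)
    [FiniteDimensional K B] (l : C →ₗ[K] K) (hc : ∀ b ∈ B, ∀ c ∈ B, l (b * c) = l (c * b))
    (hn : ∀ b ∈ B, (∀ c ∈ B, l (b * c) = 0) → b = 0) :
    ∃ φ : B ≃ₗ[K] Module.Dual K B,
      ∀ b c d : B, φ (b * c) d = φ c (d * b) ∧ φ (c * b) d = φ c (b * d) := by
  let f : B →ₗ[K] Module.Dual K B :=
    { toFun := fun b =>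
        { toFun := fun c => l ((b : C) * (c : C))
          map_add' := fun c d => by simp [mul_add]
          map_smul' := fun k c => by simp }
      map_add' := fun b c => by
        apply LinearMap.ext
        intro d
        simp [add_mul]
      map_smul' := fun k b => by
        apply LinearMap.ext
        intro d
        simp }
  have hf : ∀ b c, f b c = l ((b : C) * (c : C)) := fun b c => rfl
  have hinj : Function.Injective f := by
    rw [injective_iff_map_eq_zero]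
    intro b hb
    apply Subtype.ext
    refine hn b b.2 fun c hc => ?_
    have := LinearMap.congr_fun hb ⟨c, hc⟩
    exact this
  refine ⟨LinearEquiv.ofBijective f ⟨hinj, dual_surj f hinj⟩, ?_⟩
  intro b c d
  change f (b * c) d = f c (d * b) ∧ f (c * b) d = f c (b * d)
  rw [hf, hf, hf, hf, Subalgebra.coe_mul, Subalgebra.coe_mul, Subalgebra.coe_mul,
    Subalgebra.coe_mul, mul_assoc, mul_assoc]
  refine ⟨?_, rfl⟩
  rw [hc b b.2 _ (B.mul_mem c.2 d.2), mul_assoc]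

variable (K) in
lemma symmetric_BB : ∃ φ : BB K ≃ₗ[K] Module.Dual K (BB K),
      ∀ b c d : BB K, φ (b * c) d = φ c (d * b) ∧ φ (c * b) d = φ c (b * d) :=
  exists_dual_equiv (BB K) lam (fun _ hb _ hc => lam_comm hb hc) (fun _ hb h => lam_nondeg hb h)

/-- The generator of the summand `B` of `V`. -/
def uu : V K := Pi.single 0 1 + Pi.single 4 1 + Pi.single 8 1

lemma bet_uu (p : Fin 4 × Fin 3) : bet p (uu : V K) = Pi.single (ix p) 1 := by
  ext t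
  rw [uu, map_add, map_add, Pi.add_apply, Pi.add_apply, bet_single, bet_single, bet_single,
    Pi.single_apply]
  have h : ∀ (p : Fin 4 × Fin 3) (t : Fin 16),
    (t = ix p ∧ (cmp 0 = p.2 ∧ (p.1 : ℕ) ≤ pos t ∧ t - Fin.ofNat 16 p.1 = 0) ∧
      ¬ (cmp 4 = p.2 ∧ (p.1 : ℕ) ≤ pos t ∧ t - Fin.ofNat 16 p.1 = 4) ∧
      ¬ (cmp 8 = p.2 ∧ (p.1 : ℕ) ≤ pos t ∧ t - Fin.ofNat 16 p.1 = 8)) ∨
    (t = ix p ∧ ¬ (cmp 0 = p.2 ∧ (p.1 : ℕ) ≤ pos t ∧ t - Fin.ofNat 16 p.1 = 0) ∧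
      (cmp 4 = p.2 ∧ (p.1 : ℕ) ≤ pos t ∧ t - Fin.ofNat 16 p.1 = 4) ∧
      ¬ (cmp 8 = p.2 ∧ (p.1 : ℕ) ≤ pos t ∧ t - Fin.ofNat 16 p.1 = 8)) ∨
    (t = ix p ∧ ¬ (cmp 0 = p.2 ∧ (p.1 : ℕ) ≤ pos t ∧ t - Fin.ofNat 16 p.1 = 0) ∧
      ¬ (cmp 4 = p.2 ∧ (p.1 : ℕ) ≤ pos t ∧ t - Fin.ofNat 16 p.1 = 4) ∧
      (cmp 8 = p.2 ∧ (p.1 : ℕ) ≤ pos t ∧ t - Fin.ofNat 16 p.1 = 8)) ∨
    (t ≠ ix p ∧ ¬ (cmp 0 = p.2 ∧ (p.1 : ℕ) ≤ pos t ∧ t - Fin.ofNat 16 p.1 = 0) ∧
      ¬ (cmp 4 = p.2 ∧ (p.1 : ℕ) ≤ pos t ∧ t - Fin.ofNat 16 p.1 = 4) ∧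
      ¬ (cmp 8 = p.2 ∧ (p.1 : ℕ) ≤ pos t ∧ t - Fin.ofNat 16 p.1 = 8)) := by
    decide
  rcases h p t with ⟨h0, h1, h2, h3⟩ | ⟨h0, h1, h2, h3⟩ | ⟨h0, h1, h2, h3⟩ | ⟨h0, h1, h2, h3⟩
  · rw [if_pos h0, if_pos h1, if_neg h2, if_neg h3]; ring
  · rw [if_pos h0, if_neg h1, if_pos h2, if_neg h3]; ring
  · rw [if_pos h0, if_neg h1, if_neg h2, if_pos h3]; ring
  · rw [if_neg h0, if_neg h1, if_neg h2, if_neg h3]; ring

lemma ix_inj : Function.Injective ix := by decide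

/-- The embedding of `B`. -/
def iB : BB K →ₗ[BB K] V K := LinearMap.toSpanSingleton (BB K) (V K) uu

lemma iB_apply (b : BB K) : iB b = (b : Module.End K (V K)) uu := rfl

lemma iB_inj : Function.Injective (iB (K := K)) := by
  rw [injective_iff_map_eq_zero]
  rintro ⟨b, hb⟩ h
  apply Subtype.ext
  change b uu = 0 at h
  change b = 0
  rw [mem_BB, Submodule.mem_span_range_iff_exists_fun] at hb
  obtain ⟨c, rfl⟩ := hb
  refine Finset.sum_eq_zero fun p _ => ?_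
  have h1 := congrFun h (ix p)
  rw [LinearMap.sum_apply, Finset.sum_apply, Finset.sum_eq_single p] at h1
  · rw [LinearMap.smul_apply, bet_uu, Pi.smul_apply, Pi.single_eq_same, smul_eq_mul,
      mul_one, Pi.zero_apply] at h1
    rw [h1, zero_smul]
  · intro p' _ hp'
    rw [LinearMap.smul_apply, bet_uu, Pi.smul_apply, Pi.single_apply,
      if_neg (fun h => hp' (ix_inj h).symm), smul_zero]
  · simp

/-- The projection to the long chains. -/
def piB : V K →ₗ[BB K] V K := (show Module.End (BB K) (V K) from (ee 0 + ee 1 + ee 2 : AA K))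

lemma piB_apply (m : V K) (n : Fin 16) : piB m n = if n < 12 then m n else 0 := by
  change (if chn n = 0 then m n else 0) + (if chn n = 1 then m n else 0) +
    (if chn n = 2 then m n else 0) = _
  have h : ∀ n, (n < 12 ∧ chn n = 0 ∧ chn n ≠ 1 ∧ chn n ≠ 2) ∨
    (n < 12 ∧ chn n ≠ 0 ∧ chn n = 1 ∧ chn n ≠ 2) ∨
    (n < 12 ∧ chn n ≠ 0 ∧ chn n ≠ 1 ∧ chn n = 2) ∨
    (¬ (n < 12) ∧ chn n ≠ 0 ∧ chn n ≠ 1 ∧ chn n ≠ 2) := by decide
  rcases h n with ⟨h0, h1, h2, h3⟩ | ⟨h0, h1, h2, h3⟩ | ⟨h0, h1, h2, h3⟩ | ⟨h0, h1, h2, h3⟩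
  · rw [if_pos h0, if_pos h1, if_neg h2, if_neg h3]; ring
  · rw [if_pos h0, if_neg h1, if_pos h2, if_neg h3]; ring
  · rw [if_pos h0, if_neg h1, if_neg h2, if_pos h3]; ring
  · rw [if_neg h0, if_neg h1, if_neg h2, if_neg h3]; ring

lemma piB_mem (m : V K) : piB m ∈ LinearMap.range (iB (K := K)) := by
  have h1 : piB m = ∑ p : Fin 4 × Fin 3, m (ix p) • (Pi.single (ix p) (1 : K) : V K) := by
    ext t
    rw [piB_apply, Finset.sum_apply]
    have h : ∀ t : Fin 16, (t < 12 ∧ ∃ p, ix p = t) ∨ (¬ (t < 12) ∧ ∀ p, ix p ≠ t) := by decide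
    rcases h t with ⟨h0, p, hp⟩ | ⟨h0, h1⟩
    · rw [if_pos h0, Finset.sum_eq_single p]
      · rw [hp]; simp
      · intro p' _ hp'
        rw [Pi.smul_apply, Pi.single_apply, if_neg, smul_zero]
        intro h2
        exact hp' (ix_inj (h2.symm.trans hp.symm))
      · simp
    · rw [if_neg h0, Finset.sum_eq_zero]
      intro p _
      rw [Pi.smul_apply, Pi.single_apply, if_neg (fun h => h1 p h.symm), smul_zero]
  rw [h1]
  refine Submodule.sum_mem _ fun p _ => ?_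
  refine ⟨m (ix p) • ⟨bet p, bet_mem p⟩, ?_⟩
  rw [iB_apply]
  change (m (ix p) • bet p) uu = _
  rw [LinearMap.smul_apply, bet_uu]

lemma piB_iB (b : BB K) : piB (iB b) = iB b := by
  ext t
  rw [piB_apply]
  split_ifs with h
  · rfl
  · obtain ⟨b, hb⟩ := b
    change 0 = (b uu) t
    rw [mem_BB, Submodule.mem_span_range_iff_exists_fun] at hb
    obtain ⟨c, rfl⟩ := hb
    rw [LinearMap.sum_apply, Finset.sum_apply, Finset.sum_eq_zero]
    intro p _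
    rw [LinearMap.smul_apply, bet_uu, Pi.smul_apply, Pi.single_apply, if_neg, smul_zero]
    rintro rfl
    revert h
    revert p
    decide

/-- The retraction of `V` to `B`. -/
noncomputable def pB : V K →ₗ[BB K] BB K :=
  (LinearEquiv.ofInjective (iB (K := K)) iB_inj).symm.toLinearMap ∘ₗ
    (LinearMap.codRestrict _ piB piB_mem)

lemma pB_iB : pB ∘ₗ iB = (LinearMap.id : BB K →ₗ[BB K] BB K) := by
  apply LinearMap.ext
  intro b
  apply (LinearEquiv.ofInjective (iB (K := K)) iB_inj).injective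
  rw [LinearMap.comp_apply, pB, LinearMap.comp_apply, LinearEquiv.coe_coe,
    LinearEquiv.apply_symm_apply]
  apply Subtype.ext
  exact piB_iB b

end Alg

end Pool.Agent.H34.GS
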