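import Pool.Agent.H34.ImCfl

/-!
# Links between selected members
-/

namespace Pool.Agent.H34.Im

open Finset Classical

variable {V : Type} [Fintype V]

/-- the subfamily with a common column structure -/
theorem family_star {N : SimpleGraph V} {ω : V → ℕ} {V1 : Finset V} {K M r1 r : ℕ}
    {m Λ cs ce q : ℝ} (hN : NetHyp N ω V1 K M r1 r m Λ cs ce q) {b Nn : ℕ}
    {F0 : Finset (Finset V)} (hF0 : FamHyp N V1 K M b (Nn * b) r1 r Λ ce q F0)
    (hNn : b * b < Nn) (hne : Nonempty V) :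
    ∃ (F : Finset (Finset V)) (VH : ℕ → Finset V)
      (EH : ℕ → Finset (Sym2 V)) (z : ℕ → Finset V → V) (Γ : ℕ → Finset V → Finset (Sym2 V)),
      St N V1 r1 r b (Nn * b) Λ F0 (Nn * b) F VH EH z Γ ∧
      ∃ Fs ⊆ F, ∃ col : ℕ → ℕ,
        (F0.card : ℝ) / Λ ^ (2 * (Nn * b)) / (Nn : ℝ) ^ (Nn * b) ≤ Fs.card ∧
        (∀ t < Nn * b, col t < Nn) ∧
        (∀ t < Nn * b, ∀ t' < Nn * b, t / b = t' / b → col t = col t' → t = t') ∧
        ∀ x ∈ Fs, (∀ j < Nn, Lk (allE (Nn * b) Γ x : Set (Sym2 V)) (cnt Prod.snd (arms N V1 x))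
            (fun t => z t x) ((Finset.range (Nn * b)).filter (fun t => t / b = j))) ∧
          (∀ l < Nn, Lk (allE (Nn * b) Γ x : Set (Sym2 V)) (cnt Prod.snd (arms N V1 x))
            (fun t => z t x) (fib (Nn * b) col l)) := by
  rcases Nat.eq_zero_or_pos b with hb0 | hb
  · subst hb0
    obtain ⟨v0⟩ := hne
    refine ⟨F0, fun _ => ∅, fun _ => ∅, fun _ _ => v0, fun _ _ => ∅, ?_, F0, le_rfl,
      fun _ => 0, ?_, ?_, ?_, ?_⟩
    · rw [mul_zero]
      refine ⟨le_rfl, by simp, ?_, ?_, ?_, ?_, ?_, ?_, ?_, ?_, ?_, ?_, ?_⟩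
      · intro t ht; omega
      · intro t ht; omega
      · intro t ht; omega
      · intro t ht; omega
      · intro x _ t ht; omega
      · intro x _ t ht; omega
      · intro x _ t ht; omega
      · intro x _ t ht; omega
      · intro x _ t ht; omega
      · intro x _ j
        refine ⟨∅, Finset.empty_subset _, by simp, fun _ _ => 0, ⟨?_, ?_, ?_⟩, ?_⟩
        · intro u v; simp
        · intro u v; norm_num
        · intro u v h; exact absurd rfl h
        · intro v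
          simp [dv, cnt]
      · intro t ht; omega
    · simp
    · intro t ht; omega
    · intro t ht; omega
    · intro x hx
      have h0 : arms N V1 x = ∅ := Finset.card_eq_zero.1 (hF0.hcl x hx).hb
      have hz : ∀ A : Finset ℕ, A = ∅ → Lk (allE (Nn * 0) (fun _ _ => ∅) x : Set (Sym2 V))
          (cnt Prod.snd (arms N V1 x)) (fun _ => v0) A := by
        rintro A rfl
        refine ⟨fun _ _ => 0, ⟨?_, ?_, ?_⟩, ?_⟩
        · intro u v; simp
        · intro u v; norm_num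
        · intro u v h; exact absurd rfl h
        · intro v
          rw [h0]
          simp [dv, cnt]
      refine ⟨fun j _ => hz _ (by simp), fun l _ => hz _ (by unfold fib; simp)⟩
  · obtain ⟨F, VH, EH, z, Γ, hSt⟩ := hub_iter hN hF0 hb hne (Nn * b) le_rfl
    refine ⟨F, VH, EH, z, Γ, hSt, ?_⟩
    have hNpos : 0 < Nn := by omega
    have hcols : ∀ x : Finset V, ∃ col : Fin (Nn * b) → Fin Nn, x ∈ F →
      ((∀ l : Fin Nn, Lk (allE (Nn * b) Γ x : Set (Sym2 V)) (cnt Prod.snd (arms N V1 x))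
        (fun t => z t x)
        ((Finset.range (Nn * b)).filter (fun t => ∃ h : t < Nn * b, col ⟨t, h⟩ = l))) ∧
      ∀ t t' : Fin (Nn * b), t.1 / b = t'.1 / b → col t = col t' → t = t') := by
      intro x
      by_cases hx : x ∈ F
      · obtain ⟨col, h1, h2⟩ := cols_linked hF0 hb hNn hSt hx
        exact ⟨col, fun _ => ⟨h1, h2⟩⟩
      · exact ⟨fun _ => ⟨0, hNpos⟩, fun h => absurd h hx⟩
    choose colx hcolx using hcols
    have hΛ := hN.hΛ
    have hΛ0 : (0:ℝ) < Λ := by linarith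
    have hNR : (0:ℝ) < Nn := by exact_mod_cast hNpos
    have hcardfun : (Finset.univ : Finset (Fin (Nn * b) → Fin Nn)).card = Nn ^ (Nn * b) := by
      rw [Finset.card_univ, Fintype.card_fun, Fintype.card_fin, Fintype.card_fin]
    obtain ⟨c0, -, hc0⟩ := Finset.exists_le_card_fiber_of_nsmul_le_card_of_maps_to
      (s := F) (t := (Finset.univ : Finset (Fin (Nn * b) → Fin Nn))) (f := colx)
      (b := (F.card : ℝ) / (Nn : ℝ) ^ (Nn * b)) (fun x _ => Finset.mem_univ _)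
      ⟨fun _ => ⟨0, hNpos⟩, Finset.mem_univ _⟩ (by
        rw [hcardfun, nsmul_eq_mul]
        push_cast
        rw [mul_div_cancel₀]
        positivity)
    have hFpos : (0:ℝ) < F.card :=
      lt_of_lt_of_le (by have := hF0.pos hΛ; positivity) hSt.big
    set Fs : Finset (Finset V) := F.filter (fun x => colx x = c0) with hFs
    have hFsne : Fs.Nonempty := by
      rw [← Finset.card_pos]
      have : (0:ℝ) < Fs.card := lt_of_lt_of_le (by positivity) hc0
      exact_mod_cast this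
    obtain ⟨x0, hx0⟩ := hFsne
    refine ⟨Fs, Finset.filter_subset _ _,
      fun t => if h : t < Nn * b then (c0 ⟨t, h⟩).1 else 0, ?_, ?_, ?_, ?_⟩
    · refine le_trans ?_ hc0
      exact div_le_div_of_nonneg_right hSt.big (by positivity)
    · intro t ht
      simp only [dif_pos ht]
      exact (c0 ⟨t, ht⟩).2
    · intro t ht t' ht' hr hc
      simp only [dif_pos ht, dif_pos ht'] at hc
      obtain ⟨hx0F, hx0c⟩ := Finset.mem_filter.1 hx0
      have h1 := (hcolx x0 hx0F).2 ⟨t, ht⟩ ⟨t', ht'⟩ hr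
        (by rw [hx0c]; exact Fin.ext hc)
      exact congrArg Fin.val h1
    · intro x hx
      obtain ⟨hxF, hxc⟩ := Finset.mem_filter.1 hx
      refine ⟨fun j hj => rows_linked hF0 hb hSt hxF hj, fun l hl => ?_⟩
      have h1 := (hcolx x hxF).1 ⟨l, hl⟩
      rw [hxc] at h1
      have h2 : fib (Nn * b) (fun t => if h : t < Nn * b then (c0 ⟨t, h⟩).1 else 0) l
          = (Finset.range (Nn * b)).filter (fun t => ∃ h : t < Nn * b, c0 ⟨t, h⟩ = ⟨l, hl⟩) := by
        ext t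
        rw [mem_fib, Finset.mem_filter, Finset.mem_range]
        constructor
        · rintro ⟨h3, h4⟩
          rw [dif_pos h3] at h4
          exact ⟨h3, h3, Fin.ext h4⟩
        · rintro ⟨h3, h4, h5⟩
          refine ⟨h3, ?_⟩
          rw [dif_pos h3, h5]
      rw [h2]; exact h1

/-- the links -/
theorem links {U : Type} {N : SimpleGraph V} {ω : V → ℕ} {V1 : Finset V} {K M r1 r : ℕ}
    {m Λ cs ce q : ℝ} (hN : NetHyp N ω V1 K M r1 r m Λ cs ce q) {b Nn : ℕ}
    {F0 : Finset (Finset V)} (hF0 : FamHyp N V1 K M b (Nn * b) r1 r Λ ce q F0)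
    (hNn : b * b < Nn) (hne : Nonempty V) (cl : V → U) {B : ℝ} (hB0 : 0 ≤ B)
    (hB : ∀ y ∈ F0, ∀ v ∈ y,
      ((Finset.univ.filter (fun u => (∃ x ∈ F0, u ∈ x) ∧ cl u = cl v)).card : ℝ) ≤ B)
    (hR4 : (2 * Nn : ℕ) * (1 + (((Nn * b : ℕ) : ℝ) * r + M * K) *
      (((Nn * b : ℕ) : ℝ) * (2 * (F0.card / Λ ^ (2 * (Nn * b) + 4))))
      + 2 * (((Nn * b : ℕ) : ℝ) * r) + M * K + M * B)
      < (F0.card : ℝ) / Λ ^ (2 * (Nn * b)) / (Nn : ℝ) ^ (Nn * b)) :
    ∃ (X : ℕ → Finset V) (col : ℕ → ℕ) (a a' : ℕ → V) (LS : ℕ → Finset (Sym2 V)),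
      (∀ p < 2 * Nn, X p ∈ F0) ∧
      (∀ p < 2 * Nn, ∀ p' < 2 * Nn, p ≠ p' →
        Disjoint (X p) (X p') ∧ ∀ u ∈ X p, ∀ v ∈ X p', cl u ≠ cl v) ∧
      (∀ t < Nn * b, col t < Nn) ∧
      (∀ t < Nn * b, ∀ t' < Nn * b, t / b = t' / b → col t = col t' → t = t') ∧
      (∀ t < Nn * b, a t ∈ X (t / b) ∧ a' t ∈ X (Nn + col t) ∧
        (LS t).card ≤ 2 * (Nn * b * r + 1 + r) ∧ (∀ e ∈ LS t, e ∈ N.edgeSet) ∧
        Conn (LS t : Set (Sym2 V)) (a t) (a' t)) ∧
      (∀ t < Nn * b, ∀ t' < Nn * b, t ≠ t' → Disjoint (LS t) (LS t')) ∧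
      (∀ t < Nn * b, ∀ e ∈ LS t, ∀ p < 2 * Nn, ∀ u ∈ X p, ∀ v, e = s(u, v) →
        v ∈ V1 ∧ v ∉ X p) := by
  obtain ⟨F, VH, EH, z, Γ, hSt, Fs, hFsF, col, hFsc, hcol, hinj, hlk⟩ :=
    family_star hN hF0 hNn hne
  set T := Nn * b with hT
  have hd0 : 0 ≤ 1 + (((Nn * b : ℕ) : ℝ) * r + M * K) *
      (((Nn * b : ℕ) : ℝ) * (2 * (F0.card / Λ ^ (2 * (Nn * b) + 4))))
      + 2 * (((Nn * b : ℕ) : ℝ) * r) + M * K + M * B := by
    have h0 : (0:ℝ) < Λ := by linarith [hN.hΛ]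
    positivity
  obtain ⟨X, hX⟩ := greedy Fs (fun x y => Cfl N T Γ cl x y) _ hd0 (2 * Nn) (by
    intro y hy
    refine le_trans ?_ (cfl_card hN hF0 hSt cl hB0 hB (hFsF hy))
    exact_mod_cast Finset.card_le_card (Finset.filter_subset_filter _ hFsF))
    (lt_of_lt_of_le hR4 hFsc)
  -- symmetric non-conflict
  have hnc : ∀ p < 2 * Nn, ∀ p' < 2 * Nn, p ≠ p' → X p ≠ X p' ∧
      Disjoint (allE T Γ (X p)) (allE T Γ (X p')) ∧ (∀ e ∈ allE T Γ (X p), ∀ u ∈ X p', u ∉ e) ∧
      (∀ u ∈ X p, ∀ v ∈ X p', ¬ N.Adj u v) ∧ (∀ u ∈ X p, ∀ v ∈ X p', cl u ≠ cl v) := by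
    have key : ∀ p p', p < 2 * Nn → p' < p → X p ≠ X p' ∧
      Disjoint (allE T Γ (X p)) (allE T Γ (X p')) ∧ (∀ e ∈ allE T Γ (X p), ∀ u ∈ X p', u ∉ e) ∧
      (∀ e ∈ allE T Γ (X p'), ∀ u ∈ X p, u ∉ e) ∧
      (∀ u ∈ X p, ∀ v ∈ X p', ¬ N.Adj u v) ∧ (∀ u ∈ X p, ∀ v ∈ X p', cl u ≠ cl v) := by
      intro p p' hp hlt
      have h := (hX p hp).2 p' hlt
      unfold Cfl at h
      push Not at h
      exact h
    intro p hp p' hp' hne'
    rcases lt_or_gt_of_ne hne' with h | h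
    · obtain ⟨h1, h2, h3, h4, h5, h6⟩ := key p' p hp' h
      exact ⟨h1.symm, h2.symm, h4, fun u hu v hv huv => h5 v hv u hu huv.symm,
        fun u hu v hv huv => h6 v hv u hu huv.symm⟩
    · obtain ⟨h1, h2, h3, h4, h5, h6⟩ := key p p' hp h
      exact ⟨h1, h2, h3, h5, h6⟩
  have hXF : ∀ p < 2 * Nn, X p ∈ F := fun p hp => hFsF (hX p hp).1
  have hXF0 : ∀ p < 2 * Nn, X p ∈ F0 := fun p hp => hSt.sub (hXF p hp)
  have hXdisj : ∀ p < 2 * Nn, ∀ p' < 2 * Nn, p ≠ p' → Disjoint (X p) (X p') :=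
    fun p hp p' hp' hne' => hF0.hdisj _ (hXF0 p hp) _ (hXF0 p' hp') (hnc p hp p' hp' hne').1
  -- fibres
  set A : ℕ → Finset ℕ := fun p => if p < Nn then
    ((Finset.range T).filter (fun t => t / b = p)) else fib T col (p - Nn) with hA
  have hAlk : ∀ p < 2 * Nn, Lk (allE T Γ (X p) : Set (Sym2 V))
      (cnt Prod.snd (arms N V1 (X p))) (fun t => z t (X p)) (A p) := by
    intro p hp
    simp only [hA]
    split_ifs with h
    · exact (hlk _ (hX p hp).1).1 p h
    · exact (hlk _ (hX p hp).1).2 (p - Nn) (by omega)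
  have hAT : ∀ p, ∀ t ∈ A p, t < T := by
    intro p t ht
    simp only [hA] at ht
    split_ifs at ht with h
    · exact Finset.mem_range.1 (Finset.mem_filter.1 ht).1
    · exact (mem_fib.1 ht).1
  have hdec : ∀ p, ∃ (α : ℕ → V × V) (P : ℕ → Finset (Sym2 V)), p < 2 * Nn →
      ((∀ t ∈ A p, α t ∈ arms N V1 (X p) ∧ P t ⊆ allE T Γ (X p) ∧
        Conn (P t : Set (Sym2 V)) (α t).2 (z t (X p))) ∧
      (∀ t ∈ A p, ∀ t' ∈ A p, t ≠ t' → α t ≠ α t' ∧ Disjoint (P t) (P t'))) := by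
    intro p
    by_cases hp : p < 2 * Nn
    · obtain ⟨α, P, h1, h2⟩ := decomp (fun t => z t (X p)) (A p) _ _ (hAlk p hp)
      exact ⟨α, P, fun _ => ⟨h1, h2⟩⟩
    · obtain ⟨v0⟩ := hne
      exact ⟨fun _ => (v0, v0), fun _ => ∅, fun h => absurd h hp⟩
  choose α P hαP using hdec
  -- hub connections
  have hcent : ∀ t : ℕ, ∃ c : V, t < T → ∀ y ∈ VH t, ∃ E' ⊆ EH t, E'.card ≤ r ∧
      Conn (E' : Set (Sym2 V)) y c := by
    intro t
    by_cases ht : t < T
    · obtain ⟨c, hc⟩ := hSt.hub t ht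
      exact ⟨c, fun _ => hc⟩
    · obtain ⟨v0⟩ := hne
      exact ⟨v0, fun h => absurd h ht⟩
  choose c hc using hcent
  have hEz : ∀ t p : ℕ, ∃ E' : Finset (Sym2 V), t < T → p < 2 * Nn →
      (E' ⊆ EH t ∧ E'.card ≤ r ∧ Conn (E' : Set (Sym2 V)) (z t (X p)) (c t)) := by
    intro t p
    by_cases h : t < T ∧ p < 2 * Nn
    · obtain ⟨E', h1, h2, h3⟩ := hc t h.1 _ (hSt.zmem _ (hXF p h.2) t h.1)
      exact ⟨E', fun _ _ => ⟨h1, h2, h3⟩⟩
    · exact ⟨∅, fun h1 h2 => absurd ⟨h1, h2⟩ h⟩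
  choose Ez hEz using hEz
  -- half links
  set HL : ℕ → ℕ → Finset (Sym2 V) := fun p t =>
    P p t ∪ {s((α p t).1, (α p t).2)} ∪ Ez t p with hHL
  have hprow : ∀ t < T, t / b < 2 * Nn ∧ t ∈ A (t / b) := by
    intro t ht
    have hbpos : 0 < b := by
      rcases Nat.eq_zero_or_pos b with h | h
      · rw [hT, h, mul_zero] at ht; omega
      · exact h
    have h1 : t / b < Nn := Nat.div_lt_of_lt_mul (by rw [mul_comm]; exact ht)
    refine ⟨by omega, ?_⟩
    simp only [hA, if_pos h1]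
    exact Finset.mem_filter.2 ⟨Finset.mem_range.2 ht, rfl⟩
  have hpcol : ∀ t < T, Nn + col t < 2 * Nn ∧ t ∈ A (Nn + col t) := by
    intro t ht
    have h1 := hcol t ht
    refine ⟨by omega, ?_⟩
    simp only [hA, if_neg (show ¬ (Nn + col t < Nn) by omega)]
    rw [mem_fib]
    exact ⟨ht, by omega⟩
  -- edges of hubs do not touch members
  have hEHfar : ∀ t < T, ∀ e ∈ EH t, ∀ p < 2 * Nn, ∀ u ∈ X p, u ∉ e := by
    intro t ht e he p hp u hu hue
    have h1 := (hSt.ehN t ht e he).2 u hue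
    apply hSt.far (X p) (hXF p hp) t ht u h1
    exact lay_mono _ _ (Nat.zero_le _) (Finset.mem_coe.2 hu)
  have hallEfar : ∀ p < 2 * Nn, ∀ e ∈ allE T Γ (X p), ∀ p' < 2 * Nn, ∀ u ∈ X p', u ∉ e := by
    intro p hp e he p' hp' u hu
    by_cases hpp : p = p'
    · subst hpp
      unfold allE at he
      rw [Finset.mem_biUnion] at he
      obtain ⟨t, ht, het⟩ := he
      exact (hSt.gN (X p) (hXF p hp) t (Finset.mem_range.1 ht) e het).2 u hu
    · exact (hnc p hp p' hp' hpp).2.2.1 e he u hu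
  have harm : ∀ p < 2 * Nn, ∀ t ∈ A p, (α p t).1 ∈ X p ∧ (α p t).2 ∈ V1 ∧ (α p t).2 ∉ X p ∧
      N.Adj (α p t).1 (α p t).2 := by
    intro p hp t ht
    have h1 := ((hαP p hp).1 t ht).1
    unfold arms at h1
    simp only [Finset.mem_filter, Finset.mem_product, Finset.mem_sdiff] at h1
    exact ⟨h1.1.1, h1.1.2.1, h1.1.2.2, h1.2⟩
  have hPallE : ∀ p < 2 * Nn, ∀ t ∈ A p, P p t ⊆ allE T Γ (X p) :=
    fun p hp t ht => ((hαP p hp).1 t ht).2.1
  have hallEN : ∀ p < 2 * Nn, ∀ e ∈ allE T Γ (X p), e ∈ N.edgeSet ∧ ∀ t < T, e ∉ EH t := by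
    intro p hp e he
    unfold allE at he
    rw [Finset.mem_biUnion] at he
    obtain ⟨t, ht, het⟩ := he
    rw [Finset.mem_range] at ht
    exact ⟨(hSt.gN (X p) (hXF p hp) t ht e het).1,
      fun t' ht' => Finset.disjoint_left.1 (hSt.gE (X p) (hXF p hp) t ht t' ht') het⟩
  -- disjointness of half links
  have hHLdisj : ∀ p < 2 * Nn, ∀ t ∈ A p, ∀ p' < 2 * Nn, ∀ t' ∈ A p', t ≠ t' →
      Disjoint (HL p t) (HL p' t') := by
    intro p hp t ht p' hp' t' ht' htt'
    have htT := hAT p t ht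
    have ht'T := hAT p' t' ht'
    obtain ⟨b1, b2, b3, b4⟩ := harm p hp t ht
    obtain ⟨d1, d2, d3, d4⟩ := harm p' hp' t' ht'
    have e1 := hEz t p htT hp
    have e2 := hEz t' p' ht'T hp'
    rw [Finset.disjoint_left]
    intro e he he'
    simp only [hHL, Finset.mem_union, Finset.mem_singleton] at he he'
    rcases he with (he | he) | he
    · have f1 := hPallE p hp t ht he
      rcases he' with (he' | he') | he'
      · have f2 := hPallE p' hp' t' ht' he'
        by_cases hpp : p = p'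
        · subst hpp
          exact Finset.disjoint_left.1 (((hαP p hp).2 t ht t' ht' htt').2) he he'
        · exact Finset.disjoint_left.1 (hnc p hp p' hp' hpp).2.1 f1 f2
      · apply hallEfar p hp e f1 p' hp' _ d1
        rw [he']; exact Sym2.mem_mk_left _ _
      · exact (hallEN p hp e f1).2 t' ht'T (e2.1 he')
    · rcases he' with (he' | he') | he'
      · have f2 := hPallE p' hp' t' ht' he'
        apply hallEfar p' hp' e f2 p hp _ b1
        rw [he]; exact Sym2.mem_mk_left _ _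
      · rw [he, Sym2.eq_iff] at he'
        by_cases hpp : p = p'
        · subst hpp
          rcases he' with h | h
          · exact ((hαP p hp).2 t ht t' ht' htt').1 (Prod.ext h.1 h.2)
          · exact d3 (h.1 ▸ b1)
        · rcases he' with h | h
          · exact Finset.disjoint_left.1 (hXdisj p hp p' hp' hpp) b1 (h.1 ▸ d1)
          · exact (hnc p hp p' hp' hpp).2.2.2.1 _ b1 _ (h.2 ▸ d1) b4
      · apply hEHfar t' ht'T e (e2.1 he') p hp _ b1
        rw [he]; exact Sym2.mem_mk_left _ _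
    · rcases he' with (he' | he') | he'
      · have f2 := hPallE p' hp' t' ht' he'
        exact (hallEN p' hp' e f2).2 t htT (e1.1 he)
      · apply hEHfar t htT e (e1.1 he) p' hp' _ d1
        rw [he']; exact Sym2.mem_mk_left _ _
      · exact Finset.disjoint_left.1 (hSt.ehdisj t htT t' ht'T htt') (e1.1 he) (e2.1 he')
  have hHLconn : ∀ p < 2 * Nn, ∀ t ∈ A p, Conn (HL p t : Set (Sym2 V)) (α p t).1 (c t) := by
    intro p hp t ht
    have htT := hAT p t ht
    have h1 := ((hαP p hp).1 t ht).2.2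
    have h2 := (hEz t p htT hp).2.2
    have h3 : Conn (HL p t : Set (Sym2 V)) (α p t).1 (α p t).2 := by
      apply Conn.edge
      simp only [hHL, Finset.coe_union, Finset.coe_singleton]
      exact Or.inl (Or.inr rfl)
    refine h3.trans ((h1.mono ?_).trans (h2.mono ?_))
    · intro e he
      rw [Finset.mem_coe] at he ⊢
      exact Finset.mem_union_left _ (Finset.mem_union_left _ he)
    · intro e he
      rw [Finset.mem_coe] at he ⊢
      exact Finset.mem_union_right _ he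
  have hHLcard : ∀ p < 2 * Nn, ∀ t ∈ A p, (HL p t).card ≤ T * r + 1 + r := by
    intro p hp t ht
    have htT := hAT p t ht
    have h1 := Finset.card_le_card (hPallE p hp t ht)
    have h2 := allE_card hSt (hXF p hp)
    have h3 := (hEz t p htT hp).2.1
    have h4 := Finset.card_union_le (P p t ∪ {s((α p t).1, (α p t).2)}) (Ez t p)
    have h5 := Finset.card_union_le (P p t) {s((α p t).1, (α p t).2)}
    rw [Finset.card_singleton] at h5
    simp only [hHL]
    omega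
  have hHLN : ∀ p < 2 * Nn, ∀ t ∈ A p, ∀ e ∈ HL p t, e ∈ N.edgeSet ∧
      ∀ p' < 2 * Nn, ∀ u ∈ X p', ∀ v, e = s(u, v) → v ∈ V1 ∧ v ∉ X p' := by
    intro p hp t ht e he
    have htT := hAT p t ht
    simp only [hHL, Finset.mem_union, Finset.mem_singleton] at he
    rcases he with (he | he) | he
    · have f1 := hPallE p hp t ht he
      refine ⟨(hallEN p hp e f1).1, ?_⟩
      intro p' hp' u hu v hev
      exfalso
      apply hallEfar p hp e f1 p' hp' u hu
      rw [hev]; exact Sym2.mem_mk_left _ _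
    · obtain ⟨b1, b2, b3, b4⟩ := harm p hp t ht
      refine ⟨by rw [he]; exact b4, ?_⟩
      intro p' hp' u hu v hev
      rw [he, Sym2.eq_iff] at hev
      by_cases hpp : p = p'
      · subst hpp
        rcases hev with h | h
        · rw [← h.2]; exact ⟨b2, b3⟩
        · exact absurd (h.2 ▸ hu) b3
      · rcases hev with h | h
        · exact absurd (h.1 ▸ hu) (Finset.disjoint_left.1 (hXdisj p hp p' hp' hpp) b1)
        · exact absurd b4 ((hnc p hp p' hp' hpp).2.2.2.1 _ b1 _ (h.2 ▸ hu))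
    · have f1 := (hEz t p htT hp).1 he
      refine ⟨(hSt.ehN t htT e f1).1, ?_⟩
      intro p' hp' u hu v hev
      exfalso
      apply hEHfar t htT e f1 p' hp' u hu
      rw [hev]; exact Sym2.mem_mk_left _ _
  refine ⟨X, col, fun t => (α (t / b) t).1, fun t => (α (Nn + col t) t).1,
    fun t => HL (t / b) t ∪ HL (Nn + col t) t, hXF0, ?_, hcol, hinj, ?_, ?_, ?_⟩
  · intro p hp p' hp' hpp
    exact ⟨hXdisj p hp p' hp' hpp, (hnc p hp p' hp' hpp).2.2.2.2⟩
  · intro t ht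
    obtain ⟨p1, p2⟩ := hprow t ht
    obtain ⟨c1, c2⟩ := hpcol t ht
    refine ⟨(harm _ p1 t p2).1, (harm _ c1 t c2).1, ?_, ?_, ?_⟩
    · refine (Finset.card_union_le _ _).trans ?_
      have h1 := hHLcard _ p1 t p2
      have h2 := hHLcard _ c1 t c2
      omega
    · intro e he
      rcases Finset.mem_union.1 he with he | he
      · exact (hHLN _ p1 t p2 e he).1
      · exact (hHLN _ c1 t c2 e he).1
    · refine ((hHLconn _ p1 t p2).mono ?_).trans (((hHLconn _ c1 t c2).mono ?_).symm)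
      · exact Finset.coe_subset.2 Finset.subset_union_left
      · exact Finset.coe_subset.2 Finset.subset_union_right
  · intro t ht t' ht' htt'
    obtain ⟨p1, p2⟩ := hprow t ht
    obtain ⟨c1, c2⟩ := hpcol t ht
    obtain ⟨p1', p2'⟩ := hprow t' ht'
    obtain ⟨c1', c2'⟩ := hpcol t' ht'
    exact Finset.disjoint_union_left.2
      ⟨Finset.disjoint_union_right.2 ⟨hHLdisj _ p1 t p2 _ p1' t' p2' htt',
        hHLdisj _ p1 t p2 _ c1' t' c2' htt'⟩,
      Finset.disjoint_union_right.2 ⟨hHLdisj _ c1 t c2 _ p1' t' p2' htt',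
        hHLdisj _ c1 t c2 _ c1' t' c2' htt'⟩⟩
  · intro t ht e he p hp u hu v hev
    obtain ⟨p1, p2⟩ := hprow t ht
    obtain ⟨c1, c2⟩ := hpcol t ht
    rcases Finset.mem_union.1 he with he | he
    · exact (hHLN _ p1 t p2 e he).2 p hp u hu v hev
    · exact (hHLN _ c1 t c2 e he).2 p hp u hu v hev

end Pool.Agent.H34.Im
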