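import Pool.Agent.H34.ImImm
import Pool.Agent.H34.ImLinks

/-!
# Assembling the immersion
-/

namespace Pool.Agent.H34.Im

open Finset Classical

/-- map of pairs -/
def cp {V U : Type} (cl : V → U) (q : V × V) : U × U := (cl q.1, cl q.2)

lemma sym2_inj {V U : Type} {N : SimpleGraph V} {cl : V → U}
    (hinj : ∀ a b a' b', N.Adj a b → N.Adj a' b' → cl a = cl a' → cl b = cl b' →
      a = a' ∧ b = b') {f f' : Sym2 V} (hf : f ∈ N.edgeSet) (hf' : f' ∈ N.edgeSet)
    (h : Sym2.map cl f = Sym2.map cl f') : f = f' := by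
  induction f using Sym2.ind with
  | _ a b =>
    induction f' using Sym2.ind with
    | _ a' b' =>
      rw [Sym2.map_mk, Sym2.map_mk, Sym2.eq_iff] at h
      rcases h with h | h
      · obtain ⟨h1, h2⟩ := hinj a b a' b' hf hf' h.1 h.2
        rw [h1, h2]
      · obtain ⟨h1, h2⟩ := hinj a b b' a' hf (SimpleGraph.Adj.symm hf') h.1 h.2
        rw [h1, h2, Sym2.eq_swap]

theorem asm {k : ℕ} {D : ℝ} (hD : Forces k D) {V U : Type} [Fintype V] [Fintype U]
    (N : SimpleGraph V) (G : SimpleGraph U) (cl : V → U)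
    (hhom : ∀ a b, N.Adj a b → G.Adj (cl a) (cl b))
    (hinj : ∀ a b a' b', N.Adj a b → N.Adj a' b' → cl a = cl a' → cl b = cl b' →
      a = a' ∧ b = b')
    (V1 : Finset V) {Nn b Lm : ℕ} (X : ℕ → Finset V) (col : ℕ → ℕ) (a a' : ℕ → V)
    (LS : ℕ → Finset (Sym2 V)) (Wl : Finset V)
    (hXX : ∀ p < 2 * Nn, ∀ p' < 2 * Nn, p ≠ p' → ∀ u ∈ X p, ∀ v ∈ X p', cl u ≠ cl v)
    (hW : ∀ p < 2 * Nn, ∀ u ∈ X p, ∀ w, w ∉ V1 → N.Adj u w → w ∈ Wl)
    (hWcl : ∀ p < 2 * Nn, ∀ u ∈ X p, ∀ w ∈ Wl, cl u ≠ cl w)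
    (hcol : ∀ t < Nn * b, col t < Nn)
    (hcinj : ∀ t < Nn * b, ∀ t' < Nn * b, t / b = t' / b → col t = col t' → t = t')
    (hlink : ∀ t < Nn * b, a t ∈ X (t / b) ∧ a' t ∈ X (Nn + col t) ∧
        (LS t).card ≤ Lm ∧ (∀ e ∈ LS t, e ∈ N.edgeSet) ∧
        Conn (LS t : Set (Sym2 V)) (a t) (a' t))
    (hLS : ∀ t < Nn * b, ∀ t' < Nn * b, t ≠ t' → Disjoint (LS t) (LS t'))
    (hLX : ∀ t < Nn * b, ∀ e ∈ LS t, ∀ p < 2 * Nn, ∀ u ∈ X p, ∀ v, e = s(u, v) →
        v ∈ V1 ∧ v ∉ X p)
    (hdens : D * (((∑ p ∈ Finset.range (2 * Nn), (X p).card) + Wl.card : ℕ) : ℝ) <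
      ((∑ p ∈ Finset.range (2 * Nn), (((X p ×ˢ X p).filter (fun q => N.Adj q.1 q.2)).card
        + 2 * (gis N V1 (X p)).card + b) : ℕ) : ℝ)) (hD0 : 0 ≤ D) :
    WImmS k G (k + 2 * (((∑ p ∈ Finset.range (2 * Nn),
      (((X p ×ˢ X p).filter (fun q => N.Adj q.1 q.2)).card + (gis N V1 (X p)).card))
      + Nn * b * Lm : ℕ) : ℝ)) := by
  set T := Nn * b with hT
  have hrow : ∀ t < T, t / b < Nn := by
    intro t ht
    exact Nat.div_lt_of_lt_mul (by rw [mul_comm]; exact ht)
  set C : ℕ → Finset U := fun p => (X p).image cl with hC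
  set lab : U → ℕ := fun c => if h : ∃ p, p < 2 * Nn ∧ c ∈ C p then Nat.find h else 2 * Nn
    with hlab
  have hlabX : ∀ p < 2 * Nn, ∀ u ∈ X p, lab (cl u) = p := by
    intro p hp u hu
    have hex : ∃ p, p < 2 * Nn ∧ cl u ∈ C p := ⟨p, hp, Finset.mem_image_of_mem cl hu⟩
    simp only [hlab, dif_pos hex]
    obtain ⟨h1, h2⟩ := Nat.find_spec hex
    by_contra hne
    obtain ⟨v, hv, hvu⟩ := Finset.mem_image.1 h2
    exact hXX _ h1 p hp hne v hv u hu hvu
  have hlabW : ∀ w ∈ Wl, lab (cl w) = 2 * Nn := by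
    intro w hw
    simp only [hlab]
    rw [dif_neg]
    rintro ⟨p, hp, h2⟩
    obtain ⟨v, hv, hvu⟩ := Finset.mem_image.1 h2
    exact hWcl p hp v hv w hw hvu
  have hgis : ∀ p < 2 * Nn, ∀ q ∈ gis N V1 (X p), q.1 ∈ X p ∧ q.2 ∉ V1 ∧ N.Adj q.1 q.2 ∧
      q.2 ∈ Wl := by
    intro p hp q hq
    unfold gis at hq
    rw [Finset.mem_filter, Finset.mem_product, Finset.mem_compl] at hq
    exact ⟨hq.1.1, hq.1.2, hq.2, hW p hp _ hq.1.1 _ hq.1.2 hq.2⟩
  -- pair sets
  set I1 : ℕ → Finset (V × V) := fun p => (X p ×ˢ X p).filter (fun q => N.Adj q.1 q.2) with hI1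
  have hI1m : ∀ p, ∀ q ∈ I1 p, q.1 ∈ X p ∧ q.2 ∈ X p ∧ N.Adj q.1 q.2 := by
    intro p q hq
    rw [hI1, Finset.mem_filter, Finset.mem_product] at hq
    exact ⟨hq.1.1, hq.1.2, hq.2⟩
  set A1 : Finset (U × U) := (Finset.range (2 * Nn)).biUnion (fun p => (I1 p).image (cp cl))
    with hA1
  set A2 : Finset (U × U) := (Finset.range (2 * Nn)).biUnion
    (fun p => (gis N V1 (X p)).image (cp cl)) with hA2
  set A3 : Finset (U × U) := (Finset.range T).image (fun t => (cl (a t), cl (a' t))) with hA3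
  have lA1 : ∀ q ∈ A1, lab q.1 = lab q.2 ∧ lab q.1 < 2 * Nn ∧
      ∃ p < 2 * Nn, ∃ u ∈ X p, ∃ v ∈ X p, N.Adj u v ∧ q = (cl u, cl v) := by
    intro q hq
    rw [hA1, Finset.mem_biUnion] at hq
    obtain ⟨p, hp, hq⟩ := hq
    rw [Finset.mem_range] at hp
    rw [Finset.mem_image] at hq
    obtain ⟨⟨u, v⟩, huv, rfl⟩ := hq
    obtain ⟨h1, h2, h3⟩ := hI1m p _ huv
    simp only [cp]
    rw [hlabX p hp u h1, hlabX p hp v h2]
    exact ⟨rfl, hp, p, hp, u, h1, v, h2, h3, rfl⟩
  have lA2 : ∀ q ∈ A2, lab q.1 < 2 * Nn ∧ lab q.2 = 2 * Nn ∧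
      ∃ p < 2 * Nn, ∃ u ∈ X p, ∃ v, v ∉ V1 ∧ v ∈ Wl ∧ N.Adj u v ∧ q = (cl u, cl v) := by
    intro q hq
    rw [hA2, Finset.mem_biUnion] at hq
    obtain ⟨p, hp, hq⟩ := hq
    rw [Finset.mem_range] at hp
    rw [Finset.mem_image] at hq
    obtain ⟨⟨u, v⟩, huv, rfl⟩ := hq
    obtain ⟨h1, h2, h3, h4⟩ := hgis p hp _ huv
    simp only [cp]
    rw [hlabX p hp u h1, hlabW v h4]
    exact ⟨hp, rfl, p, hp, u, h1, v, h2, h4, h3, rfl⟩
  have lA3 : ∀ q ∈ A3, lab q.1 < Nn ∧ Nn ≤ lab q.2 ∧ lab q.2 < 2 * Nn := by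
    intro q hq
    rw [hA3, Finset.mem_image] at hq
    obtain ⟨t, ht, rfl⟩ := hq
    rw [Finset.mem_range] at ht
    obtain ⟨h1, h2, -⟩ := hlink t ht
    have h3 := hrow t ht
    have h4 := hcol t ht
    simp only
    rw [hlabX _ (by omega) _ h1, hlabX _ (by omega) _ h2]
    omega
  have labt : ∀ t < T, lab (cl (a t)) = t / b ∧ lab (cl (a' t)) = Nn + col t := by
    intro t ht
    obtain ⟨h1, h2, -⟩ := hlink t ht
    have h3 := hrow t ht
    have h4 := hcol t ht
    exact ⟨hlabX _ (by omega) _ h1, hlabX _ (by omega) _ h2⟩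
  -- the auxiliary graph
  set Rel : U → U → Prop := fun c d => (c, d) ∈ A1 ∨ (c, d) ∈ A2 ∨ (d, c) ∈ A2 ∨
    (c, d) ∈ A3 ∨ (d, c) ∈ A3 with hRel
  have hA1symm : ∀ c d, (c, d) ∈ A1 → (d, c) ∈ A1 := by
    intro c d h
    obtain ⟨-, -, p, hp, u, hu, v, hv, huv, he⟩ := lA1 _ h
    rw [Prod.mk.injEq] at he
    rw [hA1, Finset.mem_biUnion]
    refine ⟨p, Finset.mem_range.2 hp, Finset.mem_image.2 ⟨(v, u), ?_, ?_⟩⟩
    · rw [hI1, Finset.mem_filter, Finset.mem_product]
      exact ⟨⟨hv, hu⟩, huv.symm⟩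
    · simp only [cp, he.1, he.2]
  let H : SimpleGraph U :=
    { Adj := fun c d => c ≠ d ∧ Rel c d
      symm := by
        constructor
        intro c d h
        refine ⟨h.1.symm, ?_⟩
        rcases h.2 with h | h | h | h | h
        · exact Or.inl (hA1symm c d h)
        · exact Or.inr (Or.inr (Or.inl h))
        · exact Or.inr (Or.inl h)
        · exact Or.inr (Or.inr (Or.inr (Or.inr h)))
        · exact Or.inr (Or.inr (Or.inr (Or.inl h)))
      loopless := by
        constructor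
        intro c h
        exact h.1 rfl }
  have hHadj : ∀ c d, H.Adj c d ↔ c ≠ d ∧ Rel c d := fun c d => Iff.rfl
  -- links as edges
  set isL : Sym2 U → Prop := fun e => ∃ t, t < T ∧ e = s(cl (a t), cl (a' t)) with hisL
  set ES : Sym2 U → Finset (Sym2 U) := fun e =>
    if h : isL e then (LS h.choose).image (Sym2.map cl) else {e} with hES
  have hESL : ∀ e, isL e → ∃ t < T, e = s(cl (a t), cl (a' t)) ∧
      ES e = (LS t).image (Sym2.map cl) := by
    intro e he
    refine ⟨he.choose, he.choose_spec.1, he.choose_spec.2, ?_⟩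
    simp only [hES, dif_pos he]
  have hESD : ∀ e, ¬ isL e → ES e = {e} := by
    intro e he
    simp only [hES, dif_neg he]
  -- edges of H are links or direct
  have hdirect : ∀ c d, H.Adj c d → ¬ isL s(c, d) → ∃ p < 2 * Nn, ∃ u ∈ X p, ∃ v,
      (v ∈ X p ∨ v ∉ V1) ∧ N.Adj u v ∧ s(c, d) = s(cl u, cl v) := by
    intro c d h hnl
    rcases h.2 with h | h | h | h | h
    · obtain ⟨-, -, p, hp, u, hu, v, hv, huv, he⟩ := lA1 _ h
      rw [Prod.mk.injEq] at he
      exact ⟨p, hp, u, hu, v, Or.inl hv, huv, by rw [he.1, he.2]⟩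
    · obtain ⟨-, -, p, hp, u, hu, v, hv, -, huv, he⟩ := lA2 _ h
      rw [Prod.mk.injEq] at he
      exact ⟨p, hp, u, hu, v, Or.inr hv, huv, by rw [he.1, he.2]⟩
    · obtain ⟨-, -, p, hp, u, hu, v, hv, -, huv, he⟩ := lA2 _ h
      rw [Prod.mk.injEq] at he
      exact ⟨p, hp, u, hu, v, Or.inr hv, huv, by rw [he.1, he.2, Sym2.eq_swap]⟩
    · exfalso
      apply hnl
      rw [hA3, Finset.mem_image] at h
      obtain ⟨t, ht, he⟩ := h
      rw [Prod.mk.injEq] at he
      exact ⟨t, Finset.mem_range.1 ht, by rw [he.1, he.2]⟩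
    · exfalso
      apply hnl
      rw [hA3, Finset.mem_image] at h
      obtain ⟨t, ht, he⟩ := h
      rw [Prod.mk.injEq] at he
      exact ⟨t, Finset.mem_range.1 ht, by rw [he.1, he.2, Sym2.eq_swap]⟩
  have hdirE : ∀ e ∈ H.edgeSet, ¬ isL e → ∃ p < 2 * Nn, ∃ u ∈ X p, ∃ v,
      (v ∈ X p ∨ v ∉ V1) ∧ N.Adj u v ∧ e = s(cl u, cl v) := by
    intro e he hnl
    induction e using Sym2.ind with
    | _ c d => exact hdirect c d he hnl
  -- properties of ES
  have h1 : ∀ e ∈ H.edgeSet, ∀ e' ∈ ES e, e' ∈ G.edgeSet := by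
    intro e he e' he'
    by_cases hl : isL e
    · obtain ⟨t, ht, -, hE⟩ := hESL e hl
      rw [hE, Finset.mem_image] at he'
      obtain ⟨f, hf, rfl⟩ := he'
      have h2 := (hlink t ht).2.2.2.1 f hf
      induction f using Sym2.ind with
      | _ u v => exact hhom u v h2
    · rw [hESD e hl, Finset.mem_singleton] at he'
      obtain ⟨p, hp, u, hu, v, hv, huv, he⟩ := hdirE e he hl
      rw [he', he]
      exact hhom u v huv
  have h2 : ∀ c d, H.Adj c d → Conn (ES s(c, d) : Set (Sym2 U)) c d := by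
    intro c d hcd
    by_cases hl : isL s(c, d)
    · obtain ⟨t, ht, he, hE⟩ := hESL _ hl
      rw [hE]
      have h3 := conn_map cl (hlink t ht).2.2.2.2
      rw [Sym2.eq_iff] at he
      rcases he with he | he
      · rw [he.1, he.2]; exact h3
      · rw [he.1, he.2]; exact h3.symm
    · rw [hESD _ hl]
      apply Conn.edge
      rw [Finset.coe_singleton]; rfl
  have hLD : ∀ t < T, ∀ f ∈ LS t, ∀ p < 2 * Nn, ∀ u ∈ X p, ∀ v, (v ∈ X p ∨ v ∉ V1) →
      N.Adj u v → Sym2.map cl f ≠ s(cl u, cl v) := by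
    intro t ht f hf p hp u hu v hv huv h
    have hfN := (hlink t ht).2.2.2.1 f hf
    have h3 : f = s(u, v) := sym2_inj hinj hfN huv (by rw [h, Sym2.map_mk])
    have h4 := hLX t ht f hf p hp u hu v h3
    rcases hv with h | h
    · exact h4.2 h
    · exact h h4.1
  have h3 : ∀ e ∈ H.edgeSet, ∀ e' ∈ H.edgeSet, e ≠ e' → Disjoint (ES e) (ES e') := by
    intro e he e' he' hne
    rw [Finset.disjoint_left]
    intro g hg hg'
    by_cases hl : isL e
    · obtain ⟨t, ht, hte, hE⟩ := hESL e hl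
      rw [hE, Finset.mem_image] at hg
      obtain ⟨f, hf, rfl⟩ := hg
      by_cases hl' : isL e'
      · obtain ⟨t', ht', hte', hE'⟩ := hESL e' hl'
        rw [hE', Finset.mem_image] at hg'
        obtain ⟨f', hf', hff'⟩ := hg'
        have htt' : t ≠ t' := by
          rintro rfl
          exact hne (hte.trans hte'.symm)
        have h4 := sym2_inj hinj ((hlink t' ht').2.2.2.1 f' hf') ((hlink t ht).2.2.2.1 f hf) hff'
        rw [h4] at hf'
        exact Finset.disjoint_left.1 (hLS t ht t' ht' htt') hf hf'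
      · rw [hESD e' hl', Finset.mem_singleton] at hg'
        obtain ⟨p, hp, u, hu, v, hv, huv, he2⟩ := hdirE e' he' hl'
        exact hLD t ht f hf p hp u hu v hv huv (hg'.trans he2)
    · rw [hESD e hl, Finset.mem_singleton] at hg
      by_cases hl' : isL e'
      · obtain ⟨t', ht', hte', hE'⟩ := hESL e' hl'
        rw [hE', Finset.mem_image] at hg'
        obtain ⟨f', hf', hff'⟩ := hg'
        obtain ⟨p, hp, u, hu, v, hv, huv, he2⟩ := hdirE e he hl
        exact hLD t' ht' f' hf' p hp u hu v hv huv ((hff'.trans hg).trans he2)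
      · rw [hESD e' hl', Finset.mem_singleton] at hg'
        exact hne (hg.symm.trans hg')
  -- the vertex set
  set W : Finset U := ((Finset.range (2 * Nn)).biUnion C) ∪ Wl.image cl with hWdef
  have hWcard : W.card ≤ (∑ p ∈ Finset.range (2 * Nn), (X p).card) + Wl.card := by
    refine (Finset.card_union_le _ _).trans (Nat.add_le_add ?_ Finset.card_image_le)
    refine Finset.card_biUnion_le.trans (Finset.sum_le_sum (fun p _ => Finset.card_image_le))
  have hXW : ∀ p < 2 * Nn, ∀ u ∈ X p, cl u ∈ W := by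
    intro p hp u hu
    apply Finset.mem_union_left
    rw [Finset.mem_biUnion]
    exact ⟨p, Finset.mem_range.2 hp, Finset.mem_image_of_mem cl hu⟩
  have hWW : ∀ w ∈ Wl, cl w ∈ W := by
    intro w hw
    exact Finset.mem_union_right _ (Finset.mem_image_of_mem cl hw)
  -- counting
  set S : Finset (U × U) := (W ×ˢ W).filter (fun p => H.Adj p.1 p.2) with hS
  have hswapmem : ∀ (A : Finset (U × U)) q, q ∈ A.image Prod.swap ↔ (q.2, q.1) ∈ A := by
    intro A q
    rw [Finset.mem_image]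
    constructor
    · rintro ⟨x, hx, rfl⟩
      exact hx
    · intro h
      exact ⟨_, h, rfl⟩
  have hswapcard : ∀ A : Finset (U × U), (A.image Prod.swap).card = A.card := fun A =>
    Finset.card_image_of_injective A Prod.swap_injective
  have sub1 : A1 ⊆ S := by
    intro q hq
    obtain ⟨-, -, p, hp, u, hu, v, hv, huv, he⟩ := lA1 _ hq
    rw [hS, Finset.mem_filter, Finset.mem_product]
    have hne : q.1 ≠ q.2 := by rw [he]; exact (hhom u v huv).ne
    refine ⟨by rw [he]; exact ⟨hXW p hp u hu, hXW p hp v hv⟩, hne, Or.inl hq⟩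
  have sub2 : A2 ⊆ S := by
    intro q hq
    obtain ⟨-, -, p, hp, u, hu, v, hv, hvW, huv, he⟩ := lA2 _ hq
    rw [hS, Finset.mem_filter, Finset.mem_product]
    have hne : q.1 ≠ q.2 := by rw [he]; exact (hhom u v huv).ne
    refine ⟨by rw [he]; exact ⟨hXW p hp u hu, hWW v hvW⟩, hne, Or.inr (Or.inl hq)⟩
  have sub3 : A3 ⊆ S := by
    intro q hq
    have hl := lA3 q hq
    have hq' := hq
    rw [hA3, Finset.mem_image] at hq'
    obtain ⟨t, ht, rfl⟩ := hq'
    rw [Finset.mem_range] at ht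
    obtain ⟨g1, g2, -⟩ := hlink t ht
    have g3 := hrow t ht
    have g4 := hcol t ht
    rw [hS, Finset.mem_filter, Finset.mem_product]
    refine ⟨⟨hXW _ (by omega) _ g1, hXW _ (by omega) _ g2⟩, ?_, Or.inr (Or.inr (Or.inr (Or.inl hq)))⟩
    intro h
    simp only at h hl
    rw [h] at hl
    omega
  have hSsymm : ∀ q, q ∈ S → (q.2, q.1) ∈ S := by
    intro q hq
    rw [hS, Finset.mem_filter, Finset.mem_product] at hq ⊢
    exact ⟨⟨hq.1.2, hq.1.1⟩, hq.2.symm⟩
  have sub2' : A2.image Prod.swap ⊆ S := by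
    intro q hq
    rw [hswapmem] at hq
    exact hSsymm _ (sub2 hq)
  have sub3' : A3.image Prod.swap ⊆ S := by
    intro q hq
    rw [hswapmem] at hq
    exact hSsymm _ (sub3 hq)
  have d12 : Disjoint A1 A2 := by
    rw [Finset.disjoint_left]
    intro q h4 h5
    have := lA1 q h4
    have := lA2 q h5
    omega
  have d12' : Disjoint (A1 ∪ A2) (A2.image Prod.swap) := by
    rw [Finset.disjoint_left]
    intro q h4 h5
    rw [hswapmem] at h5
    have h6 := lA2 _ h5
    simp only at h6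
    rcases Finset.mem_union.1 h4 with h4 | h4
    · have := lA1 q h4; omega
    · have := lA2 q h4; omega
  have d3 : Disjoint (A1 ∪ A2 ∪ A2.image Prod.swap) A3 := by
    rw [Finset.disjoint_left]
    intro q h4 h5
    have h6 := lA3 _ h5
    rcases Finset.mem_union.1 h4 with h4 | h4
    · rcases Finset.mem_union.1 h4 with h4 | h4
      · have := lA1 q h4; omega
      · have := lA2 q h4; omega
    · rw [hswapmem] at h4
      have h7 := lA2 _ h4
      simp only at h7
      omega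
  have d3' : Disjoint (A1 ∪ A2 ∪ A2.image Prod.swap ∪ A3) (A3.image Prod.swap) := by
    rw [Finset.disjoint_left]
    intro q h4 h5
    rw [hswapmem] at h5
    have h6 := lA3 _ h5
    simp only at h6
    rcases Finset.mem_union.1 h4 with h4 | h4
    · rcases Finset.mem_union.1 h4 with h4 | h4
      · rcases Finset.mem_union.1 h4 with h4 | h4
        · have := lA1 q h4; omega
        · have := lA2 q h4; omega
      · rw [hswapmem] at h4
        have h7 := lA2 _ h4
        simp only at h7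
        omega
    · have := lA3 q h4; omega
  have c1 : A1.card = ∑ p ∈ Finset.range (2 * Nn), (I1 p).card := by
    rw [hA1, Finset.card_biUnion]
    · refine Finset.sum_congr rfl (fun p _ => ?_)
      apply Finset.card_image_of_injOn
      intro q hq q' hq' h
      obtain ⟨-, -, g1⟩ := hI1m p q (Finset.mem_coe.1 hq)
      obtain ⟨-, -, g2⟩ := hI1m p q' (Finset.mem_coe.1 hq')
      simp only [cp, Prod.mk.injEq] at h
      obtain ⟨g3, g4⟩ := hinj _ _ _ _ g1 g2 h.1 h.2
      exact Prod.ext g3 g4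
    · intro p hp p' hp' hpp
      rw [Finset.coe_range, Set.mem_Iio] at hp hp'
      simp only [Function.onFun]
      rw [Finset.disjoint_left]
      intro q h4 h5
      rw [Finset.mem_image] at h4 h5
      obtain ⟨x, hx, rfl⟩ := h4
      obtain ⟨y, hy, hyx⟩ := h5
      simp only [cp, Prod.mk.injEq] at hyx
      have g1 := hlabX p hp _ (hI1m p x hx).1
      have g2 := hlabX p' hp' _ (hI1m p' y hy).1
      rw [hyx.1] at g2
      exact hpp (g1.symm.trans g2)
  have c2 : A2.card = ∑ p ∈ Finset.range (2 * Nn), (gis N V1 (X p)).card := by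
    rw [hA2, Finset.card_biUnion]
    · refine Finset.sum_congr rfl (fun p hp => ?_)
      rw [Finset.mem_range] at hp
      apply Finset.card_image_of_injOn
      intro q hq q' hq' h
      obtain ⟨-, -, g1, -⟩ := hgis p hp q (Finset.mem_coe.1 hq)
      obtain ⟨-, -, g2, -⟩ := hgis p hp q' (Finset.mem_coe.1 hq')
      simp only [cp, Prod.mk.injEq] at h
      obtain ⟨g3, g4⟩ := hinj _ _ _ _ g1 g2 h.1 h.2
      exact Prod.ext g3 g4
    · intro p hp p' hp' hpp
      rw [Finset.coe_range, Set.mem_Iio] at hp hp'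
      simp only [Function.onFun]
      rw [Finset.disjoint_left]
      intro q h4 h5
      rw [Finset.mem_image] at h4 h5
      obtain ⟨x, hx, rfl⟩ := h4
      obtain ⟨y, hy, hyx⟩ := h5
      simp only [cp, Prod.mk.injEq] at hyx
      have g1 := hlabX p hp _ (hgis p hp x hx).1
      have g2 := hlabX p' hp' _ (hgis p' hp' y hy).1
      rw [hyx.1] at g2
      exact hpp (g1.symm.trans g2)
  have c3 : A3.card = T := by
    rw [hA3, Finset.card_image_of_injOn, Finset.card_range]
    intro t ht t' ht' h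
    rw [Finset.coe_range, Set.mem_Iio] at ht ht'
    simp only [Prod.mk.injEq] at h
    obtain ⟨g1, g2⟩ := labt t ht
    obtain ⟨g3, g4⟩ := labt t' ht'
    apply hcinj t ht t' ht'
    · rw [← g1, ← g3, h.1]
    · rw [h.2] at g2
      omega
  have hScard : (∑ p ∈ Finset.range (2 * Nn), (I1 p).card)
      + 2 * (∑ p ∈ Finset.range (2 * Nn), (gis N V1 (X p)).card) + 2 * T ≤ S.card := by
    have h4 : A1 ∪ A2 ∪ A2.image Prod.swap ∪ A3 ∪ A3.image Prod.swap ⊆ S :=
      Finset.union_subset (Finset.union_subset (Finset.union_subset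
        (Finset.union_subset sub1 sub2) sub2') sub3) sub3'
    have h5 := Finset.card_le_card h4
    rw [Finset.card_union_of_disjoint d3', Finset.card_union_of_disjoint d3,
      Finset.card_union_of_disjoint d12', Finset.card_union_of_disjoint d12, hswapcard,
      hswapcard, c1, c2, c3] at h5
    omega
  have hforce : D * W.card < (S.card : ℝ) := by
    have h4 : (∑ p ∈ Finset.range (2 * Nn), (((X p ×ˢ X p).filter (fun q => N.Adj q.1 q.2)).card
        + 2 * (gis N V1 (X p)).card + b)) = (∑ p ∈ Finset.range (2 * Nn), (I1 p).card)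
      + 2 * (∑ p ∈ Finset.range (2 * Nn), (gis N V1 (X p)).card) + 2 * T := by
      rw [Finset.sum_add_distrib, Finset.sum_add_distrib, Finset.sum_const, Finset.card_range,
        smul_eq_mul, ← Finset.mul_sum, hT]
      ring
    rw [h4] at hdens
    have h5 : D * (W.card : ℝ) ≤
        D * (((∑ p ∈ Finset.range (2 * Nn), (X p).card) + Wl.card : ℕ) : ℝ) :=
      mul_le_mul_of_nonneg_left (by exact_mod_cast hWcard) hD0
    have h6 : (((∑ p ∈ Finset.range (2 * Nn), (I1 p).card)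
      + 2 * (∑ p ∈ Finset.range (2 * Nn), (gis N V1 (X p)).card) + 2 * T : ℕ) : ℝ)
        ≤ S.card := by exact_mod_cast hScard
    linarith
  obtain ⟨f, E, hE⟩ := forces_subset hD H W (by convert hforce)
  have hE' := eimm_transfer hE ES h1 h2 h3
  -- bound on the number of edges
  set A : Finset (Sym2 U) := ((Finset.range (2 * Nn)).biUnion
      (fun p => (I1 p ∪ gis N V1 (X p)).image (fun q => s(cl q.1, cl q.2)))) ∪
      ((Finset.range T).biUnion (fun t => (LS t).image (Sym2.map cl))) with hA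
  have hESA : ∀ e ∈ H.edgeSet, ES e ⊆ A := by
    intro e he g hg
    by_cases hl : isL e
    · obtain ⟨t, ht, -, hEt⟩ := hESL e hl
      rw [hEt] at hg
      apply Finset.mem_union_right
      rw [Finset.mem_biUnion]
      exact ⟨t, Finset.mem_range.2 ht, hg⟩
    · rw [hESD e hl, Finset.mem_singleton] at hg
      obtain ⟨p, hp, u, hu, v, hv, huv, he2⟩ := hdirE e he hl
      apply Finset.mem_union_left
      rw [Finset.mem_biUnion]
      refine ⟨p, Finset.mem_range.2 hp, Finset.mem_image.2 ⟨(u, v), ?_, ?_⟩⟩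
      · rcases hv with hv | hv
        · apply Finset.mem_union_left
          rw [hI1, Finset.mem_filter, Finset.mem_product]
          exact ⟨⟨hu, hv⟩, huv⟩
        · apply Finset.mem_union_right
          unfold gis
          rw [Finset.mem_filter, Finset.mem_product, Finset.mem_compl]
          exact ⟨⟨hu, hv⟩, huv⟩
      · rw [hg, he2]
  have hAcard : A.card ≤ (∑ p ∈ Finset.range (2 * Nn),
      ((I1 p).card + (gis N V1 (X p)).card)) + T * Lm := by
    refine (Finset.card_union_le _ _).trans (Nat.add_le_add ?_ ?_)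
    · refine Finset.card_biUnion_le.trans (Finset.sum_le_sum (fun p _ => ?_))
      exact Finset.card_image_le.trans (Finset.card_union_le _ _)
    · refine (Finset.card_biUnion_le_card_mul _ _ Lm ?_).trans (by rw [Finset.card_range])
      intro t ht
      exact Finset.card_image_le.trans (hlink t (Finset.mem_range.1 ht)).2.2.1
  have hfin := wimmS_of_eimm hE' (A := A) (by
    intro i j hij g hg
    rw [Finset.mem_biUnion] at hg
    obtain ⟨e, he, hg⟩ := hg
    exact hESA e ((hE.2.1 i j hij).1 e he) hg)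
  obtain ⟨f', hf', P, g1, g2, g3⟩ := hfin
  refine ⟨f', hf', P, g1, g2, g3.trans ?_⟩
  have : (A.card : ℝ) ≤ (((∑ p ∈ Finset.range (2 * Nn),
      ((I1 p).card + (gis N V1 (X p)).card)) + T * Lm : ℕ) : ℝ) := by exact_mod_cast hAcard
  linarith

end Pool.Agent.H34.Im
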