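import Pool.Agent.H34.ImSel

/-!
# Counting conflicts
-/

namespace Pool.Agent.H34.Im

open Finset Classical

variable {V : Type} [Fintype V]

/-- conflicting clusters -/
def Cfl {U : Type} (N : SimpleGraph V) (T : ℕ) (Γ : ℕ → Finset V → Finset (Sym2 V)) (cl : V → U)
    (x y : Finset V) : Prop :=
  x = y ∨ ¬ Disjoint (allE T Γ x) (allE T Γ y) ∨ (∃ e ∈ allE T Γ x, ∃ u ∈ y, u ∈ e) ∨
    (∃ e ∈ allE T Γ y, ∃ u ∈ x, u ∈ e) ∨ (∃ u ∈ x, ∃ v ∈ y, N.Adj u v) ∨
    (∃ u ∈ x, ∃ v ∈ y, cl u = cl v)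

omit [Fintype V] in
lemma touch_card (F : Finset (Finset V)) (hdisj : ∀ x ∈ F, ∀ y ∈ F, x ≠ y → Disjoint x y)
    (A : Finset V) : (F.filter (fun x => ∃ u ∈ x, u ∈ A)).card ≤ A.card := by
  apply Finset.card_le_card_of_forall_subsingleton (fun (x : Finset V) (a : V) => a ∈ x)
  · intro x hx
    obtain ⟨-, u, hu, huA⟩ := Finset.mem_filter.1 hx
    exact ⟨u, huA, hu⟩
  · intro a _ x hx y hy
    by_contra hne
    exact Finset.disjoint_left.1 (hdisj x (Finset.mem_filter.1 hx.1).1 y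
      (Finset.mem_filter.1 hy.1).1 hne) hx.2 hy.2

lemma ends_card (e : Sym2 V) : (Finset.univ.filter (fun u => u ∈ e)).card ≤ 2 := by
  induction e using Sym2.ind with
  | _ a b =>
    have h : Finset.univ.filter (fun u => u ∈ s(a, b)) ⊆ {a, b} := by
      intro u hu
      have := (Finset.mem_filter.1 hu).2
      rw [Sym2.mem_iff] at this
      rw [Finset.mem_insert, Finset.mem_singleton]
      exact this
    exact (Finset.card_le_card h).trans Finset.card_le_two

lemma allE_card {N : SimpleGraph V} {V1 : Finset V} {r1 r b T : ℕ} {Λ : ℝ}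
    {F0 F : Finset (Finset V)} {VH : ℕ → Finset V} {EH : ℕ → Finset (Sym2 V)}
    {z : ℕ → Finset V → V} {Γ : ℕ → Finset V → Finset (Sym2 V)}
    (hSt : St N V1 r1 r b T Λ F0 T F VH EH z Γ) {x : Finset V} (hx : x ∈ F) :
    (allE T Γ x).card ≤ T * r := by
  unfold allE
  refine (Finset.card_biUnion_le_card_mul _ _ r ?_).trans (by rw [Finset.card_range])
  intro t ht
  exact hSt.gcard x hx t (Finset.mem_range.1 ht)

lemma tau_le' {T t : ℕ} {Λ M0 : ℝ} (hΛ : 2 ≤ Λ) (hM : 0 < M0) (ht : t < T) :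
    tau T Λ M0 t ≤ M0 / Λ ^ (2 * T + 4) := by
  unfold tau
  have h0 : (0:ℝ) < Λ := by linarith
  apply div_le_div_of_nonneg_left hM.le (by positivity)
  apply pow_le_pow_right₀ (by linarith)
  have h1 : 1 ≤ T - t := by omega
  calc 2 * T + 4 = 1 * (2 * T + 4) := by omega
    _ ≤ (T - t) * (2 * T + 4) := Nat.mul_le_mul_right _ h1

lemma pop_all {N : SimpleGraph V} {V1 : Finset V} {r1 r b T : ℕ} {Λ : ℝ}
    {F0 F : Finset (Finset V)} {VH : ℕ → Finset V} {EH : ℕ → Finset (Sym2 V)}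
    {z : ℕ → Finset V → V} {Γ : ℕ → Finset V → Finset (Sym2 V)}
    (hSt : St N V1 r1 r b T Λ F0 T F VH EH z Γ) (hΛ : 2 ≤ Λ) (hM : (0:ℝ) < F0.card)
    (e : Sym2 V) :
    ((F.filter (fun x => e ∈ allE T Γ x)).card : ℝ) ≤ T * (2 * (F0.card / Λ ^ (2 * T + 4))) := by
  have hsub : F.filter (fun x => e ∈ allE T Γ x) ⊆
      (Finset.range T).biUnion (fun t => F.filter (fun x => e ∈ Γ t x)) := by
    intro x hx
    rw [Finset.mem_filter] at hx
    obtain ⟨h1, h2⟩ := hx
    unfold allE at h2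
    rw [Finset.mem_biUnion] at h2 ⊢
    obtain ⟨t, ht, h3⟩ := h2
    exact ⟨t, ht, Finset.mem_filter.2 ⟨h1, h3⟩⟩
  have h1 : ((F.filter (fun x => e ∈ allE T Γ x)).card : ℝ)
      ≤ ∑ t ∈ Finset.range T, ((F.filter (fun x => e ∈ Γ t x)).card : ℝ) := by
    exact_mod_cast (Finset.card_le_card hsub).trans Finset.card_biUnion_le
  have h2 : ∑ t ∈ Finset.range T, ((F.filter (fun x => e ∈ Γ t x)).card : ℝ)
      ≤ ∑ t ∈ Finset.range T, (2 * ((F0.card : ℝ) / Λ ^ (2 * T + 4))) := by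
    apply Finset.sum_le_sum
    intro t ht
    rw [Finset.mem_range] at ht
    have h3 := hSt.pop t ht e
    have h4 := tau_le' hΛ hM ht
    linarith
  rw [Finset.sum_const, Finset.card_range, nsmul_eq_mul] at h2
  exact h1.trans h2

/-- the number of clusters in conflict with a given one -/
theorem cfl_card {U : Type} {N : SimpleGraph V} {ω : V → ℕ} {V1 : Finset V} {K M r1 r : ℕ}
    {m Λ cs ce q : ℝ} (hN : NetHyp N ω V1 K M r1 r m Λ cs ce q) {b T : ℕ}
    {F0 : Finset (Finset V)} (hF0 : FamHyp N V1 K M b T r1 r Λ ce q F0)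
    {F : Finset (Finset V)} {VH : ℕ → Finset V} {EH : ℕ → Finset (Sym2 V)}
    {z : ℕ → Finset V → V} {Γ : ℕ → Finset V → Finset (Sym2 V)}
    (hSt : St N V1 r1 r b T Λ F0 T F VH EH z Γ) (cl : V → U) {B : ℝ} (hB0 : 0 ≤ B)
    (hB : ∀ y ∈ F0, ∀ v ∈ y,
      ((Finset.univ.filter (fun u => (∃ x ∈ F0, u ∈ x) ∧ cl u = cl v)).card : ℝ) ≤ B)
    {y : Finset V} (hy : y ∈ F) :
    ((F.filter (fun x => Cfl N T Γ cl x y)).card : ℝ) ≤
      1 + (T * r + M * K) * (T * (2 * (F0.card / Λ ^ (2 * T + 4)))) + 2 * (T * r) + M * K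
        + M * B := by
  have hΛ := hN.hΛ
  have hΛ0 : (0:ℝ) < Λ := by linarith
  have hM0 := hF0.pos hΛ
  set τ : ℝ := T * (2 * (F0.card / Λ ^ (2 * T + 4))) with hτ
  have hτ0 : 0 ≤ τ := by positivity
  have hyF0 := hSt.sub hy
  have hycl := hF0.hcl y hyF0
  have hFdisj : ∀ x ∈ F, ∀ y ∈ F, x ≠ y → Disjoint x y :=
    fun x hx y hy => hF0.hdisj x (hSt.sub hx) y (hSt.sub hy)
  have hdegy : ∀ v ∈ y, (Finset.univ.filter (fun b => N.Adj v b)).card ≤ K := by
    intro v hv
    have h := hN.hdeg v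
    rw [hN.hV1 v (hycl.hx hv), mul_one] at h
    exact h
  -- the six parts
  set S0 : Finset (Finset V) := {y} with hS0
  set S1 : Finset (Finset V) := (allE T Γ y).biUnion
    (fun e => F.filter (fun x => e ∈ allE T Γ x)) with hS1
  set S2 : Finset (Finset V) := y.biUnion (fun v =>
    (Finset.univ.filter (fun b => N.Adj v b)).biUnion
      (fun w => F.filter (fun x => s(v, w) ∈ allE T Γ x))) with hS2
  set A3 : Finset V := (allE T Γ y).biUnion (fun e => Finset.univ.filter (fun u => u ∈ e)) with hA3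
  set A4 : Finset V := y.biUnion (fun v => Finset.univ.filter (fun b => N.Adj v b)) with hA4
  set A5 : Finset V := y.biUnion (fun v =>
    Finset.univ.filter (fun u => (∃ x ∈ F0, u ∈ x) ∧ cl u = cl v)) with hA5
  have hsub : F.filter (fun x => Cfl N T Γ cl x y) ⊆ S0 ∪ S1 ∪ S2 ∪
      (F.filter (fun x => ∃ u ∈ x, u ∈ A3)) ∪ (F.filter (fun x => ∃ u ∈ x, u ∈ A4)) ∪
      (F.filter (fun x => ∃ u ∈ x, u ∈ A5)) := by
    intro x hx
    obtain ⟨hxF, hC⟩ := Finset.mem_filter.1 hx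
    rcases hC with h | h | h | h | h | h
    · iterate 5 apply Finset.mem_union_left
      exact Finset.mem_singleton.2 h
    · iterate 4 apply Finset.mem_union_left
      apply Finset.mem_union_right
      rw [Finset.not_disjoint_iff] at h
      obtain ⟨e, he1, he2⟩ := h
      rw [hS1, Finset.mem_biUnion]
      exact ⟨e, he2, Finset.mem_filter.2 ⟨hxF, he1⟩⟩
    · iterate 3 apply Finset.mem_union_left
      apply Finset.mem_union_right
      obtain ⟨e, he, u, hu, hue⟩ := h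
      have he' := he
      unfold allE at he'
      rw [Finset.mem_biUnion] at he'
      obtain ⟨t, ht, het⟩ := he'
      have heN := (hSt.gN x hxF t (Finset.mem_range.1 ht) e het).1
      obtain ⟨w, rfl⟩ := hue
      rw [hS2, Finset.mem_biUnion]
      refine ⟨u, hu, ?_⟩
      rw [Finset.mem_biUnion]
      exact ⟨w, Finset.mem_filter.2 ⟨Finset.mem_univ _, heN⟩, Finset.mem_filter.2 ⟨hxF, he⟩⟩
    · iterate 2 apply Finset.mem_union_left
      apply Finset.mem_union_right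
      obtain ⟨e, he, u, hu, hue⟩ := h
      refine Finset.mem_filter.2 ⟨hxF, u, hu, ?_⟩
      rw [hA3, Finset.mem_biUnion]
      exact ⟨e, he, Finset.mem_filter.2 ⟨Finset.mem_univ _, hue⟩⟩
    · apply Finset.mem_union_left
      apply Finset.mem_union_right
      obtain ⟨u, hu, v, hv, huv⟩ := h
      refine Finset.mem_filter.2 ⟨hxF, u, hu, ?_⟩
      rw [hA4, Finset.mem_biUnion]
      exact ⟨v, hv, Finset.mem_filter.2 ⟨Finset.mem_univ _, huv.symm⟩⟩
    · apply Finset.mem_union_right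
      obtain ⟨u, hu, v, hv, huv⟩ := h
      refine Finset.mem_filter.2 ⟨hxF, u, hu, ?_⟩
      rw [hA5, Finset.mem_biUnion]
      exact ⟨v, hv, Finset.mem_filter.2 ⟨Finset.mem_univ _, ⟨x, hSt.sub hxF, hu⟩, huv⟩⟩
  have hyM : (y.card : ℝ) ≤ M := by exact_mod_cast hycl.hxM
  have c1 : (S1.card : ℝ) ≤ (T * r) * τ := by
    have h1 : (S1.card : ℝ) ≤ ∑ e ∈ allE T Γ y,
        ((F.filter (fun x => e ∈ allE T Γ x)).card : ℝ) := by
      exact_mod_cast Finset.card_biUnion_le
    have h2 : ∑ e ∈ allE T Γ y, ((F.filter (fun x => e ∈ allE T Γ x)).card : ℝ)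
        ≤ ∑ e ∈ allE T Γ y, τ := Finset.sum_le_sum (fun e _ => pop_all hSt hΛ hM0 e)
    rw [Finset.sum_const, nsmul_eq_mul] at h2
    refine (h1.trans h2).trans (mul_le_mul_of_nonneg_right ?_ hτ0)
    exact_mod_cast allE_card hSt hy
  have c2 : (S2.card : ℝ) ≤ (M * K) * τ := by
    have h1 : (S2.card : ℝ) ≤ ∑ v ∈ y, (((Finset.univ.filter (fun b => N.Adj v b)).biUnion
      (fun w => F.filter (fun x => s(v, w) ∈ allE T Γ x))).card : ℝ) := by
      exact_mod_cast Finset.card_biUnion_le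
    have h2 : ∀ v ∈ y, (((Finset.univ.filter (fun b => N.Adj v b)).biUnion
      (fun w => F.filter (fun x => s(v, w) ∈ allE T Γ x))).card : ℝ) ≤ K * τ := by
      intro v hv
      have h3 : (((Finset.univ.filter (fun b => N.Adj v b)).biUnion
        (fun w => F.filter (fun x => s(v, w) ∈ allE T Γ x))).card : ℝ) ≤
        ∑ w ∈ Finset.univ.filter (fun b => N.Adj v b),
          ((F.filter (fun x => s(v, w) ∈ allE T Γ x)).card : ℝ) := by
        exact_mod_cast Finset.card_biUnion_le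
      have h4 : ∑ w ∈ Finset.univ.filter (fun b => N.Adj v b),
          ((F.filter (fun x => s(v, w) ∈ allE T Γ x)).card : ℝ)
          ≤ ∑ w ∈ Finset.univ.filter (fun b => N.Adj v b), τ :=
        Finset.sum_le_sum (fun w _ => pop_all hSt hΛ hM0 _)
      rw [Finset.sum_const, nsmul_eq_mul] at h4
      refine (h3.trans h4).trans (mul_le_mul_of_nonneg_right ?_ hτ0)
      exact_mod_cast hdegy v hv
    have h5 : ∑ v ∈ y, (((Finset.univ.filter (fun b => N.Adj v b)).biUnion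
      (fun w => F.filter (fun x => s(v, w) ∈ allE T Γ x))).card : ℝ) ≤ ∑ v ∈ y, (K * τ) :=
      Finset.sum_le_sum h2
    rw [Finset.sum_const, nsmul_eq_mul] at h5
    refine (h1.trans h5).trans ?_
    rw [mul_assoc]
    exact mul_le_mul_of_nonneg_right hyM (by positivity)
  have c3 : ((F.filter (fun x => ∃ u ∈ x, u ∈ A3)).card : ℝ) ≤ 2 * (T * r) := by
    have h1 := touch_card F hFdisj A3
    have h2 : A3.card ≤ (allE T Γ y).card * 2 :=
      Finset.card_biUnion_le_card_mul _ _ 2 (fun e _ => ends_card e)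
    have h3 := allE_card hSt hy
    have h4 : (F.filter (fun x => ∃ u ∈ x, u ∈ A3)).card ≤ 2 * (T * r) := by omega
    exact_mod_cast h4
  have c4 : ((F.filter (fun x => ∃ u ∈ x, u ∈ A4)).card : ℝ) ≤ M * K := by
    have h1 := touch_card F hFdisj A4
    have h2 : A4.card ≤ y.card * K := Finset.card_biUnion_le_card_mul _ _ K hdegy
    have h3 : y.card * K ≤ M * K := Nat.mul_le_mul_right _ hycl.hxM
    have h4 : (F.filter (fun x => ∃ u ∈ x, u ∈ A4)).card ≤ M * K := by omega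
    exact_mod_cast h4
  have c5 : ((F.filter (fun x => ∃ u ∈ x, u ∈ A5)).card : ℝ) ≤ M * B := by
    have h1 := touch_card F hFdisj A5
    have h2 : (A5.card : ℝ) ≤ ∑ v ∈ y,
        ((Finset.univ.filter (fun u => (∃ x ∈ F0, u ∈ x) ∧ cl u = cl v)).card : ℝ) := by
      exact_mod_cast Finset.card_biUnion_le
    have h3 : ∑ v ∈ y,
        ((Finset.univ.filter (fun u => (∃ x ∈ F0, u ∈ x) ∧ cl u = cl v)).card : ℝ)
        ≤ ∑ v ∈ y, B := Finset.sum_le_sum (fun v hv => hB y hyF0 v hv)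
    rw [Finset.sum_const, nsmul_eq_mul] at h3
    have h4 : (y.card : ℝ) * B ≤ M * B := mul_le_mul_of_nonneg_right hyM hB0
    have h5 : ((F.filter (fun x => ∃ u ∈ x, u ∈ A5)).card : ℝ) ≤ A5.card := by exact_mod_cast h1
    linarith
  have hc : ((F.filter (fun x => Cfl N T Γ cl x y)).card : ℝ) ≤ S0.card + S1.card + S2.card
      + (F.filter (fun x => ∃ u ∈ x, u ∈ A3)).card + (F.filter (fun x => ∃ u ∈ x, u ∈ A4)).card
      + (F.filter (fun x => ∃ u ∈ x, u ∈ A5)).card := by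
    have h1 := (Finset.card_le_card hsub).trans (Finset.card_union_le _ _)
    have h2 := Finset.card_union_le (S0 ∪ S1 ∪ S2 ∪
      (F.filter (fun x => ∃ u ∈ x, u ∈ A3))) (F.filter (fun x => ∃ u ∈ x, u ∈ A4))
    have h3 := Finset.card_union_le (S0 ∪ S1 ∪ S2) (F.filter (fun x => ∃ u ∈ x, u ∈ A3))
    have h4 := Finset.card_union_le (S0 ∪ S1) S2
    have h5 := Finset.card_union_le S0 S1
    have h6 : (F.filter (fun x => Cfl N T Γ cl x y)).card ≤ S0.card + S1.card + S2.card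
      + (F.filter (fun x => ∃ u ∈ x, u ∈ A3)).card + (F.filter (fun x => ∃ u ∈ x, u ∈ A4)).card
      + (F.filter (fun x => ∃ u ∈ x, u ∈ A5)).card := by omega
    exact_mod_cast h6
  have c0 : (S0.card : ℝ) = 1 := by rw [hS0, Finset.card_singleton, Nat.cast_one]
  rw [c0] at hc
  have : (T * r + M * K) * τ = (T * r) * τ + (M * K) * τ := by ring
  linarith

end Pool.Agent.H34.Im
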