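import Mathlib

/-!
# Rearranging disjoint bases into transversal bases by symmetric exchange
-/

namespace Pool.Agent.H34.Im

open Finset

/-- conflicting pairs -/
def conf (T b : ℕ) (col : ℕ → ℕ) : Finset (ℕ × ℕ) :=
  (Finset.range T ×ˢ Finset.range T).filter
    (fun p => p.1 ≠ p.2 ∧ p.1 / b = p.2 / b ∧ col p.1 = col p.2)

/-- column fibres -/
def fib (T : ℕ) (col : ℕ → ℕ) (l : ℕ) : Finset ℕ := (Finset.range T).filter (fun t => col t = l)

lemma mem_fib {T : ℕ} {col : ℕ → ℕ} {l t : ℕ} : t ∈ fib T col l ↔ t < T ∧ col t = l := by
  unfold fib; rw [Finset.mem_filter, Finset.mem_range]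

lemma row_card {b Nn j : ℕ} (hb : 1 ≤ b) (hj : j < Nn) :
    ((Finset.range (Nn * b)).filter (fun t => t / b = j)).card = b := by
  have h : (Finset.range (Nn * b)).filter (fun t => t / b = j) = Finset.Ico (j * b) (j * b + b) := by
    ext t
    rw [Finset.mem_filter, Finset.mem_range, Finset.mem_Ico]
    constructor
    · rintro ⟨h1, h2⟩
      have h3 := Nat.div_add_mod t b
      have h4 := Nat.mod_lt t (show 0 < b by omega)
      rw [h2, mul_comm] at h3
      omega
    · rintro ⟨h1, h2⟩
      have h3 : t / b = j := by
        apply Nat.div_eq_of_lt_le
        · exact h1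
        · rw [Nat.add_mul, one_mul]; exact h2
      refine ⟨?_, h3⟩
      calc t < j * b + b := h2
        _ = (j + 1) * b := by ring
        _ ≤ Nn * b := Nat.mul_le_mul_right _ hj
  rw [h, Nat.card_Ico]; omega

theorem exists_col {b Nn : ℕ} (hb : 1 ≤ b) (hN : b * b < Nn) (L : Finset ℕ → Prop)
    (hex : ∀ A B : Finset ℕ, L A → L B → Disjoint A B → ∀ a ∈ A, ∃ a' ∈ B,
      L (insert a' (A.erase a)) ∧ L (insert a (B.erase a')))
    (hL : ∀ j < Nn, L ((Finset.range (Nn * b)).filter (fun t => t / b = j))) :
    ∃ col : ℕ → ℕ, (∀ t < Nn * b, col t < Nn) ∧ (∀ l < Nn, L (fib (Nn * b) col l)) ∧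
      ∀ t < Nn * b, ∀ t' < Nn * b, t / b = t' / b → col t = col t' → t = t' := by
  set T := Nn * b with hT
  suffices H : ∀ (k : ℕ) (col : ℕ → ℕ), (conf T b col).card = k → (∀ t < T, col t < Nn) →
      (∀ l < Nn, L (fib T col l)) → (∀ l < Nn, (fib T col l).card = b) →
      ∃ col : ℕ → ℕ, (∀ t < T, col t < Nn) ∧ (∀ l < Nn, L (fib T col l)) ∧
      ∀ t < T, ∀ t' < T, t / b = t' / b → col t = col t' → t = t' by
    refine H _ (fun t => t / b) rfl ?_ hL (fun l hl => row_card hb hl)
    intro t ht
    exact Nat.div_lt_of_lt_mul (by rw [mul_comm]; exact ht)
  intro k
  induction k using Nat.strong_induction_on with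
  | _ k ih =>
    intro col hk hcol hLc hcard
    by_cases hconf : (conf T b col) = ∅
    · refine ⟨col, hcol, hLc, ?_⟩
      intro t ht t' ht' h1 h2
      by_contra hne
      have : (t, t') ∈ conf T b col := by
        unfold conf
        rw [Finset.mem_filter, Finset.mem_product, Finset.mem_range, Finset.mem_range]
        exact ⟨⟨ht, ht'⟩, hne, h1, h2⟩
      rw [hconf] at this
      exact absurd this (Finset.notMem_empty _)
    · obtain ⟨⟨a, a2⟩, ha⟩ := Finset.nonempty_iff_ne_empty.2 hconf
      have ha' := ha
      unfold conf at ha'
      rw [Finset.mem_filter, Finset.mem_product, Finset.mem_range, Finset.mem_range] at ha'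
      obtain ⟨⟨haT, ha2T⟩, hne, hrow, hcc⟩ := ha'
      simp only at haT ha2T hne hrow hcc
      set l := col a with hl
      have hlN : l < Nn := hcol a haT
      -- bad columns
      set badT : Finset ℕ := (fib T col l).biUnion
        (fun u => (Finset.range T).filter (fun t => t / b = u / b)) with hbadT
      have hbadcard : (badT.image col).card ≤ b * b := by
        refine Finset.card_image_le.trans ?_
        rw [← hcard l hlN]
        conv_rhs => rw [hcard l hlN]
        have h1 : badT.card ≤ (fib T col l).card * b := by
          apply Finset.card_biUnion_le_card_mul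
          intro u hu
          rw [mem_fib] at hu
          have h2 : u / b < Nn := Nat.div_lt_of_lt_mul (by rw [mul_comm]; exact hu.1)
          exact le_of_eq (row_card hb h2)
        rw [hcard l hlN] at h1
        exact h1
      obtain ⟨l', hl'N, hl'bad⟩ : ∃ l' < Nn, l' ∉ badT.image col := by
        by_contra hcon
        push Not at hcon
        have h1 : Finset.range Nn ⊆ badT.image col := by
          intro l' hl'
          exact hcon l' (Finset.mem_range.1 hl')
        have h2 := Finset.card_le_card h1
        rw [Finset.card_range] at h2
        omega
      have hgood : ∀ t < T, col t = l' → ∀ u ∈ fib T col l, t / b ≠ u / b := by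
        intro t ht htl u hu h
        apply hl'bad
        rw [Finset.mem_image]
        refine ⟨t, ?_, htl⟩
        rw [hbadT, Finset.mem_biUnion]
        exact ⟨u, hu, Finset.mem_filter.2 ⟨Finset.mem_range.2 ht, h⟩⟩
      have hll' : l ≠ l' := by
        intro h
        exact hgood a haT (by rw [← h]) a (mem_fib.2 ⟨haT, rfl⟩) rfl
      have hdisj : Disjoint (fib T col l) (fib T col l') := by
        rw [Finset.disjoint_left]
        intro t h1 h2
        rw [mem_fib] at h1 h2
        exact hll' (h1.2.symm.trans h2.2)
      obtain ⟨a', ha'B, hL1, hL2⟩ := hex _ _ (hLc l hlN) (hLc l' hl'N) hdisj a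
        (mem_fib.2 ⟨haT, rfl⟩)
      rw [mem_fib] at ha'B
      obtain ⟨ha'T, ha'l⟩ := ha'B
      have haa' : a ≠ a' := by
        rintro rfl
        exact hll' ha'l
      set col' : ℕ → ℕ := fun t => if t = a then l' else if t = a' then l else col t with hcol'
      have hfl : fib T col' l = insert a' ((fib T col l).erase a) := by
        ext t
        rw [mem_fib, Finset.mem_insert, Finset.mem_erase, mem_fib]
        simp only [hcol']
        by_cases h1 : t = a
        · subst h1
          simp only [if_true, ne_eq, not_true_eq_false, false_and, or_false]
          constructor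
          · rintro ⟨-, h⟩; exact absurd h.symm hll'
          · intro h; exact absurd h haa'
        · by_cases h2 : t = a'
          · subst h2
            simp only [if_neg h1, if_true, true_or, iff_true, and_true]
            exact ha'T
          · simp [h1, h2]
      have hfl' : fib T col' l' = insert a ((fib T col l').erase a') := by
        ext t
        rw [mem_fib, Finset.mem_insert, Finset.mem_erase, mem_fib]
        simp only [hcol']
        by_cases h1 : t = a
        · subst h1
          simp only [if_true, and_true, true_or, iff_true]
          exact haT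
        · by_cases h2 : t = a'
          · subst h2
            simp only [if_true, h1, ne_eq, not_true_eq_false, false_and, or_false,
              iff_false, not_and]
            intro _; exact hll'
          · simp [h1, h2]
      have hfo : ∀ k, k ≠ l → k ≠ l' → fib T col' k = fib T col k := by
        intro k h1 h2
        ext t
        rw [mem_fib, mem_fib]
        simp only [hcol']
        by_cases h3 : t = a
        · subst h3
          simp only [if_true]
          constructor
          · rintro ⟨-, h⟩; exact absurd h.symm h2
          · rintro ⟨-, h⟩; exact absurd h.symm h1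
        · by_cases h4 : t = a'
          · subst h4
            simp only [if_neg h3, if_true]
            constructor
            · rintro ⟨-, h⟩; exact absurd h.symm h1
            · rintro ⟨-, h⟩; exact absurd (ha'l.symm.trans h).symm h2
          · simp only [if_neg h3, if_neg h4]
      have hlt : (conf T b col').card < k := by
        rw [← hk]
        apply Finset.card_lt_card
        rw [Finset.ssubset_iff_of_subset]
        · refine ⟨(a, a2), ha, ?_⟩
          unfold conf
          rw [Finset.mem_filter]
          rintro ⟨-, -, -, h⟩
          simp only [hcol', if_true] at h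
          rw [if_neg (Ne.symm hne)] at h
          split_ifs at h with h2
          · exact hll' h.symm
          · exact hll' (hcc.trans h.symm)
        · intro p hp
          unfold conf at hp ⊢
          rw [Finset.mem_filter, Finset.mem_product, Finset.mem_range, Finset.mem_range] at hp ⊢
          obtain ⟨⟨h1, h2⟩, h3, h4, h5⟩ := hp
          refine ⟨⟨h1, h2⟩, h3, h4, ?_⟩
          simp only [hcol'] at h5
          -- no pair involves a or a'
          have key : ∀ t t', t < T → t' < T → t ≠ t' → t / b = t' / b →
              col' t = col' t' → t ≠ a ∧ t ≠ a' := by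
            intro t t' ht ht' hne' hr hc
            constructor
            · rintro rfl
              have h6 : t' ∈ fib T col' l' := by
                rw [mem_fib]
                refine ⟨ht', ?_⟩
                rw [← hc]
                simp [hcol']
              rw [hfl', Finset.mem_insert, Finset.mem_erase, mem_fib] at h6
              rcases h6 with h6 | ⟨-, h6, h7⟩
              · exact hne' h6.symm
              · exact hgood t' h6 h7 t (mem_fib.2 ⟨ht, rfl⟩) hr.symm
            · rintro rfl
              have h6 : t' ∈ fib T col' l := by
                rw [mem_fib]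
                refine ⟨ht', ?_⟩
                rw [← hc]
                simp only [hcol', if_neg (Ne.symm haa'), if_true]
              rw [hfl, Finset.mem_insert, Finset.mem_erase, mem_fib] at h6
              rcases h6 with h6 | ⟨-, h6, h7⟩
              · exact hne' h6.symm
              · exact hgood t ht ha'l t' (mem_fib.2 ⟨h6, h7⟩) hr
          have k1 := key p.1 p.2 h1 h2 h3 h4 h5
          have k2 := key p.2 p.1 h2 h1 (Ne.symm h3) h4.symm h5.symm
          rw [if_neg k1.1, if_neg k1.2, if_neg k2.1, if_neg k2.2] at h5
          exact h5
      refine ih _ hlt col' rfl ?_ ?_ ?_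
      · intro t ht
        simp only [hcol']
        split_ifs
        · exact hl'N
        · exact hlN
        · exact hcol t ht
      · intro k hk
        by_cases h1 : k = l
        · rw [h1, hfl]; exact hL1
        · by_cases h2 : k = l'
          · rw [h2, hfl']; exact hL2
          · rw [hfo k h1 h2]; exact hLc k hk
      · intro k hk
        by_cases h1 : k = l
        · rw [h1, hfl, Finset.card_insert_of_notMem, Finset.card_erase_of_mem, hcard l hlN]
          · omega
          · exact mem_fib.2 ⟨haT, rfl⟩
          · intro h
            have h3 := mem_fib.1 (Finset.mem_of_mem_erase h)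
            exact hll' (h3.2.symm.trans ha'l)
        · by_cases h2 : k = l'
          · rw [h2, hfl', Finset.card_insert_of_notMem, Finset.card_erase_of_mem, hcard l' hl'N]
            · omega
            · exact mem_fib.2 ⟨ha'T, ha'l⟩
            · intro h
              have h3 := mem_fib.1 (Finset.mem_of_mem_erase h)
              exact hll' h3.2
          · rw [hfo k h1 h2]; exact hcard k hk

end Pool.Agent.H34.Im
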