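import Pool.Agent.H34.ImPot

/-!
# The expanding subgraph
-/

namespace Pool.Agent.H34.Im

open Finset Classical

lemma dts_le {U : Type} [Fintype U] (G : SimpleGraph U) :
    dts G ≤ Fintype.card U * Fintype.card U := by
  unfold dts
  refine (Finset.card_filter_le _ _).trans ?_
  rw [Finset.card_univ, Fintype.card_prod]

lemma density_arith {D ε K n E m : ℝ} (hD : 0 ≤ D) (hε : 0 < ε) (hK : 1 ≤ K)
    (hKb : 4 * (D + ε) ^ 2 ≤ K * ε) (hE : (D + ε) * n ≤ E) (hn : 0 < n)
    (hm : m ≤ n + E / K) : (D + 3 * ε / 4) * m ≤ E := by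
  have hDε : 0 < D + ε := by linarith
  have hE0 : 0 < E := lt_of_lt_of_le (by positivity) hE
  have h1 : n ≤ E / (D + ε) := by
    rw [le_div_iff₀ hDε]; linarith
  have h2 : (D + 3 * ε / 4) * (1 / (D + ε) + 1 / K) ≤ 1 := by
    have h3 : (D + 3 * ε / 4) * (1 / (D + ε)) = 1 - ε / 4 / (D + ε) := by
      field_simp
      ring
    have h4 : (D + 3 * ε / 4) * (1 / K) ≤ ε / 4 / (D + ε) := by
      rw [mul_one_div, div_le_div_iff₀ (by linarith) hDε]
      nlinarith
    rw [mul_add, h3]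
    linarith
  calc (D + 3 * ε / 4) * m ≤ (D + 3 * ε / 4) * (E / (D + ε) + E / K) := by
        apply mul_le_mul_of_nonneg_left _ (by linarith)
        linarith
    _ = ((D + 3 * ε / 4) * (1 / (D + ε) + 1 / K)) * E := by ring
    _ ≤ 1 * E := mul_le_mul_of_nonneg_right h2 hE0.le
    _ = E := one_mul _

theorem core_net {n : ℕ} (hn : 2 ≤ n) (G : SimpleGraph (Fin n)) {K : ℕ} {D ε Z : ℝ}
    (hK : 1 ≤ K) (hD0 : 0 ≤ D) (hε : 0 < ε) (hKb : 4 * (D + ε) ^ 2 ≤ K * ε)
    (hd : (D + ε) * n ≤ dts G)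
    (hsm : ∀ A : Finset (Fin n), (A.card : ℝ) ≤ Z → (e2 G A : ℝ) ≤ D * A.card) :
    ∃ (V : Type) (_ : Fintype V) (cl : V → Fin n) (G' : SimpleGraph V) (X : Finset V),
      (∀ p q, G'.Adj p q → G.Adj (cl p) (cl q)) ∧
      (∀ p q p' q', G'.Adj p q → G'.Adj p' q' → cl p = cl p' → cl q = cl q' →
        p = p' ∧ q = q') ∧
      (∀ p, (Finset.univ.filter (fun q => G'.Adj p q)).card ≤ K) ∧
      X.Nonempty ∧ (D + ε / 4) * X.card ≤ e2 G' X ∧ Real.log X.card ≤ 3 * Real.log n ∧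
      Z < X.card ∧
      (2 ≤ Real.log X.card → ∀ Y ⊆ X, Y.Nonempty → ∀ η : ℝ, 0 < η → η ≤ 1 →
        Real.log Y.card ≤ (1 - η) * Real.log X.card →
        ε * η / 64 * sig (Real.log X.card) (3 * Real.log n) * Y.card ≤ crs G' Y (X \ Y)) ∧
      (∀ Y ⊆ X, (Y.card : ℝ) ≤ Z → ε / 8 * Y.card ≤ crs G' Y (X \ Y)) := by
  obtain ⟨G', V0, hhom, hinj, hdeg, hV0, hE⟩ := split G K hK
  have hn1 : (2:ℝ) ≤ n := by exact_mod_cast hn
  have hn0 : (0:ℝ) < n := by linarith
  have hlogn : 0 < Real.log n := Real.log_pos (by linarith)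
  obtain ⟨l, hl⟩ : ∃ l : ℝ, l = 3 * Real.log n := ⟨_, rfl⟩
  have hl0 : 0 < l := by rw [hl]; positivity
  have hK1 : (1:ℝ) ≤ K := by exact_mod_cast hK
  have hEn : (dts G : ℝ) ≤ n * n := by
    have := dts_le G
    rw [Fintype.card_fin] at this
    exact_mod_cast this
  have hV0 : (V0.card : ℝ) ≤ n + (dts G : ℝ) / K := by
    have h1 : ((Fintype.card (Fin n) : ℕ) : ℝ) = n := by rw [Fintype.card_fin]
    linarith
  have hE0 : (0:ℝ) < dts G := lt_of_lt_of_le (by positivity) hd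
  have hV0c : (V0.card : ℝ) ≤ n ^ 3 := by
    have h1 : (dts G : ℝ) / K ≤ n * n := by
      rw [div_le_iff₀ (by linarith)]
      have : (n:ℝ) * n * 1 ≤ n * n * K := mul_le_mul_of_nonneg_left hK1 (by positivity)
      linarith
    have h2 : (n:ℝ) + n * n ≤ n ^ 3 := by nlinarith
    linarith
  have hV0ne : V0.Nonempty := by
    by_contra h
    rw [Finset.not_nonempty_iff_eq_empty] at h
    rw [h] at hE
    have h2 : e2 G' ∅ = 0 := by unfold e2; simp
    rw [h2] at hE
    have : (dts G : ℝ) ≤ 0 := by exact_mod_cast hE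
    linarith
  have hlog3 : ∀ j : ℕ, 1 ≤ j → j ≤ V0.card → Real.log j ≤ l := by
    intro j hj1 hj
    have h1 : (j:ℝ) ≤ n ^ 3 := le_trans (by exact_mod_cast hj) hV0c
    have h2 : (0:ℝ) < j := by exact_mod_cast hj1
    rw [hl]
    calc Real.log j ≤ Real.log ((n:ℝ) ^ 3) := Real.log_le_log h2 h1
      _ = 3 * Real.log n := by rw [Real.log_pow]; norm_num
  obtain ⟨h, hh⟩ : ∃ h : ℕ → ℝ, ∀ j, h j = D + ε / 4 + ε / 4 * ps l (Real.log j) :=
    ⟨fun j => D + ε / 4 + ε / 4 * ps l (Real.log j), fun _ => rfl⟩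
  have hlog0 : ∀ j : ℕ, 0 ≤ Real.log j := fun j => Real.log_natCast_nonneg j
  have hmono : Monotone h := by
    intro i j hij
    rw [hh, hh]
    have h1 : Real.log i ≤ Real.log j := by
      rcases Nat.eq_zero_or_pos i with h0 | h0
      · rw [h0]; simp; exact hlog0 j
      · exact Real.log_le_log (by exact_mod_cast h0) (by exact_mod_cast hij)
    have := ps_mono hl0 (hlog0 i) h1
    have h2 := mul_le_mul_of_nonneg_left this (by positivity : 0 ≤ ε / 4)
    linarith
  have hV0h : h V0.card * V0.card ≤ e2 G' V0 := by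
    have h1 : h V0.card ≤ D + 3 * ε / 4 := by
      rw [hh]
      have := ps_le_one hl0 (hlog0 V0.card) (hlog3 _ (Finset.card_pos.2 hV0ne) le_rfl)
      have h2 := mul_le_mul_of_nonneg_left this (by positivity : 0 ≤ ε / 4)
      linarith
    have h2 : (D + 3 * ε / 4) * V0.card ≤ dts G :=
      density_arith hD0 hε hK1 hKb hd hn0 hV0
    have h3 : h V0.card * V0.card ≤ (D + 3 * ε / 4) * V0.card :=
      mul_le_mul_of_nonneg_right h1 (Nat.cast_nonneg _)
    have h4 : (dts G : ℝ) ≤ e2 G' V0 := by exact_mod_cast hE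
    linarith
  obtain ⟨X, hXV0, hXne, hXe, hX1, hX2⟩ := min_sub G' V0 h hmono hV0ne hV0h
  have hhX : ∀ j, D + ε / 4 ≤ h j := by
    intro j
    rw [hh]
    have := ps_nonneg (l := l) (hlog0 j)
    have h2 : 0 ≤ ε / 4 * ps l (Real.log j) := by positivity
    linarith
  have hsm' : ∀ Y : Finset (Fin n × Fin (Fintype.card (Fin n) + 1)), (Y.card : ℝ) ≤ Z →
      (e2 G' Y : ℝ) ≤ D * Y.card := by
    intro Y hY
    have h1 : (Y.image Prod.fst).card ≤ Y.card := Finset.card_image_le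
    have h1' : ((Y.image Prod.fst).card : ℝ) ≤ Y.card := by exact_mod_cast h1
    have h2 := hsm (Y.image Prod.fst) (h1'.trans hY)
    have h3 := e2_hom G G' Prod.fst hhom hinj Y (Y.image Prod.fst)
      (fun y hy => Finset.mem_image_of_mem _ hy)
    have h3' : (e2 G' Y : ℝ) ≤ e2 G (Y.image Prod.fst) := by exact_mod_cast h3
    have h4 := mul_le_mul_of_nonneg_left h1' hD0
    linarith
  have hXpos : (0:ℝ) < X.card := by exact_mod_cast Finset.card_pos.2 hXne
  have hXe' : (D + ε / 4) * X.card ≤ e2 G' X :=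
    (mul_le_mul_of_nonneg_right (hhX _) hXpos.le).trans hXe
  refine ⟨_, inferInstance, Prod.fst, G', X, hhom, hinj, hdeg, hXne, hXe', ?_, ?_, ?_, ?_⟩
  · rw [← hl]
    exact hlog3 _ (Finset.card_pos.2 hXne) (Finset.card_le_card hXV0)
  · by_contra hcon
    push Not at hcon
    have := hsm' X hcon
    have h1 : 0 < ε / 4 * X.card := by positivity
    linarith
  · intro hX2' Y hYX hYne η hη0 hη1 hYlog
    rw [← hl]
    have hYX' : Y ≠ X := by
      intro he
      rw [he] at hYlog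
      have : 0 < η * Real.log X.card := by positivity
      linarith
    have h1 := hX1 Y hYX hYne hYX'
    have h2 := ps_incr (l := l) (hlog0 Y.card) hX2'
      (hlog3 _ (Finset.card_pos.2 hXne) (Finset.card_le_card hXV0)) hη0.le hη1 hYlog
    rw [hh, hh] at h1
    have h3 : ε / 4 * (η / 8 * sig (Real.log X.card) l) ≤
        ε / 4 * (ps l (Real.log X.card) - ps l (Real.log Y.card)) :=
      mul_le_mul_of_nonneg_left h2 (by positivity)
    have h4 : (Y.card : ℝ) * (ε / 4 * (η / 8 * sig (Real.log X.card) l)) ≤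
        (Y.card : ℝ) * (ε / 4 * (ps l (Real.log X.card) - ps l (Real.log Y.card))) :=
      mul_le_mul_of_nonneg_left h3 (Nat.cast_nonneg _)
    have h5 : (Y.card : ℝ) * (ε / 4 * (ps l (Real.log X.card) - ps l (Real.log Y.card))) =
      (Y.card : ℝ) * (D + ε / 4 + ε / 4 * ps l (Real.log X.card) -
        (D + ε / 4 + ε / 4 * ps l (Real.log Y.card))) := by ring
    have h6 : (Y.card : ℝ) * (ε / 4 * (η / 8 * sig (Real.log X.card) l)) =
        2 * (ε * η / 64 * sig (Real.log X.card) l * Y.card) := by ring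
    rw [h5] at h4
    rw [h6] at h4
    linarith
  · intro Y hYX hYZ
    have h1 := hX2 Y hYX D (hsm' Y hYZ) (by linarith [hhX X.card])
    have h2 : ε / 4 ≤ h X.card - D := by linarith [hhX X.card]
    have h3 : (Y.card : ℝ) * (ε / 4) ≤ (Y.card : ℝ) * (h X.card - D) :=
      mul_le_mul_of_nonneg_left h2 (Nat.cast_nonneg _)
    linarith

end Pool.Agent.H34.Im
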