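import Pool.Agent.H34.ImFlow

/-!
# Cuts and clusters
-/

namespace Pool.Agent.H34.Im

open Finset Classical

variable {V : Type} [Fintype V]

lemma bdE_eq_sum (E : Set (Sym2 V)) (X : Finset V) :
    bdE E X = ∑ a : V, ∑ b : V, (if a ∈ X ∧ b ∉ X ∧ s(a, b) ∈ E then 1 else 0) := by
  unfold bdE
  rw [Finset.card_filter, Finset.sum_product]
  rw [← Finset.sum_filter_add_sum_filter_not (s := (Finset.univ : Finset V)) (p := fun a => a ∈ X)]
  have h2 : ∑ a ∈ (Finset.univ : Finset V).filter (fun a => a ∉ X),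
      ∑ b : V, (if a ∈ X ∧ b ∉ X ∧ s(a, b) ∈ E then 1 else 0) = 0 := by
    apply Finset.sum_eq_zero
    intro a ha
    apply Finset.sum_eq_zero
    intro b _
    rw [if_neg]
    exact fun h => (Finset.mem_filter.1 ha).2 h.1
  rw [h2, add_zero]
  have h3 : (Finset.univ : Finset V).filter (fun a => a ∈ X) = X := by
    ext a; simp
  rw [h3]
  refine Finset.sum_congr rfl (fun a ha => ?_)
  rw [← Finset.sum_filter_add_sum_filter_not (s := (Finset.univ : Finset V))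
    (p := fun b => b ∉ X)]
  have h4 : ∑ b ∈ (Finset.univ : Finset V).filter (fun b => ¬ (b ∉ X)),
      (if a ∈ X ∧ b ∉ X ∧ s(a, b) ∈ E then 1 else 0) = 0 := by
    apply Finset.sum_eq_zero
    intro b hb
    rw [if_neg]
    exact fun h => (Finset.mem_filter.1 hb).2 h.2.1
  rw [h4, add_zero]
  have h5 : (Finset.univ : Finset V).filter (fun b => b ∉ X) = Xᶜ := by
    ext a; simp
  rw [h5]
  refine Finset.sum_congr rfl (fun b hb => ?_)
  rw [Finset.mem_compl] at hb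
  simp only [ha, hb, true_and, not_false_eq_true]

lemma bdE_submod (E : Set (Sym2 V)) (A B : Finset V) :
    bdE E (A ∩ B) + bdE E (A ∪ B) ≤ bdE E A + bdE E B := by
  simp only [bdE_eq_sum, ← Finset.sum_add_distrib]
  apply Finset.sum_le_sum
  intro a _
  apply Finset.sum_le_sum
  intro b _
  simp only [Finset.mem_inter, Finset.mem_union]
  by_cases h1 : a ∈ A <;> by_cases h2 : a ∈ B <;> by_cases h3 : b ∈ A <;> by_cases h4 : b ∈ B <;>
    by_cases h5 : s(a, b) ∈ E <;> simp [h1, h2, h3, h4, h5]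

lemma bdE_compl (E : Set (Sym2 V)) (A : Finset V) : bdE E Aᶜ = bdE E A := by
  rw [bdE_eq_sum, bdE_eq_sum, Finset.sum_comm]
  refine Finset.sum_congr rfl (fun a _ => Finset.sum_congr rfl (fun b _ => ?_))
  have h : (b ∈ Aᶜ ∧ a ∉ Aᶜ ∧ s(b, a) ∈ E) ↔ (a ∈ A ∧ b ∉ A ∧ s(a, b) ∈ E) := by
    rw [Finset.mem_compl, Finset.mem_compl, not_not, Sym2.eq_swap]
    tauto
  by_cases h' : a ∈ A ∧ b ∉ A ∧ s(a, b) ∈ E
  · rw [if_pos h', if_pos (h.2 h')]
  · rw [if_neg h', if_neg (fun h2 => h' (h.1 h2))]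

lemma bdE_posimod (E : Set (Sym2 V)) (A B : Finset V) :
    bdE E (A \ B) + bdE E (B \ A) ≤ bdE E A + bdE E B := by
  have h := bdE_submod E A Bᶜ
  have h1 : A ∩ Bᶜ = A \ B := by ext; simp
  have h2 : (A ∪ Bᶜ)ᶜ = B \ A := by ext; simp [and_comm]
  rw [h1, ← bdE_compl E (A ∪ Bᶜ), h2, bdE_compl E B] at h
  exact h

/-- Partition of `V1` into clusters minimising the boundary. -/
theorem clusters (E : Set (Sym2 V)) (V1 : Finset V) (s0 K M : ℕ) (hM : 2 * M ≤ s0) (hs : 1 ≤ s0)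
    (hdeg : ∀ u ∈ V1, bdE E {u} ≤ K)
    (hexp : ∀ X ⊆ V1, X.card ≤ s0 → bdE E X ≤ K → X.card ≤ M) :
    ∃ PP : Finset (Finset V),
      (∀ x ∈ PP, x ⊆ V1 ∧ x.Nonempty ∧ x.card ≤ M ∧ bdE E x ≤ K ∧
        ∀ X, x ⊆ X → X ⊆ V1 → X.card ≤ s0 → bdE E x ≤ bdE E X) ∧
      (∀ x ∈ PP, ∀ y ∈ PP, x ≠ y → Disjoint x y) ∧ (∀ u ∈ V1, ∃ x ∈ PP, u ∈ x) := by
  set fam : V → Finset (Finset V) := fun u =>
    (V1.powerset).filter (fun X => u ∈ X ∧ X.card ≤ s0) with hfam
  have hne : ∀ u ∈ V1, (fam u).Nonempty := by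
    intro u hu
    refine ⟨{u}, ?_⟩
    simp only [hfam, Finset.mem_filter, Finset.mem_powerset, Finset.singleton_subset_iff,
      Finset.mem_singleton, Finset.card_singleton]
    exact ⟨hu, trivial, hs⟩
  -- the measure
  set μ : Finset V → ℕ := fun X => bdE E X * (Fintype.card V + 1) + X.card with hμ
  have hcard : ∀ X : Finset V, X.card < Fintype.card V + 1 := fun X =>
    Nat.lt_succ_of_le (Finset.card_le_univ X)
  have hμ1 : ∀ X Y : Finset V, μ X ≤ μ Y → bdE E X ≤ bdE E Y := by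
    intro X Y h
    by_contra hlt
    push Not at hlt
    simp only [hμ] at h
    have h1 := hcard Y
    have h2 : (bdE E Y + 1) * (Fintype.card V + 1) ≤ bdE E X * (Fintype.card V + 1) :=
      Nat.mul_le_mul_right _ hlt
    rw [add_mul, one_mul] at h2
    omega
  have hμ2 : ∀ X Y : Finset V, μ X ≤ μ Y → bdE E X = bdE E Y → X.card ≤ Y.card := by
    intro X Y h h'
    simp only [hμ, h'] at h
    omega
  have hSex : ∀ u : V, ∃ S : Finset V, u ∈ V1 → (S ∈ fam u ∧ ∀ Y ∈ fam u, μ S ≤ μ Y) := by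
    intro u
    by_cases hu : u ∈ V1
    · obtain ⟨S, hS, hmin⟩ := Finset.exists_min_image (fam u) μ (hne u hu)
      exact ⟨S, fun _ => ⟨hS, hmin⟩⟩
    · exact ⟨∅, fun h => absurd h hu⟩
  choose S hS using hSex
  have hmem : ∀ u ∈ V1, ∀ X, X ∈ fam u ↔ X ⊆ V1 ∧ u ∈ X ∧ X.card ≤ s0 := by
    intro u _ X
    simp only [hfam, Finset.mem_filter, Finset.mem_powerset]
  have hprop : ∀ u ∈ V1, S u ⊆ V1 ∧ u ∈ S u ∧ (S u).card ≤ s0 ∧ bdE E (S u) ≤ K ∧
      (S u).card ≤ M := by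
    intro u hu
    obtain ⟨h1, h2⟩ := hS u hu
    obtain ⟨h3, h4, h5⟩ := (hmem u hu _).1 h1
    have h6 : bdE E (S u) ≤ K := by
      refine le_trans (hμ1 _ _ (h2 {u} ?_)) (hdeg u hu)
      rw [hmem u hu]
      exact ⟨Finset.singleton_subset_iff.2 hu, Finset.mem_singleton_self u, by
        rw [Finset.card_singleton]; exact hs⟩
    exact ⟨h3, h4, h5, h6, hexp _ h3 h5 h6⟩
  -- laminarity
  have hlam1 : ∀ u ∈ V1, ∀ v ∈ S u, S v ⊆ S u := by
    intro u hu v hvu
    obtain ⟨a1, a2, a3, a4, a5⟩ := hprop u hu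
    have hv : v ∈ V1 := a1 hvu
    obtain ⟨b1, b2, b3, b4, b5⟩ := hprop v hv
    have h1 : μ (S v) ≤ μ (S v ∩ S u) := by
      apply (hS v hv).2
      rw [hmem v hv]
      exact ⟨Finset.inter_subset_left.trans b1, Finset.mem_inter.2 ⟨b2, hvu⟩,
        (Finset.card_le_card Finset.inter_subset_left).trans b3⟩
    have h2 : μ (S u) ≤ μ (S v ∪ S u) := by
      apply (hS u hu).2
      rw [hmem u hu]
      refine ⟨Finset.union_subset b1 a1, Finset.mem_union_right _ a2, ?_⟩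
      refine (Finset.card_union_le _ _).trans ?_
      omega
    have h3 := bdE_submod E (S v) (S u)
    have h4 := hμ1 _ _ h1
    have h5 := hμ1 _ _ h2
    have h6 : bdE E (S v) = bdE E (S v ∩ S u) := by omega
    have h7 := hμ2 _ _ h1 h6
    have h8 : S v ∩ S u = S v := Finset.eq_of_subset_of_card_le Finset.inter_subset_left h7
    rw [← h8]
    exact Finset.inter_subset_right
  have hlam2 : ∀ u ∈ V1, ∀ v ∈ V1, v ∉ S u → u ∉ S v → Disjoint (S v) (S u) := by
    intro u hu v hv hvu huv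
    obtain ⟨a1, a2, a3, a4, a5⟩ := hprop u hu
    obtain ⟨b1, b2, b3, b4, b5⟩ := hprop v hv
    have h1 : μ (S v) ≤ μ (S v \ S u) := by
      apply (hS v hv).2
      rw [hmem v hv]
      exact ⟨Finset.sdiff_subset.trans b1, Finset.mem_sdiff.2 ⟨b2, hvu⟩,
        (Finset.card_le_card Finset.sdiff_subset).trans b3⟩
    have h2 : μ (S u) ≤ μ (S u \ S v) := by
      apply (hS u hu).2
      rw [hmem u hu]
      exact ⟨Finset.sdiff_subset.trans a1, Finset.mem_sdiff.2 ⟨a2, huv⟩,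
        (Finset.card_le_card Finset.sdiff_subset).trans a3⟩
    have h3 := bdE_posimod E (S v) (S u)
    have h4 := hμ1 _ _ h1
    have h5 := hμ1 _ _ h2
    have h6 : bdE E (S v) = bdE E (S v \ S u) := by omega
    have h7 := hμ2 _ _ h1 h6
    have h8 : S v \ S u = S v := Finset.eq_of_subset_of_card_le Finset.sdiff_subset h7
    exact Finset.sdiff_eq_self_iff_disjoint.1 h8
  have hlam : ∀ u ∈ V1, ∀ v ∈ V1, S v ⊆ S u ∨ S u ⊆ S v ∨ Disjoint (S v) (S u) := by
    intro u hu v hv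
    by_cases h1 : v ∈ S u
    · exact Or.inl (hlam1 u hu v h1)
    · by_cases h2 : u ∈ S v
      · exact Or.inr (Or.inl (hlam1 v hv u h2))
      · exact Or.inr (Or.inr (hlam2 u hu v hv h1 h2))
  -- maximal members
  set SS : Finset (Finset V) := V1.image S with hSS
  refine ⟨SS.filter (fun x => ∀ y ∈ SS, x ⊆ y → y = x), ?_, ?_, ?_⟩
  · intro x hx
    rw [Finset.mem_filter, hSS, Finset.mem_image] at hx
    obtain ⟨⟨u, hu, rfl⟩, hmax⟩ := hx
    obtain ⟨a1, a2, a3, a4, a5⟩ := hprop u hu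
    refine ⟨a1, ⟨u, a2⟩, a5, a4, ?_⟩
    intro X h1 h2 h3
    apply hμ1
    apply (hS u hu).2
    rw [hmem u hu]
    exact ⟨h2, h1 a2, h3⟩
  · intro x hx y hy hxy
    rw [Finset.mem_filter] at hx hy
    obtain ⟨hx, hxmax⟩ := hx
    obtain ⟨hy, hymax⟩ := hy
    have hx' := hx
    have hy' := hy
    rw [hSS, Finset.mem_image] at hx' hy'
    obtain ⟨u, hu, rfl⟩ := hx'
    obtain ⟨v, hv, rfl⟩ := hy'
    rcases hlam u hu v hv with h | h | h
    · exact absurd (hymax _ hx h) hxy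
    · exact absurd (hxmax _ hy h).symm hxy
    · exact h.symm
  · intro u hu
    -- choose a member of SS containing u of maximal size
    have hne' : (SS.filter (fun x => u ∈ x)).Nonempty :=
      ⟨S u, Finset.mem_filter.2 ⟨Finset.mem_image_of_mem S hu, (hprop u hu).2.1⟩⟩
    obtain ⟨x, hx, hmax⟩ := Finset.exists_max_image _ Finset.card hne'
    rw [Finset.mem_filter] at hx
    refine ⟨x, Finset.mem_filter.2 ⟨hx.1, ?_⟩, hx.2⟩
    intro y hy hxy
    have h1 := hmax y (Finset.mem_filter.2 ⟨hy, hxy hx.2⟩)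
    exact (Finset.eq_of_subset_of_card_le hxy h1).symm

end Pool.Agent.H34.Im
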