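import Pool.Agent.H34.ImNet

/-!
# The family of dense clusters
-/

namespace Pool.Agent.H34.Im

open Finset Classical

/-- the three kinds of edges at a cluster, giants counted twice -/
noncomputable def nu {V : Type} [Fintype V] (N : SimpleGraph V) (V1 x : Finset V) : ℕ :=
  ((x ×ˢ x).filter (fun q => N.Adj q.1 q.2)).card + 2 * (gis N V1 x).card + (arms N V1 x).card

/-- scales: some band of class sizes is light -/
theorem gap {V : Type} (X : Finset V) (sz : V → ℕ) (J : ℕ) (hJ : 1 ≤ J) (τ : ℕ → ℝ)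
    (hτ : Monotone τ) :
    ∃ j < J, ((X.filter (fun v => τ j ≤ sz v ∧ (sz v : ℝ) < τ (j + 1))).card : ℝ) * J ≤ X.card := by
  by_contra hcon
  push Not at hcon
  have h1 : ∑ j ∈ Finset.range J, (X.filter (fun v => τ j ≤ sz v ∧ (sz v : ℝ) < τ (j + 1))).card
      ≤ X.card := by
    rw [← Finset.card_biUnion]
    · apply Finset.card_le_card
      intro v hv
      rw [Finset.mem_biUnion] at hv
      obtain ⟨j, -, hv⟩ := hv
      exact (Finset.mem_filter.1 hv).1
    · intro i hi j hj hij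
      rw [Function.onFun, Finset.disjoint_left]
      intro v hv hv'
      rw [Finset.mem_filter] at hv hv'
      rcases lt_or_gt_of_ne hij with h | h
      · have : τ (i + 1) ≤ τ j := hτ h
        linarith [hv.2.2, hv'.2.1]
      · have : τ (j + 1) ≤ τ i := hτ h
        linarith [hv.2.1, hv'.2.2]
  have h2 : ∑ j ∈ Finset.range J, ((X.card : ℝ) / J) <
      ∑ j ∈ Finset.range J, ((X.filter (fun v => τ j ≤ sz v ∧ (sz v : ℝ) < τ (j + 1))).card : ℝ) := by
    apply Finset.sum_lt_sum_of_nonempty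
    · rw [Finset.nonempty_range_iff]; omega
    · intro j hj
      have hJ0 : (0:ℝ) < J := by exact_mod_cast hJ
      rw [div_lt_iff₀ hJ0]
      exact hcon j (Finset.mem_range.1 hj)
  rw [Finset.sum_const, Finset.card_range, nsmul_eq_mul] at h2
  have hJ0 : (J:ℝ) ≠ 0 := by positivity
  rw [mul_div_cancel₀ _ hJ0] at h2
  have h3 : ((∑ j ∈ Finset.range J,
    (X.filter (fun v => τ j ≤ sz v ∧ (sz v : ℝ) < τ (j + 1))).card : ℕ) : ℝ) ≤ X.card := by
    exact_mod_cast h1
  rw [Nat.cast_sum] at h3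
  linarith

lemma exists_code {V : Type} (K : ℕ) (Wa W : Finset V) (hW : W ⊆ Wa) (hWK : W.card ≤ K) :
    ∃ φ ∈ Fintype.piFinset (fun _ : Fin K => Finset.insertNone Wa),
      ∀ w, w ∈ W ↔ ∃ i, φ i = some w := by
  refine ⟨fun i => if h : i.1 < W.card then some ((W.equivFin).symm ⟨i.1, h⟩).1 else none, ?_, ?_⟩
  · rw [Fintype.mem_piFinset]
    intro i
    split_ifs with h
    · rw [Finset.some_mem_insertNone]
      exact hW (Subtype.property _)
    · exact Finset.none_mem_insertNone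
  · intro w
    constructor
    · intro hw
      refine ⟨⟨(W.equivFin ⟨w, hw⟩).1, lt_of_lt_of_le (W.equivFin ⟨w, hw⟩).2 hWK⟩, ?_⟩
      dsimp only
      rw [dif_pos (W.equivFin ⟨w, hw⟩).2]
      simp
    · rintro ⟨i, hi⟩
      dsimp only at hi
      split_ifs at hi with h
      · rw [Option.some.injEq] at hi
        rw [← hi]
        exact Subtype.property _

theorem fam {V : Type} [Fintype V] (N : SimpleGraph V) (V1 : Finset V) (K M : ℕ)
    (PP : Finset (Finset V))
    (hPP : ∀ x ∈ PP, x ⊆ V1 ∧ x.Nonempty ∧ x.card ≤ M ∧ bdE N.edgeSet x ≤ K)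
    (hdj : ∀ x ∈ PP, ∀ y ∈ PP, x ≠ y → Disjoint x y) (hcov : ∀ u ∈ V1, ∃ x ∈ PP, u ∈ x)
    (hdeg : ∀ u ∈ V1, (Finset.univ.filter (fun v => N.Adj u v)).card ≤ K)
    (Wa : Finset V) (hWa : ∀ w, w ∉ V1 → (∃ u, N.Adj w u) → w ∈ Wa)
    (I : Finset V) (D ε m : ℝ) (hD : 0 ≤ D) (hε : 0 < ε)
    (hV1m : (V1.card : ℝ) ≤ m) (hdts : (D + ε / 4) * m ≤ dts N)
    (hI : 3 * K * M * (I.card : ℝ) ≤ ε / 16 * m) (hWa2 : (Wa.card : ℝ) ^ 2 ≤ ε / 16 * m) :
    ∃ F0 ⊆ PP, ∃ b ≤ K, ∃ Wl ⊆ Wa, Wl.card ≤ K ∧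
      (∀ x ∈ F0, (arms N V1 x).card = b ∧ (∀ u ∈ x, ∀ w, w ∉ V1 → N.Adj u w → w ∈ Wl) ∧
        (D + ε / 16) * x.card < nu N V1 x ∧ (∀ v ∈ x, v ∉ I)) ∧
      ε / 16 * m ≤ 3 * K * M * ((K + 1) * ((Wa.card : ℝ) + 1) ^ K) * F0.card := by
  have hm0 : 0 ≤ m := le_trans (Nat.cast_nonneg _) hV1m
  -- upper bound for each cluster
  have hint : ∀ x ∈ PP, ((x ×ˢ x).filter (fun q => N.Adj q.1 q.2)).card ≤ K * x.card := by
    intro x hx
    have h1 : (x ×ˢ x).filter (fun q => N.Adj q.1 q.2) ⊆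
        x.biUnion (fun u => (Finset.univ.filter (fun v => N.Adj u v)).image (fun v => (u, v))) := by
      intro q hq
      rw [Finset.mem_filter, Finset.mem_product] at hq
      rw [Finset.mem_biUnion]
      refine ⟨q.1, hq.1.1, ?_⟩
      rw [Finset.mem_image]
      exact ⟨q.2, Finset.mem_filter.2 ⟨Finset.mem_univ _, hq.2⟩, rfl⟩
    refine (Finset.card_le_card h1).trans ?_
    rw [mul_comm]
    apply Finset.card_biUnion_le_card_mul
    intro u hu
    exact Finset.card_image_le.trans (hdeg u ((hPP x hx).1 hu))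
  have hcl : ∀ x ∈ PP, (arms N V1 x).card + (gis N V1 x).card ≤ K := by
    intro x hx
    rw [← bdE_cluster N (hPP x hx).1]
    exact (hPP x hx).2.2.2
  have hnu : ∀ x ∈ PP, nu N V1 x ≤ 3 * K * M := by
    intro x hx
    have h1 := hint x hx
    have h2 := hcl x hx
    have h3 : 1 ≤ x.card := Finset.card_pos.2 (hPP x hx).2.1
    have h4 := (hPP x hx).2.2.1
    unfold nu
    have h5 : K * x.card ≤ K * M := Nat.mul_le_mul_left _ h4
    have h6 : K * 1 ≤ K * M := Nat.mul_le_mul_left _ (h3.trans h4)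
    have h7 : 3 * K * M = 3 * (K * M) := by ring
    omega
  -- the total
  have htot : dts N ≤ (∑ x ∈ PP, nu N V1 x) + Wa.card ^ 2 := by
    have h1 : (Finset.univ : Finset (V × V)).filter (fun p => N.Adj p.1 p.2) ⊆
        ((PP.biUnion (fun x => (x ×ˢ x).filter (fun q => N.Adj q.1 q.2) ∪ arms N V1 x ∪
          gis N V1 x)) ∪ PP.biUnion (fun x => (gis N V1 x).image Prod.swap)) ∪ Wa ×ˢ Wa := by
      intro p hp
      have hadj := (Finset.mem_filter.1 hp).2
      rw [Finset.mem_union, Finset.mem_union, Finset.mem_biUnion, Finset.mem_biUnion]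
      by_cases h1 : p.1 ∈ V1
      · left; left
        obtain ⟨x, hx, hpx⟩ := hcov _ h1
        refine ⟨x, hx, ?_⟩
        rw [Finset.mem_union, Finset.mem_union]
        by_cases h2 : p.2 ∈ V1
        · left
          by_cases h3 : p.2 ∈ x
          · left
            exact Finset.mem_filter.2 ⟨Finset.mem_product.2 ⟨hpx, h3⟩, hadj⟩
          · right
            unfold arms
            exact Finset.mem_filter.2 ⟨Finset.mem_product.2 ⟨hpx, Finset.mem_sdiff.2 ⟨h2, h3⟩⟩, hadj⟩
        · right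
          unfold gis
          exact Finset.mem_filter.2 ⟨Finset.mem_product.2 ⟨hpx, Finset.mem_compl.2 h2⟩, hadj⟩
      · by_cases h2 : p.2 ∈ V1
        · left; right
          obtain ⟨x, hx, hpx⟩ := hcov _ h2
          refine ⟨x, hx, ?_⟩
          rw [Finset.mem_image]
          refine ⟨p.swap, ?_, Prod.swap_swap p⟩
          unfold gis
          exact Finset.mem_filter.2 ⟨Finset.mem_product.2 ⟨hpx, Finset.mem_compl.2 h1⟩, hadj.symm⟩
        · right
          rw [Finset.mem_product]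
          exact ⟨hWa _ h1 ⟨_, hadj⟩, hWa _ h2 ⟨_, hadj.symm⟩⟩
    unfold dts
    refine (Finset.card_le_card h1).trans ?_
    refine (Finset.card_union_le _ _).trans ?_
    rw [Finset.card_product, ← pow_two]
    apply Nat.add_le_add_right
    refine (Finset.card_union_le _ _).trans ?_
    have h2 : (PP.biUnion (fun x => (x ×ˢ x).filter (fun q => N.Adj q.1 q.2) ∪ arms N V1 x ∪
          gis N V1 x)).card ≤ ∑ x ∈ PP, (((x ×ˢ x).filter (fun q => N.Adj q.1 q.2)).card +
            (arms N V1 x).card + (gis N V1 x).card) := by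
      refine Finset.card_biUnion_le.trans (Finset.sum_le_sum (fun x _ => ?_))
      refine (Finset.card_union_le _ _).trans ?_
      exact Nat.add_le_add_right (Finset.card_union_le _ _) _
    have h3 : (PP.biUnion (fun x => (gis N V1 x).image Prod.swap)).card ≤
        ∑ x ∈ PP, (gis N V1 x).card :=
      Finset.card_biUnion_le.trans (Finset.sum_le_sum (fun x _ => Finset.card_image_le))
    refine (Nat.add_le_add h2 h3).trans (le_of_eq ?_)
    rw [← Finset.sum_add_distrib]
    refine Finset.sum_congr rfl (fun x _ => ?_)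
    unfold nu
    ring
  -- good clusters
  set Gd : Finset (Finset V) := PP.filter (fun x => (∀ v ∈ x, v ∉ I) ∧
    (D + ε / 16) * x.card < nu N V1 x) with hGd
  have hVsum : ∑ x ∈ PP, x.card ≤ V1.card := by
    rw [← Finset.card_biUnion]
    · apply Finset.card_le_card
      intro v hv
      rw [Finset.mem_biUnion] at hv
      obtain ⟨x, hx, hv⟩ := hv
      exact (hPP x hx).1 hv
    · intro x hx y hy hxy
      exact hdj x hx y hy hxy
  have hmeet : (PP.filter (fun x => ∃ v ∈ x, v ∈ I)).card ≤ I.card := by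
    rcases PP.eq_empty_or_nonempty with hPPe | hPPe
    · rw [hPPe]; simp
    obtain ⟨y0, hy0⟩ := hPPe
    obtain ⟨v0, -⟩ := (hPP y0 hy0).2.1
    have hch : ∀ x : Finset V, ∃ v, (∃ v ∈ x, v ∈ I) → v ∈ x ∧ v ∈ I := by
      intro x
      by_cases h : ∃ v ∈ x, v ∈ I
      · obtain ⟨v, h1, h2⟩ := h
        exact ⟨v, fun _ => ⟨h1, h2⟩⟩
      · exact ⟨v0, fun h' => absurd h' h⟩
    choose c hc using hch
    apply Finset.card_le_card_of_injOn c
    · intro x hx
      exact (hc x (Finset.mem_filter.1 (Finset.mem_coe.1 hx)).2).2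
    · intro x hx y hy hxy
      by_contra hne
      have hx' := Finset.mem_filter.1 (Finset.mem_coe.1 hx)
      have hy' := Finset.mem_filter.1 (Finset.mem_coe.1 hy)
      have := Finset.disjoint_left.1 (hdj x hx'.1 y hy'.1 hne) (hc x hx'.2).1
      rw [hxy] at this
      exact this (hc y hy'.2).1
  have hsplit : ∀ x ∈ PP, (nu N V1 x : ℝ) ≤ (if x ∈ Gd then (3 * K * M : ℝ) else 0) +
      (if (∃ v ∈ x, v ∈ I) then (3 * K * M : ℝ) else 0) + (D + ε / 16) * x.card := by
    intro x hx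
    have h1 : (nu N V1 x : ℝ) ≤ 3 * K * M := by exact_mod_cast hnu x hx
    have h0 : (0:ℝ) ≤ 3 * K * M := by positivity
    have h2 : 0 ≤ (D + ε / 16) * x.card := by positivity
    by_cases h3 : ∃ v ∈ x, v ∈ I
    · rw [if_pos h3]
      split_ifs <;> linarith
    · rw [if_neg h3]
      by_cases h4 : (D + ε / 16) * x.card < nu N V1 x
      · have h5 : x ∈ Gd := by
          rw [hGd, Finset.mem_filter]
          push Not at h3
          exact ⟨hx, h3, h4⟩
        rw [if_pos h5]
        linarith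
      · push Not at h4
        split_ifs <;> linarith
  have hGdPP : Gd ⊆ PP := Finset.filter_subset _ _
  have hsum2 : (∑ x ∈ PP, (nu N V1 x : ℝ)) ≤ 3 * K * M * Gd.card + 3 * K * M * I.card +
      (D + ε / 16) * V1.card := by
    refine (Finset.sum_le_sum hsplit).trans ?_
    rw [Finset.sum_add_distrib, Finset.sum_add_distrib]
    have e1 : ∑ x ∈ PP, (if x ∈ Gd then (3 * K * M : ℝ) else 0) = 3 * K * M * Gd.card := by
      rw [← Finset.sum_filter, Finset.sum_const, nsmul_eq_mul, mul_comm]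
      congr 3
      ext x
      rw [Finset.mem_filter]
      exact ⟨fun h => h.2, fun h => ⟨hGdPP h, h⟩⟩
    have e2 : ∑ x ∈ PP, (if (∃ v ∈ x, v ∈ I) then (3 * K * M : ℝ) else 0) ≤
        3 * K * M * I.card := by
      rw [← Finset.sum_filter, Finset.sum_const, nsmul_eq_mul, mul_comm]
      apply mul_le_mul_of_nonneg_left _ (by positivity)
      exact_mod_cast hmeet
    have e3 : ∑ x ∈ PP, (D + ε / 16) * (x.card : ℝ) ≤ (D + ε / 16) * V1.card := by
      rw [← Finset.mul_sum]
      apply mul_le_mul_of_nonneg_left _ (by positivity)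
      exact_mod_cast hVsum
    linarith
  have hGdcard : ε / 16 * m ≤ 3 * K * M * Gd.card := by
    have h1 : (dts N : ℝ) ≤ (∑ x ∈ PP, (nu N V1 x : ℝ)) + (Wa.card : ℝ) ^ 2 := by
      exact_mod_cast htot
    have h2 : (D + ε / 16) * V1.card ≤ (D + ε / 16) * m :=
      mul_le_mul_of_nonneg_left hV1m (by positivity)
    nlinarith
  -- pigeonhole
  set Wx : Finset V → Finset V := fun x => (gis N V1 x).image Prod.snd with hWx
  have hWxm : ∀ x, ∀ w, w ∈ Wx x ↔ w ∉ V1 ∧ ∃ u ∈ x, N.Adj u w := by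
    intro x w
    simp only [hWx, gis, Finset.mem_image, Finset.mem_filter, Finset.mem_product,
      Finset.mem_compl]
    constructor
    · rintro ⟨q, ⟨⟨h1, h2⟩, h3⟩, rfl⟩
      exact ⟨h2, q.1, h1, h3⟩
    · rintro ⟨h1, u, h2, h3⟩
      exact ⟨(u, w), ⟨⟨h2, h1⟩, h3⟩, rfl⟩
  have hWxWa : ∀ x, Wx x ⊆ Wa := by
    intro x w hw
    rw [hWxm] at hw
    obtain ⟨h1, u, -, h3⟩ := hw
    exact hWa w h1 ⟨u, h3.symm⟩
  have hWxK : ∀ x ∈ PP, (Wx x).card ≤ K := by
    intro x hx
    have := hcl x hx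
    exact Finset.card_image_le.trans (by omega)
  have hcode : ∀ x, ∃ φ : Fin K → Option V, x ∈ PP →
      φ ∈ Fintype.piFinset (fun _ : Fin K => Finset.insertNone Wa) ∧
        ∀ w, w ∈ Wx x ↔ ∃ i, φ i = some w := by
    intro x
    by_cases hx : x ∈ PP
    · obtain ⟨φ, h1, h2⟩ := exists_code K Wa (Wx x) (hWxWa x) (hWxK x hx)
      exact ⟨φ, fun _ => ⟨h1, h2⟩⟩
    · exact ⟨fun _ => none, fun h => absurd h hx⟩
  choose φ hφ using hcode
  set Tt : Finset (ℕ × (Fin K → Option V)) :=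
    Finset.range (K + 1) ×ˢ Fintype.piFinset (fun _ : Fin K => Finset.insertNone Wa) with hTt
  have hTcard : (Tt.card : ℝ) = (K + 1) * ((Wa.card : ℝ) + 1) ^ K := by
    rw [hTt, Finset.card_product, Finset.card_range, Fintype.card_piFinset]
    simp
  have hmaps : ∀ x ∈ Gd, ((arms N V1 x).card, φ x) ∈ Tt := by
    intro x hx
    have h1 := hcl x (hGdPP hx)
    rw [hTt, Finset.mem_product, Finset.mem_range]
    exact ⟨by omega, (hφ x (hGdPP hx)).1⟩
  have hTne : Tt.Nonempty := by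
    rw [← Finset.card_pos]
    have : (0:ℝ) < Tt.card := by rw [hTcard]; positivity
    exact_mod_cast this
  have hTpos : (0:ℝ) < Tt.card := by exact_mod_cast Finset.card_pos.2 hTne
  obtain ⟨y, hy, hyc⟩ := Finset.exists_le_card_fiber_of_nsmul_le_card_of_maps_to (M := ℝ)
    (b := (Gd.card : ℝ) / Tt.card) hmaps hTne (by
      rw [nsmul_eq_mul, mul_div_cancel₀ _ hTpos.ne'])
  set F0 := Gd.filter (fun x => ((arms N V1 x).card, φ x) = y) with hF0
  have hyb : y.1 ≤ K := by
    rw [hTt, Finset.mem_product, Finset.mem_range] at hy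
    omega
  by_cases hF0e : F0.Nonempty
  · obtain ⟨x0, hx0⟩ := hF0e
    have hx0' := Finset.mem_filter.1 hx0
    have hx0P := hGdPP hx0'.1
    refine ⟨F0, (Finset.filter_subset _ _).trans hGdPP, y.1, hyb, Wx x0, hWxWa x0, hWxK x0 hx0P,
      ?_, ?_⟩
    · intro x hx
      have hx' := Finset.mem_filter.1 hx
      have hxG := Finset.mem_filter.1 hx'.1
      have hxP := hxG.1
      refine ⟨?_, ?_, hxG.2.2, hxG.2.1⟩
      · rw [← hx'.2]
      · intro u hu w hw hadj
        have h1 : w ∈ Wx x := (hWxm x w).2 ⟨hw, u, hu, hadj⟩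
        rw [(hφ x hxP).2] at h1
        rw [(hφ x0 hx0P).2]
        have h2 : φ x = φ x0 := by
          have := hx'.2.trans hx0'.2.symm
          rw [Prod.mk.injEq] at this
          exact this.2
        rw [← h2]; exact h1
    · rw [div_le_iff₀ hTpos] at hyc
      rw [← hTcard]
      refine hGdcard.trans ?_
      have h0 : (0:ℝ) ≤ 3 * K * M := by positivity
      calc 3 * K * M * (Gd.card : ℝ) ≤ 3 * K * M * (F0.card * Tt.card) :=
            mul_le_mul_of_nonneg_left hyc h0
        _ = _ := by ring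
  · rw [Finset.not_nonempty_iff_eq_empty] at hF0e
    have hyc' : (Gd.card : ℝ) / Tt.card ≤ F0.card := hyc
    rw [hF0e, Finset.card_empty, Nat.cast_zero, div_le_iff₀ hTpos, zero_mul] at hyc'
    have h5 : (Gd.card : ℝ) = 0 := le_antisymm hyc' (Nat.cast_nonneg _)
    refine ⟨∅, Finset.empty_subset _, 0, Nat.zero_le _, ∅, Finset.empty_subset _, by simp,
      by simp, ?_⟩
    rw [h5, mul_zero] at hGdcard
    simp only [Finset.card_empty, Nat.cast_zero, mul_zero]
    exact hGdcard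

end Pool.Agent.H34.Im
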