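import Pool.Agent.H34.ImImm

/-!
# Large average degree forces a clique immersion
-/

namespace Pool.Agent.H34.Im

open Finset Classical

/-- ordered adjacent pairs inside a set -/
noncomputable def e2 {U : Type} (G : SimpleGraph U) (X : Finset U) : ℕ :=
  ((X ×ˢ X).filter (fun p => G.Adj p.1 p.2)).card

/-- neighbours of `v` inside `X` -/
noncomputable def nb {U : Type} (G : SimpleGraph U) (X : Finset U) (v : U) : Finset U :=
  X.filter (fun w => G.Adj v w)

lemma e2_eq_sum {U : Type} (G : SimpleGraph U) (X : Finset U) :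
    e2 G X = ∑ v ∈ X, (nb G X v).card := by
  unfold e2 nb
  rw [Finset.card_filter, Finset.sum_product]
  refine Finset.sum_congr rfl (fun v _ => ?_)
  rw [Finset.card_filter]

lemma e2_erase {U : Type} (G : SimpleGraph U) (X : Finset U) {v : U} (hv : v ∈ X) :
    e2 G X = e2 G (X.erase v) + 2 * (nb G (X.erase v) v).card := by
  rw [e2_eq_sum, e2_eq_sum, ← Finset.add_sum_erase X _ hv]
  have h1 : nb G X v = nb G (X.erase v) v := by
    unfold nb
    ext w
    rw [Finset.mem_filter, Finset.mem_filter, Finset.mem_erase]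
    constructor
    · rintro ⟨h1, h2⟩; exact ⟨⟨h2.ne', h1⟩, h2⟩
    · rintro ⟨h1, h2⟩; exact ⟨h1.2, h2⟩
  have h2 : ∑ w ∈ X.erase v, (nb G X w).card
      = ∑ w ∈ X.erase v, ((nb G (X.erase v) w).card + if G.Adj w v then 1 else 0) := by
    refine Finset.sum_congr rfl (fun w hw => ?_)
    unfold nb
    rw [Finset.card_filter, Finset.card_filter, ← Finset.add_sum_erase X _ hv, add_comm]
  rw [h2, Finset.sum_add_distrib, h1]
  have h3 : ∑ w ∈ X.erase v, (if G.Adj w v then 1 else 0) = (nb G (X.erase v) v).card := by
    unfold nb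
    rw [Finset.card_filter]
    refine Finset.sum_congr rfl (fun w _ => ?_)
    rw [SimpleGraph.adj_comm]
  rw [h3]; ring

/-- edges with one end in `S` and the other in `S ∪ R` -/
noncomputable def crossE {U : Type} (G : SimpleGraph U) (S R : Finset U) : Finset (Sym2 U) :=
  ((S ×ˢ (S ∪ R)).filter (fun p => G.Adj p.1 p.2)).image (fun p => s(p.1, p.2))

lemma mem_crossE {U : Type} {G : SimpleGraph U} {S R : Finset U} {e : Sym2 U} :
    e ∈ crossE G S R ↔ ∃ a ∈ S, ∃ b ∈ S ∪ R, G.Adj a b ∧ s(a, b) = e := by
  unfold crossE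
  rw [Finset.mem_image]
  constructor
  · rintro ⟨p, hp, rfl⟩
    rw [Finset.mem_filter, Finset.mem_product] at hp
    exact ⟨p.1, hp.1.1, p.2, hp.1.2, hp.2, rfl⟩
  · rintro ⟨a, ha, b, hb, hab, rfl⟩
    exact ⟨(a, b), Finset.mem_filter.2 ⟨Finset.mem_product.2 ⟨ha, hb⟩, hab⟩, rfl⟩

/-- connected set -/
def CSet {U : Type} (G : SimpleGraph U) (S : Finset U) : Prop :=
  ∀ a ∈ S, ∀ b ∈ S, Conn (crossE G S ∅ : Set (Sym2 U)) a b

theorem mader_aux (q : ℕ) : ∀ k : ℕ, ∃ c : ℕ, 1 ≤ c ∧ ∀ (U : Type)
    (G : SimpleGraph U) (A0 : Finset U), A0.Nonempty → c * A0.card ≤ e2 G A0 →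
    ∃ A ⊆ A0, A.card = k ∧ ∃ E : ℕ → Finset (Sym2 U),
      (∀ i < q, (∀ e ∈ E i, e ∈ G.edgeSet ∧ ∀ u ∈ e, u ∈ A0) ∧
        ∀ a ∈ A, ∀ b ∈ A, Conn (E i : Set (Sym2 U)) a b) ∧
      ∀ i < q, ∀ j < q, i ≠ j → Disjoint (E i) (E j) := by
  induction q with
  | zero =>
    intro k
    refine ⟨k + 1, by omega, ?_⟩
    intro U G A0 hne h
    have h1 : e2 G A0 ≤ A0.card * A0.card := by
      unfold e2
      refine (Finset.card_filter_le _ _).trans ?_
      rw [Finset.card_product]
    have h2 : k + 1 ≤ A0.card := Nat.le_of_mul_le_mul_right (h.trans h1) hne.card_pos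
    obtain ⟨A, hA, hAc⟩ := Finset.exists_subset_card_eq (show k ≤ A0.card by omega)
    exact ⟨A, hA, hAc, fun _ => ∅, fun i hi => absurd hi (Nat.not_lt_zero i),
      fun i hi => absurd hi (Nat.not_lt_zero i)⟩
  | succ q ih =>
    intro k
    obtain ⟨c, hc1, hc⟩ := ih k
    refine ⟨2 * c, by omega, ?_⟩
    intro U G A0 hne h
    -- minimal subset
    have hex : ((A0.powerset).filter (fun B => B.Nonempty ∧ 2 * c * B.card ≤ e2 G B)).Nonempty :=
      ⟨A0, Finset.mem_filter.2 ⟨Finset.mem_powerset.2 le_rfl, hne, h⟩⟩
    obtain ⟨B, hB, hBmin⟩ := Finset.exists_min_image _ Finset.card hex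
    rw [Finset.mem_filter, Finset.mem_powerset] at hB
    obtain ⟨hBA, hBne, hBe⟩ := hB
    have hmin : ∀ B' ⊂ B, B'.Nonempty → e2 G B' < 2 * c * B'.card := by
      intro B' hB' hne'
      by_contra hcon
      push Not at hcon
      have h1 := hBmin B' (Finset.mem_filter.2 ⟨Finset.mem_powerset.2 (hB'.1.trans hBA),
        hne', hcon⟩)
      have h2 := Finset.card_lt_card hB'
      omega
    -- the neighbourhood function
    set NB : Finset U → Finset U := fun S => (B \ S).filter (fun v => ∃ u ∈ S, G.Adj u v) with hNB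
    set good : Finset U → Prop := fun S => S.Nonempty ∧ CSet G S ∧
      2 * c * ((B \ S).card + 1) ≤ e2 G (B \ S) + 2 * (NB S).card with hgood
    have hex2 : ((B.powerset).filter good).Nonempty := by
      obtain ⟨v, hv⟩ := hBne
      refine ⟨{v}, Finset.mem_filter.2 ⟨Finset.mem_powerset.2 (Finset.singleton_subset_iff.2 hv),
        ⟨v, Finset.mem_singleton_self v⟩, ?_, ?_⟩⟩
      · intro a ha b hb
        rw [Finset.mem_singleton] at ha hb
        subst ha; subst hb
        exact Conn.refl _ _
      · have h1 : B \ {v} = B.erase v := Finset.sdiff_singleton_eq_erase v B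
        have h2 : NB {v} = nb G (B.erase v) v := by
          rw [hNB]
          unfold nb
          simp only [h1, Finset.mem_singleton, exists_eq_left]
        rw [h1, h2, ← e2_erase G B hv, Finset.card_erase_of_mem hv]
        have : B.card - 1 + 1 = B.card := by
          have := Finset.card_pos.2 ⟨v, hv⟩
          omega
        rw [this]; exact hBe
    obtain ⟨S, hS, hSmax⟩ := Finset.exists_max_image _ Finset.card hex2
    rw [Finset.mem_filter, Finset.mem_powerset] at hS
    obtain ⟨hSB, hSne, hSc, hSe⟩ := hS
    have hNBmem : ∀ v, v ∈ NB S ↔ (v ∈ B ∧ v ∉ S) ∧ ∃ u ∈ S, G.Adj u v := by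
      intro v
      rw [hNB, Finset.mem_filter, Finset.mem_sdiff]
    -- neighbourhood nonempty
    have hNne : (NB S).Nonempty := by
      rw [Finset.nonempty_iff_ne_empty]
      intro h0
      rw [h0, Finset.card_empty, mul_zero, add_zero] at hSe
      by_cases hBS : (B \ S).Nonempty
      · have h1 : B \ S ⊂ B := by
          refine Finset.ssubset_iff_subset_ne.2 ⟨Finset.sdiff_subset, ?_⟩
          intro h2
          obtain ⟨u, hu⟩ := hSne
          have h3 : u ∈ B \ S := by rw [h2]; exact hSB hu
          exact (Finset.mem_sdiff.1 h3).2 hu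
        have h2 := hmin _ h1 hBS
        have h3 : 2 * c * (B \ S).card ≤ 2 * c * ((B \ S).card + 1) :=
          Nat.mul_le_mul_left _ (Nat.le_succ _)
        omega
      · rw [Finset.not_nonempty_iff_eq_empty] at hBS
        rw [hBS] at hSe
        simp [e2] at hSe
        omega
    -- large degrees in the neighbourhood
    have hdeg : ∀ v ∈ NB S, c ≤ (nb G (NB S) v).card := by
      intro v hv
      by_contra hlt
      push Not at hlt
      obtain ⟨⟨hvB, hvS⟩, u, huS, huv⟩ := (hNBmem v).1 hv
      have hgood' : good (insert v S) := by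
        refine ⟨Finset.insert_nonempty _ _, ?_, ?_⟩
        · -- connected
          have hmono : (crossE G S ∅ : Set (Sym2 U)) ⊆ crossE G (insert v S) ∅ := by
            intro e he
            rw [Finset.mem_coe, mem_crossE] at he ⊢
            obtain ⟨a, ha, b, hb, hab, rfl⟩ := he
            rw [Finset.union_empty] at hb ⊢
            exact ⟨a, Finset.mem_insert_of_mem ha, b, Finset.mem_insert_of_mem hb, hab, rfl⟩
          have hvu : Conn (crossE G (insert v S) ∅ : Set (Sym2 U)) v u := by
            apply Conn.edge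
            rw [Finset.mem_coe, mem_crossE]
            exact ⟨v, Finset.mem_insert_self _ _, u,
              Finset.mem_union_left _ (Finset.mem_insert_of_mem huS), huv.symm, rfl⟩
          have hau : ∀ a ∈ insert v S, Conn (crossE G (insert v S) ∅ : Set (Sym2 U)) a u := by
            intro a ha
            rcases Finset.mem_insert.1 ha with rfl | ha
            · exact hvu
            · exact (hSc a ha u huS).mono hmono
          intro a ha b hb
          exact (hau a ha).trans (hau b hb).symm
        · have h1 : B \ insert v S = (B \ S).erase v := by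
            ext w
            simp only [Finset.mem_sdiff, Finset.mem_insert, Finset.mem_erase, not_or]
            tauto
          have hvBS : v ∈ B \ S := Finset.mem_sdiff.2 ⟨hvB, hvS⟩
          have h2 := e2_erase G (B \ S) hvBS
          have h3 : (B \ insert v S).card + 1 = (B \ S).card := by
            rw [h1, Finset.card_erase_of_mem hvBS]
            have := Finset.card_pos.2 ⟨v, hvBS⟩
            omega
          have h4 : NB (insert v S) = (NB S).erase v ∪
              (nb G ((B \ S).erase v) v \ NB S) := by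
            ext w
            rw [hNB]
            unfold nb
            simp only [Finset.mem_filter, Finset.mem_sdiff, Finset.mem_insert, not_or,
              Finset.mem_union, Finset.mem_erase, exists_eq_or_imp, ne_eq, not_and]
            constructor
            · rintro ⟨⟨h5, h6, h7⟩, h8⟩
              by_cases h9 : ∃ a ∈ S, G.Adj a w
              · exact Or.inl ⟨h6, ⟨h5, h7⟩, h9⟩
              · rcases h8 with h8 | h8
                · exact Or.inr ⟨⟨⟨h6, h5, h7⟩, h8⟩, fun _ => h9⟩
                · exact absurd h8 h9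
            · rintro (⟨h5, ⟨h6, h7⟩, h8⟩ | ⟨⟨⟨h5, h6, h7⟩, h8⟩, h9⟩)
              · exact ⟨⟨h6, h5, h7⟩, Or.inr h8⟩
              · exact ⟨⟨h6, h5, h7⟩, Or.inl h8⟩
          have h5 : (NB (insert v S)).card + 1 + (nb G (NB S) v).card
              = (NB S).card + (nb G ((B \ S).erase v) v).card := by
            rw [h4, Finset.card_union_of_disjoint, Finset.card_erase_of_mem hv]
            · have h6 : (nb G ((B \ S).erase v) v \ NB S).card + (nb G (NB S) v).card
                  = (nb G ((B \ S).erase v) v).card := by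
                have h7 : nb G (NB S) v = nb G ((B \ S).erase v) v ∩ NB S := by
                  ext w
                  rw [hNB]
                  unfold nb
                  simp only [Finset.mem_filter, Finset.mem_sdiff, Finset.mem_inter,
                    Finset.mem_erase, ne_eq]
                  constructor
                  · rintro ⟨⟨h8, h9⟩, h10⟩
                    exact ⟨⟨⟨h10.ne', h8⟩, h10⟩, h8, h9⟩
                  · rintro ⟨⟨⟨h8, h9⟩, h10⟩, h11, h12⟩
                    exact ⟨⟨h11, h12⟩, h10⟩
                rw [h7, Finset.card_sdiff_add_card_inter]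
              have := Finset.card_pos.2 ⟨v, hv⟩
              omega
            · rw [Finset.disjoint_left]
              intro w h6 h7
              exact (Finset.mem_sdiff.1 h7).2 (Finset.mem_of_mem_erase h6)
          rw [h3]
          rw [← h1] at h2 h5
          rw [h2] at hSe
          have h6 : 2 * c * ((B \ S).card + 1) = 2 * c * (B \ S).card + 2 * c := by ring
          omega
      have h1 := hSmax (insert v S) (Finset.mem_filter.2 ⟨Finset.mem_powerset.2 (by
        intro w hw
        rcases Finset.mem_insert.1 hw with rfl | hw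
        · exact hvB
        · exact hSB hw), hgood'⟩)
      rw [Finset.card_insert_of_notMem hvS] at h1
      omega
    have he2 : c * (NB S).card ≤ e2 G (NB S) := by
      rw [e2_eq_sum, mul_comm, ← smul_eq_mul]
      exact Finset.card_nsmul_le_sum _ _ _ hdeg
    obtain ⟨A, hA, hAk, E, hE1, hE2⟩ := hc U G (NB S) hNne he2
    have hNBB : NB S ⊆ B := fun v hv => ((hNBmem v).1 hv).1.1
    refine ⟨A, hA.trans (hNBB.trans hBA), hAk,
      fun i => if i = q then crossE G S (NB S) else E i, ?_, ?_⟩
    · intro i hi
      by_cases hiq : i = q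
      · simp only [if_pos hiq]
        refine ⟨?_, ?_⟩
        · intro e he
          rw [mem_crossE] at he
          obtain ⟨a, ha, b, hb, hab, rfl⟩ := he
          refine ⟨hab, ?_⟩
          intro u hu
          rw [Sym2.mem_iff] at hu
          rcases hu with rfl | rfl
          · exact hBA (hSB ha)
          · rcases Finset.mem_union.1 hb with hb | hb
            · exact hBA (hSB hb)
            · exact hBA (hNBB hb)
        · have hmono : (crossE G S ∅ : Set (Sym2 U)) ⊆ crossE G S (NB S) := by
            intro e he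
            rw [Finset.mem_coe, mem_crossE] at he ⊢
            obtain ⟨a, ha, b, hb, hab, rfl⟩ := he
            rw [Finset.union_empty] at hb
            exact ⟨a, ha, b, Finset.mem_union_left _ hb, hab, rfl⟩
          have hau : ∀ a ∈ A, ∃ u ∈ S, Conn (crossE G S (NB S) : Set (Sym2 U)) a u := by
            intro a ha
            obtain ⟨-, u, hu, hua⟩ := (hNBmem a).1 (hA ha)
            refine ⟨u, hu, Conn.symm (Conn.edge ?_)⟩
            rw [Finset.mem_coe, mem_crossE]
            exact ⟨u, hu, a, Finset.mem_union_right _ (hA ha), hua, rfl⟩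
          intro a ha b hb
          obtain ⟨u, hu, hau'⟩ := hau a ha
          obtain ⟨v, hv, hbv⟩ := hau b hb
          exact hau'.trans (((hSc u hu v hv).mono hmono).trans hbv.symm)
      · simp only [if_neg hiq]
        obtain ⟨h1, h2⟩ := hE1 i (by omega)
        refine ⟨fun e he => ⟨(h1 e he).1, fun u hu => hBA (hNBB ((h1 e he).2 u hu))⟩, h2⟩
    · have key : ∀ i < q, Disjoint (crossE G S (NB S)) (E i) := by
        intro i hi
        rw [Finset.disjoint_left]
        intro e he he'
        rw [mem_crossE] at he
        obtain ⟨a, ha, b, hb, hab, rfl⟩ := he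
        have h1 := ((hE1 i hi).1 _ he').2 a (Sym2.mem_mk_left _ _)
        exact ((hNBmem a).1 h1).1.2 ha
      intro i hi j hj hij
      by_cases hiq : i = q
      · have hjq : j ≠ q := fun h => hij (hiq.trans h.symm)
        simp only [if_pos hiq, if_neg hjq]
        exact key j (by omega)
      · by_cases hjq : j = q
        · simp only [if_neg hiq, if_pos hjq]
          exact (key i (by omega)).symm
        · simp only [if_neg hiq, if_neg hjq]
          exact hE2 i (by omega) j (by omega) hij

/-- large density forces a clique immersion -/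
theorem mader (k : ℕ) : ∃ c : ℕ, 1 ≤ c ∧ ∀ (m : ℕ) (H : SimpleGraph (Fin m)),
    (c : ℝ) ≤ 2 * (H.edgeSet.ncard : ℝ) / (m : ℝ) → WImm k H := by
  obtain ⟨c, hc1, hc⟩ := mader_aux (k * k) k
  refine ⟨c, hc1, ?_⟩
  intro m H hH
  have hm : 0 < m := by
    rcases Nat.eq_zero_or_pos m with h | h
    · exfalso
      subst h
      simp at hH
      omega
    · exact h
  have hmR : (0:ℝ) < m := by exact_mod_cast hm
  rw [le_div_iff₀ hmR] at hH
  have h1 : e2 H Finset.univ = 2 * H.edgeSet.ncard := by
    rw [← dts_eq]
    unfold e2 dts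
    rw [Finset.univ_product_univ]
  obtain ⟨A, -, hAk, E, hE1, hE2⟩ := hc (Fin m) H Finset.univ
    ⟨⟨0, hm⟩, Finset.mem_univ _⟩ (by
      rw [h1, Finset.card_univ, Fintype.card_fin]
      exact_mod_cast hH)
  set e : Fin k ≃ A := ((Finset.equivFin A).trans (finCongr hAk)).symm with he
  have hidx : ∀ i j : Fin k, (i:ℕ) * k + j < k * k := by
    intro i j
    calc (i:ℕ) * k + j < i * k + k := Nat.add_lt_add_left j.2 _
      _ = (i + 1) * k := by ring
      _ ≤ k * k := Nat.mul_le_mul_right _ i.2
  have hEI : EImm k H (fun i => (e i).1) (fun i j => E ((i:ℕ) * k + j)) := by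
    refine ⟨fun i j hij => e.injective (Subtype.ext hij), ?_, ?_⟩
    · intro i j _
      obtain ⟨h2, h3⟩ := hE1 _ (hidx i j)
      exact ⟨fun e' he' => (h2 e' he').1, h3 _ (e i).2 _ (e j).2⟩
    · intro i j i' j' _ _ hne
      apply hE2 _ (hidx i j) _ (hidx i' j')
      intro h
      have hk : 0 < k := Nat.lt_of_le_of_lt (Nat.zero_le _) i.2
      have h2 : (i:ℕ) = i' := by
        have h3 : ((i:ℕ) * k + j) / k = i := by
          rw [mul_comm, Nat.mul_add_div hk, Nat.div_eq_of_lt j.2, add_zero]
        have h4 : ((i':ℕ) * k + j') / k = i' := by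
          rw [mul_comm, Nat.mul_add_div hk, Nat.div_eq_of_lt j'.2, add_zero]
        rw [← h3, ← h4, h]
      have h5 : (j:ℕ) = j' := by
        rw [h2] at h
        omega
      rcases hne with h6 | h6
      · exact h6 (Fin.ext h2)
      · exact h6 (Fin.ext h5)
  obtain ⟨f, hf, P, g1, g2, -⟩ := wimmS_of_eimm hEI
    (A := (Finset.univ : Finset (Sym2 (Fin m)))) (fun _ _ _ => Finset.subset_univ _)
  exact ⟨f, hf, P, g1, g2⟩

end Pool.Agent.H34.Im
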