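import Pool.Agent.H34.ImMain3
import Pool.Agent.H34.ImMader

/-!
# The theorem in terms of a forcing constant
-/

namespace Pool.Agent.H34.Im

open Finset Classical

lemma exists_CH {k : ℕ} {D ε : ℝ} (hD0 : 0 ≤ D) (hε : 0 < ε) (hε1 : ε ≤ 1) (hF : Forces k D) :
    ∃ (K M Nn J : ℕ) (δ κ : ℝ), CH k K M Nn J D ε δ κ ∧ 4 * (D + ε) ^ 2 ≤ K * ε ∧
      0 < δ ∧ 0 < κ ∧ κ ≤ 1 / 32 := by
  obtain ⟨K, hK⟩ := exists_nat_ge (4 * (D + ε) ^ 2 / ε + 1)
  have hK1 : (1:ℝ) ≤ K := by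
    have : 0 ≤ 4 * (D + ε) ^ 2 / ε := by positivity
    linarith
  have hK1' : 1 ≤ K := by exact_mod_cast hK1
  have hK0 : (0:ℝ) < K := by linarith
  obtain ⟨M, hM⟩ := exists_nat_ge (8 * K / ε)
  have hM0 : (0:ℝ) < M := lt_of_lt_of_le (by positivity) hM
  obtain ⟨N1, hN1⟩ := exists_nat_gt (8 * D * K / ε)
  obtain ⟨J, hJ⟩ := exists_nat_ge (48 * K * M / ε)
  have hJ0 : (0:ℝ) < J := lt_of_lt_of_le (by positivity) hJ
  have hJ1 : 1 ≤ J := by
    have : 0 < J := by exact_mod_cast hJ0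
    omega
  have hK2 : (1:ℝ) ≤ ((K:ℝ) + 2) ^ J := one_le_pow₀ (by linarith)
  refine ⟨K, M, K * K + 1 + N1, J, ε / (48 * K * M * (K + 1) * 2 ^ K),
    1 / (32 * ((K:ℝ) + 2) ^ J), ⟨hF, hD0, hε, hε1, hK1', ?_, by omega, ?_, hJ1, ?_, rfl, rfl⟩,
    ?_, by positivity, by positivity, ?_⟩
  · rw [div_le_iff₀ hε] at hM; linarith
  · rw [div_lt_iff₀ hε] at hN1
    push_cast
    have : 0 ≤ ε * ((K:ℝ) * K + 1) := by positivity
    linarith
  · rw [div_le_iff₀ hε] at hJ; linarith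
  · have h1 : 4 * (D + ε) ^ 2 / ε ≤ K := by linarith
    rw [div_le_iff₀ hε] at h1
    exact h1
  · apply one_div_le_one_div_of_le (by norm_num)
    linarith

theorem core (k : ℕ) (D ε : ℝ) (hD0 : 0 ≤ D) (hε : 0 < ε) (hε1 : ε ≤ 1) (hF : Forces k D) :
    ∃ α0 C : ℝ, 0 < α0 ∧ 0 ≤ C ∧ ∀ (n : ℕ) (G : SimpleGraph (Fin n)), 2 ≤ n →
      (D + ε) * n ≤ dts G →
      (∀ A : Finset (Fin n), (A.card : ℝ) ≤ α0 * Real.log n → (e2 G A : ℝ) ≤ D * A.card) →
      WImmS k G (C * Real.log n) := by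
  obtain ⟨K, M, Nn, J, δ, κ, hC, hKb, hδ, hκ, hκ1⟩ := exists_CH hD0 hε hε1 hF
  obtain ⟨Y0, Cp, hY0, hCp, hpar⟩ := params K M Nn hC.hK (by have := hC.hNn1; omega) ε δ κ hε hε1
    hδ hκ hκ1
  have hK0 : (0:ℝ) ≤ K := Nat.cast_nonneg _
  obtain ⟨C0, hC0⟩ : ∃ C0 : ℝ, C0 = k + 2 * (2 * Nn * (K * M + K) + Nn * K * 2) := ⟨_, rfl⟩
  obtain ⟨C1, hC1⟩ : ∃ C1 : ℝ, C1 = 2 * (Nn * K * (2 * (Nn * K + 1))) := ⟨_, rfl⟩
  have hC00 : 0 ≤ C0 := by rw [hC0]; positivity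
  have hC10 : 0 ≤ C1 := by rw [hC1]; positivity
  refine ⟨2 * Real.exp (Y0 + 2) + 640 * K / ε, 2 * C0 + 3 * C1 * Cp, by positivity, by positivity, ?_⟩
  intro n G hn hd hsm
  have hn1 : (2:ℝ) ≤ n := by exact_mod_cast hn
  have hL : 1 / 2 ≤ Real.log n := by
    have h1 : Real.log 2 ≤ Real.log n := Real.log_le_log (by norm_num) hn1
    have h2 := Real.log_two_gt_d9
    linarith
  obtain ⟨L, hLd⟩ : ∃ L : ℝ, L = Real.log n := ⟨_, rfl⟩
  rw [← hLd] at hL hsm ⊢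
  obtain ⟨Z, hZd⟩ : ∃ Z : ℝ, Z = (2 * Real.exp (Y0 + 2) + 640 * K / ε) * L := ⟨_, rfl⟩
  rw [← hZd] at hsm
  obtain ⟨V, hV, cl, G', X, hhom, hinj, hdeg, hXne, hXe, hXl, hXZ, hx1, hx2⟩ :=
    core_net hn G hC.hK hD0 hε hKb hd hsm
  rw [← hLd] at hXl hx1
  obtain ⟨Y, hY⟩ : ∃ Y : ℝ, Y = Real.log X.card := ⟨_, rfl⟩
  rw [← hY] at hXl hx1
  have hZ1 : Real.exp (Y0 + 2) ≤ Z := by
    rw [hZd]
    have h1 : 2 * Real.exp (Y0 + 2) * (1 / 2) ≤ 2 * Real.exp (Y0 + 2) * L :=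
      mul_le_mul_of_nonneg_left hL (by positivity)
    have h2 : 0 ≤ 640 * K / ε * L := by positivity
    linarith
  have hYY0 : Y0 + 2 ≤ Y := by
    rw [hY]
    have h1 : Real.exp (Y0 + 2) ≤ X.card := by linarith
    have h2 := Real.log_le_log (Real.exp_pos _) h1
    rwa [Real.log_exp] at h2
  have hY2 : 2 ≤ Y := by linarith
  obtain ⟨r1, r, η, Λ, q, hPS, hr⟩ := hpar Y (3 * L) (by linarith) hXl
  have hZ : 128 * K ≤ ε * sig Y (3 * L) * Z := by
    have h1 : 1 / (1 + Y) ≤ sig Y (3 * L) := by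
      unfold sig
      have h2 : √(1 + Y) ≤ 1 + Y := by
        rw [Real.sqrt_le_left (by linarith)]
        nlinarith
      have h3 : 0 < √(1 + Y) := Real.sqrt_pos.2 (by linarith)
      have h4 : 1 / (1 + Y) ≤ 1 / √(1 + Y) := one_div_le_one_div_of_le h3 h2
      have h5 : 0 ≤ √(Y / (3 * L)) := Real.sqrt_nonneg _
      linarith
    have h2 : 640 * K / ε * L ≤ Z := by
      rw [hZd]
      have h3 : 0 ≤ 2 * Real.exp (Y0 + 2) * L := by positivity
      linarith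
    have h3 : 1 + Y ≤ 5 * L := by linarith
    have h4 : 0 < 1 + Y := by linarith
    have h5 : 1 / (5 * L) ≤ 1 / (1 + Y) := one_div_le_one_div_of_le h4 h3
    have h6 : ε * (1 / (5 * L)) * (640 * K / ε * L) ≤ ε * sig Y (3 * L) * Z := by
      have hs0 : 0 < sig Y (3 * L) := sig_pos (by linarith)
      apply mul_le_mul _ h2 (by positivity) (by positivity)
      exact mul_le_mul_of_nonneg_left (h5.trans h1) hε.le
    have h7 : ε * (1 / (5 * L)) * (640 * K / ε * L) = 128 * K := by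
      have hL0 : L ≠ 0 := by linarith
      field_simp
      ring
    linarith
  have hmain := core_main G hC hPS hY2 hZ cl G' X hhom hinj hdeg hXne hXe hY.symm
    (fun S hS hSne η hη hη1 hlog => hx1 hY2 S hS hSne η hη hη1 hlog) hx2
  refine hmain.mono ?_
  push_cast
  have e1 : (k:ℝ) + 2 * (2 * Nn * (K * M + K) + Nn * K * (2 * (Nn * K * r + 1 + r))) =
      C0 + C1 * r := by
    rw [hC0, hC1]; ring
  rw [e1]
  have h1 : C1 * (r:ℝ) ≤ C1 * (Cp * (3 * L)) := mul_le_mul_of_nonneg_left hr hC10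
  have h2 : C0 * (1 / 2) ≤ C0 * L := mul_le_mul_of_nonneg_left hL hC00
  linarith

/-- small immersions above the forcing density -/
theorem small_imm (k : ℕ) (D ε : ℝ) (hD0 : 0 ≤ D) (hε : 0 < ε) (hε1 : ε ≤ 1) (hF : Forces k D) :
    ∃ α : ℝ, ∀ (n : ℕ) (G : SimpleGraph (Fin n)),
      D + ε ≤ 2 * (G.edgeSet.ncard : ℝ) / (n : ℝ) → WImmS k G (α * Real.log n) := by
  obtain ⟨α0, C, hα0, hC, hcore⟩ := core k D ε hD0 hε hε1 hF
  refine ⟨C + 2 * k + α0, ?_⟩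
  intro n G hG
  have hn : 2 ≤ n := by
    by_contra hn
    have h0 : G.edgeSet.ncard = 0 := by
      have h1 := dts_eq G
      have h2 : dts G = 0 := by
        unfold dts
        rw [Finset.card_eq_zero]
        ext p
        simp only [Finset.mem_filter, Finset.mem_univ, true_and, Finset.notMem_empty, iff_false]
        intro hadj
        apply hadj.ne
        apply Fin.ext
        have := p.1.2
        have := p.2.2
        omega
      omega
    rw [h0] at hG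
    simp at hG
    linarith
  have hn1 : (2:ℝ) ≤ n := by exact_mod_cast hn
  have hn0 : (0:ℝ) < n := by linarith
  have hL : 1 / 2 ≤ Real.log n := by
    have h1 : Real.log 2 ≤ Real.log n := Real.log_le_log (by norm_num) hn1
    have h2 := Real.log_two_gt_d9
    linarith
  have hd : (D + ε) * n ≤ dts G := by
    rw [dts_eq]
    push_cast
    rw [le_div_iff₀ hn0] at hG
    exact hG
  by_cases hsm : ∀ A : Finset (Fin n), (A.card : ℝ) ≤ α0 * Real.log n →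
      (e2 G A : ℝ) ≤ D * A.card
  · refine (hcore n G hn hd hsm).mono ?_
    apply mul_le_mul_of_nonneg_right _ (by linarith)
    have : (0:ℝ) ≤ k := Nat.cast_nonneg _
    linarith
  · push Not at hsm
    obtain ⟨A, hA, hAe⟩ := hsm
    refine (small_dense hF G A hAe).mono ?_
    have h1 : (k:ℝ) * (1 / 2) ≤ k * Real.log n :=
      mul_le_mul_of_nonneg_left hL (Nat.cast_nonneg _)
    have h2 : 0 ≤ C * Real.log n := by
      have : 0 ≤ Real.log n := by linarith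
      positivity
    linarith

end Pool.Agent.H34.Im
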