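import Mathlib

/-!
# Unit flows: adding paths, residual growth, exchange, path decomposition
-/

namespace Pool.Agent.H34.Im

open Finset Classical

variable {V : Type} [Fintype V]

/-- an integer valued flow with capacities one, supported on the set `E` of edges -/
structure IsFlow (E : Set (Sym2 V)) (f : V → V → ℤ) : Prop where
  anti : ∀ u v, f u v = - f v u
  bound : ∀ u v, f u v ≤ 1
  supp : ∀ u v, f u v ≠ 0 → s(u, v) ∈ E

/-- the divergence -/
def dv (f : V → V → ℤ) (v : V) : ℤ := ∑ w, f v w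

/-- the unit flow along the sequence `p 0, …, p l` -/
noncomputable def pf (p : ℕ → V) (l : ℕ) (u v : V) : ℤ :=
  ∑ j ∈ range l, ((if u = p j ∧ v = p (j+1) then 1 else 0)
    - (if v = p j ∧ u = p (j+1) then 1 else 0))

omit [Fintype V] in
lemma pf_anti (p : ℕ → V) (l : ℕ) (u v : V) : pf p l u v = - pf p l v u := by
  unfold pf
  rw [← Finset.sum_neg_distrib]
  refine Finset.sum_congr rfl (fun j _ => ?_)
  ring

lemma dv_pf (p : ℕ → V) (l : ℕ) (v : V) :
    dv (pf p l) v = (if v = p 0 then 1 else 0) - (if v = p l then 1 else 0) := by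
  unfold dv pf
  rw [Finset.sum_comm]
  have h : ∀ j ∈ range l, (∑ w, ((if v = p j ∧ w = p (j+1) then (1:ℤ) else 0)
      - (if w = p j ∧ v = p (j+1) then 1 else 0)))
      = (if v = p j then 1 else 0) - (if v = p (j+1) then 1 else 0) := by
    intro j _
    rw [Finset.sum_sub_distrib]
    congr 1
    · by_cases hv : v = p j
      · simp [hv]
      · simp [hv]
    · by_cases hv : v = p (j+1)
      · simp [hv]
      · simp [hv]
  rw [Finset.sum_congr rfl h, Finset.sum_range_sub']

omit [Fintype V] in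
lemma sum_ind (p : ℕ → V) (l : ℕ) (hp : Set.InjOn p (Set.Iic l)) (u v : V) :
    (∑ j ∈ range l, (if u = p j ∧ v = p (j+1) then (1:ℤ) else 0))
      = if (∃ j < l, u = p j ∧ v = p (j+1)) then 1 else 0 := by
  split_ifs with h
  · obtain ⟨j, hj, h1, h2⟩ := h
    rw [Finset.sum_eq_single j]
    · rw [if_pos ⟨h1, h2⟩]
    · intro i hi hij
      rw [if_neg]
      rintro ⟨h3, -⟩
      apply hij
      apply hp
      · simp only [Set.mem_Iic]
        have := Finset.mem_range.1 hi
        omega
      · simp only [Set.mem_Iic]; omega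
      · rw [← h3, ← h1]
    · intro h3
      exact absurd (Finset.mem_range.2 hj) h3
  · apply Finset.sum_eq_zero
    intro j hj
    rw [if_neg]
    rintro ⟨h1, h2⟩
    exact h ⟨j, Finset.mem_range.1 hj, h1, h2⟩

omit [Fintype V] in
lemma pf_eq (p : ℕ → V) (l : ℕ) (hp : Set.InjOn p (Set.Iic l)) (u v : V) :
    pf p l u v = (if (∃ j < l, u = p j ∧ v = p (j+1)) then 1 else 0)
      - (if (∃ j < l, v = p j ∧ u = p (j+1)) then 1 else 0) := by
  unfold pf
  rw [Finset.sum_sub_distrib, sum_ind p l hp, sum_ind p l hp]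

omit [Fintype V] in
lemma pf_excl (p : ℕ → V) (l : ℕ) (hp : Set.InjOn p (Set.Iic l)) (u v : V)
    (h1 : ∃ j < l, u = p j ∧ v = p (j+1)) (h2 : ∃ j < l, v = p j ∧ u = p (j+1)) : False := by
  obtain ⟨i, hi, a1, a2⟩ := h1
  obtain ⟨j, hj, b1, b2⟩ := h2
  have e1 : i = j + 1 := by
    apply hp
    · simp only [Set.mem_Iic]; omega
    · simp only [Set.mem_Iic]; omega
    · rw [← a1, ← b2]
  have e2 : i + 1 = j := by
    apply hp
    · simp only [Set.mem_Iic]; omega
    · simp only [Set.mem_Iic]; omega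
    · rw [← a2, ← b1]
  omega

omit [Fintype V] in
/-- trichotomy for the unit flow along an injective path -/
lemma pf_cases (p : ℕ → V) (l : ℕ) (hp : Set.InjOn p (Set.Iic l)) (u v : V) :
    (pf p l u v = 0 ∧ ∀ j < l, s(u, v) ≠ s(p j, p (j+1))) ∨
    (pf p l u v = 1 ∧ ∃ j < l, u = p j ∧ v = p (j+1)) ∨
    (pf p l u v = -1 ∧ ∃ j < l, v = p j ∧ u = p (j+1)) := by
  rw [pf_eq p l hp]
  by_cases h1 : ∃ j < l, u = p j ∧ v = p (j+1)
  · right; left
    have h2 : ¬ ∃ j < l, v = p j ∧ u = p (j+1) := fun h2 => pf_excl p l hp u v h1 h2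
    rw [if_pos h1, if_neg h2]
    exact ⟨by ring, h1⟩
  · by_cases h2 : ∃ j < l, v = p j ∧ u = p (j+1)
    · right; right
      rw [if_neg h1, if_pos h2]
      exact ⟨by ring, h2⟩
    · left
      rw [if_neg h1, if_neg h2]
      refine ⟨by ring, ?_⟩
      intro j hj h
      rw [Sym2.eq_iff] at h
      rcases h with h | h
      · exact h1 ⟨j, hj, h.1, h.2⟩
      · exact h2 ⟨j, hj, h.2, h.1⟩

/-- adding a residual path to a flow -/
lemma IsFlow.add_path {E : Set (Sym2 V)} {f : V → V → ℤ} (hf : IsFlow E f) (p : ℕ → V) (l : ℕ)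
    (hp : Set.InjOn p (Set.Iic l)) (hres : ∀ j < l, f (p j) (p (j+1)) ≤ 0)
    (hE : ∀ j < l, s(p j, p (j+1)) ∈ E) :
    IsFlow E (fun u v => f u v + pf p l u v) ∧
    ∀ v, dv (fun u v => f u v + pf p l u v) v
      = dv f v + (if v = p 0 then 1 else 0) - (if v = p l then 1 else 0) := by
  refine ⟨⟨?_, ?_, ?_⟩, ?_⟩
  · intro u v
    rw [hf.anti u v, pf_anti p l u v]; ring
  · intro u v
    rcases pf_cases p l hp u v with h | h | h
    · rw [h.1]; have := hf.bound u v; omega
    · obtain ⟨h1, j, hj, rfl, rfl⟩ := h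
      rw [h1]; have := hres j hj; omega
    · rw [h.1]; have := hf.bound u v; omega
  · intro u v h
    rcases pf_cases p l hp u v with h1 | h1 | h1
    · rw [h1.1, add_zero] at h
      exact hf.supp u v h
    · obtain ⟨-, j, hj, rfl, rfl⟩ := h1
      exact hE j hj
    · obtain ⟨-, j, hj, rfl, rfl⟩ := h1
      rw [Sym2.eq_swap]
      exact hE j hj
  · intro v
    have h := dv_pf p l v
    unfold dv at h ⊢
    rw [Finset.sum_add_distrib, h]
    ring

/-- layers of the reachability relation -/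
def lay (r : V → V → Prop) (A : Set V) : ℕ → Set V
  | 0 => A
  | l+1 => lay r A l ∪ {v | ∃ u ∈ lay r A l, r u v}

omit [Fintype V] in
lemma lay_mono (r : V → V → Prop) (A : Set V) {k l : ℕ} (h : k ≤ l) : lay r A k ⊆ lay r A l := by
  induction h with
  | refl => exact le_refl _
  | step _ ih => exact ih.trans Set.subset_union_left

omit [Fintype V] in
lemma lay_subset_of (r : V → V → Prop) {A B : Set V} (h : A ⊆ B) (l : ℕ) :
    lay r A l ⊆ lay r B l := by
  induction l with
  | zero => exact h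
  | succ l ih =>
    intro v hv
    rcases hv with hv | ⟨u, hu, huv⟩
    · exact Or.inl (ih hv)
    · exact Or.inr ⟨u, ih hu, huv⟩

omit [Fintype V] in
lemma lay_lay (r : V → V → Prop) (A : Set V) (k l : ℕ) :
    lay r (lay r A k) l ⊆ lay r A (k + l) := by
  induction l with
  | zero => exact le_refl _
  | succ l ih =>
    intro v hv
    rcases hv with hv | ⟨u, hu, huv⟩
    · exact Or.inl (ih hv)
    · exact Or.inr ⟨u, ih hu, huv⟩

omit [Fintype V] in
lemma lay_symm (r : V → V → Prop) (hr : ∀ u v, r u v → r v u) (A : Set V) (l : ℕ) (v : V)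
    (hv : v ∈ lay r A l) : ∃ a ∈ A, a ∈ lay r {v} l := by
  induction l generalizing v with
  | zero => exact ⟨v, hv, rfl⟩
  | succ l ih =>
    rcases hv with hv | ⟨u, hu, huv⟩
    · obtain ⟨a, ha, h⟩ := ih v hv
      exact ⟨a, ha, lay_mono r _ (Nat.le_succ l) h⟩
    · obtain ⟨a, ha, h⟩ := ih u hu
      refine ⟨a, ha, ?_⟩
      have h1 : ({u} : Set V) ⊆ lay r {v} 1 := by
        rintro w rfl
        exact Or.inr ⟨v, rfl, hr _ _ huv⟩
      have h2 := lay_subset_of r h1 l h
      have h3 := lay_lay r {v} 1 l h2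
      rwa [add_comm] at h3

omit [Fintype V] in
lemma exists_path_aux (r : V → V → Prop) (A : Set V) (l : ℕ) :
    ∀ v, v ∈ lay r A l → (∀ i < l, v ∉ lay r A i) →
      ∃ p : ℕ → V, p 0 ∈ A ∧ p l = v ∧ (∀ j < l, r (p j) (p (j+1))) ∧
        ∀ j ≤ l, p j ∈ lay r A j ∧ ∀ i < j, p j ∉ lay r A i := by
  induction l with
  | zero =>
    intro v hv _
    refine ⟨fun _ => v, hv, rfl, fun j hj => absurd hj (Nat.not_lt_zero j), ?_⟩
    intro j hj
    have : j = 0 := by omega
    subst this
    exact ⟨hv, fun i hi => absurd hi (Nat.not_lt_zero i)⟩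
  | succ l ih =>
    intro v hv hmin
    rcases hv with hv | ⟨u, hu, huv⟩
    · exact absurd hv (hmin l (Nat.lt_succ_self l))
    · have hu' : ∀ i < l, u ∉ lay r A i := by
        intro i hi hui
        apply hmin (i+1) (by omega)
        exact Or.inr ⟨u, hui, huv⟩
      obtain ⟨p, h0, hl, hr, hlay⟩ := ih u hu hu'
      refine ⟨fun j => if j ≤ l then p j else v, ?_, ?_, ?_, ?_⟩
      · simpa using h0
      · simp
      · intro j hj
        by_cases hjl : j < l
        · simp only [if_pos (show j ≤ l by omega), if_pos (show j + 1 ≤ l by omega)]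
          exact hr j hjl
        · have : j = l := by omega
          subst this
          simp only [le_refl, if_true, if_neg (show ¬ (j + 1 ≤ j) by omega)]
          rw [hl]; exact huv
      · intro j hj
        by_cases hjl : j ≤ l
        · simp only [if_pos hjl]
          exact hlay j hjl
        · have : j = l + 1 := by omega
          subst this
          simp only [if_neg (show ¬ (l + 1 ≤ l) by omega)]
          exact ⟨Or.inr ⟨u, hu, huv⟩, hmin⟩

omit [Fintype V] in
/-- a vertex of a layer is the end of an injective path -/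
lemma exists_path (r : V → V → Prop) (A : Set V) (l : ℕ) (v : V) (hv : v ∈ lay r A l) :
    ∃ l' ≤ l, ∃ p : ℕ → V, p 0 ∈ A ∧ p l' = v ∧ (∀ j < l', r (p j) (p (j+1))) ∧
      Set.InjOn p (Set.Iic l') := by
  have hex : ∃ i, v ∈ lay r A i := ⟨l, hv⟩
  obtain ⟨p, h0, hl, hr, hlay⟩ := exists_path_aux r A (Nat.find hex) v (Nat.find_spec hex)
    (fun i hi => Nat.find_min hex hi)
  refine ⟨Nat.find hex, Nat.find_min' hex hv, p, h0, hl, hr, ?_⟩
  intro i hi j hj hij
  by_contra hne
  rcases lt_or_gt_of_ne hne with h | h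
  · exact (hlay j hj).2 i h (hij ▸ (hlay i hi).1)
  · exact (hlay i hi).2 j h (hij ▸ (hlay j hj).1)

/-- everything reachable -/
def rch (r : V → V → Prop) (A : Set V) : Set V := {v | ∃ l, v ∈ lay r A l}

omit [Fintype V] in
lemma subset_rch (r : V → V → Prop) (A : Set V) : A ⊆ rch r A := fun _ hv => ⟨0, hv⟩

omit [Fintype V] in
lemma rch_closed (r : V → V → Prop) (A : Set V) {u v : V} (hu : u ∈ rch r A) (h : r u v) :
    v ∈ rch r A := by
  obtain ⟨l, hl⟩ := hu
  exact ⟨l + 1, Or.inr ⟨u, hl, h⟩⟩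

omit [Fintype V] in
lemma exists_path_rch (r : V → V → Prop) (A : Set V) (v : V) (hv : v ∈ rch r A) :
    ∃ l, ∃ p : ℕ → V, p 0 ∈ A ∧ p l = v ∧ (∀ j < l, r (p j) (p (j+1))) ∧
      Set.InjOn p (Set.Iic l) := by
  obtain ⟨l, hl⟩ := hv
  obtain ⟨l', -, p, h⟩ := exists_path r A l v hl
  exact ⟨l', p, h⟩

/-- net flow out of a set -/
lemma sum_dv {f : V → V → ℤ} (hanti : ∀ u v, f u v = - f v u) (R : Finset V) :
    ∑ v ∈ R, dv f v = ∑ a ∈ R, ∑ b ∈ Rᶜ, f a b := by
  have h1 : ∑ v ∈ R, dv f v = ∑ a ∈ R, ∑ b ∈ R, f a b + ∑ a ∈ R, ∑ b ∈ Rᶜ, f a b := by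
    rw [← Finset.sum_add_distrib]
    refine Finset.sum_congr rfl (fun a _ => ?_)
    unfold dv
    rw [← Finset.sum_add_sum_compl R]
  have h2 : ∑ a ∈ R, ∑ b ∈ R, f a b = 0 := by
    have h3 : ∑ a ∈ R, ∑ b ∈ R, f a b = - ∑ a ∈ R, ∑ b ∈ R, f a b := by
      conv_lhs => rw [Finset.sum_comm]
      rw [← Finset.sum_neg_distrib]
      refine Finset.sum_congr rfl (fun a _ => ?_)
      rw [← Finset.sum_neg_distrib]
      refine Finset.sum_congr rfl (fun b _ => ?_)
      rw [hanti b a]
    omega
  rw [h1, h2, zero_add]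

/-- the number of ordered boundary pairs of `R` in the edge set `E` -/
noncomputable def bdE (E : Set (Sym2 V)) (R : Finset V) : ℕ :=
  ((R ×ˢ Rᶜ).filter (fun p => s(p.1, p.2) ∈ E)).card

/-- usable boundary pairs -/
noncomputable def usb (E : Set (Sym2 V)) (f : V → V → ℤ) (R : Finset V) : Finset (V × V) :=
  (R ×ˢ Rᶜ).filter (fun p => s(p.1, p.2) ∈ E ∧ f p.1 p.2 ≤ 0)

/-- many boundary pairs are usable -/
lemma usb_card {E : Set (Sym2 V)} {f : V → V → ℤ} (hf : IsFlow E f) (R : Finset V) :
    (bdE E R : ℤ) - ∑ v ∈ R, dv f v ≤ 2 * ((usb E f R).card : ℤ) := by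
  rw [sum_dv hf.anti R, ← Finset.sum_product']
  have h1 : (bdE E R : ℤ) = ∑ p ∈ R ×ˢ Rᶜ, (if s(p.1, p.2) ∈ E then (1:ℤ) else 0) := by
    unfold bdE
    rw [Finset.card_filter]; push_cast; rfl
  have h2 : ((usb E f R).card : ℤ)
      = ∑ p ∈ R ×ˢ Rᶜ, (if s(p.1, p.2) ∈ E ∧ f p.1 p.2 ≤ 0 then (1:ℤ) else 0) := by
    unfold usb
    rw [Finset.card_filter]; push_cast; rfl
  rw [h1, h2, ← Finset.sum_sub_distrib, Finset.mul_sum]
  apply Finset.sum_le_sum
  intro p _
  have hb := hf.bound p.1 p.2
  have hb' := hf.bound p.2 p.1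
  have ha := hf.anti p.1 p.2
  by_cases hE : s(p.1, p.2) ∈ E
  · by_cases h : f p.1 p.2 ≤ 0
    · rw [if_pos hE, if_pos ⟨hE, h⟩]; omega
    · rw [if_pos hE, if_neg (fun h' => h h'.2)]; omega
  · have h0 : f p.1 p.2 = 0 := by
      by_contra h0
      exact hE (hf.supp _ _ h0)
    rw [if_neg hE, if_neg (fun h' => hE h'.1), h0]; norm_num

/-- number of indices `t ∈ A` with `z t = v` -/
noncomputable def cnt {ι : Type} (z : ι → V) (A : Finset ι) (v : V) : ℤ :=
  ∑ t ∈ A, if z t = v then 1 else 0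

/-- `Lk E src z A`: there is a flow on `E` from the sources to the sinks `z t`, `t ∈ A` -/
def Lk {ι : Type} (E : Set (Sym2 V)) (src : V → ℤ) (z : ι → V) (A : Finset ι) : Prop :=
  ∃ f : V → V → ℤ, IsFlow E f ∧ ∀ v, dv f v = src v - cnt z A v

lemma Lk.mono {ι : Type} {E E' : Set (Sym2 V)} {src : V → ℤ} {z : ι → V} {A : Finset ι}
    (h : Lk E src z A) (hE : E ⊆ E') : Lk E' src z A := by
  obtain ⟨f, hf, hd⟩ := h
  exact ⟨f, ⟨hf.anti, hf.bound, fun u v h => hE (hf.supp u v h)⟩, hd⟩

/-- reversing a path -/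
lemma IsFlow.sub_path {E : Set (Sym2 V)} {f : V → V → ℤ} (hf : IsFlow E f) (p : ℕ → V) (l : ℕ)
    (hp : Set.InjOn p (Set.Iic l)) (hres : ∀ j < l, 0 ≤ f (p j) (p (j+1)))
    (hE : ∀ j < l, s(p j, p (j+1)) ∈ E) :
    IsFlow E (fun u v => f u v - pf p l u v) ∧
    ∀ v, dv (fun u v => f u v - pf p l u v) v
      = dv f v - (if v = p 0 then 1 else 0) + (if v = p l then 1 else 0) := by
  refine ⟨⟨?_, ?_, ?_⟩, ?_⟩
  · intro u v
    rw [hf.anti u v, pf_anti p l u v]; ring
  · intro u v
    rcases pf_cases p l hp u v with h | h | h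
    · rw [h.1]; have := hf.bound u v; omega
    · rw [h.1]; have := hf.bound u v; omega
    · obtain ⟨h1, j, hj, rfl, rfl⟩ := h
      rw [h1]; have := hres j hj; have := hf.anti (p (j+1)) (p j); omega
  · intro u v h
    rcases pf_cases p l hp u v with h1 | h1 | h1
    · rw [h1.1, sub_zero] at h
      exact hf.supp u v h
    · obtain ⟨-, j, hj, rfl, rfl⟩ := h1
      exact hE j hj
    · obtain ⟨-, j, hj, rfl, rfl⟩ := h1
      rw [Sym2.eq_swap]
      exact hE j hj
  · intro v
    have h := dv_pf p l v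
    unfold dv at h ⊢
    rw [Finset.sum_sub_distrib, h]
    ring

omit [Fintype V] in
lemma cnt_insert {ι : Type} [DecidableEq ι] (z : ι → V) {A : Finset ι} {a : ι} (ha : a ∉ A) (v : V) :
    cnt z (insert a A) v = (if v = z a then 1 else 0) + cnt z A v := by
  unfold cnt
  rw [Finset.sum_insert ha]
  congr 1
  by_cases h : z a = v
  · rw [if_pos h, if_pos h.symm]
  · rw [if_neg h, if_neg (fun h' => h h'.symm)]

omit [Fintype V] in
lemma cnt_erase {ι : Type} [DecidableEq ι] (z : ι → V) {A : Finset ι} {a : ι} (ha : a ∈ A) (v : V) :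
    cnt z (A.erase a) v = cnt z A v - (if v = z a then 1 else 0) := by
  have h := cnt_insert z (Finset.notMem_erase a A) v
  rw [Finset.insert_erase ha] at h
  rw [h]; ring

omit [Fintype V] in
lemma sum_cnt {ι : Type} (z : ι → V) (A : Finset ι) (R : Finset V) :
    ∑ v ∈ R, cnt z A v = ((A.filter (fun t => z t ∈ R)).card : ℤ) := by
  unfold cnt
  rw [Finset.sum_comm, Finset.card_filter]
  push_cast
  refine Finset.sum_congr rfl (fun t _ => ?_)
  rw [Finset.sum_ite_eq]

/-- symmetric exchange -/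
lemma Lk.exchange {ι : Type} [DecidableEq ι] {E : Set (Sym2 V)} {src : V → ℤ} {z : ι → V} {A B : Finset ι}
    (hA : Lk E src z A) (hB : Lk E src z B) (hAB : Disjoint A B) {a : ι} (ha : a ∈ A) :
    ∃ a' ∈ B, Lk E src z (insert a' (A.erase a)) ∧ Lk E src z (insert a (B.erase a')) := by
  obtain ⟨f, hf, hdf⟩ := hA
  obtain ⟨g, hg, hdg⟩ := hB
  set r : V → V → Prop := fun u v => 0 < f v u - g v u with hr
  by_cases hex : ∃ a' ∈ B, z a' ∈ rch r {z a}
  · obtain ⟨a', ha', hz⟩ := hex
    obtain ⟨l, p, h0, hl, hp, hinj⟩ := exists_path_rch r {z a} (z a') hz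
    rw [Set.mem_singleton_iff] at h0
    have haB : a ∉ B := Finset.disjoint_left.1 hAB ha
    have haA' : a' ∉ A := Finset.disjoint_right.1 hAB ha'
    have hE : ∀ j < l, s(p j, p (j+1)) ∈ E := by
      intro j hj
      have h1 := hp j hj
      simp only [hr] at h1
      rw [Sym2.eq_swap]
      by_cases h2 : f (p (j+1)) (p j) = 0
      · apply hg.supp
        intro h3
        rw [h2, h3] at h1
        omega
      · exact hf.supp _ _ h2
    have hres1 : ∀ j < l, f (p j) (p (j+1)) ≤ 0 := by
      intro j hj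
      have h1 := hp j hj
      simp only [hr] at h1
      have h2 := hf.anti (p j) (p (j+1))
      have h3 := hg.bound (p j) (p (j+1))
      have h4 := hg.anti (p j) (p (j+1))
      omega
    have hres2 : ∀ j < l, 0 ≤ g (p j) (p (j+1)) := by
      intro j hj
      have h1 := hp j hj
      simp only [hr] at h1
      have h2 := hg.anti (p j) (p (j+1))
      have h3 := hf.bound (p (j+1)) (p j)
      omega
    obtain ⟨hf', hdf'⟩ := hf.add_path p l hinj hres1 hE
    obtain ⟨hg', hdg'⟩ := hg.sub_path p l hinj hres2 hE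
    refine ⟨a', ha', ⟨_, hf', ?_⟩, ⟨_, hg', ?_⟩⟩
    · intro v
      rw [hdf' v, hdf v, h0, hl, cnt_insert z (fun h => haA' (Finset.mem_of_mem_erase h)),
        cnt_erase z ha]
      ring
    · intro v
      rw [hdg' v, hdg v, h0, hl, cnt_insert z (fun h => haB (Finset.mem_of_mem_erase h)),
        cnt_erase z ha']
      ring
  · exfalso
    push Not at hex
    set R : Finset V := Finset.univ.filter (fun v => v ∈ rch r {z a}) with hR
    have hanti : ∀ u v, (f u v - g u v) = - (f v u - g v u) := by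
      intro u v
      rw [hf.anti u v, hg.anti u v]; ring
    have h1 := sum_dv (f := fun u v => f u v - g u v) hanti R
    have h2 : ∑ v ∈ R, dv (fun u v => f u v - g u v) v
        = ∑ v ∈ R, cnt z B v - ∑ v ∈ R, cnt z A v := by
      rw [← Finset.sum_sub_distrib]
      refine Finset.sum_congr rfl (fun v _ => ?_)
      have h3 := hdf v
      have h4 := hdg v
      unfold dv at h3 h4 ⊢
      rw [Finset.sum_sub_distrib, h3, h4]
      ring
    rw [sum_cnt, sum_cnt] at h2
    have h5 : (B.filter (fun t => z t ∈ R)).card = 0 := by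
      rw [Finset.card_eq_zero, Finset.filter_eq_empty_iff]
      intro t ht h
      exact hex t ht (Finset.mem_filter.1 h).2
    have h6 : 1 ≤ (A.filter (fun t => z t ∈ R)).card := by
      rw [Nat.one_le_iff_ne_zero, Finset.card_ne_zero]
      refine ⟨a, Finset.mem_filter.2 ⟨ha, ?_⟩⟩
      exact Finset.mem_filter.2 ⟨Finset.mem_univ _, subset_rch r _ rfl⟩
    have h7 : 0 ≤ ∑ a ∈ R, ∑ b ∈ Rᶜ, (f a b - g a b) := by
      apply Finset.sum_nonneg
      intro u hu
      apply Finset.sum_nonneg
      intro v hv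
      by_contra hneg
      rw [Finset.mem_compl] at hv
      apply hv
      refine Finset.mem_filter.2 ⟨Finset.mem_univ _, ?_⟩
      refine rch_closed r _ (Finset.mem_filter.1 hu).2 ?_
      simp only [hr]
      have := hanti u v
      omega
    rw [h2, h5] at h1
    omega

/-- connected inside an edge set -/
def Conn (E : Set (Sym2 V)) (a b : V) : Prop := (SimpleGraph.fromEdgeSet E).Reachable a b

omit [Fintype V] in
lemma Conn.refl (E : Set (Sym2 V)) (a : V) : Conn E a a := SimpleGraph.Reachable.refl a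

omit [Fintype V] in
lemma Conn.symm {E : Set (Sym2 V)} {a b : V} (h : Conn E a b) : Conn E b a :=
  SimpleGraph.Reachable.symm h

omit [Fintype V] in
lemma Conn.trans {E : Set (Sym2 V)} {a b c : V} (h : Conn E a b) (h' : Conn E b c) : Conn E a c :=
  SimpleGraph.Reachable.trans h h'

omit [Fintype V] in
lemma Conn.mono {E E' : Set (Sym2 V)} {a b : V} (h : Conn E a b) (hE : E ⊆ E') : Conn E' a b :=
  SimpleGraph.Reachable.mono (SimpleGraph.fromEdgeSet_mono hE) h

omit [Fintype V] in
lemma Conn.edge {E : Set (Sym2 V)} {a b : V} (h : s(a, b) ∈ E) : Conn E a b := by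
  by_cases hab : a = b
  · subst hab; exact Conn.refl _ _
  · exact SimpleGraph.Adj.reachable ((SimpleGraph.fromEdgeSet_adj E).2 ⟨h, hab⟩)

omit [Fintype V] in
/-- along a path -/
lemma Conn.path {E : Set (Sym2 V)} (p : ℕ → V) (i l : ℕ) (h : i ≤ l)
    (hE : ∀ j < l, i ≤ j → s(p j, p (j+1)) ∈ E) : Conn E (p i) (p l) := by
  induction l, h using Nat.le_induction with
  | base => exact Conn.refl _ _
  | succ l hl ih =>
    refine (ih (fun j hj hij => hE j (by omega) hij)).trans (Conn.edge (hE l (by omega) hl))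

/-- the set of edges of a sequence -/
noncomputable def pedges (p : ℕ → V) (l : ℕ) : Finset (Sym2 V) :=
  (Finset.range l).image (fun j => s(p j, p (j+1)))

omit [Fintype V] in
lemma mem_pedges {p : ℕ → V} {l : ℕ} {e : Sym2 V} :
    e ∈ pedges p l ↔ ∃ j < l, s(p j, p (j+1)) = e := by
  unfold pedges
  simp only [Finset.mem_image, Finset.mem_range]

omit [Fintype V] in
lemma card_pedges (p : ℕ → V) (l : ℕ) : (pedges p l).card ≤ l := by
  unfold pedges
  exact Finset.card_image_le.trans (le_of_eq (Finset.card_range l))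

/-- decomposition of a flow into paths from the arms to the sinks -/
lemma decomp {ι : Type} (z : ι → V) (A : Finset ι) : ∀ (E : Finset (Sym2 V)) (I : Finset (V × V)),
    Lk (E : Set (Sym2 V)) (cnt Prod.snd I) z A →
    ∃ (α : ι → V × V) (P : ι → Finset (Sym2 V)),
      (∀ t ∈ A, α t ∈ I ∧ P t ⊆ E ∧ Conn (P t : Set (Sym2 V)) (α t).2 (z t)) ∧
      (∀ t ∈ A, ∀ t' ∈ A, t ≠ t' → α t ≠ α t' ∧ Disjoint (P t) (P t')) := by
  induction A using Finset.induction_on with
  | empty =>
    intro E I _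
    by_cases hne : Nonempty (V × V)
    · obtain ⟨x⟩ := hne
      exact ⟨fun _ => x, fun _ => ∅, by simp, by simp⟩
    · by_cases hι : Nonempty ι
      · obtain ⟨t⟩ := hι
        exact absurd ⟨(z t, z t)⟩ hne
      · rw [not_nonempty_iff] at hι
        exact ⟨fun t => hι.elim t, fun t => hι.elim t, by simp, by simp⟩
  | insert a A ha ih =>
    intro E I hL
    obtain ⟨f, hf, hdf⟩ := hL
    set r : V → V → Prop := fun u v => f v u = 1 with hr
    set R : Finset V := Finset.univ.filter (fun v => v ∈ rch r {z a}) with hR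
    have h1 := sum_dv (f := f) hf.anti R
    have h2 : ∑ v ∈ R, dv f v = ∑ v ∈ R, cnt Prod.snd I v - ∑ v ∈ R, cnt z (insert a A) v := by
      rw [← Finset.sum_sub_distrib]
      exact Finset.sum_congr rfl (fun v _ => hdf v)
    rw [sum_cnt, sum_cnt] at h2
    have h6 : 1 ≤ ((insert a A).filter (fun t => z t ∈ R)).card := by
      rw [Nat.one_le_iff_ne_zero, Finset.card_ne_zero]
      refine ⟨a, Finset.mem_filter.2 ⟨Finset.mem_insert_self a A, ?_⟩⟩
      exact Finset.mem_filter.2 ⟨Finset.mem_univ _, subset_rch r _ rfl⟩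
    have h7 : 0 ≤ ∑ a ∈ R, ∑ b ∈ Rᶜ, f a b := by
      apply Finset.sum_nonneg
      intro u hu
      apply Finset.sum_nonneg
      intro v hv
      by_contra hneg
      rw [Finset.mem_compl] at hv
      apply hv
      refine Finset.mem_filter.2 ⟨Finset.mem_univ _, ?_⟩
      refine rch_closed r _ (Finset.mem_filter.1 hu).2 ?_
      simp only [hr]
      have h8 := hf.anti u v
      have h9 := hf.bound v u
      omega
    have h8 : 1 ≤ (I.filter (fun t => t.2 ∈ R)).card := by
      omega
    rw [Nat.one_le_iff_ne_zero, Finset.card_ne_zero] at h8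
    obtain ⟨i, hi⟩ := h8
    rw [Finset.mem_filter] at hi
    obtain ⟨hiI, hiR⟩ := hi
    obtain ⟨l, p, h0, hl, hp, hinj⟩ := exists_path_rch r {z a} i.2 (Finset.mem_filter.1 hiR).2
    rw [Set.mem_singleton_iff] at h0
    have hneg : ∀ j < l, f (p j) (p (j+1)) = -1 := by
      intro j hj
      have h1 := hp j hj
      simp only [hr] at h1
      rw [hf.anti, h1]
    have hE : ∀ j < l, s(p j, p (j+1)) ∈ (E : Set (Sym2 V)) := by
      intro j hj
      apply hf.supp
      rw [hneg j hj]; omega
    obtain ⟨hf', hdf'⟩ := hf.add_path p l hinj (fun j hj => by rw [hneg j hj]; omega) hE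
    have hL' : Lk ((E \ pedges p l : Finset (Sym2 V)) : Set (Sym2 V))
        (cnt Prod.snd (I.erase i)) z A := by
      refine ⟨_, ⟨hf'.anti, hf'.bound, ?_⟩, ?_⟩
      · intro u v h
        have h3 := hf'.supp u v h
        rw [Finset.coe_sdiff]
        refine ⟨h3, ?_⟩
        intro h4
        rw [Finset.mem_coe, mem_pedges] at h4
        obtain ⟨j, hj, h4⟩ := h4
        rcases pf_cases p l hinj u v with h5 | h5 | h5
        · exact h5.2 j hj h4.symm
        · obtain ⟨h5, i, hi, rfl, rfl⟩ := h5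
          rw [h5, hneg i hi] at h
          exact h (by norm_num)
        · obtain ⟨h5, i, hi, rfl, rfl⟩ := h5
          rw [h5, hf.anti, hneg i hi] at h
          exact h (by norm_num)
      · intro v
        rw [hdf' v, hdf v, h0, hl, cnt_insert z ha, cnt_erase Prod.snd hiI]
        ring
    obtain ⟨α, P, hP1, hP2⟩ := ih _ _ hL'
    refine ⟨fun t => if t = a then i else α t, fun t => if t = a then pedges p l else P t, ?_, ?_⟩
    · intro t ht
      by_cases hta : t = a
      · subst hta
        simp only [if_true]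
        refine ⟨hiI, ?_, ?_⟩
        · intro e he
          rw [mem_pedges] at he
          obtain ⟨j, hj, rfl⟩ := he
          exact hE j hj
        · apply Conn.symm
          rw [← h0, ← hl]
          apply Conn.path p 0 l (Nat.zero_le l)
          intro j hj _
          rw [Finset.mem_coe, mem_pedges]
          exact ⟨j, hj, rfl⟩
      · simp only [if_neg hta]
        have htA := Finset.mem_of_mem_insert_of_ne ht hta
        obtain ⟨h3, h4, h5⟩ := hP1 t htA
        exact ⟨Finset.mem_of_mem_erase h3, h4.trans Finset.sdiff_subset, h5⟩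
    · have key : ∀ t ∈ A, i ≠ α t ∧ Disjoint (pedges p l) (P t) := by
        intro t ht
        obtain ⟨h3, h4, h5⟩ := hP1 t ht
        refine ⟨fun h => (Finset.ne_of_mem_erase h3) h.symm, ?_⟩
        rw [Finset.disjoint_right]
        intro e he
        exact (Finset.mem_sdiff.1 (h4 he)).2
      intro t ht t' ht' htt'
      by_cases hta : t = a
      · subst hta
        have ht'A := Finset.mem_of_mem_insert_of_ne ht' (Ne.symm htt')
        simp only [if_true, if_neg (Ne.symm htt')]
        exact key t' ht'A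
      · by_cases hta' : t' = a
        · subst hta'
          have htA := Finset.mem_of_mem_insert_of_ne ht hta
          simp only [if_true, if_neg hta]
          exact ⟨(key t htA).1.symm, (key t htA).2.symm⟩
        · simp only [if_neg hta, if_neg hta']
          exact hP2 t (Finset.mem_of_mem_insert_of_ne ht hta) t'
            (Finset.mem_of_mem_insert_of_ne ht' hta') htt'

end Pool.Agent.H34.Im
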