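import Pool.Agent.H34.ImCut

/-!
# Growth of residual reachability
-/

namespace Pool.Agent.H34.Im

open Finset Classical

variable {V : Type} [Fintype V]

/-- total weight -/
def wt (ω : V → ℕ) (X : Finset V) : ℕ := ∑ v ∈ X, ω v

omit [Fintype V] in
lemma wt_mono (ω : V → ℕ) {X Y : Finset V} (h : X ⊆ Y) : wt ω X ≤ wt ω Y :=
  Finset.sum_le_sum_of_subset h

/-- arms of a cluster -/
noncomputable def arms (N : SimpleGraph V) (V1 x : Finset V) : Finset (V × V) :=
  (x ×ˢ (V1 \ x)).filter (fun p => N.Adj p.1 p.2)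

/-- edges from a cluster to vertices outside `V1` -/
noncomputable def gis (N : SimpleGraph V) (V1 x : Finset V) : Finset (V × V) :=
  (x ×ˢ V1ᶜ).filter (fun p => N.Adj p.1 p.2)

lemma bdE_cluster (N : SimpleGraph V) {V1 x : Finset V} (hx : x ⊆ V1) :
    bdE N.edgeSet x = (arms N V1 x).card + (gis N V1 x).card := by
  unfold bdE arms gis
  rw [← Finset.card_union_of_disjoint]
  · congr 1
    ext p
    simp only [Finset.mem_filter, Finset.mem_product, Finset.mem_compl, Finset.mem_union,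
      Finset.mem_sdiff, SimpleGraph.mem_edgeSet]
    constructor
    · rintro ⟨⟨h1, h2⟩, h3⟩
      by_cases h4 : p.2 ∈ V1
      · exact Or.inl ⟨⟨h1, h4, h2⟩, h3⟩
      · exact Or.inr ⟨⟨h1, h4⟩, h3⟩
    · rintro (⟨⟨h1, h2⟩, h3⟩ | ⟨⟨h1, h2⟩, h3⟩)
      · exact ⟨⟨h1, h2.2⟩, h3⟩
      · exact ⟨⟨h1, fun h => h2 (hx h)⟩, h3⟩
  · rw [Finset.disjoint_left]
    intro p h1 h2
    simp only [Finset.mem_filter, Finset.mem_product, Finset.mem_compl,
      Finset.mem_sdiff] at h1 h2
    exact h2.1.2 h1.1.2.1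

/-- edges not in `Q` and not touching `x` -/
def resE (N : SimpleGraph V) (Q : Finset (Sym2 V)) (x : Finset V) : Set (Sym2 V) :=
  {e | e ∈ N.edgeSet ∧ e ∉ Q ∧ ∀ u ∈ x, u ∉ e}

/-- residual relation -/
def rrel (N : SimpleGraph V) (Q : Finset (Sym2 V)) (x : Finset V) (f : V → V → ℤ) (u v : V) :
    Prop := s(u, v) ∈ resE N Q x ∧ f u v ≤ 0

/-- adjacency inside `V1` -/
def vrel (N : SimpleGraph V) (V1 : Finset V) (u v : V) : Prop := N.Adj u v ∧ u ∈ V1 ∧ v ∈ V1

/-- layers as finsets -/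
noncomputable def layF (r : V → V → Prop) (A : Set V) (l : ℕ) : Finset V :=
  Finset.univ.filter (fun v => v ∈ lay r A l)

lemma mem_layF {r : V → V → Prop} {A : Set V} {l : ℕ} {v : V} :
    v ∈ layF r A l ↔ v ∈ lay r A l := by
  unfold layF; simp

lemma layF_mono (r : V → V → Prop) (A : Set V) {k l : ℕ} (h : k ≤ l) :
    layF r A k ⊆ layF r A l := by
  intro v hv
  rw [mem_layF] at hv ⊢
  exact lay_mono r A h hv

/-- start set: ends of the unused arms -/
def start (N : SimpleGraph V) (V1 x : Finset V) (I : Finset (V × V)) : Set V :=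
  {v | ∃ a ∈ arms N V1 x, a ∉ I ∧ a.2 = v}

section grow

variable (N : SimpleGraph V) (ω : V → ℕ) (V1 x : Finset V) (K : ℕ)
  (Q : Finset (Sym2 V)) (f : V → V → ℤ) (I : Finset (V × V))

omit [Fintype V] in
/-- vertices of the layers are outside of `x` and not isolated -/
lemma layer_prop (l : ℕ) (v : V) (hv : v ∈ lay (rrel N Q x f) (start N V1 x I) l) :
    v ∉ x ∧ ∃ w, N.Adj v w := by
  induction l generalizing v with
  | zero =>
    obtain ⟨a, ha, -, rfl⟩ := hv
    unfold arms at ha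
    simp only [Finset.mem_filter, Finset.mem_product, Finset.mem_sdiff] at ha
    exact ⟨ha.1.2.2, a.1, ha.2.symm⟩
  | succ l ih =>
    rcases hv with hv | ⟨u, hu, huv⟩
    · exact ih v hv
    · obtain ⟨⟨h1, h2, h3⟩, h4⟩ := huv
      refine ⟨fun hx => h3 v hx (Sym2.mem_mk_right u v), u, ?_⟩
      exact SimpleGraph.Adj.symm h1

lemma usb_le (hdeg : ∀ a, (Finset.univ.filter (fun b => N.Adj a b)).card ≤ K * ω a) (A : Set V)
    (l : ℕ) :
    (usb (resE N Q x) f (layF (rrel N Q x f) A l)).card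
      + K * wt ω (layF (rrel N Q x f) A l) ≤ K * wt ω (layF (rrel N Q x f) A (l+1)) := by
  set R := layF (rrel N Q x f) A l with hR
  set R' := layF (rrel N Q x f) A (l+1) with hR'
  have hsub : R ⊆ R' := layF_mono _ _ (Nat.le_succ l)
  have h1 : wt ω R' = wt ω (R' \ R) + wt ω R := by
    unfold wt
    rw [Finset.sum_sdiff hsub]
  rw [h1, Nat.mul_add]
  apply Nat.add_le_add_right
  -- count pairs by their second coordinate
  have h2 : ∀ p ∈ usb (resE N Q x) f R, p.2 ∈ R' \ R := by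
    intro p hp
    unfold usb at hp
    simp only [Finset.mem_filter, Finset.mem_product, Finset.mem_compl] at hp
    rw [Finset.mem_sdiff, hR', mem_layF]
    refine ⟨Or.inr ⟨p.1, ?_, hp.2⟩, hp.1.2⟩
    have := hp.1.1
    rwa [hR, mem_layF] at this
  rw [Finset.card_eq_sum_card_fiberwise h2]
  unfold wt
  rw [Finset.mul_sum]
  apply Finset.sum_le_sum
  intro b _
  refine le_trans ?_ (hdeg b)
  apply Finset.card_le_card_of_injOn Prod.fst
  · intro p hp
    unfold usb at hp
    simp only [Finset.coe_filter, Finset.mem_filter, Finset.mem_product, Finset.mem_compl,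
      Set.mem_ofPred_eq] at hp
    simp only [Finset.coe_filter, Finset.mem_univ, true_and, Set.mem_ofPred_eq]
    obtain ⟨⟨-, h3, -⟩, h4⟩ := hp
    rw [← h4]
    exact (SimpleGraph.Adj.symm h3.1)
  · intro p hp p' hp' h
    simp only [Finset.coe_filter, Set.mem_ofPred_eq] at hp hp'
    exact Prod.ext h (hp.2.trans hp'.2.symm)

/-- boundary of `R` in the residual edge set against the boundary of `R ∪ x` -/
lemma bd_res (R : Finset V) (hRx : Disjoint R x) :
    bdE N.edgeSet (R ∪ x) ≤ bdE (resE N Q x) R + ((arms N V1 x).filter (fun a => a.2 ∉ R)).card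
      + (gis N V1 x).card
      + ((R ×ˢ Rᶜ).filter (fun p => s(p.1, p.2) ∈ Q)).card := by
  have h : ((R ∪ x) ×ˢ (R ∪ x)ᶜ).filter (fun p => s(p.1, p.2) ∈ N.edgeSet) ⊆
      (R ×ˢ Rᶜ).filter (fun p => s(p.1, p.2) ∈ resE N Q x)
      ∪ ((arms N V1 x).filter (fun a => a.2 ∉ R))
      ∪ (gis N V1 x)
      ∪ ((R ×ˢ Rᶜ).filter (fun p => s(p.1, p.2) ∈ Q)) := by
    intro p hp
    unfold arms gis
    simp only [Finset.mem_filter, Finset.mem_product, Finset.mem_compl, Finset.mem_union,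
      Finset.mem_sdiff, SimpleGraph.mem_edgeSet, not_or] at hp ⊢
    obtain ⟨⟨h1, h2, h3⟩, h4⟩ := hp
    rcases h1 with h1 | h1
    · by_cases hQ : s(p.1, p.2) ∈ Q
      · exact Or.inr ⟨⟨h1, h2⟩, hQ⟩
      · refine Or.inl (Or.inl (Or.inl ⟨⟨h1, h2⟩, h4, hQ, ?_⟩))
        intro u hu hu'
        rw [Sym2.mem_iff] at hu'
        rcases hu' with rfl | rfl
        · exact Finset.disjoint_left.1 hRx h1 hu
        · exact h3 hu
    · by_cases hV : p.2 ∈ V1
      · exact Or.inl (Or.inl (Or.inr ⟨⟨⟨h1, hV, h3⟩, h4⟩, h2⟩))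
      · exact Or.inl (Or.inr ⟨⟨h1, hV⟩, h4⟩)
  unfold bdE
  refine (Finset.card_le_card h).trans ?_
  refine (Finset.card_union_le _ _).trans (Nat.add_le_add_right ?_ _)
  refine (Finset.card_union_le _ _).trans (Nat.add_le_add_right ?_ _)
  exact Finset.card_union_le _ _

omit f in
lemma Q_pairs (R : Finset V) : ((R ×ˢ Rᶜ).filter (fun p => s(p.1, p.2) ∈ Q)).card ≤ Q.card := by
  apply Finset.card_le_card_of_injOn (fun p => s(p.1, p.2))
  · intro p hp
    simp only [Finset.coe_filter, Set.mem_ofPred_eq] at hp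
    exact hp.2
  · intro p hp p' hp' h
    simp only [Finset.coe_filter, Set.mem_ofPred_eq, Finset.mem_product, Finset.mem_compl] at hp hp'
    simp only [Sym2.eq_iff] at h
    rcases h with h | h
    · exact Prod.ext h.1 h.2
    · exact absurd (h.1 ▸ hp.1.1) hp'.1.2

/-- the basic inequality -/
lemma usb_main (hx : x ⊆ V1)
    (hf : IsFlow (resE N Q x) f) (hdv : ∀ v, dv f v ≤ cnt Prod.snd I v) (R : Finset V)
    (hRx : Disjoint R x) (hst : ∀ v ∈ start N V1 x I, v ∈ R) :
    bdE N.edgeSet (R ∪ x) + (arms N V1 x).card ≤ 2 * (usb (resE N Q x) f R).card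
      + I.card + bdE N.edgeSet x + ((R ×ˢ Rᶜ).filter (fun p => s(p.1, p.2) ∈ Q)).card := by
  have h1 := usb_card hf R
  have h2 : ∑ v ∈ R, dv f v ≤ ((I.filter (fun a => a.2 ∈ R)).card : ℤ) := by
    refine (Finset.sum_le_sum (fun v _ => hdv v)).trans ?_
    rw [sum_cnt]
  have h3 := bd_res N V1 x Q R hRx
  have h4 : (arms N V1 x).filter (fun a => a.2 ∉ R) ⊆ I.filter (fun a => a.2 ∉ R) := by
    intro a ha
    rw [Finset.mem_filter] at ha ⊢
    refine ⟨?_, ha.2⟩
    by_contra h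
    exact ha.2 (hst _ ⟨a, ha.1, h, rfl⟩)
  have h5 := Finset.card_le_card h4
  have h6 := Finset.card_filter_add_card_filter_not (s := I) (fun a => a.2 ∈ R)
  have h7 := bdE_cluster N hx
  omega

end grow

lemma real_max {y c K : ℝ} (hK : 0 ≤ K) (h1 : 1 ≤ y) (h2 : c - K ≤ y) : c / (K + 1) ≤ y := by
  rw [div_le_iff₀ (by linarith)]
  nlinarith

lemma half_div {y u K : ℝ} (hK : 0 < K) (h : y ≤ 2 * u) : y / (2 * K) ≤ u / K := by
  rw [div_le_div_iff₀ (by linarith) hK]
  nlinarith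

lemma div_sub_le {u K a b : ℝ} (hK : 0 < K) (h : u + K * a ≤ K * b) : u / K ≤ b - a := by
  rw [div_le_iff₀ hK]
  linarith

/-- the residual layers become large -/
theorem grow (N : SimpleGraph V) (ω : V → ℕ) (V1 x : Finset V) (K : ℕ)
    (Q : Finset (Sym2 V)) (f : V → V → ℤ) (I : Finset (V × V))
    (hdeg : ∀ a, (Finset.univ.filter (fun b => N.Adj a b)).card ≤ K * ω a) (hK : 1 ≤ K)
    (hV1 : ∀ v ∈ V1, ω v = 1)
    {M r1 r : ℕ} {m Λ cs ce q : ℝ}
    (hgiant : ∀ v ∉ V1, ω v = 0 ∨ q ≤ ω v)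
    (hx : x ⊆ V1) (hxM : x.card ≤ M) (hxK : bdE N.edgeSet x ≤ K)
    (hmin : ∀ X, x ⊆ X → X ⊆ V1 → (X.card : ℝ) ≤ q + M →
      bdE N.edgeSet x ≤ bdE N.edgeSet X)
    (hexp1 : ∀ X : Finset V, (wt ω X : ℝ) ≤ q + M → cs * wt ω X ≤ bdE N.edgeSet X)
    (hexp2 : ∀ X : Finset V, (wt ω X : ℝ) ≤ m / Λ + M → ce * wt ω X ≤ bdE N.edgeSet X)
    (hI : I ⊂ arms N V1 x)
    (hf : IsFlow (resE N Q x) f) (hdv : ∀ v, dv f v ≤ cnt Prod.snd I v)
    (hQ : ∀ e ∈ Q, ∀ u ∈ e, u ∉ lay (vrel N V1) x r1)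
    (hcs : 0 < cs) (hce : 0 < ce) (hq1 : 1 ≤ q) (hqQ : 2 * ((K : ℝ) + Q.card) ≤ ce * q)
    (h1 : q ≤ (1 + cs / (2 * K * (K + 1))) ^ r1) (h2 : m ≤ (1 + ce / (4 * K)) ^ (r - r1))
    (hr : r1 ≤ r) (hΛ : 1 ≤ Λ) (hm : 0 < m) :
    m / Λ ≤ wt ω (layF (rrel N Q x f) (start N V1 x I) r) := by
  set R : ℕ → Finset V := fun l => layF (rrel N Q x f) (start N V1 x I) l with hR
  have hmono : ∀ l, wt ω (R l) ≤ wt ω (R (l+1)) := fun l => wt_mono ω (layF_mono _ _ (Nat.le_succ l))
  have hKR : (1:ℝ) ≤ K := by exact_mod_cast hK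
  have hRx : ∀ l, Disjoint (R l) x := by
    intro l
    rw [Finset.disjoint_left]
    intro v hv
    rw [hR, mem_layF] at hv
    exact (layer_prop N V1 x Q f I l v hv).1
  have hωpos : ∀ l, ∀ v ∈ R l, ω v ≠ 0 := by
    intro l v hv h0
    rw [hR, mem_layF] at hv
    obtain ⟨-, w, hw⟩ := layer_prop N V1 x Q f I l v hv
    have h3 := hdeg v
    rw [h0, Nat.mul_zero, Nat.le_zero, Finset.card_eq_zero, Finset.filter_eq_empty_iff] at h3
    exact h3 (Finset.mem_univ w) hw
  have hst : ∀ l, ∀ v ∈ start N V1 x I, v ∈ R l := by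
    intro l v hv
    rw [hR, mem_layF]
    exact lay_mono _ _ (Nat.zero_le l) hv
  have husb : ∀ l, ((usb (resE N Q x) f (R l)).card : ℝ) + K * wt ω (R l) ≤ K * wt ω (R (l+1)) := by
    intro l
    have := usb_le N ω x K Q f hdeg (start N V1 x I) l
    exact_mod_cast this
  have hwx : wt ω x = x.card := by
    unfold wt
    rw [Finset.card_eq_sum_ones]
    exact Finset.sum_congr rfl (fun v hv => hV1 v (hx hv))
  have hwRx : ∀ l, wt ω (R l ∪ x) = wt ω (R l) + x.card := by
    intro l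
    rw [← hwx]
    unfold wt
    exact Finset.sum_union (hRx l)
  have hIc : (I.card : ℝ) + 1 ≤ (arms N V1 x).card := by
    have := Finset.card_lt_card hI
    exact_mod_cast this
  have hmain : ∀ l, (bdE N.edgeSet (R l ∪ x) : ℝ) + (arms N V1 x).card
      ≤ 2 * (usb (resE N Q x) f (R l)).card + I.card + bdE N.edgeSet x
        + ((R l ×ˢ (R l)ᶜ).filter (fun p => s(p.1, p.2) ∈ Q)).card := by
    intro l
    have := usb_main N V1 x Q f I hx hf hdv (R l) (hRx l) (hst l)
    exact_mod_cast this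
  have hxK' : (bdE N.edgeSet x : ℝ) ≤ K := by exact_mod_cast hxK
  -- phase 1
  have hR0 : (1:ℝ) ≤ wt ω (R 0) := by
    obtain ⟨a, ha, haI⟩ := Finset.exists_of_ssubset hI
    have h3 : a.2 ∈ R 0 := hst 0 _ ⟨a, ha, haI, rfl⟩
    have h4 : ω a.2 ≤ wt ω (R 0) := Finset.single_le_sum (f := ω) (fun _ _ => Nat.zero_le _) h3
    have h5 := hωpos 0 _ h3
    have : 1 ≤ wt ω (R 0) := by omega
    exact_mod_cast this
  have hsmall : ∀ l, (wt ω (R l) : ℝ) < q → R l ⊆ V1 := by
    intro l hl v hv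
    by_contra hvV
    rcases hgiant v hvV with h | h
    · exact hωpos l v hv h
    · have h4 : ω v ≤ wt ω (R l) := Finset.single_le_sum (f := ω) (fun _ _ => Nat.zero_le _) hv
      have h5 : (ω v : ℝ) ≤ wt ω (R l) := by exact_mod_cast h4
      linarith
  have hball : ∀ l, R l ⊆ V1 → ∀ v ∈ R l, v ∈ lay (vrel N V1) x (l+1) := by
    intro l
    induction l with
    | zero =>
      intro hsub v hv
      have hvV := hsub hv
      rw [hR, mem_layF] at hv
      obtain ⟨a, ha, haI, rfl⟩ := hv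
      unfold arms at ha
      simp only [Finset.mem_filter, Finset.mem_product, Finset.mem_sdiff] at ha
      exact Or.inr ⟨a.1, ha.1.1, ha.2, hx ha.1.1, hvV⟩
    | succ l ih =>
      intro hsub v hv
      have hsub' : R l ⊆ V1 := (layF_mono _ _ (Nat.le_succ l)).trans hsub
      have hvV := hsub hv
      rw [hR, mem_layF] at hv
      rcases hv with hv | ⟨u, hu, huv⟩
      · exact Or.inl (ih hsub' v (by rw [hR, mem_layF]; exact hv))
      · have hu' : u ∈ R l := by rw [hR, mem_layF]; exact hu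
        exact Or.inr ⟨u, ih hsub' u hu', huv.1.1, hsub' hu', hvV⟩
  have hstep1 : ∀ l < r1, (wt ω (R l) : ℝ) < q →
      (1 + cs / (2 * K * (K + 1))) * wt ω (R l) ≤ wt ω (R (l+1)) := by
    intro l hl hq
    have hV := hsmall l hq
    have hnoQ : ((R l ×ˢ (R l)ᶜ).filter (fun p => s(p.1, p.2) ∈ Q)).card = 0 := by
      rw [Finset.card_eq_zero, Finset.filter_eq_empty_iff]
      intro p hp hpQ
      rw [Finset.mem_product] at hp
      apply hQ _ hpQ p.1 (Sym2.mem_mk_left _ _)
      exact lay_mono _ _ (show l + 1 ≤ r1 by omega) (hball l hV p.1 hp.1)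
    have hm1 := hmain l
    rw [hnoQ] at hm1
    have hw : (wt ω (R l ∪ x) : ℝ) ≤ q + M := by
      rw [hwRx]
      push_cast
      have : (x.card : ℝ) ≤ M := by exact_mod_cast hxM
      linarith
    have hcardRx : ((R l ∪ x).card : ℝ) ≤ q + M := by
      have h3 : wt ω (R l ∪ x) = (R l ∪ x).card := by
        unfold wt
        rw [Finset.card_eq_sum_ones]
        exact Finset.sum_congr rfl (fun v hv => hV1 v (by
          rcases Finset.mem_union.1 hv with h | h
          · exact hV h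
          · exact hx h))
      rw [← h3]; exact hw
    have hb1 : (bdE N.edgeSet x : ℝ) ≤ bdE N.edgeSet (R l ∪ x) := by
      exact_mod_cast hmin _ Finset.subset_union_right (Finset.union_subset hV hx) hcardRx
    have hb2 := hexp1 _ hw
    have hb3 : (wt ω (R l) : ℝ) ≤ wt ω (R l ∪ x) := by
      exact_mod_cast wt_mono ω Finset.subset_union_left
    have hb4 : cs * wt ω (R l) ≤ bdE N.edgeSet (R l ∪ x) :=
      (mul_le_mul_of_nonneg_left hb3 hcs.le).trans hb2
    have hy1 : 1 ≤ 2 * ((usb (resE N Q x) f (R l)).card : ℝ) := by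
      push_cast at hm1
      linarith
    have hy2 : cs * wt ω (R l) - K ≤ 2 * ((usb (resE N Q x) f (R l)).card : ℝ) := by
      push_cast at hm1
      linarith
    have hy3 := real_max (by linarith) hy1 hy2
    have hy4 := husb l
    have hKpos : (0:ℝ) < K := by linarith
    have e1 : cs / (2 * K * (K + 1)) * (wt ω (R l) : ℝ)
        = (cs * wt ω (R l) / (K + 1)) / (2 * K) := by
      field_simp
    rw [add_mul, one_mul, e1]
    have e2 := half_div hKpos hy3
    have e3 := div_sub_le hKpos hy4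
    linarith
  have hκ1 : 0 ≤ cs / (2 * K * (K + 1)) := by positivity
  have hphase1 : ∀ l ≤ r1, q ≤ wt ω (R l) ∨
      (1 + cs / (2 * K * (K + 1))) ^ l ≤ wt ω (R l) := by
    intro l
    induction l with
    | zero => intro _; right; simpa using hR0
    | succ l ih =>
      intro hl
      rcases lt_or_ge (wt ω (R l) : ℝ) q with hlt | hge
      · right
        rcases ih (by omega) with h | h
        · linarith
        · refine le_trans ?_ (hstep1 l (by omega) hlt)
          rw [pow_succ, mul_comm]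
          exact mul_le_mul_of_nonneg_left h (by linarith)
      · left
        have := hmono l
        have h3 : (wt ω (R l) : ℝ) ≤ wt ω (R (l+1)) := by exact_mod_cast this
        linarith
  have hq : q ≤ wt ω (R r1) := by
    rcases hphase1 r1 le_rfl with h | h
    · exact h
    · exact h1.trans h
  -- phase 2
  have hstep2 : ∀ l, q ≤ wt ω (R l) → (wt ω (R l) : ℝ) < m / Λ →
      (1 + ce / (4 * K)) * wt ω (R l) ≤ wt ω (R (l+1)) := by
    intro l hql hlm
    have hm1 := hmain l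
    have hQp : (((R l ×ˢ (R l)ᶜ).filter (fun p => s(p.1, p.2) ∈ Q)).card : ℝ) ≤ Q.card := by
      exact_mod_cast Q_pairs Q (R l)
    have hw : (wt ω (R l ∪ x) : ℝ) ≤ m / Λ + M := by
      rw [hwRx]
      push_cast
      have : (x.card : ℝ) ≤ M := by exact_mod_cast hxM
      linarith
    have hb2 := hexp2 _ hw
    have hb3 : (wt ω (R l) : ℝ) ≤ wt ω (R l ∪ x) := by
      exact_mod_cast wt_mono ω Finset.subset_union_left
    have hb4 : ce * wt ω (R l) ≤ bdE N.edgeSet (R l ∪ x) :=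
      (mul_le_mul_of_nonneg_left hb3 hce.le).trans hb2
    have hb5 : ce * q ≤ ce * wt ω (R l) := mul_le_mul_of_nonneg_left hql hce.le
    have hy2 : ce * wt ω (R l) / 2 ≤ 2 * ((usb (resE N Q x) f (R l)).card : ℝ) := by
      linarith
    have hy4 := husb l
    have hKpos : (0:ℝ) < K := by linarith
    have e1 : ce / (4 * K) * (wt ω (R l) : ℝ) = (ce * wt ω (R l) / 2) / (2 * K) := by
      field_simp
      ring
    rw [add_mul, one_mul, e1]
    have e2 := half_div hKpos hy2
    have e3 := div_sub_le hKpos hy4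
    linarith
  have hκ2 : 0 ≤ ce / (4 * K) := by positivity
  have hphase2 : ∀ l, m / Λ ≤ wt ω (R (r1 + l)) ∨
      (q ≤ wt ω (R (r1 + l)) ∧ (1 + ce / (4 * K)) ^ l ≤ wt ω (R (r1 + l))) := by
    intro l
    induction l with
    | zero =>
      right
      refine ⟨hq, ?_⟩
      simp only [pow_zero, add_zero]
      linarith
    | succ l ih =>
      have hmo : (wt ω (R (r1 + l)) : ℝ) ≤ wt ω (R (r1 + (l + 1))) := by
        exact_mod_cast hmono (r1 + l)
      rcases lt_or_ge (wt ω (R (r1 + l)) : ℝ) (m / Λ) with hlt | hge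
      · right
        rcases ih with h | ⟨h, h'⟩
        · linarith
        · refine ⟨by linarith, le_trans ?_ (hstep2 (r1 + l) h hlt)⟩
          rw [pow_succ, mul_comm]
          exact mul_le_mul_of_nonneg_left h' (by linarith)
      · left
        linarith
  have hfin := hphase2 (r - r1)
  rw [show r1 + (r - r1) = r by omega] at hfin
  rcases hfin with h | ⟨-, h⟩
  · exact h
  · refine le_trans ?_ (h2.trans h)
    exact div_le_self hm.le hΛ

end Pool.Agent.H34.Im
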