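import Pool.Agent.H34.ImGrow

/-!
# Popular hubs
-/

namespace Pool.Agent.H34.Im

open Finset Classical

variable {V : Type} [Fintype V]

/-- a popular vertex of large weighted sets -/
lemma popular {ι : Type} (F : Finset ι) (R : ι → Finset V) (ω : V → ℕ) (m Λ : ℝ)
    (hm : (wt ω Finset.univ : ℝ) = m) (hm0 : 0 < m)
    (hR : ∀ x ∈ F, m / Λ ≤ wt ω (R x)) :
    ∃ c, (F.card : ℝ) / Λ ≤ (F.filter (fun x => c ∈ R x)).card := by
  by_contra hcon
  push Not at hcon
  have h1 : (F.card : ℝ) * (m / Λ) ≤ ∑ x ∈ F, (wt ω (R x) : ℝ) := by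
    rw [← nsmul_eq_mul]
    exact Finset.card_nsmul_le_sum F _ _ hR
  have h2 : ∑ x ∈ F, (wt ω (R x) : ℝ)
      = ∑ c : V, (ω c : ℝ) * (F.filter (fun x => c ∈ R x)).card := by
    have h3 : ∀ x ∈ F, (wt ω (R x) : ℝ) = ∑ c : V, if c ∈ R x then (ω c : ℝ) else 0 := by
      intro x _
      unfold wt
      push_cast
      rw [← Finset.sum_filter]
      congr 1
      ext; simp
    rw [Finset.sum_congr rfl h3, Finset.sum_comm]
    refine Finset.sum_congr rfl (fun c _ => ?_)
    rw [← Finset.sum_filter, Finset.sum_const, nsmul_eq_mul, mul_comm]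
  have hpos : ∃ c : V, 0 < ω c := by
    by_contra h
    push Not at h
    have : wt ω (Finset.univ : Finset V) = 0 := by
      unfold wt
      exact Finset.sum_eq_zero (fun v _ => Nat.le_zero.1 (h v))
    rw [this] at hm
    norm_num at hm
    linarith
  obtain ⟨c0, hc0⟩ := hpos
  have h4 : ∑ c : V, (ω c : ℝ) * (F.filter (fun x => c ∈ R x)).card
      < ∑ c : V, (ω c : ℝ) * ((F.card : ℝ) / Λ) := by
    apply Finset.sum_lt_sum
    · intro c _
      exact mul_le_mul_of_nonneg_left (hcon c).le (Nat.cast_nonneg _)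
    · refine ⟨c0, Finset.mem_univ _, ?_⟩
      exact mul_lt_mul_of_pos_left (hcon c0) (by exact_mod_cast hc0)
  rw [← Finset.sum_mul] at h4
  have h5 : (∑ c : V, (ω c : ℝ)) = m := by
    rw [← hm]
    unfold wt
    push_cast; rfl
  rw [h5] at h4
  have h6 : m * ((F.card : ℝ) / Λ) = (F.card : ℝ) * (m / Λ) := by ring
  linarith

/-- the truncation lemma -/
lemma trunc {ι : Type} (F : Finset ι) (p : ι → ℕ → V) (ln : ι → ℕ) (r : ℕ) (c : V) (τ : ℝ)
    (hτ : 0 < τ) (hln : ∀ x ∈ F, ln x ≤ r) (hend : ∀ x ∈ F, p x (ln x) = c)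
    (hF : τ ≤ F.card) :
    ∃ (VH : Finset V) (EH : Finset (Sym2 V)) (l' : ι → ℕ),
      (VH.card : ℝ) ≤ (r+1)^2 * F.card / τ ∧ (EH.card : ℝ) ≤ (r+1)^2 * F.card / τ ∧
      (∀ x ∈ F, l' x ≤ ln x ∧ p x (l' x) ∈ VH ∧ ∀ j < l' x, p x j ∉ VH) ∧
      (∀ y ∈ VH, ∃ E' ⊆ EH, E'.card ≤ r ∧ Conn (E' : Set (Sym2 V)) y c) ∧
      (∀ e ∈ EH, (∀ u ∈ e, u ∈ VH) ∧ ∃ x ∈ F, ∃ j < ln x, e = s(p x j, p x (j+1))) ∧
      (∀ u, u ∉ VH → ((F.filter (fun x => ∃ j ≤ ln x, p x j = u)).card : ℝ) < τ) := by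
  set vis : V → Finset ι := fun u => F.filter (fun x => ∃ j ≤ ln x, p x j = u) with hvis
  set U : Finset V := Finset.univ.filter (fun u => τ ≤ ((vis u).card : ℝ)) with hU
  -- size of U
  have hUcard : (U.card : ℝ) * τ ≤ (r+1) * F.card := by
    have h1 : (U.card : ℝ) * τ ≤ ∑ u ∈ U, ((vis u).card : ℝ) := by
      rw [← nsmul_eq_mul]
      apply Finset.card_nsmul_le_sum
      intro u hu
      exact (Finset.mem_filter.1 hu).2
    have h2 : ∑ u ∈ U, ((vis u).card : ℝ) ≤ ∑ u : V, ((vis u).card : ℝ) :=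
      Finset.sum_le_sum_of_subset_of_nonneg (Finset.subset_univ _)
        (fun _ _ _ => Nat.cast_nonneg _)
    have h3 : ∑ u : V, ((vis u).card : ℝ)
        = ∑ x ∈ F, ((Finset.univ.filter (fun u => ∃ j ≤ ln x, p x j = u)).card : ℝ) := by
      simp only [hvis, Finset.card_filter]
      push_cast
      exact Finset.sum_comm
    have h4 : ∑ x ∈ F, ((Finset.univ.filter (fun u => ∃ j ≤ ln x, p x j = u)).card : ℝ)
        ≤ ∑ x ∈ F, ((r:ℝ)+1) := by
      apply Finset.sum_le_sum
      intro x hx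
      have h5 : (Finset.univ.filter (fun u => ∃ j ≤ ln x, p x j = u))
          ⊆ (Finset.range (r+1)).image (p x) := by
        intro u hu
        simp only [Finset.mem_filter, Finset.mem_univ, true_and] at hu
        obtain ⟨j, hj, rfl⟩ := hu
        have := hln x hx
        exact Finset.mem_image_of_mem _ (Finset.mem_range.2 (by omega))
      have h6 := (Finset.card_le_card h5).trans Finset.card_image_le
      rw [Finset.card_range] at h6
      exact_mod_cast h6
    rw [Finset.sum_const, nsmul_eq_mul] at h4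
    linarith
  have hcU : c ∈ U := by
    rw [hU, Finset.mem_filter]
    refine ⟨Finset.mem_univ _, ?_⟩
    have : vis c = F := by
      rw [hvis]
      apply Finset.filter_true_of_mem
      intro x hx
      exact ⟨ln x, le_rfl, hend x hx⟩
    rw [this]; exact hF
  -- representatives
  have hrep : ∀ u : V, ∃ (x : ι × ℕ), u ∈ U → (x.1 ∈ F ∧ x.2 ≤ ln x.1 ∧ p x.1 x.2 = u) := by
    intro u
    by_cases hu : u ∈ U
    · have h1 := (Finset.mem_filter.1 hu).2
      have h2 : (vis u).card ≠ 0 := by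
        intro h0
        rw [h0] at h1
        norm_num at h1
        linarith
      rw [Finset.card_ne_zero] at h2
      obtain ⟨x, hx⟩ := h2
      rw [hvis, Finset.mem_filter] at hx
      obtain ⟨hx1, j, hj, hj'⟩ := hx
      exact ⟨(x, j), fun _ => ⟨hx1, hj, hj'⟩⟩
    · have hFne : F.Nonempty := by
        rw [Finset.nonempty_iff_ne_empty]
        rintro rfl
        simp at hF
        linarith
      obtain ⟨x, hx⟩ := hFne
      exact ⟨(x, 0), fun h => absurd h hu⟩
  choose rep hrep using hrep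
  set VH : Finset V := U.biUnion
    (fun u => (Finset.Icc (rep u).2 (ln (rep u).1)).image (p (rep u).1)) with hVH
  set EH : Finset (Sym2 V) := U.biUnion
    (fun u => (Finset.Ico (rep u).2 (ln (rep u).1)).image
      (fun j => s(p (rep u).1 j, p (rep u).1 (j+1)))) with hEH
  have hUVH : U ⊆ VH := by
    intro u hu
    obtain ⟨h1, h2, h3⟩ := hrep u hu
    rw [hVH, Finset.mem_biUnion]
    exact ⟨u, hu, Finset.mem_image.2 ⟨(rep u).2, Finset.mem_Icc.2 ⟨le_rfl, h2⟩, h3⟩⟩
  have hcard : ∀ (W : ℕ), (W : ℝ) ≤ U.card * (r+1) → (W : ℝ) ≤ (r+1)^2 * F.card / τ := by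
    intro W hW
    rw [le_div_iff₀ hτ]
    have h0 : (0:ℝ) ≤ (r:ℝ) + 1 := by positivity
    calc (W : ℝ) * τ ≤ (U.card * (r+1)) * τ := mul_le_mul_of_nonneg_right hW hτ.le
      _ = (U.card * τ) * (r+1) := by ring
      _ ≤ ((r+1) * F.card) * (r+1) := mul_le_mul_of_nonneg_right hUcard h0
      _ = (r+1)^2 * F.card := by ring
  -- truncation index
  have hexj : ∀ x ∈ F, ∃ j, p x j ∈ VH := fun x hx => ⟨ln x, by rw [hend x hx]; exact hUVH hcU⟩
  refine ⟨VH, EH, fun x => if h : ∃ j, p x j ∈ VH then Nat.find h else 0, ?_, ?_, ?_, ?_, ?_, ?_⟩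
  · apply hcard
    have h1 : VH.card ≤ U.card * (r+1) := by
      apply Finset.card_biUnion_le_card_mul
      intro u hu
      obtain ⟨h1, h2, h3⟩ := hrep u hu
      refine Finset.card_image_le.trans ?_
      rw [Nat.card_Icc]
      have := hln _ h1
      omega
    exact_mod_cast h1
  · apply hcard
    have h1 : EH.card ≤ U.card * (r+1) := by
      apply Finset.card_biUnion_le_card_mul
      intro u hu
      obtain ⟨h1, h2, h3⟩ := hrep u hu
      refine Finset.card_image_le.trans ?_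
      rw [Nat.card_Ico]
      have := hln _ h1
      omega
    exact_mod_cast h1
  · intro x hx
    simp only [dif_pos (hexj x hx)]
    refine ⟨Nat.find_min' _ (by rw [hend x hx]; exact hUVH hcU), Nat.find_spec (hexj x hx), ?_⟩
    intro j hj
    exact Nat.find_min (hexj x hx) hj
  · intro y hy
    rw [hVH, Finset.mem_biUnion] at hy
    obtain ⟨u, hu, hy⟩ := hy
    rw [Finset.mem_image] at hy
    obtain ⟨j, hj, rfl⟩ := hy
    rw [Finset.mem_Icc] at hj
    obtain ⟨h1, h2, h3⟩ := hrep u hu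
    refine ⟨(Finset.Ico j (ln (rep u).1)).image
      (fun j => s(p (rep u).1 j, p (rep u).1 (j+1))), ?_, ?_, ?_⟩
    · intro e he
      rw [Finset.mem_image] at he
      obtain ⟨i, hi, rfl⟩ := he
      rw [Finset.mem_Ico] at hi
      rw [hEH, Finset.mem_biUnion]
      exact ⟨u, hu, Finset.mem_image.2 ⟨i, Finset.mem_Ico.2 ⟨by omega, hi.2⟩, rfl⟩⟩
    · refine Finset.card_image_le.trans ?_
      rw [Nat.card_Ico]
      have := hln _ h1
      omega
    · rw [← hend _ h1]
      apply Conn.path (p (rep u).1) j _ hj.2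
      intro i hi hij
      rw [Finset.mem_coe, Finset.mem_image]
      exact ⟨i, Finset.mem_Ico.2 ⟨hij, hi⟩, rfl⟩
  · intro e he
    rw [hEH, Finset.mem_biUnion] at he
    obtain ⟨u, hu, he⟩ := he
    rw [Finset.mem_image] at he
    obtain ⟨j, hj, rfl⟩ := he
    rw [Finset.mem_Ico] at hj
    obtain ⟨h1, h2, h3⟩ := hrep u hu
    refine ⟨?_, (rep u).1, h1, j, hj.2, rfl⟩
    intro v hv
    rw [Sym2.mem_iff] at hv
    rw [hVH, Finset.mem_biUnion]
    refine ⟨u, hu, Finset.mem_image.2 ?_⟩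
    rcases hv with rfl | rfl
    · exact ⟨j, Finset.mem_Icc.2 ⟨hj.1, by omega⟩, rfl⟩
    · exact ⟨j+1, Finset.mem_Icc.2 ⟨by omega, by omega⟩, rfl⟩
  · intro u hu
    have hu' : u ∉ U := fun h => hu (hUVH h)
    rw [hU, Finset.mem_filter] at hu'
    push Not at hu'
    exact hu' (Finset.mem_univ _)

/-- size of balls in `V1` -/
lemma ball_card (N : SimpleGraph V) (ω : V → ℕ) (V1 : Finset V) (K : ℕ)
    (hdeg : ∀ a, (Finset.univ.filter (fun b => N.Adj a b)).card ≤ K * ω a)
    (hV1 : ∀ v ∈ V1, ω v = 1) (A : Finset V) (l : ℕ) :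
    (layF (vrel N V1) A l).card ≤ A.card * (K+1)^l := by
  induction l with
  | zero =>
    have h : layF (vrel N V1) (A : Set V) 0 = A := by
      ext v; rw [mem_layF]; exact Finset.mem_coe
    rw [h]; simp
  | succ l ih =>
    have h : layF (vrel N V1) (A : Set V) (l+1) ⊆ layF (vrel N V1) A l ∪
        ((layF (vrel N V1) A l).filter (fun v => v ∈ V1)).biUnion
          (fun u => Finset.univ.filter (fun b => N.Adj u b)) := by
      intro v hv
      rw [mem_layF] at hv
      rcases hv with hv | ⟨u, hu, huv⟩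
      · exact Finset.mem_union_left _ (mem_layF.2 hv)
      · apply Finset.mem_union_right
        rw [Finset.mem_biUnion]
        refine ⟨u, Finset.mem_filter.2 ⟨mem_layF.2 hu, huv.2.1⟩, ?_⟩
        exact Finset.mem_filter.2 ⟨Finset.mem_univ _, huv.1⟩
    refine (Finset.card_le_card h).trans ((Finset.card_union_le _ _).trans ?_)
    have h2 : (((layF (vrel N V1) A l).filter (fun v => v ∈ V1)).biUnion
          (fun u => Finset.univ.filter (fun b => N.Adj u b))).card
          ≤ (layF (vrel N V1) A l).card * K := by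
      refine (Finset.card_biUnion_le_card_mul _ _ K ?_).trans
        (Nat.mul_le_mul_right _ (Finset.card_le_card (Finset.filter_subset _ _)))
      intro u hu
      have h3 := hdeg u
      rw [hV1 u (Finset.mem_filter.1 hu).2, mul_one] at h3
      exact h3
    calc _ ≤ (layF (vrel N V1) A l).card + (layF (vrel N V1) A l).card * K :=
          Nat.add_le_add_left h2 _
      _ = (layF (vrel N V1) A l).card * (K+1) := by ring
      _ ≤ (A.card * (K+1)^l) * (K+1) := Nat.mul_le_mul_right _ ih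
      _ = A.card * (K+1)^(l+1) := by ring

/-- few clusters are near a given set -/
lemma near_card (N : SimpleGraph V) (ω : V → ℕ) (V1 : Finset V) (K : ℕ)
    (hdeg : ∀ a, (Finset.univ.filter (fun b => N.Adj a b)).card ≤ K * ω a)
    (hV1 : ∀ v ∈ V1, ω v = 1) (F : Finset (Finset V))
    (hdisj : ∀ x ∈ F, ∀ y ∈ F, x ≠ y → Disjoint x y) (A : Finset V) (l : ℕ) :
    (F.filter (fun x : Finset V => ∃ v ∈ A, v ∈ lay (vrel N V1) (x : Set V) l)).card
      ≤ A.card * (K+1)^l := by
  refine le_trans ?_ (ball_card N ω V1 K hdeg hV1 A l)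
  have hsym : ∀ u v, vrel N V1 u v → vrel N V1 v u := fun u v h => ⟨h.1.symm, h.2.2, h.2.1⟩
  apply Finset.card_le_card_of_forall_subsingleton (fun (x : Finset V) (a : V) => a ∈ x)
  · intro x hx
    obtain ⟨hxF, v, hvA, hv⟩ := Finset.mem_filter.1 hx
    obtain ⟨a, ha, ha'⟩ := lay_symm _ hsym _ l v hv
    refine ⟨a, mem_layF.2 ?_, Finset.mem_coe.1 ha⟩
    exact lay_subset_of _ (Set.singleton_subset_iff.2 (Finset.mem_coe.2 hvA)) l ha'
  · intro a _ x hx y hy
    by_contra hne
    exact Finset.disjoint_left.1 (hdisj x (Finset.mem_filter.1 hx.1).1 y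
      (Finset.mem_filter.1 hy.1).1 hne) hx.2 hy.2

end Pool.Agent.H34.Im
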