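import Pool.Agent.H34.ImFlow

/-!
# Immersions via edge sets
-/

namespace Pool.Agent.H34.Im

open Finset Classical

/-- the clique immersion in the walk form -/
def WImm (k : ℕ) {U : Type} (G : SimpleGraph U) : Prop :=
  ∃ f : Fin k → U, Function.Injective f ∧
    ∃ P : ∀ i j : Fin k, G.Walk (f i) (f j),
      (∀ i j : Fin k, i < j → (P i j).IsPath) ∧
      (∀ i j i' j' : Fin k, i < j → i' < j' → (i ≠ i' ∨ j ≠ j') →
        (P i j).edges.Disjoint (P i' j').edges)

/-- the clique immersion in the walk form with a bound on the number of vertices -/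
def WImmS (k : ℕ) {U : Type} (G : SimpleGraph U) (s : ℝ) : Prop :=
  ∃ f : Fin k → U, Function.Injective f ∧
    ∃ P : ∀ i j : Fin k, G.Walk (f i) (f j),
      (∀ i j : Fin k, i < j → (P i j).IsPath) ∧
      (∀ i j i' j' : Fin k, i < j → i' < j' → (i ≠ i' ∨ j ≠ j') →
        (P i j).edges.Disjoint (P i' j').edges) ∧
      (({v : U | (∃ i, f i = v) ∨ ∃ i j, i < j ∧ v ∈ (P i j).support}.ncard : ℝ) ≤ s)

/-- immersion through edge sets -/
def EImm (k : ℕ) {U : Type} (G : SimpleGraph U) (f : Fin k → U)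
    (E : Fin k → Fin k → Finset (Sym2 U)) : Prop :=
  Function.Injective f ∧
    (∀ i j, i < j → (∀ e ∈ E i j, e ∈ G.edgeSet) ∧ Conn (E i j : Set (Sym2 U)) (f i) (f j)) ∧
    (∀ i j i' j', i < j → i' < j' → (i ≠ i' ∨ j ≠ j') → Disjoint (E i j) (E i' j'))

lemma conn_of_walk {U : Type} {G : SimpleGraph U} {a b : U} (p : G.Walk a b) (E : Set (Sym2 U))
    (h : ∀ e ∈ p.edges, e ∈ E) : Conn E a b := by
  induction p with
  | nil => exact Conn.refl _ _
  | cons hadj p ih =>
    rw [SimpleGraph.Walk.edges_cons] at h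
    exact (Conn.edge (h _ (List.mem_cons_self))).trans
      (ih (fun e he => h e (List.mem_cons_of_mem _ he)))

lemma eimm_of_wimm {k : ℕ} {U : Type} {G : SimpleGraph U} (h : WImm k G) :
    ∃ f E, EImm k G f E := by
  obtain ⟨f, hf, P, hP1, hP2⟩ := h
  refine ⟨f, fun i j => (P i j).edges.toFinset, hf, ?_, ?_⟩
  · intro i j _
    refine ⟨?_, ?_⟩
    · intro e he
      rw [List.mem_toFinset] at he
      exact (P i j).edges_subset_edgeSet he
    · apply conn_of_walk (P i j)
      intro e he
      rw [Finset.mem_coe, List.mem_toFinset]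
      exact he
  · intro i j i' j' h1 h2 h3
    rw [Finset.disjoint_left]
    intro e he he'
    rw [List.mem_toFinset] at he he'
    exact hP2 i j i' j' h1 h2 h3 he he'

/-- a path inside an edge set -/
lemma path_of_conn {U : Type} {G : SimpleGraph U} {a b : U} (E : Finset (Sym2 U))
    (hE : ∀ e ∈ E, e ∈ G.edgeSet) (h : Conn (E : Set (Sym2 U)) a b) :
    ∃ p : G.Walk a b, p.IsPath ∧ ∀ e ∈ p.edges, e ∈ E := by
  obtain ⟨p⟩ := h
  have hle : SimpleGraph.fromEdgeSet (E : Set (Sym2 U)) ≤ G := by
    intro u v huv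
    rw [SimpleGraph.fromEdgeSet_adj] at huv
    exact hE _ huv.1
  refine ⟨(p.toPath : (SimpleGraph.fromEdgeSet (E : Set (Sym2 U))).Walk a b).mapLe hle, ?_, ?_⟩
  · exact SimpleGraph.Walk.IsPath.mapLe hle p.toPath.2
  · intro e he
    rw [SimpleGraph.Walk.edges_mapLe_eq_edges] at he
    have h2 := SimpleGraph.Walk.edges_subset_edgeSet _ he
    rw [SimpleGraph.edgeSet_fromEdgeSet] at h2
    exact h2.1

lemma support_card {U : Type} {G : SimpleGraph U} {a b : U} (p : G.Walk a b) :
    ∀ v ∈ p.support, v = a ∨ ∃ e ∈ p.edges, v ∈ e := by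
  induction p with
  | nil =>
    intro v hv
    rw [SimpleGraph.Walk.support_nil, List.mem_singleton] at hv
    exact Or.inl hv
  | cons hadj p ih =>
    intro v hv
    rw [SimpleGraph.Walk.support_cons, List.mem_cons] at hv
    rcases hv with rfl | hv
    · exact Or.inl rfl
    · right
      rw [SimpleGraph.Walk.edges_cons]
      rcases ih v hv with rfl | ⟨e, he, hve⟩
      · exact ⟨_, List.mem_cons_self, Sym2.mem_mk_right _ _⟩
      · exact ⟨e, List.mem_cons_of_mem _ he, hve⟩

lemma wimmS_of_eimm {k : ℕ} {U : Type} [Fintype U] {G : SimpleGraph U} {f : Fin k → U}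
    {E : Fin k → Fin k → Finset (Sym2 U)} (h : EImm k G f E) {A : Finset (Sym2 U)}
    (hA : ∀ i j, i < j → E i j ⊆ A) : WImmS k G (k + 2 * A.card) := by
  obtain ⟨hf, h1, h2⟩ := h
  have hP : ∀ i j : Fin k, ∃ p : G.Walk (f i) (f j), i < j →
      p.IsPath ∧ ∀ e ∈ p.edges, e ∈ E i j := by
    intro i j
    rcases lt_trichotomy i j with hij | hij | hij
    · obtain ⟨p, hp1, hp2⟩ := path_of_conn (E i j) (h1 i j hij).1 (h1 i j hij).2
      exact ⟨p, fun _ => ⟨hp1, hp2⟩⟩
    · subst hij
      exact ⟨SimpleGraph.Walk.nil, fun h => absurd h (lt_irrefl _)⟩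
    · obtain ⟨p, hp1, hp2⟩ := path_of_conn (E j i) (h1 j i hij).1 (h1 j i hij).2
      exact ⟨p.reverse, fun h => absurd h (not_lt.2 hij.le)⟩
  choose P hP using hP
  refine ⟨f, hf, P, fun i j hij => (hP i j hij).1, ?_, ?_⟩
  · intro i j i' j' hij hij' hne e he he'
    exact Finset.disjoint_left.1 (h2 i j i' j' hij hij' hne) ((hP i j hij).2 e he)
      ((hP i' j' hij').2 e he')
  · have hsub : {v : U | (∃ i, f i = v) ∨ ∃ i j, i < j ∧ v ∈ (P i j).support} ⊆
        ((Finset.univ.image f ∪ A.biUnion (fun e => Finset.univ.filter (fun u => u ∈ e)) :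
          Finset U) : Set U) := by
      intro v hv
      rw [Finset.mem_coe, Finset.mem_union]
      rcases hv with ⟨i, rfl⟩ | ⟨i, j, hij, hv⟩
      · exact Or.inl (Finset.mem_image_of_mem f (Finset.mem_univ i))
      · rcases support_card (P i j) v hv with rfl | ⟨e, he, hve⟩
        · exact Or.inl (Finset.mem_image_of_mem f (Finset.mem_univ i))
        · right
          rw [Finset.mem_biUnion]
          exact ⟨e, hA i j hij ((hP i j hij).2 e he),
            Finset.mem_filter.2 ⟨Finset.mem_univ _, hve⟩⟩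
    have h3 := Set.ncard_le_ncard hsub (Finset.finite_toSet _)
    rw [Set.ncard_coe_finset] at h3
    have h4 : (Finset.univ.image f).card ≤ k := by
      refine Finset.card_image_le.trans ?_
      rw [Finset.card_univ, Fintype.card_fin]
    have h5 : (A.biUnion (fun e => Finset.univ.filter (fun u => u ∈ e))).card ≤ A.card * 2 := by
      apply Finset.card_biUnion_le_card_mul
      intro e _
      induction e using Sym2.ind with
      | _ a b =>
        have h : Finset.univ.filter (fun u => u ∈ s(a, b)) ⊆ {a, b} := by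
          intro u hu
          have := (Finset.mem_filter.1 hu).2
          rw [Sym2.mem_iff] at this
          rw [Finset.mem_insert, Finset.mem_singleton]
          exact this
        exact (Finset.card_le_card h).trans Finset.card_le_two
    have h6 := Finset.card_union_le (Finset.univ.image f)
      (A.biUnion (fun e => Finset.univ.filter (fun u => u ∈ e)))
    have h7 : {v : U | (∃ i, f i = v) ∨ ∃ i j, i < j ∧ v ∈ (P i j).support}.ncard
        ≤ k + 2 * A.card := by omega
    exact_mod_cast h7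

lemma conn_bind {U : Type} {E : Finset (Sym2 U)} {ES : Sym2 U → Finset (Sym2 U)}
    (h : ∀ a b, s(a, b) ∈ E → Conn (ES s(a, b) : Set (Sym2 U)) a b) {a b : U}
    (hc : Conn (E : Set (Sym2 U)) a b) : Conn (E.biUnion ES : Set (Sym2 U)) a b := by
  obtain ⟨p⟩ := hc
  induction p with
  | nil => exact Conn.refl _ _
  | cons hadj p ih =>
    refine Conn.trans ?_ ih
    rw [SimpleGraph.fromEdgeSet_adj] at hadj
    refine (h _ _ hadj.1).mono ?_
    intro e he
    rw [Finset.mem_coe] at he ⊢
    rw [Finset.mem_biUnion]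
    exact ⟨_, hadj.1, he⟩

lemma conn_map {U U' : Type} {E : Finset (Sym2 U)} (g : U → U') {a b : U}
    (hc : Conn (E : Set (Sym2 U)) a b) :
    Conn (E.image (Sym2.map g) : Set (Sym2 U')) (g a) (g b) := by
  obtain ⟨p⟩ := hc
  induction p with
  | nil => exact Conn.refl _ _
  | cons hadj p ih =>
    refine Conn.trans ?_ ih
    rw [SimpleGraph.fromEdgeSet_adj] at hadj
    apply Conn.edge
    rw [Finset.mem_coe, Finset.mem_image]
    exact ⟨_, hadj.1, by rw [Sym2.map_mk]⟩

/-- replacing edges by connected edge sets -/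
lemma eimm_transfer {k : ℕ} {U : Type} [Fintype U] {H G : SimpleGraph U} {f : Fin k → U}
    {E : Fin k → Fin k → Finset (Sym2 U)} (h : EImm k H f E) (ES : Sym2 U → Finset (Sym2 U))
    (h1 : ∀ e ∈ H.edgeSet, ∀ e' ∈ ES e, e' ∈ G.edgeSet)
    (h2 : ∀ a b, H.Adj a b → Conn (ES s(a, b) : Set (Sym2 U)) a b)
    (h3 : ∀ e ∈ H.edgeSet, ∀ e' ∈ H.edgeSet, e ≠ e' → Disjoint (ES e) (ES e')) :
    EImm k G f (fun i j => (E i j).biUnion ES) := by
  obtain ⟨hf, g1, g2⟩ := h
  refine ⟨hf, ?_, ?_⟩
  · intro i j hij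
    obtain ⟨k1, k2⟩ := g1 i j hij
    refine ⟨?_, ?_⟩
    · intro e he
      rw [Finset.mem_biUnion] at he
      obtain ⟨e', he', he⟩ := he
      exact h1 e' (k1 e' he') e he
    · exact conn_bind (fun a b hab => h2 a b (k1 _ hab)) k2
  · intro i j i' j' hij hij' hne
    rw [Finset.disjoint_left]
    intro e he he'
    rw [Finset.mem_biUnion] at he he'
    obtain ⟨a, ha, hea⟩ := he
    obtain ⟨b, hb, heb⟩ := he'
    by_cases hab : a = b
    · subst hab
      exact Finset.disjoint_left.1 (g2 i j i' j' hij hij' hne) ha hb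
    · exact Finset.disjoint_left.1 (h3 a ((g1 i j hij).1 a ha) b ((g1 i' j' hij').1 b hb) hab)
        hea heb

/-- the number of ordered adjacent pairs -/
noncomputable def dts {U : Type} [Fintype U] (G : SimpleGraph U) : ℕ :=
  (Finset.univ.filter (fun p : U × U => G.Adj p.1 p.2)).card

lemma dts_eq {U : Type} [Fintype U] (G : SimpleGraph U) : dts G = 2 * G.edgeSet.ncard := by
  have h1 : dts G = ∑ a : U, G.degree a := by
    unfold dts
    rw [Finset.card_filter, ← Finset.univ_product_univ, Finset.sum_product]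
    refine Finset.sum_congr rfl (fun a _ => ?_)
    rw [← Finset.card_filter, ← SimpleGraph.card_neighborFinset_eq_degree]
    congr 1
    ext b
    simp
  rw [h1, SimpleGraph.sum_degrees_eq_twice_card_edges, ← SimpleGraph.coe_edgeFinset,
    Set.ncard_coe_finset]

/-- the hypothesis that density above `D` forces an immersion of the clique -/
def Forces (k : ℕ) (D : ℝ) : Prop :=
  ∀ (m : ℕ) (H : SimpleGraph (Fin m)), D < 2 * (H.edgeSet.ncard : ℝ) / (m : ℝ) → WImm k H

/-- the same on a subset of a general finite type -/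
lemma forces_subset {k : ℕ} {D : ℝ} (hD : Forces k D) {U : Type} [Fintype U]
    (H : SimpleGraph U) (W : Finset U)
    (hlt : D * W.card < ((W ×ˢ W).filter (fun p => H.Adj p.1 p.2)).card) :
    ∃ f E, EImm k H f E := by
  set m := W.card with hm
  have hmpos : 0 < m := by
    rcases Nat.eq_zero_or_pos m with h | h
    · exfalso
      rw [h] at hm
      have : W = ∅ := Finset.card_eq_zero.1 hm.symm
      rw [this] at hlt
      simp at hlt
      rw [h] at hlt
      simp at hlt
    · exact h
  have e : Fin m ≃ W := (Finset.equivFin W).symm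
  set g : Fin m → U := fun i => (e i).1 with hg
  have hginj : Function.Injective g := fun i j hij => e.injective (Subtype.ext hij)
  set H' : SimpleGraph (Fin m) := H.comap g with hH'
  have hcount : ((W ×ˢ W).filter (fun p => H.Adj p.1 p.2)).card = dts H' := by
    unfold dts
    symm
    apply Finset.card_bij (fun p _ => (g p.1, g p.2))
    · intro p hp
      rw [Finset.mem_filter] at hp ⊢
      refine ⟨Finset.mem_product.2 ⟨(e p.1).2, (e p.2).2⟩, hp.2⟩
    · intro p _ p' _ h
      rw [Prod.mk.injEq] at h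
      exact Prod.ext (hginj h.1) (hginj h.2)
    · intro q hq
      rw [Finset.mem_filter, Finset.mem_product] at hq
      refine ⟨(e.symm ⟨q.1, hq.1.1⟩, e.symm ⟨q.2, hq.1.2⟩), ?_, ?_⟩
      · rw [Finset.mem_filter]
        refine ⟨Finset.mem_univ _, ?_⟩
        simp only [hH', SimpleGraph.comap_adj, hg, Equiv.apply_symm_apply]
        exact hq.2
      · simp only [hg, Equiv.apply_symm_apply]
  have hmR : (0:ℝ) < m := by exact_mod_cast hmpos
  have hden : D < 2 * (H'.edgeSet.ncard : ℝ) / (m : ℝ) := by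
    rw [lt_div_iff₀ hmR]
    rw [hcount, dts_eq] at hlt
    push_cast at hlt
    exact hlt
  obtain ⟨f, hf, P, hP1, hP2⟩ := hD m H' hden
  obtain ⟨f, E, hf, h1, h2⟩ := eimm_of_wimm (hD m H' hden)
  refine ⟨fun i => g (f i), fun i j => (E i j).image (Sym2.map g), hginj.comp hf, ?_, ?_⟩
  · intro i j hij
    obtain ⟨k1, k2⟩ := h1 i j hij
    refine ⟨?_, ?_⟩
    · intro e' he'
      rw [Finset.mem_image] at he'
      obtain ⟨e0, he0, rfl⟩ := he'
      have h3 := k1 e0 he0
      induction e0 using Sym2.ind with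
      | _ a b => exact h3
    · exact conn_map g k2
  · intro i j i' j' hij hij' hne
    rw [Finset.disjoint_image (Sym2.map.injective hginj)]
    exact h2 i j i' j' hij hij' hne

end Pool.Agent.H34.Im
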