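import Pool.Agent.H34.ImCore

/-!
# The main step
-/

namespace Pool.Agent.H34.Im

open Finset Classical

/-- hypotheses on the scaled constants -/
structure CH (k K M Nn J : ℕ) (D ε δ κ : ℝ) : Prop where
  hF : Forces k D
  hD0 : 0 ≤ D
  hε : 0 < ε
  hε1 : ε ≤ 1
  hK : 1 ≤ K
  hM : 8 * K ≤ ε * M
  hNn1 : K * K < Nn
  hNn2 : 8 * D * K < ε * Nn
  hJ1 : 1 ≤ J
  hJ : 48 * K * M ≤ ε * J
  hκ : κ = 1 / (32 * ((K:ℝ) + 2) ^ J)
  hδ : δ = ε / (48 * K * M * (K + 1) * 2 ^ K)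

lemma scales {K J j : ℕ} {κ a : ℝ} (hκ : κ = 1 / (32 * ((K:ℝ) + 2) ^ J)) (hj : j < J)
    (ha : a = 1 / (8 * ((K:ℝ) + 2) ^ (j + 1))) :
    0 < a ∧ 4 * κ ≤ a ∧ (K + 2) * a ≤ 1 / 8 ∧ (K + 2) * a = 1 / (8 * ((K:ℝ) + 2) ^ j) := by
  have hK2 : (1:ℝ) ≤ (K:ℝ) + 2 := by
    have : (0:ℝ) ≤ K := Nat.cast_nonneg _
    linarith
  have hK0 : (0:ℝ) < (K:ℝ) + 2 := by linarith
  have h4 : (K + 2) * a = 1 / (8 * ((K:ℝ) + 2) ^ j) := by
    rw [ha, pow_succ]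
    field_simp
  refine ⟨by rw [ha]; positivity, ?_, ?_, h4⟩
  · rw [hκ, ha]
    have h1 : ((K:ℝ) + 2) ^ (j + 1) ≤ ((K:ℝ) + 2) ^ J := pow_le_pow_right₀ hK2 hj
    have h2 : 4 * (1 / (32 * ((K:ℝ) + 2) ^ J)) = 1 / (8 * ((K:ℝ) + 2) ^ J) := by
      field_simp
      norm_num
    rw [h2]
    apply one_div_le_one_div_of_le (by positivity)
    linarith
  · rw [h4]
    apply one_div_le_one_div_of_le (by norm_num)
    have : (1:ℝ) ≤ ((K:ℝ) + 2) ^ j := one_le_pow₀ hK2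
    linarith

/-- lower bound for the family -/
lemma fam_size {K M w f : ℕ} {ε δ a Y : ℝ} (hε : 0 < ε) (hK : 1 ≤ K) (hM : 1 ≤ M)
    (hδ : δ = ε / (48 * K * M * (K + 1) * 2 ^ K)) (ha : 0 ≤ a * Y)
    (hw : (w:ℝ) ≤ Real.exp (a * Y))
    (h : ε / 16 * Real.exp Y ≤ 3 * K * M * ((K + 1) * ((w : ℝ) + 1) ^ K) * f) :
    δ * Real.exp ((1 - K * a) * Y) ≤ f := by
  have hK0 : (0:ℝ) < K := by exact_mod_cast hK
  have hM0 : (0:ℝ) < M := by exact_mod_cast hM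
  have hf0 : (0:ℝ) ≤ f := Nat.cast_nonneg _
  have h1 : (1:ℝ) ≤ Real.exp (a * Y) := Real.one_le_exp ha
  have h2 : ((w:ℝ) + 1) ^ K ≤ 2 ^ K * Real.exp (K * a * Y) := by
    calc ((w:ℝ) + 1) ^ K ≤ (2 * Real.exp (a * Y)) ^ K := by
          apply pow_le_pow_left₀ (by positivity)
          linarith
      _ = 2 ^ K * Real.exp (K * a * Y) := by
          rw [mul_pow, ← Real.exp_nat_mul]
          congr 2; ring
  have h3 : ε / 16 * Real.exp Y ≤ 3 * K * M * ((K + 1) * (2 ^ K * Real.exp (K * a * Y))) * f := by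
    refine h.trans ?_
    gcongr
  have h4 : Real.exp Y = Real.exp ((1 - K * a) * Y) * Real.exp (K * a * Y) := by
    rw [← Real.exp_add]; congr 1; ring
  have hE : 0 < Real.exp (K * a * Y) := Real.exp_pos _
  rw [h4] at h3
  have h5 : ε / 16 * Real.exp ((1 - K * a) * Y) ≤ 3 * K * M * ((K + 1) * 2 ^ K) * f := by
    have h6 : (ε / 16 * Real.exp ((1 - K * a) * Y)) * Real.exp (K * a * Y) ≤
        (3 * K * M * ((K + 1) * 2 ^ K) * f) * Real.exp (K * a * Y) := by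
      calc (ε / 16 * Real.exp ((1 - K * a) * Y)) * Real.exp (K * a * Y) =
          ε / 16 * (Real.exp ((1 - K * a) * Y) * Real.exp (K * a * Y)) := by ring
        _ ≤ _ := h3
        _ = _ := by ring
    exact le_of_mul_le_mul_right h6 hE
  rw [hδ, div_mul_eq_mul_div, div_le_iff₀ (by positivity)]
  linarith

end Pool.Agent.H34.Im
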