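import Pool.Agent.H34.ImMain

/-!
# The main step, network facts
-/

namespace Pool.Agent.H34.Im

open Finset Classical

/-- the facts on the network -/
structure NF {V : Type} [Fintype V] {U : Type} (N : SimpleGraph V) (G : SimpleGraph U)
    (cl : V → U) (G' : SimpleGraph V) (X : Finset V) (ω : V → ℕ) (V1 : Finset V) (K g0 : ℕ) :
    Prop where
  hV1 : ∀ v, v ∈ V1 ↔ v ∈ X ∧ (X.filter (fun u => cl u = cl v)).card < g0
  hhom : ∀ a b, N.Adj a b → G.Adj (cl a) (cl b)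
  hinj : ∀ a b a' b', N.Adj a b → N.Adj a' b' → cl a = cl a' → cl b = cl b' → a = a' ∧ b = b'
  hdeg : ∀ a, (Finset.univ.filter (fun b => N.Adj a b)).card ≤ K * ω a
  hω1 : ∀ v ∈ V1, ω v = 1
  hωg : ∀ v ∉ V1, ω v = 0 ∨ g0 ≤ ω v
  hwt : wt ω Finset.univ = X.card
  hcut : ∀ Y : Finset V, ∃ Y' ⊆ X, Y'.card = wt ω Y ∧
        crs G' Y' (X \ Y') ≤ bdE N.edgeSet Y ∧ (Y ⊆ V1 → Y' = Y)
  hcls : ∀ v ∈ V1, ∀ w, w ∉ V1 → ω w ≠ 0 → cl v ≠ cl w
  hdts : e2 G' X ≤ dts N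

lemma NF.deg1 {V : Type} [Fintype V] {U : Type} {N : SimpleGraph V} {G : SimpleGraph U}
    {cl : V → U} {G' : SimpleGraph V} {X : Finset V} {ω : V → ℕ} {V1 : Finset V} {K g0 : ℕ}
    (h : NF N G cl G' X ω V1 K g0) : ∀ u ∈ V1, (Finset.univ.filter (fun v => N.Adj u v)).card ≤ K := by
  intro u hu
  have h1 := h.hdeg u
  rw [h.hω1 u hu, mul_one] at h1
  exact h1

lemma NF.bd1 {V : Type} [Fintype V] {U : Type} {N : SimpleGraph V} {G : SimpleGraph U}
    {cl : V → U} {G' : SimpleGraph V} {X : Finset V} {ω : V → ℕ} {V1 : Finset V} {K g0 : ℕ}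
    (h : NF N G cl G' X ω V1 K g0) : ∀ u ∈ V1, bdE N.edgeSet {u} ≤ K := by
  intro u hu
  refine le_trans ?_ (h.deg1 u hu)
  unfold bdE
  apply Finset.card_le_card_of_injOn (fun p => p.2)
  · intro p hp
    rw [Finset.mem_coe, Finset.mem_filter, Finset.mem_product, Finset.mem_singleton] at hp
    rw [Finset.mem_coe, Finset.mem_filter]
    refine ⟨Finset.mem_univ _, ?_⟩
    have h2 := hp.2
    rw [SimpleGraph.mem_edgeSet, hp.1.1] at h2
    exact h2
  · intro p hp p' hp' hpp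
    rw [Finset.mem_coe, Finset.mem_filter, Finset.mem_product, Finset.mem_singleton] at hp hp'
    exact Prod.ext (hp.1.1.trans hp'.1.1.symm) hpp

lemma NF.wt1 {V : Type} [Fintype V] {U : Type} {N : SimpleGraph V} {G : SimpleGraph U}
    {cl : V → U} {G' : SimpleGraph V} {X : Finset V} {ω : V → ℕ} {V1 : Finset V} {K g0 : ℕ}
    (h : NF N G cl G' X ω V1 K g0) : ∀ S ⊆ V1, wt ω S = S.card := by
  intro S hS
  unfold wt
  rw [Finset.sum_congr rfl (fun v hv => h.hω1 v (hS hv))]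
  simp

lemma NF.giants {V : Type} [Fintype V] {U : Type} {N : SimpleGraph V} {G : SimpleGraph U}
    {cl : V → U} {G' : SimpleGraph V} {X : Finset V} {ω : V → ℕ} {V1 : Finset V} {K g0 : ℕ}
    (h : NF N G cl G' X ω V1 K g0) :
    (Finset.univ.filter (fun w => w ∉ V1 ∧ ω w ≠ 0)).card * g0 ≤ X.card := by
  rw [← h.hwt]
  unfold wt
  calc (Finset.univ.filter (fun w => w ∉ V1 ∧ ω w ≠ 0)).card * g0
      = ∑ w ∈ Finset.univ.filter (fun w => w ∉ V1 ∧ ω w ≠ 0), g0 := by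
        rw [Finset.sum_const, smul_eq_mul]
    _ ≤ ∑ w ∈ Finset.univ.filter (fun w => w ∉ V1 ∧ ω w ≠ 0), ω w := by
        apply Finset.sum_le_sum
        intro w hw
        rw [Finset.mem_filter] at hw
        rcases h.hωg w hw.2.1 with h1 | h1
        · exact absurd h1 hw.2.2
        · exact h1
    _ ≤ ∑ w, ω w := Finset.sum_le_sum_of_subset (Finset.subset_univ _)

/-- expansion of the network at large scales -/
lemma NF.exp1 {V : Type} [Fintype V] {U : Type} {N : SimpleGraph V} {G : SimpleGraph U}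
    {cl : V → U} {G' : SimpleGraph V} {X : Finset V} {ω : V → ℕ} {V1 : Finset V} {K g0 : ℕ}
    (h : NF N G cl G' X ω V1 K g0) {ε Y s : ℝ}
    (hx1 : ∀ S ⊆ X, S.Nonempty → ∀ η : ℝ, 0 < η → η ≤ 1 →
        Real.log S.card ≤ (1 - η) * Y → ε * η / 64 * s * S.card ≤ crs G' S (X \ S))
    {η : ℝ} (hη : 0 < η) (hη1 : η ≤ 1) (S : Finset V) (hS : (wt ω S : ℝ) ≤ Real.exp ((1 - η) * Y)) :
    ε * η / 64 * s * wt ω S ≤ bdE N.edgeSet S := by
  obtain ⟨S', hS'X, hS'c, hS'b, -⟩ := h.hcut S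
  rcases Finset.eq_empty_or_nonempty S' with he | hne
  · rw [he, Finset.card_empty] at hS'c
    rw [← hS'c]
    simp
  · have h1 : Real.log S'.card ≤ (1 - η) * Y := by
      have h2 : (0:ℝ) < S'.card := by exact_mod_cast Finset.card_pos.2 hne
      rw [← hS'c] at hS
      calc Real.log S'.card ≤ Real.log (Real.exp ((1 - η) * Y)) := Real.log_le_log h2 hS
        _ = _ := Real.log_exp _
    have h2 := hx1 S' hS'X hne η hη hη1 h1
    rw [hS'c] at h2
    have h3 : (crs G' S' (X \ S') : ℝ) ≤ bdE N.edgeSet S := by exact_mod_cast hS'b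
    linarith

/-- expansion of the network at small scales -/
lemma NF.exp2 {V : Type} [Fintype V] {U : Type} {N : SimpleGraph V} {G : SimpleGraph U}
    {cl : V → U} {G' : SimpleGraph V} {X : Finset V} {ω : V → ℕ} {V1 : Finset V} {K g0 : ℕ}
    (h : NF N G cl G' X ω V1 K g0) {ε Z : ℝ}
    (hx2 : ∀ S ⊆ X, (S.card : ℝ) ≤ Z → ε / 8 * S.card ≤ crs G' S (X \ S))
    (S : Finset V) (hS : (wt ω S : ℝ) ≤ Z) :
    ε / 8 * wt ω S ≤ bdE N.edgeSet S := by
  obtain ⟨S', hS'X, hS'c, hS'b, -⟩ := h.hcut S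
  rw [← hS'c] at hS
  have h2 := hx2 S' hS'X hS
  rw [hS'c] at h2
  have h3 : (crs G' S' (X \ S') : ℝ) ≤ bdE N.edgeSet S := by exact_mod_cast hS'b
  linarith

/-- clusters of the network -/
lemma NF.clusters {V : Type} [Fintype V] {U : Type} {N : SimpleGraph V} {G : SimpleGraph U}
    {cl : V → U} {G' : SimpleGraph V} {X : Finset V} {ω : V → ℕ} {V1 : Finset V} {K g0 : ℕ}
    (h : NF N G cl G' X ω V1 K g0) {M : ℕ} {ε Y s Z q : ℝ} (hε : 0 < ε) (hs : 0 < s)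
    (hM : 8 * K ≤ ε * M) (hMq : (M : ℝ) ≤ q) (hqM : q + M ≤ Real.exp (Y / 2))
    (hq1 : 1 ≤ q) (hZ : 128 * K ≤ ε * s * Z)
    (hx1 : ∀ S ⊆ X, S.Nonempty → ∀ η : ℝ, 0 < η → η ≤ 1 →
        Real.log S.card ≤ (1 - η) * Y → ε * η / 64 * s * S.card ≤ crs G' S (X \ S))
    (hx2 : ∀ S ⊆ X, (S.card : ℝ) ≤ Z → ε / 8 * S.card ≤ crs G' S (X \ S)) :
    ∃ PP : Finset (Finset V),
      (∀ x ∈ PP, x ⊆ V1 ∧ x.Nonempty ∧ x.card ≤ M ∧ bdE N.edgeSet x ≤ K ∧
        ∀ X, x ⊆ X → X ⊆ V1 → (X.card : ℝ) ≤ q + M → bdE N.edgeSet x ≤ bdE N.edgeSet X) ∧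
      (∀ x ∈ PP, ∀ y ∈ PP, x ≠ y → Disjoint x y) ∧ (∀ u ∈ V1, ∃ x ∈ PP, u ∈ x) := by
  have hM0 : (0:ℝ) ≤ M := Nat.cast_nonneg _
  obtain ⟨PP, h1, h2, h3⟩ := Im.clusters N.edgeSet V1 ⌊Real.exp (Y / 2)⌋₊ K M
    (by
      apply Nat.le_floor
      push_cast
      linarith)
    (by
      apply Nat.le_floor
      push_cast
      linarith) h.bd1
    (by
      intro S hSV hSs hSK
      have hSs' : (S.card : ℝ) ≤ Real.exp (Y / 2) :=
        (Nat.cast_le.2 hSs).trans (Nat.floor_le (Real.exp_pos _).le)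
      have hSK' : (bdE N.edgeSet S : ℝ) ≤ K := by exact_mod_cast hSK
      have e0 : wt ω S = S.card := h.wt1 S hSV
      have e1 := h.exp1 hx1 (η := 1 / 2) (by norm_num) (by norm_num) S (by
        rw [e0]
        have : (1 - 1 / 2) * Y = Y / 2 := by ring
        rw [this]; exact hSs')
      rw [e0] at e1
      have e2 : (S.card : ℝ) ≤ Z := by
        have h4 : ε * s * S.card ≤ ε * s * Z := by linarith
        exact le_of_mul_le_mul_left h4 (by positivity)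
      have e3 := h.exp2 hx2 S (by rw [e0]; exact e2)
      rw [e0] at e3
      have e4 : ε * S.card ≤ ε * M := by linarith
      have e5 : (S.card : ℝ) ≤ M := le_of_mul_le_mul_left e4 hε
      exact_mod_cast e5)
  refine ⟨PP, ?_, h2, h3⟩
  intro x hx
  obtain ⟨g1, g2, g3, g4, g5⟩ := h1 x hx
  refine ⟨g1, g2, g3, g4, ?_⟩
  intro S hxS hSV hS
  exact g5 S hxS hSV (Nat.le_floor (hS.trans hqM))

end Pool.Agent.H34.Im
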