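import Pool.Agent.H34.ImMain2

/-!
# The main step
-/

namespace Pool.Agent.H34.Im

open Finset Classical

theorem core_main {U : Type} [Fintype U] (G : SimpleGraph U) {k K M Nn J r1 r : ℕ}
    {D ε δ κ Y l η Λ q Z : ℝ} (hC : CH k K M Nn J D ε δ κ)
    (hPS : PS K M Nn r1 r ε δ κ Y l η Λ q) (hY2 : 2 ≤ Y)
    (hZ : 128 * K ≤ ε * sig Y l * Z) {V : Type} [Fintype V] (cl : V → U)
    (G' : SimpleGraph V) (X : Finset V)
    (hhom : ∀ p q, G'.Adj p q → G.Adj (cl p) (cl q))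
    (hinj : ∀ p q p' q', G'.Adj p q → G'.Adj p' q' → cl p = cl p' → cl q = cl q' →
        p = p' ∧ q = q')
    (hdeg : ∀ p, (Finset.univ.filter (fun q => G'.Adj p q)).card ≤ K)
    (hXne : X.Nonempty) (hXe : (D + ε / 4) * X.card ≤ e2 G' X) (hXY : Real.log X.card = Y)
    (hx1 : ∀ S ⊆ X, S.Nonempty → ∀ η : ℝ, 0 < η → η ≤ 1 →
        Real.log S.card ≤ (1 - η) * Y → ε * η / 64 * sig Y l * S.card ≤ crs G' S (X \ S))
    (hx2 : ∀ S ⊆ X, (S.card : ℝ) ≤ Z → ε / 8 * S.card ≤ crs G' S (X \ S)) :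
    WImmS k G (k + 2 * ((2 * Nn * (K * M + K) + Nn * K * (2 * (Nn * K * r + 1 + r)) : ℕ) : ℝ)) := by
  have hε := hC.hε
  have hε1 := hC.hε1
  have hD0 := hC.hD0
  have hK := hC.hK
  have hK1 : (1:ℝ) ≤ K := by exact_mod_cast hK
  have hσ0 : 0 < sig Y l := sig_pos (by linarith)
  have hMpos : 1 ≤ M := by
    by_contra h
    have : M = 0 := by omega
    have h2 := hC.hM
    rw [this] at h2
    simp at h2
    linarith
  have hXpos : (0:ℝ) < X.card := by exact_mod_cast Finset.card_pos.2 hXne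
  have hmY : (X.card : ℝ) = Real.exp Y := by rw [← hXY, Real.exp_log hXpos]
  -- choice of the gap
  obtain ⟨τ, hτ⟩ : ∃ τ : ℕ → ℝ, ∀ j, τ j = Real.exp ((1 - 1 / (8 * ((K:ℝ) + 2) ^ j)) * Y) :=
    ⟨_, fun _ => rfl⟩
  have hτmono : Monotone τ := by
    intro i j hij
    rw [hτ, hτ]
    apply Real.exp_le_exp.2
    apply mul_le_mul_of_nonneg_right _ (by linarith)
    have h1 : ((K:ℝ) + 2) ^ i ≤ ((K:ℝ) + 2) ^ j := pow_le_pow_right₀ (by linarith) hij
    have h2 : 1 / (8 * ((K:ℝ) + 2) ^ j) ≤ 1 / (8 * ((K:ℝ) + 2) ^ i) :=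
      one_div_le_one_div_of_le (by positivity) (by linarith)
    linarith
  obtain ⟨sz, hsz⟩ : ∃ sz : V → ℕ, ∀ v, sz v = (X.filter (fun u => cl u = cl v)).card :=
    ⟨_, fun _ => rfl⟩
  obtain ⟨j, hj, hIc⟩ := gap X sz J hC.hJ1 τ hτmono
  obtain ⟨a, ha⟩ : ∃ a : ℝ, a = 1 / (8 * ((K:ℝ) + 2) ^ (j + 1)) := ⟨_, rfl⟩
  obtain ⟨ha0, haκ, haK, haj⟩ := scales hC.hκ hj ha
  have hτj : τ j = Real.exp ((1 - (K + 2) * a) * Y) := by rw [hτ, haj]
  have hτj1 : τ (j + 1) = Real.exp ((1 - a) * Y) := by rw [hτ, ha]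
  have ha8 : a ≤ 1 / 24 := by nlinarith
  obtain ⟨I, hI⟩ : ∃ I : Finset V,
    I = X.filter (fun v => τ j ≤ sz v ∧ (sz v : ℝ) < τ (j + 1)) := ⟨_, rfl⟩
  rw [← hI] at hIc
  obtain ⟨g0, hg0⟩ : ∃ g0 : ℕ, g0 = ⌈τ (j + 1)⌉₊ := ⟨_, rfl⟩
  have hτpos : 0 < τ (j + 1) := by rw [hτj1]; exact Real.exp_pos _
  have hg01 : 1 ≤ g0 := by rw [hg0]; exact Nat.one_le_ceil_iff.2 hτpos
  have hg0τ : τ (j + 1) ≤ g0 := by rw [hg0]; exact Nat.le_ceil _
  obtain ⟨N, ω, V1, n1, n2, n3, n4, n5, n6, n7, n8, n9, n10⟩ :=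
    net G G' cl hhom hinj K hdeg X hXne g0 hg01
  have hN : NF N G cl G' X ω V1 K g0 := ⟨n1, n2, n3, n4, n5, n6, n7, n8, n9, n10⟩
  have hqg0 : q ≤ g0 := by
    have h1 : q ≤ Real.exp (Y / 2) := by
      have := hPS.hqM
      have h0 : (0:ℝ) ≤ M := Nat.cast_nonneg _
      linarith
    have h2 : Real.exp (Y / 2) ≤ τ (j + 1) := by
      rw [hτj1]
      apply Real.exp_le_exp.2
      nlinarith
    linarith
  have hNet : NetHyp N ω V1 K M r1 r (Real.exp Y) Λ (ε / 128 * sig Y l) (ε / 128 * η * sig Y l) q := by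
    refine ⟨n4, hK, n5, ?_, ?_, ?_, by positivity, ?_, hPS.hq1, hPS.hg1, hPS.hg2, hPS.hr1,
      hPS.hΛ2, Real.exp_pos _, ?_⟩
    · intro v hv
      rcases n6 v hv with h | h
      · exact Or.inl h
      · right
        have : (g0 : ℝ) ≤ ω v := by exact_mod_cast h
        linarith
    · intro S hS
      have h1 := hN.exp1 hx1 (η := 1 / 2) (by norm_num) (by norm_num) S (by
        have : (1 - 1 / 2) * Y = Y / 2 := by ring
        rw [this]; exact hS.trans hPS.hqM)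
      have e : ε / 128 * sig Y l * (wt ω S : ℝ) = ε * (1 / 2) / 64 * sig Y l * wt ω S := by ring
      rw [e]; exact h1
    · intro S hS
      have h1 := hN.exp1 hx1 (η := η / 2) (by linarith [hPS.hη0]) (by linarith [hPS.hη1]) S
        (hS.trans hPS.hmM)
      have e : ε / 128 * η * sig Y l * (wt ω S : ℝ) = ε * (η / 2) / 64 * sig Y l * wt ω S := by
        ring
      rw [e]; exact h1
    · have := hPS.hη0
      positivity
    · rw [n7]; exact hmY
  obtain ⟨PP, hP1, hP2, hP3⟩ := hN.clusters hε hσ0 hC.hM hPS.hMq hPS.hqM hPS.hq1 hZ hx1 hx2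
  -- giants
  obtain ⟨Wa, hWa⟩ : ∃ Wa : Finset V, Wa = Finset.univ.filter (fun w => w ∉ V1 ∧ ω w ≠ 0) :=
    ⟨_, rfl⟩
  have hWac : (Wa.card : ℝ) ≤ Real.exp (a * Y) := by
    have h1 := hN.giants
    rw [← hWa] at h1
    have h2 : (Wa.card : ℝ) * g0 ≤ X.card := by exact_mod_cast h1
    have h3 : (Wa.card : ℝ) * τ (j + 1) ≤ Real.exp Y := by
      rw [← hmY]
      refine le_trans ?_ h2
      exact mul_le_mul_of_nonneg_left hg0τ (Nat.cast_nonneg _)
    have h4 : Real.exp Y = Real.exp (a * Y) * τ (j + 1) := by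
      rw [hτj1, ← Real.exp_add]; congr 1; ring
    rw [h4] at h3
    exact le_of_mul_le_mul_right h3 hτpos
  have haY : 0 ≤ a * Y := by nlinarith
  have hWa2 : (Wa.card : ℝ) ^ 2 ≤ ε / 16 * Real.exp Y := by
    have h1 : (Wa.card : ℝ) ^ 2 ≤ Real.exp (2 * (a * Y)) := by
      calc (Wa.card : ℝ) ^ 2 ≤ Real.exp (a * Y) ^ 2 :=
            pow_le_pow_left₀ (Nat.cast_nonneg _) hWac 2
        _ = _ := by rw [← Real.exp_nat_mul]; norm_num
    have h2 := hPS.h16
    rw [div_le_iff₀ hε] at h2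
    have h3 : Real.exp (2 * (a * Y)) * 16 ≤ Real.exp (2 * (a * Y)) * (Real.exp (κ * Y) * ε) :=
      mul_le_mul_of_nonneg_left h2 (Real.exp_pos _).le
    have h4 : Real.exp (2 * (a * Y)) * Real.exp (κ * Y) ≤ Real.exp Y := by
      rw [← Real.exp_add]
      apply Real.exp_le_exp.2
      nlinarith
    have h5 : Real.exp (2 * (a * Y)) * (Real.exp (κ * Y) * ε) ≤ Real.exp Y * ε := by
      rw [← mul_assoc]
      exact mul_le_mul_of_nonneg_right h4 hε.le
    linarith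
  have hV1X : V1 ⊆ X := fun v hv => ((n1 v).1 hv).1
  have hV1m : (V1.card : ℝ) ≤ Real.exp Y := by
    rw [← hmY]
    exact_mod_cast Finset.card_le_card hV1X
  have hdts : (D + ε / 4) * Real.exp Y ≤ dts N := by
    rw [← hmY]
    have : (e2 G' X : ℝ) ≤ dts N := by exact_mod_cast n10
    linarith
  have hI2 : 3 * K * M * (I.card : ℝ) ≤ ε / 16 * Real.exp Y := by
    rw [hmY] at hIc
    have hJ := hC.hJ
    have hIc0 : (0:ℝ) ≤ I.card := Nat.cast_nonneg _
    have h1 : 48 * K * M * (I.card : ℝ) ≤ ε * J * I.card := mul_le_mul_of_nonneg_right hJ hIc0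
    have h2 : ε * (I.card * J) ≤ ε * Real.exp Y := mul_le_mul_of_nonneg_left hIc hε.le
    linarith
  obtain ⟨F0, hF0P, b, hbK, Wl, hWl, hWlK, hF0, hF0c⟩ := fam N V1 K M PP
    (fun x hx => ⟨(hP1 x hx).1, (hP1 x hx).2.1, (hP1 x hx).2.2.1, (hP1 x hx).2.2.2.1⟩)
    hP2 hP3 hN.deg1 Wa (by
      intro w hw ⟨u, hu⟩
      rw [hWa, Finset.mem_filter]
      refine ⟨Finset.mem_univ _, hw, ?_⟩
      intro h0
      have h1 := n4 w
      rw [h0, mul_zero, Nat.le_zero, Finset.card_eq_zero] at h1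
      have h2 : u ∈ Finset.univ.filter (fun b => N.Adj w b) :=
        Finset.mem_filter.2 ⟨Finset.mem_univ _, hu⟩
      rw [h1] at h2
      exact absurd h2 (Finset.notMem_empty _)) I D ε (Real.exp Y) hD0 hε hV1m hdts hI2 hWa2
  have hfs : δ * Real.exp ((1 - K * a) * Y) ≤ F0.card :=
    fam_size hε hK hMpos hC.hδ haY hWac hF0c
  have hFam : FamHyp N V1 K M b (Nn * b) r1 r Λ (ε / 128 * η * sig Y l) q F0 := by
    refine ⟨?_, ?_, hPS.hR1 b hbK, hPS.hR2 b hbK, hPS.hR3 b hbK F0.card a haκ haK hfs⟩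
    · intro x hx
      obtain ⟨h1, h2, h3, h4, h5⟩ := hP1 x (hF0P hx)
      exact ⟨h1, h3, h4, h5, (hF0 x hx).1⟩
    · intro x hx y hy hxy
      exact hP2 x (hF0P hx) y (hF0P hy) hxy
  have hbb : b * b < Nn := lt_of_le_of_lt (Nat.mul_le_mul hbK hbK) hC.hNn1
  have hV : Nonempty V := ⟨hXne.choose⟩
  obtain ⟨Xc, col, s, s', LS, l1, l2, l3, l4, l5, l6, l7⟩ := links hNet hFam hbb hV cl
    (B := τ j) (by rw [hτj]; exact (Real.exp_pos _).le) (by
      intro y hy v hv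
      obtain ⟨h1, h2, h3, h4⟩ := hF0 y hy
      have hvI := h4 v hv
      have hvV1 := (hP1 y (hF0P hy)).1 hv
      have hvX := hV1X hvV1
      have hszv : sz v < g0 := by
        rw [hsz]; exact ((n1 v).1 hvV1).2
      have hszv' : (sz v : ℝ) < τ (j + 1) := by
        rw [hg0] at hszv
        exact Nat.lt_ceil.1 hszv
      have hlt : (sz v : ℝ) < τ j := by
        by_contra hcon
        push Not at hcon
        apply hvI
        rw [hI, Finset.mem_filter]
        exact ⟨hvX, hcon, hszv'⟩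
      refine le_trans ?_ hlt.le
      rw [hsz]
      have : (Finset.univ.filter (fun u => (∃ x ∈ F0, u ∈ x) ∧ cl u = cl v)).card ≤
          (X.filter (fun u => cl u = cl v)).card := by
        apply Finset.card_le_card
        intro u hu
        rw [Finset.mem_filter] at hu ⊢
        obtain ⟨-, ⟨x, hx, hux⟩, hcl⟩ := hu
        exact ⟨hV1X ((hP1 x (hF0P hx)).1 hux), hcl⟩
      exact_mod_cast this)
    (hPS.hR4 b hbK F0.card a haκ haK hfs (τ j) (le_of_eq hτj))
  have hXP : ∀ p < 2 * Nn, Xc p ∈ PP := fun p hp => hF0P (l1 p hp)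
  have hNn0 : 0 < Nn := by omega
  have hasm := asm hC.hF N G cl n2 n3 V1 Xc col s s' LS Wl
    (fun p hp p' hp' hne => (l2 p hp p' hp' hne).2)
    (fun p hp u hu w hw huw => (hF0 _ (l1 p hp)).2.1 u hu w hw huw)
    (fun p hp u hu w hw => by
      have hwWa := hWl hw
      rw [hWa, Finset.mem_filter] at hwWa
      exact n9 u ((hP1 _ (hXP p hp)).1 hu) w hwWa.2.1 hwWa.2.2)
    l3 l4 l5 l6 l7 (by
      have h1 : ∀ p ∈ Finset.range (2 * Nn), (D + ε / 16) * ((Xc p).card : ℝ) ≤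
          (((((Xc p) ×ˢ (Xc p)).filter (fun q => N.Adj q.1 q.2)).card +
            2 * (gis N V1 (Xc p)).card + b : ℕ) : ℝ) := by
        intro p hp
        rw [Finset.mem_range] at hp
        obtain ⟨e1, -, e3, -⟩ := hF0 _ (l1 p hp)
        unfold nu at e3
        rw [e1] at e3
        exact e3.le
      have h2 := Finset.sum_le_sum h1
      rw [← Finset.mul_sum] at h2
      have h3 : ((2 * Nn : ℕ) : ℝ) ≤ ∑ p ∈ Finset.range (2 * Nn), ((Xc p).card : ℝ) := by
        have h4 : ∑ p ∈ Finset.range (2 * Nn), (1:ℝ) ≤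
            ∑ p ∈ Finset.range (2 * Nn), ((Xc p).card : ℝ) := by
          apply Finset.sum_le_sum
          intro p hp
          rw [Finset.mem_range] at hp
          exact_mod_cast Finset.card_pos.2 (hP1 _ (hXP p hp)).2.1
        rw [Finset.sum_const, Finset.card_range, nsmul_eq_mul, mul_one] at h4
        exact h4
      have h5 : (Wl.card : ℝ) ≤ K := by exact_mod_cast hWlK
      have h6 := hC.hNn2
      have h7 : D * (Wl.card : ℝ) ≤ D * K := mul_le_mul_of_nonneg_left h5 hD0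
      have h8 : ε / 16 * ((2 * Nn : ℕ) : ℝ) ≤
          ε / 16 * ∑ p ∈ Finset.range (2 * Nn), ((Xc p).card : ℝ) :=
        mul_le_mul_of_nonneg_left h3 (by positivity)
      push_cast at h2 h8 ⊢
      linarith) hD0
  refine hasm.mono ?_
  have h1 : ∀ p ∈ Finset.range (2 * Nn), (((Xc p) ×ˢ (Xc p)).filter (fun q => N.Adj q.1 q.2)).card
      + (gis N V1 (Xc p)).card ≤ K * M + K := by
    intro p hp
    rw [Finset.mem_range] at hp
    have hpP := hXP p hp
    have e1 : (gis N V1 (Xc p)).card ≤ K := by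
      have := (hP1 _ hpP).2.2.2.1
      rw [bdE_cluster N (hP1 _ hpP).1] at this
      omega
    have e2 : (((Xc p) ×ˢ (Xc p)).filter (fun q => N.Adj q.1 q.2)).card ≤ K * M := by
      have h1 : ((Xc p) ×ˢ (Xc p)).filter (fun q => N.Adj q.1 q.2) ⊆
          (Xc p).biUnion
            (fun u => (Finset.univ.filter (fun v => N.Adj u v)).image (fun v => (u, v))) := by
        intro q hq
        rw [Finset.mem_filter, Finset.mem_product] at hq
        rw [Finset.mem_biUnion]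
        refine ⟨q.1, hq.1.1, ?_⟩
        rw [Finset.mem_image]
        exact ⟨q.2, Finset.mem_filter.2 ⟨Finset.mem_univ _, hq.2⟩, rfl⟩
      refine (Finset.card_le_card h1).trans ?_
      refine (Finset.card_biUnion_le_card_mul _ _ K ?_).trans ?_
      · intro u hu
        exact Finset.card_image_le.trans (hN.deg1 u ((hP1 _ hpP).1 hu))
      · rw [mul_comm]
        exact Nat.mul_le_mul_left _ (hP1 _ hpP).2.2.1
    exact Nat.add_le_add e2 e1
  have h2 := Finset.sum_le_sum h1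
  rw [Finset.sum_const, Finset.card_range, smul_eq_mul] at h2
  have h3 : Nn * b * (2 * (Nn * b * r + 1 + r)) ≤ Nn * K * (2 * (Nn * K * r + 1 + r)) := by
    have e1 : Nn * b ≤ Nn * K := Nat.mul_le_mul_left _ hbK
    apply Nat.mul_le_mul e1
    have e2 : Nn * b * r ≤ Nn * K * r := Nat.mul_le_mul_right _ e1
    omega
  have h4 := Nat.add_le_add h2 h3
  have h5 : ((((∑ p ∈ Finset.range (2 * Nn), ((((Xc p) ×ˢ (Xc p)).filter
      (fun q => N.Adj q.1 q.2)).card + (gis N V1 (Xc p)).card)) +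
      Nn * b * (2 * (Nn * b * r + 1 + r)) : ℕ)) : ℝ) ≤
      ((2 * Nn * (K * M + K) + Nn * K * (2 * (Nn * K * r + 1 + r)) : ℕ) : ℝ) := by
    exact_mod_cast h4
  linarith

end Pool.Agent.H34.Im
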