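import Pool.Agent.H34.ImSplit

/-!
# The network with merged giant classes
-/

namespace Pool.Agent.H34.Im

open Finset Classical

theorem net {U V : Type} [Fintype V] (G : SimpleGraph U) (G' : SimpleGraph V) (cl : V → U)
    (hhom : ∀ a b, G'.Adj a b → G.Adj (cl a) (cl b))
    (hinj : ∀ a b a' b', G'.Adj a b → G'.Adj a' b' → cl a = cl a' → cl b = cl b' →
      a = a' ∧ b = b') (K : ℕ)
    (hdeg : ∀ p, (Finset.univ.filter (fun q => G'.Adj p q)).card ≤ K)
    (X : Finset V) (hX : X.Nonempty) (g0 : ℕ) (hg0 : 1 ≤ g0) :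
    ∃ (N : SimpleGraph V) (ω : V → ℕ) (V1 : Finset V),
      (∀ v, v ∈ V1 ↔ v ∈ X ∧ (X.filter (fun u => cl u = cl v)).card < g0) ∧
      (∀ a b, N.Adj a b → G.Adj (cl a) (cl b)) ∧
      (∀ a b a' b', N.Adj a b → N.Adj a' b' → cl a = cl a' → cl b = cl b' → a = a' ∧ b = b') ∧
      (∀ a, (Finset.univ.filter (fun b => N.Adj a b)).card ≤ K * ω a) ∧
      (∀ v ∈ V1, ω v = 1) ∧ (∀ v ∉ V1, ω v = 0 ∨ g0 ≤ ω v) ∧
      wt ω Finset.univ = X.card ∧
      (∀ Y : Finset V, ∃ Y' ⊆ X, Y'.card = wt ω Y ∧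
        crs G' Y' (X \ Y') ≤ bdE N.edgeSet Y ∧ (Y ⊆ V1 → Y' = Y)) ∧
      (∀ v ∈ V1, ∀ w, w ∉ V1 → ω w ≠ 0 → cl v ≠ cl w) ∧
      e2 G' X ≤ dts N := by
  obtain ⟨x0, hx0⟩ := hX
  set gc : U → Prop := fun c => g0 ≤ (X.filter (fun u => cl u = c)).card with hgc
  have hrep : ∀ c, ∃ v, gc c → (v ∈ X ∧ cl v = c) := by
    intro c
    by_cases h : gc c
    · have h1 : (X.filter (fun u => cl u = c)).Nonempty := by
        rw [← Finset.card_pos]
        have : g0 ≤ (X.filter (fun u => cl u = c)).card := h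
        omega
      obtain ⟨v, hv⟩ := h1
      rw [Finset.mem_filter] at hv
      exact ⟨v, fun _ => hv⟩
    · exact ⟨x0, fun h' => absurd h' h⟩
  choose rep hrep using hrep
  set ρ : V → V := fun v => if gc (cl v) then rep (cl v) else v with hρ
  have hρcl : ∀ v, cl (ρ v) = cl v := by
    intro v
    simp only [hρ]
    split_ifs with h
    · exact (hrep _ h).2
    · rfl
  have hρng : ∀ v, ¬ gc (cl v) → ρ v = v := by
    intro v h
    simp only [hρ, if_neg h]
  have hρg : ∀ v, gc (cl v) → ρ v = rep (cl v) := by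
    intro v h
    simp only [hρ, if_pos h]
  have hρX : ∀ v ∈ X, ρ v ∈ X := by
    intro v hv
    simp only [hρ]
    split_ifs with h
    · exact (hrep _ h).1
    · exact hv
  obtain ⟨N, hN⟩ : ∃ N : SimpleGraph V, ∀ a b, N.Adj a b ↔
      ∃ u ∈ X, ∃ v ∈ X, G'.Adj u v ∧ ρ u = a ∧ ρ v = b := by
    refine ⟨
      { Adj := fun a b => ∃ u ∈ X, ∃ v ∈ X, G'.Adj u v ∧ ρ u = a ∧ ρ v = b
        symm := by
          constructor
          rintro a b ⟨u, hu, v, hv, h, h1, h2⟩
          exact ⟨v, hv, u, hu, h.symm, h2, h1⟩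
        loopless := by
          constructor
          rintro a ⟨u, hu, v, hv, h, h1, h2⟩
          apply (hhom u v h).ne
          rw [← hρcl u, ← hρcl v, h1, h2] }, fun a b => Iff.rfl⟩
  set V1 : Finset V := X.filter (fun v => ¬ gc (cl v)) with hV1
  have hV1m : ∀ v, v ∈ V1 ↔ v ∈ X ∧ ¬ gc (cl v) := by
    intro v
    rw [hV1, Finset.mem_filter]
  set ω : V → ℕ := fun a => (X.filter (fun u => ρ u = a)).card with hω
  have hinjN : ∀ a b a' b', N.Adj a b → N.Adj a' b' → cl a = cl a' → cl b = cl b' →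
      a = a' ∧ b = b' := by
    intro a b a' b' h h' hc1 hc2
    rw [hN] at h h'
    obtain ⟨u, hu, v, hv, h1, h2, h3⟩ := h
    obtain ⟨u', hu', v', hv', h1', h2', h3'⟩ := h'
    have e1 : cl u = cl u' := by rw [← hρcl u, ← hρcl u', h2, h2', hc1]
    have e2 : cl v = cl v' := by rw [← hρcl v, ← hρcl v', h3, h3', hc2]
    obtain ⟨e3, e4⟩ := hinj u v u' v' h1 h1' e1 e2
    rw [← h2, ← h2', ← h3, ← h3', e3, e4]
    exact ⟨rfl, rfl⟩
  have hdart : ∀ p ∈ (X ×ˢ X).filter (fun p => G'.Adj p.1 p.2),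
      ∀ p' ∈ (X ×ˢ X).filter (fun p => G'.Adj p.1 p.2),
      (ρ p.1, ρ p.2) = (ρ p'.1, ρ p'.2) → p = p' := by
    intro p hp p' hp' h
    have h1 := (Finset.mem_filter.1 hp).2
    have h2 := (Finset.mem_filter.1 hp').2
    rw [Prod.mk.injEq] at h
    have e1 : cl p.1 = cl p'.1 := by rw [← hρcl p.1, ← hρcl p'.1, h.1]
    have e2 : cl p.2 = cl p'.2 := by rw [← hρcl p.2, ← hρcl p'.2, h.2]
    obtain ⟨e3, e4⟩ := hinj _ _ _ _ h1 h2 e1 e2
    exact Prod.ext e3 e4
  have hbig : ∀ v, v ∉ V1 → ω v ≠ 0 → gc (cl v) ∧ g0 ≤ ω v := by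
    intro v hv h0
    have h1 : (X.filter (fun u => ρ u = v)).Nonempty := Finset.card_ne_zero.1 h0
    obtain ⟨u, hu⟩ := h1
    rw [Finset.mem_filter] at hu
    obtain ⟨huX, huv⟩ := hu
    have hclu : cl u = cl v := by rw [← hρcl u, huv]
    have hgcu : gc (cl u) := by
      by_contra h
      apply hv
      rw [hV1m, ← hclu]
      refine ⟨?_, h⟩
      rw [← huv]; exact hρX u huX
    refine ⟨hclu ▸ hgcu, le_trans hgcu (Finset.card_le_card ?_)⟩
    intro u' hu'
    rw [Finset.mem_filter] at hu' ⊢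
    refine ⟨hu'.1, ?_⟩
    rw [hρg u' (by rw [hu'.2]; exact hgcu), hu'.2, ← hρg u hgcu, huv]
  refine ⟨N, ω, V1, ?_, ?_, hinjN, ?_, ?_, ?_, ?_, ?_, ?_, ?_⟩
  · intro v
    rw [hV1m]
    simp only [hgc, not_le]
  · intro a b h
    rw [hN] at h
    obtain ⟨u, hu, v, hv, h1, h2, h3⟩ := h
    rw [← h2, ← h3, hρcl, hρcl]
    exact hhom u v h1
  · intro a
    have h1 : Finset.univ.filter (fun b => N.Adj a b) ⊆
        (X.filter (fun u => ρ u = a)).biUnion
          (fun u => (Finset.univ.filter (fun q => G'.Adj u q)).image ρ) := by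
      intro b hb
      have h2 := (Finset.mem_filter.1 hb).2
      rw [hN] at h2
      obtain ⟨u, hu, v, hv, h3, h4, h5⟩ := h2
      rw [Finset.mem_biUnion]
      exact ⟨u, Finset.mem_filter.2 ⟨hu, h4⟩, Finset.mem_image.2
        ⟨v, Finset.mem_filter.2 ⟨Finset.mem_univ _, h3⟩, h5⟩⟩
    refine (Finset.card_le_card h1).trans ?_
    refine (Finset.card_biUnion_le_card_mul _ _ K ?_).trans (le_of_eq (Nat.mul_comm _ _))
    intro u _
    exact Finset.card_image_le.trans (hdeg u)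
  · intro v hv
    rw [hV1m] at hv
    have h1 : X.filter (fun u => ρ u = v) = {v} := by
      ext u
      rw [Finset.mem_filter, Finset.mem_singleton]
      constructor
      · rintro ⟨h1, h2⟩
        have h3 : cl u = cl v := by rw [← hρcl u, h2]
        rw [hρng u (by rw [h3]; exact hv.2)] at h2
        exact h2
      · rintro rfl
        exact ⟨hv.1, hρng u hv.2⟩
    simp only [hω, h1, Finset.card_singleton]
  · intro v hv
    by_cases h0 : ω v = 0
    · exact Or.inl h0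
    · exact Or.inr (hbig v hv h0).2
  · unfold wt
    simp only [hω]
    exact (Finset.card_eq_sum_card_fiberwise (f := ρ) (t := Finset.univ)
      (fun x _ => Finset.mem_univ _)).symm
  · intro Y
    refine ⟨X.filter (fun u => ρ u ∈ Y), Finset.filter_subset _ _, ?_, ?_, ?_⟩
    · unfold wt
      simp only [hω]
      rw [Finset.card_eq_sum_card_fiberwise (s := X.filter (fun u => ρ u ∈ Y)) (f := ρ) (t := Y)
        (fun x hx => (Finset.mem_filter.1 (Finset.mem_coe.1 hx)).2)]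
      refine Finset.sum_congr rfl (fun a ha => ?_)
      congr 1
      ext u
      rw [Finset.mem_filter, Finset.mem_filter, Finset.mem_filter]
      constructor
      · rintro ⟨⟨h1, -⟩, h2⟩; exact ⟨h1, h2⟩
      · rintro ⟨h1, h2⟩; exact ⟨⟨h1, by rw [h2]; exact ha⟩, h2⟩
    · unfold crs bdE
      apply Finset.card_le_card_of_injOn (fun p => (ρ p.1, ρ p.2))
      · intro p hp
        rw [Finset.mem_coe, Finset.mem_filter, Finset.mem_product, Finset.mem_filter,
          Finset.mem_sdiff, Finset.mem_filter] at hp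
        obtain ⟨⟨⟨h1, h2⟩, h3, h4⟩, h5⟩ := hp
        rw [Finset.mem_coe, Finset.mem_filter, Finset.mem_product, Finset.mem_compl]
        refine ⟨⟨h2, fun h6 => h4 ⟨h3, h6⟩⟩, ?_⟩
        rw [SimpleGraph.mem_edgeSet, hN]
        exact ⟨p.1, h1, p.2, h3, h5, rfl, rfl⟩
      · intro p hp p' hp' h
        rw [Finset.mem_coe, Finset.mem_filter, Finset.mem_product, Finset.mem_filter,
          Finset.mem_sdiff, Finset.mem_filter] at hp hp'
        exact hdart p (Finset.mem_filter.2 ⟨Finset.mem_product.2 ⟨hp.1.1.1, hp.1.2.1⟩, hp.2⟩)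
          p' (Finset.mem_filter.2 ⟨Finset.mem_product.2 ⟨hp'.1.1.1, hp'.1.2.1⟩, hp'.2⟩) h
    · intro hY
      ext u
      rw [Finset.mem_filter]
      constructor
      · rintro ⟨h1, h2⟩
        have h3 := (hV1m _).1 (hY h2)
        rw [hρcl] at h3
        rw [hρng u h3.2] at h2
        exact h2
      · intro h1
        have h3 := (hV1m _).1 (hY h1)
        refine ⟨h3.1, ?_⟩
        rw [hρng u h3.2]; exact h1
  · intro v hv w hw h0 h
    rw [hV1m] at hv
    apply hv.2
    rw [h]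
    exact (hbig w hw h0).1
  · unfold e2 dts
    apply Finset.card_le_card_of_injOn (fun p => (ρ p.1, ρ p.2))
    · intro p hp
      rw [Finset.mem_coe, Finset.mem_filter, Finset.mem_product] at hp
      rw [Finset.mem_coe, Finset.mem_filter]
      refine ⟨Finset.mem_univ _, ?_⟩
      rw [hN]
      exact ⟨p.1, hp.1.1, p.2, hp.1.2, hp.2, rfl, rfl⟩
    · intro p hp p' hp' h
      exact hdart p (Finset.mem_coe.1 hp) p' (Finset.mem_coe.1 hp') h

end Pool.Agent.H34.Im
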