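import Mathlib

/-!
# Parameters
-/

namespace Pool.Agent.H34.Im

open Real

lemma exp_half_le {x : ℝ} (h0 : 0 ≤ x) (h1 : x ≤ 1) : exp (x / 2) ≤ 1 + x := by
  have h2 : 1 - x / 2 ≤ exp (-(x / 2)) := by
    have := add_one_le_exp (-(x / 2))
    linarith
  have h3 : 0 < 1 - x / 2 := by linarith
  have h4 : exp (x / 2) * exp (-(x / 2)) = 1 := by rw [← exp_add]; simp
  have h5 : 0 < exp (x / 2) := exp_pos _
  have h6 : exp (x / 2) * (1 - x / 2) ≤ 1 := by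
    calc exp (x / 2) * (1 - x / 2) ≤ exp (x / 2) * exp (-(x / 2)) :=
          mul_le_mul_of_nonneg_left h2 h5.le
      _ = 1 := h4
  have h7 : 1 ≤ (1 + x) * (1 - x / 2) := by nlinarith
  have h8 : exp (x / 2) * (1 - x / 2) ≤ (1 + x) * (1 - x / 2) := h6.trans h7
  exact le_of_mul_le_mul_right h8 h3

lemma exp_le_pow {x t : ℝ} {n : ℕ} (h0 : 0 ≤ x) (h1 : x ≤ 1) (h : t ≤ n * (x / 2)) :
    exp t ≤ (1 + x) ^ n := by
  calc exp t ≤ exp (n * (x / 2)) := exp_le_exp.2 h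
    _ = exp (x / 2) ^ n := by rw [exp_nat_mul]
    _ ≤ (1 + x) ^ n := pow_le_pow_left₀ (exp_pos _).le (exp_half_le h0 h1) n

/-- the basic quantities -/
noncomputable def sig (Y l : ℝ) : ℝ := √(Y / l) + 1 / √(1 + Y)

lemma sig_pos {Y l : ℝ} (hY : 1 ≤ Y) : 0 < sig Y l := by
  unfold sig
  have : 0 < √(1 + Y) := Real.sqrt_pos.2 (by linarith)
  positivity

lemma sig_le {Y l : ℝ} (hY : 1 ≤ Y) (hl : Y ≤ l) : sig Y l ≤ 2 := by
  unfold sig
  have h1 : √(Y / l) ≤ 1 := by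
    rw [Real.sqrt_le_one, div_le_one (by linarith)]
    exact hl
  have h2 : 1 ≤ √(1 + Y) := by
    rw [Real.one_le_sqrt]; linarith
  have h3 : 1 / √(1 + Y) ≤ 1 := by
    rw [div_le_one (by linarith)]; exact h2
  linarith

lemma sig_sq1 {Y l : ℝ} (hY : 1 ≤ Y) : 1 ≤ 2 * Y * sig Y l ^ 2 := by
  have h1 : 0 < √(1 + Y) := Real.sqrt_pos.2 (by linarith)
  have h2 : 1 / √(1 + Y) ≤ sig Y l := by
    unfold sig
    have := Real.sqrt_nonneg (Y / l)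
    linarith
  have h3 : (1 / √(1 + Y)) ^ 2 ≤ sig Y l ^ 2 := pow_le_pow_left₀ (by positivity) h2 2
  rw [div_pow, Real.sq_sqrt (by linarith), one_pow, div_le_iff₀ (by linarith)] at h3
  have h4 : 0 ≤ sig Y l ^ 2 := by positivity
  nlinarith

lemma sig_sq2 {Y l : ℝ} (hY : 1 ≤ Y) (hl : Y ≤ l) : Y ≤ l * sig Y l ^ 2 := by
  have h1 : 0 < √(1 + Y) := Real.sqrt_pos.2 (by linarith)
  have h2 : √(Y / l) ≤ sig Y l := by
    unfold sig
    have : 0 < 1 / √(1 + Y) := by positivity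
    linarith
  have h3 : √(Y / l) ^ 2 ≤ sig Y l ^ 2 := pow_le_pow_left₀ (Real.sqrt_nonneg _) h2 2
  have hl0 : 0 < l := by linarith
  rw [Real.sq_sqrt (by positivity), div_le_iff₀ hl0] at h3
  linarith

lemma lam_big {θ P Y l : ℝ} (hθ : 0 < θ) (hY : 1 ≤ Y)
    (hY0 : P * 2 ^ 7 * (Nat.factorial 14 : ℝ) / θ ^ 14 ≤ Y) :
    P * Y ^ 6 ≤ exp (θ * sig Y l * Y) := by
  have hs := sig_pos (l := l) hY
  have h1 : (θ * sig Y l * Y) ^ 14 / (Nat.factorial 14 : ℝ) ≤ exp (θ * sig Y l * Y) :=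
    Real.pow_div_factorial_le_exp _ (by positivity) 14
  refine le_trans ?_ h1
  have hf : (0:ℝ) < (Nat.factorial 14 : ℝ) := by exact_mod_cast Nat.factorial_pos 14
  rw [le_div_iff₀ hf]
  have h2 : Y / 2 ≤ (sig Y l * Y) ^ 2 := by
    have := sig_sq1 (l := l) hY
    nlinarith
  have h3 : (Y / 2) ^ 7 ≤ ((sig Y l * Y) ^ 2) ^ 7 := pow_le_pow_left₀ (by positivity) h2 7
  rw [div_le_iff₀ (by positivity)] at hY0
  calc P * Y ^ 6 * (Nat.factorial 14 : ℝ) = (P * 2 ^ 7 * (Nat.factorial 14 : ℝ)) * (Y ^ 6 / 2 ^ 7) := by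
        ring
    _ ≤ (Y * θ ^ 14) * (Y ^ 6 / 2 ^ 7) := mul_le_mul_of_nonneg_right hY0 (by positivity)
    _ = θ ^ 14 * (Y / 2) ^ 7 := by ring
    _ ≤ θ ^ 14 * ((sig Y l * Y) ^ 2) ^ 7 := mul_le_mul_of_nonneg_left h3 (by positivity)
    _ = (θ * sig Y l * Y) ^ 14 := by ring

/-- the inequalities for a family, given the basic growth bounds -/
lemma fam_ineq {T T0 g Nn M K r r1 : ℕ} {Λ Y κ δ A P : ℝ} (hT : T ≤ T0) (hg : g = T0 * (2 * T0 + 4))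
    (hNn : 1 ≤ Nn) (hY : 1 ≤ Y) (hA : 0 ≤ A) (hr : (r : ℝ) + 1 ≤ A * Y ^ 2)
    (hΛ1 : 1 ≤ Λ) (hP : P * Y ^ 6 ≤ Λ) (hQ : Λ ^ (g + 2 * T0 + 4) ≤ exp (κ * Y))
    (hδ : 0 < δ) (hκ : 0 < κ) (hκ1 : κ ≤ 1 / 32)
    (hr1 : ((K : ℝ) + 1) ^ r1 ≤ exp K * exp (Y / 16))
    (hP0 : 0 ≤ P)
    (hP1 : 4 * A ^ 2 * exp K ≤ P * δ)
    (hP2 : 8 * (2 * Nn) * (T0 * A + M * K) * T0 * (Nn : ℝ) ^ T0 ≤ P)
    (hP3 : 4 * (2 * Nn) * (1 + 2 * T0 * A + M * K) * (Nn : ℝ) ^ T0 ≤ P * δ)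
    (hP4 : 4 * (2 * Nn) * M * (Nn : ℝ) ^ T0 ≤ P * δ)
    {f a : ℝ} (ha : 4 * κ ≤ a) (hKa : (K + 2) * a ≤ 1 / 8) (hf : δ * exp ((1 - K * a) * Y) ≤ f) :
    4 * ((r : ℝ) + 1) ^ 2 * Λ ^ (T * (2 * T + 4)) * (K + 1) ^ r1 * Λ ^ (2 * T + 1) ≤ f ∧
    ∀ B : ℝ, B ≤ exp ((1 - (K + 2) * a) * Y) →
      (2 * Nn : ℕ) * (1 + ((T : ℝ) * r + M * K) * ((T : ℝ) * (2 * (f / Λ ^ (2 * T + 4))))
        + 2 * ((T : ℝ) * r) + M * K + M * B) < f / Λ ^ (2 * T) / (Nn : ℝ) ^ T := by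
  have hΛ0 : 0 < Λ := by linarith
  have hTg : T * (2 * T + 4) ≤ g := by
    rw [hg]; exact Nat.mul_le_mul hT (by omega)
  have hr0 : (0:ℝ) ≤ r := Nat.cast_nonneg _
  have hY0 : 0 < Y := by linarith
  have ha0 : 0 < a := by linarith
  have hK0 : (0:ℝ) ≤ K := Nat.cast_nonneg _
  have hM0 : (0:ℝ) ≤ M := Nat.cast_nonneg _
  have hT0 : (0:ℝ) ≤ T := Nat.cast_nonneg _
  have hTT : (T:ℝ) ≤ T0 := by exact_mod_cast hT
  have hNn1 : (1:ℝ) ≤ Nn := by exact_mod_cast hNn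
  have hKa0 : 0 ≤ K * a := by positivity
  have hKa2 : K * a ≤ 1 / 8 := by nlinarith
  have hpow : ∀ n ≤ g + 2 * T0 + 4, Λ ^ n ≤ exp (κ * Y) := fun n hn =>
    (pow_le_pow_right₀ hΛ1 hn).trans hQ
  have hY26 : Y ^ 2 ≤ Y ^ 6 := pow_le_pow_right₀ hY (by norm_num)
  have hY46 : Y ^ 4 ≤ Y ^ 6 := pow_le_pow_right₀ hY (by norm_num)
  have hr2 : ((r:ℝ) + 1) ^ 2 ≤ A ^ 2 * Y ^ 4 := by
    calc ((r:ℝ) + 1) ^ 2 ≤ (A * Y ^ 2) ^ 2 := pow_le_pow_left₀ (by positivity) hr 2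
      _ = _ := by ring
  have hfpos : 0 < f := lt_of_lt_of_le (by positivity) hf
  constructor
  · have e1 : 4 * ((r : ℝ) + 1) ^ 2 * exp K ≤ δ * Λ := by
      calc 4 * ((r : ℝ) + 1) ^ 2 * exp K ≤ 4 * (A ^ 2 * Y ^ 4) * exp K := by
            have := exp_pos (K:ℝ)
            gcongr
        _ = (4 * A ^ 2 * exp K) * Y ^ 4 := by ring
        _ ≤ (P * δ) * Y ^ 6 := by
            apply mul_le_mul hP1 hY46 (by positivity) (by positivity)
        _ = δ * (P * Y ^ 6) := by ring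
        _ ≤ δ * Λ := by gcongr
    calc 4 * ((r : ℝ) + 1) ^ 2 * Λ ^ (T * (2 * T + 4)) * (K + 1) ^ r1 * Λ ^ (2 * T + 1)
        ≤ 4 * ((r : ℝ) + 1) ^ 2 * Λ ^ g * (exp K * exp (Y / 16)) * Λ ^ (2 * T0 + 1) := by
          have h1 : Λ ^ (T * (2 * T + 4)) ≤ Λ ^ g := pow_le_pow_right₀ hΛ1 hTg
          have h2 : Λ ^ (2 * T + 1) ≤ Λ ^ (2 * T0 + 1) := pow_le_pow_right₀ hΛ1 (by omega)
          gcongr
      _ = (4 * ((r : ℝ) + 1) ^ 2 * exp K) * (Λ ^ (g + (2 * T0 + 1)) * exp (Y / 16)) := by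
          rw [pow_add]; ring
      _ ≤ (δ * Λ) * (Λ ^ (g + (2 * T0 + 1)) * exp (Y / 16)) := by gcongr
      _ = δ * (Λ ^ (g + (2 * T0 + 1) + 1) * exp (Y / 16)) := by rw [pow_succ]; ring
      _ ≤ δ * (exp (κ * Y) * exp (Y / 16)) := by
          have := hpow (g + (2 * T0 + 1) + 1) (by omega)
          gcongr
      _ = δ * exp (κ * Y + Y / 16) := by rw [exp_add]
      _ ≤ δ * exp ((1 - K * a) * Y) := by
          have : κ * Y + Y / 16 ≤ (1 - K * a) * Y := by nlinarith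
          gcongr
      _ ≤ f := hf
  · intro B hB
    set c : ℝ := 2 * Nn with hc
    have hcc : ((2 * Nn : ℕ) : ℝ) = c := by rw [hc]; push_cast; ring
    have hc0 : 0 < c := by rw [hc]; positivity
    set R := f / Λ ^ (2 * T) / (Nn : ℝ) ^ T with hR
    have hNT : (0:ℝ) < (Nn : ℝ) ^ T := by positivity
    have hRpos : 0 < R := by rw [hR]; positivity
    have hNTT : (Nn : ℝ) ^ T ≤ (Nn : ℝ) ^ T0 := pow_le_pow_right₀ hNn1 hT
    have hfR : f / Λ ^ (2 * T + 4) = R * (Nn : ℝ) ^ T / Λ ^ 4 := by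
      rw [hR, pow_add]
      field_simp
    have hrr : (r:ℝ) ≤ A * Y ^ 2 := by linarith
    have hY1 : 1 ≤ Y ^ 2 := one_le_pow₀ hY
    have hTr : (T:ℝ) * r ≤ T0 * A * Y ^ 2 := by
      calc (T:ℝ) * r ≤ T0 * (A * Y ^ 2) := by gcongr
        _ = _ := by ring
    have hMKY : (M:ℝ) * K ≤ M * K * Y ^ 2 := by
      have : 0 ≤ (M:ℝ) * K := by positivity
      nlinarith
    -- R lower bound
    have hRlow : ∀ z : ℝ, 0 ≤ z → z * (Nn : ℝ) ^ T0 * Λ ^ (2 * T0) ≤ f → z ≤ R := by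
      intro z hz h
      rw [hR, div_div, le_div_iff₀ (by positivity)]
      refine le_trans ?_ h
      calc z * (Λ ^ (2 * T) * (Nn : ℝ) ^ T) ≤ z * (Λ ^ (2 * T0) * (Nn : ℝ) ^ T0) := by
            have : Λ ^ (2 * T) ≤ Λ ^ (2 * T0) := pow_le_pow_right₀ hΛ1 (by omega)
            gcongr
        _ = _ := by ring
    have t3 : c * (((T : ℝ) * r + M * K) * ((T : ℝ) * (2 * (f / Λ ^ (2 * T + 4))))) ≤ R / 4 := by
      rw [hfR]
      have h1 : 8 * c * ((T:ℝ) * r + M * K) * T * (Nn : ℝ) ^ T ≤ Λ ^ 4 := by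
        calc 8 * c * ((T:ℝ) * r + M * K) * T * (Nn : ℝ) ^ T
            ≤ 8 * c * ((T0 * A + M * K) * Y ^ 2) * T0 * (Nn : ℝ) ^ T0 := by
              have : (T:ℝ) * r + M * K ≤ (T0 * A + M * K) * Y ^ 2 := by linarith
              gcongr
          _ = (8 * c * (T0 * A + M * K) * T0 * (Nn : ℝ) ^ T0) * Y ^ 2 := by ring
          _ ≤ P * Y ^ 6 := mul_le_mul hP2 hY26 (by positivity) hP0
          _ ≤ Λ := hP
          _ = Λ ^ 1 := (pow_one _).symm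
          _ ≤ Λ ^ 4 := pow_le_pow_right₀ hΛ1 (by norm_num)
      have h2 : c * (((T : ℝ) * r + M * K) * ((T : ℝ) * (2 * (R * (Nn : ℝ) ^ T / Λ ^ 4)))) =
          (8 * c * ((T:ℝ) * r + M * K) * T * (Nn : ℝ) ^ T) * (R / 4 / Λ ^ 4) := by
        field_simp
        ring
      rw [h2]
      calc (8 * c * ((T:ℝ) * r + M * K) * T * (Nn : ℝ) ^ T) * (R / 4 / Λ ^ 4)
          ≤ Λ ^ 4 * (R / 4 / Λ ^ 4) := mul_le_mul_of_nonneg_right h1 (by positivity)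
        _ = R / 4 := by field_simp
    have t1 : c * (1 + 2 * ((T : ℝ) * r) + M * K) ≤ R / 4 := by
      rw [le_div_iff₀ (by norm_num : (0:ℝ) < 4)]
      apply hRlow _ (by positivity)
      calc c * (1 + 2 * ((T : ℝ) * r) + M * K) * 4 * (Nn : ℝ) ^ T0 * Λ ^ (2 * T0)
          ≤ c * ((1 + 2 * T0 * A + M * K) * Y ^ 2) * 4 * (Nn : ℝ) ^ T0 * Λ ^ (2 * T0) := by
            have : 1 + 2 * ((T : ℝ) * r) + M * K ≤ (1 + 2 * T0 * A + M * K) * Y ^ 2 := by linarith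
            gcongr
        _ = (4 * c * (1 + 2 * T0 * A + M * K) * (Nn : ℝ) ^ T0) * Y ^ 2 * Λ ^ (2 * T0) := by ring
        _ ≤ (P * δ) * Y ^ 6 * Λ ^ (2 * T0) := by
            have := mul_le_mul hP3 hY26 (by positivity) (by positivity)
            exact mul_le_mul_of_nonneg_right this (by positivity)
        _ = δ * ((P * Y ^ 6) * Λ ^ (2 * T0)) := by ring
        _ ≤ δ * (Λ * Λ ^ (2 * T0)) := by gcongr
        _ = δ * Λ ^ (2 * T0 + 1) := by rw [pow_succ]; ring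
        _ ≤ δ * exp (κ * Y) := by
            have := hpow (2 * T0 + 1) (by omega)
            gcongr
        _ ≤ δ * exp ((1 - K * a) * Y) := by
            have : κ * Y ≤ (1 - K * a) * Y := by nlinarith
            gcongr
        _ ≤ f := hf
    have t5 : c * (M * B) ≤ R / 4 := by
      rw [le_div_iff₀ (by norm_num : (0:ℝ) < 4)]
      have hB' : c * (M * B) * 4 ≤ c * (M * exp ((1 - (K + 2) * a) * Y)) * 4 := by gcongr
      refine hB'.trans ?_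
      apply hRlow _ (by positivity)
      calc c * (M * exp ((1 - (K + 2) * a) * Y)) * 4 * (Nn : ℝ) ^ T0 * Λ ^ (2 * T0)
          = (4 * c * M * (Nn : ℝ) ^ T0) * 1 * Λ ^ (2 * T0) * exp ((1 - (K + 2) * a) * Y) := by ring
        _ ≤ (P * δ) * Y ^ 6 * Λ ^ (2 * T0) * exp ((1 - (K + 2) * a) * Y) := by
            have h1 : (1:ℝ) ≤ Y ^ 6 := one_le_pow₀ hY
            have := mul_le_mul hP4 h1 (by norm_num) (by positivity)
            exact mul_le_mul_of_nonneg_right (mul_le_mul_of_nonneg_right this (by positivity))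
              (by positivity)
        _ = δ * ((P * Y ^ 6) * Λ ^ (2 * T0) * exp ((1 - (K + 2) * a) * Y)) := by ring
        _ ≤ δ * (Λ * Λ ^ (2 * T0) * exp ((1 - (K + 2) * a) * Y)) := by gcongr
        _ = δ * (Λ ^ (2 * T0 + 1) * exp ((1 - (K + 2) * a) * Y)) := by rw [pow_succ]; ring
        _ ≤ δ * (exp (κ * Y) * exp ((1 - (K + 2) * a) * Y)) := by
            have := hpow (2 * T0 + 1) (by omega)
            gcongr
        _ = δ * exp (κ * Y + (1 - (K + 2) * a) * Y) := by rw [exp_add]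
        _ ≤ δ * exp ((1 - K * a) * Y) := by
            have : κ * Y + (1 - (K + 2) * a) * Y ≤ (1 - K * a) * Y := by nlinarith
            gcongr
        _ ≤ f := hf
    rw [hcc]
    have e : c * (1 + ((T : ℝ) * r + M * K) * ((T : ℝ) * (2 * (f / Λ ^ (2 * T + 4))))
        + 2 * ((T : ℝ) * r) + M * K + M * B) =
        c * (((T : ℝ) * r + M * K) * ((T : ℝ) * (2 * (f / Λ ^ (2 * T + 4))))) +
        c * (1 + 2 * ((T : ℝ) * r) + M * K) + c * (M * B) := by ring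
    rw [e]
    linarith

end Pool.Agent.H34.Im
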