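import Pool.Agent.H34.ImParam

/-!
# Choice of parameters
-/

namespace Pool.Agent.H34.Im

open Real

/-- the constants -/
structure PC (K M Nn T0 g : ℕ) (ε δ κ θ C1 C2 A P : ℝ) : Prop where
  hT0 : T0 = Nn * K
  hg : g = T0 * (2 * T0 + 4)
  hC1 : C1 * ε = 512 * K * (K + 1) * (g + 1)
  hC10 : 0 < C1
  hθ0 : 0 < θ
  hθ4 : θ ≤ 1 / 4
  hθQ : 2 * ((g + 2 * T0 + 4 : ℕ) : ℝ) * θ ≤ κ
  hθC : C1 * θ * K ≤ 1 / 16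
  hC2 : C2 * (ε * θ) = 1024 * K
  hC20 : 0 < C2
  hA : A = C1 * θ + 2 * C2 + 3
  hA0 : 0 < A
  hP4 : 4 ≤ P
  hPM : (M : ℝ) ≤ P
  hP1 : 8 * T0 * A ^ 2 ≤ P
  hP2 : 512 * (K + T0 * A ^ 2) ≤ P * (ε * θ)
  hP3 : 4 * A ^ 2 * exp K ≤ P * δ
  hP5 : 8 * (2 * Nn) * (T0 * A + M * K) * T0 * (Nn : ℝ) ^ T0 ≤ P
  hP6 : 4 * (2 * Nn) * (1 + 2 * T0 * A + M * K) * (Nn : ℝ) ^ T0 ≤ P * δ
  hP7 : 4 * (2 * Nn) * M * (Nn : ℝ) ^ T0 ≤ P * δ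
  hP8 : 16 / ε ≤ P

lemma exists_PC (K M Nn : ℕ) (hK : 1 ≤ K) (ε δ κ : ℝ)
    (hε : 0 < ε) (hδ : 0 < δ) (hκ : 0 < κ) (hκ1 : κ ≤ 1 / 32) :
    ∃ (T0 g : ℕ) (θ C1 C2 A P : ℝ), PC K M Nn T0 g ε δ κ θ C1 C2 A P := by
  obtain ⟨T0, hT0⟩ : ∃ T0 : ℕ, T0 = Nn * K := ⟨_, rfl⟩
  obtain ⟨g, hg⟩ : ∃ g : ℕ, g = T0 * (2 * T0 + 4) := ⟨_, rfl⟩
  obtain ⟨Q, hQ⟩ : ∃ Q : ℕ, Q = g + 2 * T0 + 4 := ⟨_, rfl⟩
  have hK1 : (1:ℝ) ≤ K := by exact_mod_cast hK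
  have hK0 : (0:ℝ) < K := by linarith
  obtain ⟨C1, hC1⟩ : ∃ C1 : ℝ, C1 = 512 * K * (K + 1) * (g + 1) / ε := ⟨_, rfl⟩
  have hC10 : 0 < C1 := by rw [hC1]; positivity
  obtain ⟨Th, hTh⟩ : ∃ Th : ℝ, Th = 2 * Q + 16 * C1 * K + 4 := ⟨_, rfl⟩
  have hQ0 : (0:ℝ) ≤ Q := Nat.cast_nonneg _
  have hCK : 0 < 16 * C1 * K := by positivity
  have hTh0 : 4 ≤ Th := by linarith
  obtain ⟨θ, hθ⟩ : ∃ θ : ℝ, θ = κ / Th := ⟨_, rfl⟩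
  have hθ0 : 0 < θ := by rw [hθ]; positivity
  have hθTh : Th * θ = κ := by rw [hθ]; field_simp
  have hθQ : 2 * Q * θ ≤ κ := by
    rw [← hθTh]
    apply mul_le_mul_of_nonneg_right _ hθ0.le
    linarith
  have hθC : C1 * θ * K ≤ 1 / 16 := by
    have h2 : 16 * C1 * K * θ ≤ κ := by
      rw [← hθTh]
      apply mul_le_mul_of_nonneg_right _ hθ0.le
      linarith
    have h3 : C1 * θ * K = (16 * C1 * K * θ) / 16 := by ring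
    rw [h3]; linarith
  have hθ4 : θ ≤ 1 / 4 := by
    have h1 : 4 * θ ≤ κ := by
      rw [← hθTh]
      exact mul_le_mul_of_nonneg_right hTh0 hθ0.le
    linarith
  obtain ⟨C2, hC2⟩ : ∃ C2 : ℝ, C2 = 1024 * K / (ε * θ) := ⟨_, rfl⟩
  have hC20 : 0 < C2 := by rw [hC2]; positivity
  obtain ⟨A, hA⟩ : ∃ A : ℝ, A = C1 * θ + 2 * C2 + 3 := ⟨_, rfl⟩
  have hA0 : 0 < A := by rw [hA]; positivity
  obtain ⟨x1, e1⟩ : ∃ x : ℝ, x = 8 * T0 * A ^ 2 := ⟨_, rfl⟩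
  obtain ⟨x2, e2⟩ : ∃ x : ℝ, x = 512 * (K + T0 * A ^ 2) / (ε * θ) := ⟨_, rfl⟩
  obtain ⟨x3, e3⟩ : ∃ x : ℝ, x = 4 * A ^ 2 * exp K / δ := ⟨_, rfl⟩
  obtain ⟨x4, e4⟩ : ∃ x : ℝ, x = 8 * (2 * Nn) * (T0 * A + M * K) * T0 * (Nn : ℝ) ^ T0 := ⟨_, rfl⟩
  obtain ⟨x5, e5⟩ : ∃ x : ℝ, x = 4 * (2 * Nn) * (1 + 2 * T0 * A + M * K) * (Nn : ℝ) ^ T0 / δ :=
    ⟨_, rfl⟩
  obtain ⟨x6, e6⟩ : ∃ x : ℝ, x = 4 * (2 * Nn) * M * (Nn : ℝ) ^ T0 / δ := ⟨_, rfl⟩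
  obtain ⟨x7, e7⟩ : ∃ x : ℝ, x = 16 / ε := ⟨_, rfl⟩
  have p0 : (0:ℝ) ≤ M := Nat.cast_nonneg _
  have p1 : (0:ℝ) ≤ x1 := by rw [e1]; positivity
  have p2 : (0:ℝ) ≤ x2 := by rw [e2]; positivity
  have p3 : (0:ℝ) ≤ x3 := by rw [e3]; positivity
  have p4 : (0:ℝ) ≤ x4 := by rw [e4]; positivity
  have p5 : (0:ℝ) ≤ x5 := by rw [e5]; positivity
  have p6 : (0:ℝ) ≤ x6 := by rw [e6]; positivity
  have p7 : (0:ℝ) ≤ x7 := by rw [e7]; positivity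
  obtain ⟨P, hP⟩ : ∃ P : ℝ, P = 4 + M + x1 + x2 + x3 + x4 + x5 + x6 + x7 := ⟨_, rfl⟩
  refine ⟨T0, g, θ, C1, C2, A, P, ⟨hT0, hg, ?_, hC10, hθ0, hθ4, ?_, hθC, ?_, hC20, hA, hA0,
    ?_, ?_, ?_, ?_, ?_, ?_, ?_, ?_, ?_⟩⟩
  · rw [hC1]; field_simp
  · rw [← hQ]; exact hθQ
  · rw [hC2]; field_simp
  · linarith
  · linarith
  · rw [← e1]; linarith
  · rw [← div_le_iff₀ (by positivity), ← e2]; linarith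
  · rw [← div_le_iff₀ (by positivity), ← e3]; linarith
  · rw [← e4]; linarith
  · rw [← div_le_iff₀ (by positivity), ← e5]; linarith
  · rw [← div_le_iff₀ (by positivity), ← e6]; linarith
  · rw [← e7]; linarith

lemma growth1 {K g r1 : ℕ} {ε θ σ C1 Y Λ q : ℝ} (hK : 1 ≤ K) (hε : 0 < ε) (hε1 : ε ≤ 1)
    (hC1 : C1 * ε = 512 * K * (K + 1) * (g + 1)) (hσ : 0 < σ) (hσ2 : σ ≤ 2)
    (hΛ : Λ = exp (θ * σ * Y)) (hq : q = Λ ^ (g + 1)) (hr1 : C1 * θ * Y ≤ r1) :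
    q ≤ (1 + (ε / 128 * σ) / (2 * K * (K + 1))) ^ r1 := by
  have hK1 : (1:ℝ) ≤ K := by exact_mod_cast hK
  have hK0 : (0:ℝ) < K := by linarith
  have hx0 : 0 ≤ (ε / 128 * σ) / (2 * K * (K + 1)) := by positivity
  have hx1 : (ε / 128 * σ) / (2 * K * (K + 1)) ≤ 1 := by
    rw [div_le_one (by positivity)]
    have h1 : ε / 128 * σ ≤ 1 / 128 * 2 := by gcongr
    have h2 : (2:ℝ) ≤ 2 * K * (K + 1) := by nlinarith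
    linarith
  have h1 : q = exp ((g + 1) * (θ * σ * Y)) := by
    rw [hq, hΛ, ← exp_nat_mul]
    push_cast
    rfl
  rw [h1]
  apply exp_le_pow hx0 hx1
  have h2 : ((g:ℝ) + 1) * (θ * σ * Y) =
      C1 * θ * Y * ((ε / 128 * σ) / (2 * K * (K + 1)) / 2) := by
    have h3 : C1 * θ * Y * ((ε / 128 * σ) / (2 * K * (K + 1)) / 2) =
        (C1 * ε) * (θ * Y * σ) / (128 * (2 * K * (K + 1)) * 2) := by
      field_simp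
    rw [h3, hC1]
    field_simp
    ring
  rw [h2]
  exact mul_le_mul_of_nonneg_right hr1 (by positivity)

lemma growth2 {K r2 : ℕ} {ε θ σ η C2 Y : ℝ} (hK : 1 ≤ K) (hε : 0 < ε) (hε1 : ε ≤ 1)
    (hC2 : C2 * (ε * θ) = 1024 * K) (hσ : 0 < σ) (hσ2 : σ ≤ 2) (hθ : 0 < θ)
    (hη : η = θ * σ) (hη2 : η ≤ 1) (hr2 : C2 * Y / σ ^ 2 ≤ r2) :
    exp Y ≤ (1 + (ε / 128 * η * σ) / (4 * K)) ^ r2 := by
  have hK1 : (1:ℝ) ≤ K := by exact_mod_cast hK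
  have hK0 : (0:ℝ) < K := by linarith
  have hη0 : 0 < η := by rw [hη]; positivity
  have hx0 : 0 ≤ (ε / 128 * η * σ) / (4 * K) := by positivity
  have hx1 : (ε / 128 * η * σ) / (4 * K) ≤ 1 := by
    rw [div_le_one (by positivity)]
    have h1 : ε / 128 * η * σ ≤ 1 / 128 * 1 * 2 := by gcongr
    linarith
  apply exp_le_pow hx0 hx1
  have h2 : Y = C2 * Y / σ ^ 2 * ((ε / 128 * η * σ) / (4 * K) / 2) := by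
    have h3 : C2 * Y / σ ^ 2 * ((ε / 128 * η * σ) / (4 * K) / 2) =
        (C2 * (ε * θ)) * Y / (1024 * K) := by
      rw [hη]; field_simp; ring
    rw [h3, hC2]
    field_simp
  calc Y = C2 * Y / σ ^ 2 * ((ε / 128 * η * σ) / (4 * K) / 2) := h2
    _ ≤ _ := mul_le_mul_of_nonneg_right hr2 (by positivity)

lemma part_q {M g T0 : ℕ} {κ Y Λ q : ℝ} (hΛ4 : 4 ≤ Λ) (hM : (M:ℝ) ≤ Λ) (hY : 0 ≤ Y)
    (hκ1 : κ ≤ 1 / 32) (hq : q = Λ ^ (g + 1)) (hQ : Λ ^ (g + 2 * T0 + 4) ≤ exp (κ * Y)) :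
    q + M ≤ exp (Y / 2) := by
  have hΛ1 : 1 ≤ Λ := by linarith
  have hqΛ : Λ ≤ q := by
    calc Λ = Λ ^ 1 := (pow_one _).symm
      _ ≤ Λ ^ (g + 1) := pow_le_pow_right₀ hΛ1 (by omega)
      _ = q := hq.symm
  have h1 : q + M ≤ Λ ^ (g + 2) := by
    have h2 : Λ ^ (g + 2) = q * Λ := by rw [hq, ← pow_succ]
    have h3 : q * 2 ≤ q * Λ := mul_le_mul_of_nonneg_left (by linarith) (by linarith)
    rw [h2]; linarith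
  have h2 : κ * Y ≤ Y / 2 := by
    have : κ * Y ≤ 1 / 32 * Y := mul_le_mul_of_nonneg_right hκ1 hY
    linarith
  calc q + M ≤ Λ ^ (g + 2) := h1
    _ ≤ Λ ^ (g + 2 * T0 + 4) := pow_le_pow_right₀ hΛ1 (by omega)
    _ ≤ exp (κ * Y) := hQ
    _ ≤ exp (Y / 2) := exp_le_exp.2 h2

lemma part_M {M : ℕ} {θ σ η κ Y Λ : ℝ} (hΛ4 : 4 ≤ Λ) (hM : (M:ℝ) ≤ Λ) (hY : 0 ≤ Y)
    (hκ1 : κ ≤ 1 / 32) (hη : η = θ * σ) (hη2 : η ≤ 1 / 2) (hΛ : Λ = exp (θ * σ * Y))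
    (hΛκ : Λ ≤ exp (κ * Y)) :
    exp Y / Λ + M ≤ exp ((1 - η / 2) * Y) := by
  have e0 : exp Y / Λ = exp (Y - η * Y) := by
    rw [hΛ, ← exp_sub, hη]
  have e1 : (M:ℝ) ≤ exp (Y - η * Y) := by
    refine hM.trans (hΛκ.trans (exp_le_exp.2 ?_))
    have h1 : κ * Y ≤ 1 / 32 * Y := mul_le_mul_of_nonneg_right hκ1 hY
    have h2 : η * Y ≤ 1 / 2 * Y := mul_le_mul_of_nonneg_right hη2 hY
    linarith
  have e2 : exp ((1 - η / 2) * Y) = exp (Y - η * Y) * exp (η * Y / 2) := by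
    rw [← exp_add]; congr 1; ring
  have e3 : 2 ≤ exp (η * Y / 2) := by
    have h1 : exp (η * Y / 2) ^ 2 = Λ := by
      rw [hΛ, ← exp_nat_mul, hη]; congr 1; push_cast; ring
    have h2 : 0 < exp (η * Y / 2) := exp_pos _
    by_contra h3
    push Not at h3
    have h4 : exp (η * Y / 2) ^ 2 < 2 ^ 2 := pow_lt_pow_left₀ h3 h2.le (by norm_num)
    rw [h1] at h4
    linarith
  rw [e0, e2]
  have h3 : exp (Y - η * Y) * 2 ≤ exp (Y - η * Y) * exp (η * Y / 2) :=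
    mul_le_mul_of_nonneg_left e3 (exp_pos _).le
  linarith

lemma part_r {r1 r2 : ℕ} {θ σ C1 C2 A Y l : ℝ} (hY1 : 1 ≤ Y) (hYl : Y ≤ l) (hC1 : 0 < C1)
    (hC2 : 0 < C2) (hθ : 0 < θ) (hσ : 0 < σ) (hA : A = C1 * θ + 2 * C2 + 3)
    (hs1 : 1 ≤ 2 * Y * σ ^ 2) (hs2 : Y ≤ l * σ ^ 2)
    (hr1b : (r1:ℝ) ≤ C1 * θ * Y + 1) (hr2b : (r2:ℝ) ≤ C2 * Y / σ ^ 2 + 1) :
    ((r1 + r2 : ℕ) : ℝ) + 1 ≤ A * Y ^ 2 ∧ ((r1 + r2 : ℕ) : ℝ) ≤ (C1 * θ + C2 + 2) * l := by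
  have hYs1 : Y / σ ^ 2 ≤ 2 * Y ^ 2 := by
    rw [div_le_iff₀ (by positivity)]
    calc Y = Y * 1 := (mul_one _).symm
      _ ≤ Y * (2 * Y * σ ^ 2) := mul_le_mul_of_nonneg_left hs1 (by linarith)
      _ = _ := by ring
  have hYs2 : Y / σ ^ 2 ≤ l := by
    rw [div_le_iff₀ (by positivity)]; exact hs2
  have h1 : C2 * Y / σ ^ 2 = C2 * (Y / σ ^ 2) := by ring
  have hCθ : 0 < C1 * θ := by positivity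
  constructor
  · push_cast
    have h2 : C2 * (Y / σ ^ 2) ≤ C2 * (2 * Y ^ 2) := mul_le_mul_of_nonneg_left hYs1 hC2.le
    have h5 : Y ≤ Y ^ 2 := by nlinarith
    have h3 : C1 * θ * Y ≤ C1 * θ * Y ^ 2 := mul_le_mul_of_nonneg_left h5 hCθ.le
    have h4 : 1 ≤ Y ^ 2 := one_le_pow₀ hY1
    rw [hA]
    linarith
  · push_cast
    have h2 : C2 * (Y / σ ^ 2) ≤ C2 * l := mul_le_mul_of_nonneg_left hYs2 hC2.le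
    have h3 : C1 * θ * Y ≤ C1 * θ * l := mul_le_mul_of_nonneg_left hYl hCθ.le
    linarith

lemma part_R1 {T T0 r : ℕ} {A P Y Λ : ℝ} (hTT : T ≤ T0) (hY1 : 1 ≤ Y) (hA0 : 0 < A)
    (hP : 8 * T0 * A ^ 2 ≤ P) (hP0 : 0 ≤ P) (hΛP : P * Y ^ 6 ≤ Λ)
    (hr : (r : ℝ) + 1 ≤ A * Y ^ 2) : 8 * (T:ℝ) * ((r:ℝ) + 1) ^ 2 ≤ Λ := by
  have hTT' : (T:ℝ) ≤ T0 := by exact_mod_cast hTT
  have hr2' : ((r:ℝ) + 1) ^ 2 ≤ A ^ 2 * Y ^ 4 := by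
    calc ((r:ℝ) + 1) ^ 2 ≤ (A * Y ^ 2) ^ 2 := pow_le_pow_left₀ (by positivity) hr 2
      _ = _ := by ring
  have hY46 : Y ^ 4 ≤ Y ^ 6 := pow_le_pow_right₀ hY1 (by norm_num)
  calc 8 * (T:ℝ) * ((r:ℝ) + 1) ^ 2 ≤ 8 * T0 * (A ^ 2 * Y ^ 4) := by gcongr
    _ = (8 * T0 * A ^ 2) * Y ^ 4 := by ring
    _ ≤ P * Y ^ 6 := mul_le_mul hP hY46 (by positivity) hP0
    _ ≤ Λ := hΛP

lemma part_R2 {K T T0 g r : ℕ} {A P Y Λ ε θ σ η q : ℝ} (hT : T ≤ T0)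
    (hg : g = T0 * (2 * T0 + 4)) (hY1 : 1 ≤ Y) (hA0 : 0 < A) (hε : 0 < ε) (hθ : 0 < θ)
    (hσ : 0 < σ) (hP : 512 * (K + T0 * A ^ 2) ≤ P * (ε * θ)) (hP0 : 0 ≤ P)
    (hΛ1 : 1 ≤ Λ) (hΛP : P * Y ^ 6 ≤ Λ) (hs1 : 1 ≤ 2 * Y * σ ^ 2) (hη : η = θ * σ)
    (hq : q = Λ ^ (g + 1)) (hr : (r : ℝ) + 1 ≤ A * Y ^ 2) :
    2 * ((K : ℝ) + (T:ℝ) * (((r:ℝ) + 1) ^ 2 * Λ ^ (T * (2 * T + 4)))) ≤ ε / 128 * η * σ * q := by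
  have hTT' : (T:ℝ) ≤ T0 := by exact_mod_cast hT
  have hr2' : ((r:ℝ) + 1) ^ 2 ≤ A ^ 2 * Y ^ 4 := by
    calc ((r:ℝ) + 1) ^ 2 ≤ (A * Y ^ 2) ^ 2 := pow_le_pow_left₀ (by positivity) hr 2
      _ = _ := by ring
  have hTg : T * (2 * T + 4) ≤ g := by
    rw [hg]; exact Nat.mul_le_mul hT (by omega)
  have h1 : Λ ^ (T * (2 * T + 4)) ≤ Λ ^ g := pow_le_pow_right₀ hΛ1 hTg
  have h2 : 1 ≤ Λ ^ g := one_le_pow₀ hΛ1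
  have h3 : 1 ≤ Y ^ 4 := one_le_pow₀ hY1
  have h4 : (K:ℝ) ≤ K * (Y ^ 4 * Λ ^ g) := by
    have h5 : 1 ≤ Y ^ 4 * Λ ^ g := one_le_mul_of_one_le_of_one_le h3 h2
    calc (K:ℝ) = K * 1 := (mul_one _).symm
      _ ≤ _ := mul_le_mul_of_nonneg_left h5 (Nat.cast_nonneg _)
  have h6 : 2 * (K + T0 * A ^ 2) ≤ ε * θ / 256 * P := by linarith
  have h7 : Y ^ 4 ≤ Y ^ 5 * (2 * Y * σ ^ 2) := by
    calc Y ^ 4 ≤ Y ^ 5 := pow_le_pow_right₀ hY1 (by norm_num)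
      _ = Y ^ 5 * 1 := (mul_one _).symm
      _ ≤ _ := mul_le_mul_of_nonneg_left hs1 (by positivity)
  calc 2 * ((K : ℝ) + (T:ℝ) * (((r:ℝ) + 1) ^ 2 * Λ ^ (T * (2 * T + 4))))
      ≤ 2 * (K * (Y ^ 4 * Λ ^ g) + T0 * ((A ^ 2 * Y ^ 4) * Λ ^ g)) := by gcongr
    _ = (2 * (K + T0 * A ^ 2)) * Y ^ 4 * Λ ^ g := by ring
    _ ≤ (ε * θ / 256 * P) * Y ^ 4 * Λ ^ g := by gcongr
    _ ≤ (ε * θ / 256 * P) * (Y ^ 5 * (2 * Y * σ ^ 2)) * Λ ^ g := by gcongr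
    _ = (ε * θ / 128 * σ ^ 2) * ((P * Y ^ 6) * Λ ^ g) := by ring
    _ ≤ (ε * θ / 128 * σ ^ 2) * (Λ * Λ ^ g) := by gcongr
    _ = ε / 128 * η * σ * q := by rw [hη, hq, pow_succ]; ring

lemma part_K {K r1 : ℕ} {C1 θ Y : ℝ} (hY : 0 ≤ Y) (hθC : C1 * θ * K ≤ 1 / 16)
    (hr1b : (r1:ℝ) ≤ C1 * θ * Y + 1) : ((K : ℝ) + 1) ^ r1 ≤ exp K * exp (Y / 16) := by
  have h1 : (K:ℝ) + 1 ≤ exp K := add_one_le_exp _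
  have hK0 : (0:ℝ) ≤ K := Nat.cast_nonneg _
  calc ((K : ℝ) + 1) ^ r1 ≤ exp K ^ r1 := pow_le_pow_left₀ (by positivity) h1 _
    _ = exp (r1 * K) := by rw [← exp_nat_mul]
    _ ≤ exp ((C1 * θ * Y + 1) * K) := by
        apply exp_le_exp.2
        exact mul_le_mul_of_nonneg_right hr1b hK0
    _ = exp (K + (C1 * θ * K) * Y) := by congr 1; ring
    _ ≤ exp (K + (1 / 16) * Y) := by
        apply exp_le_exp.2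
        have := mul_le_mul_of_nonneg_right hθC hY
        linarith
    _ = exp K * exp (Y / 16) := by rw [exp_add]; congr 2; ring

end Pool.Agent.H34.Im
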