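import Pool.Agent.H34.ImParam2

/-!
# The parameter statement
-/

namespace Pool.Agent.H34.Im

open Real

/-- the parameters at a given scale -/
structure PS (K M Nn r1 r : ℕ) (ε δ κ Y l η Λ q : ℝ) : Prop where
  hr1 : r1 ≤ r
  hη0 : 0 < η
  hη1 : η ≤ 1
  hq1 : 1 ≤ q
  hMq : (M : ℝ) ≤ q
  hg1 : q ≤ (1 + (ε / 128 * sig Y l) / (2 * K * (K + 1))) ^ r1
  hg2 : exp Y ≤ (1 + (ε / 128 * η * sig Y l) / (4 * K)) ^ (r - r1)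
  hΛ2 : 2 ≤ Λ
  hqM : q + M ≤ exp (Y / 2)
  hmM : exp Y / Λ + M ≤ exp ((1 - η / 2) * Y)
  h16 : 16 / ε ≤ exp (κ * Y)
  hR1 : ∀ b : ℕ, b ≤ K → 8 * ((Nn * b : ℕ) : ℝ) * ((r:ℝ) + 1) ^ 2 ≤ Λ
  hR2 : ∀ b : ℕ, b ≤ K → 2 * ((K : ℝ) + ((Nn * b : ℕ) : ℝ) *
    (((r:ℝ) + 1) ^ 2 * Λ ^ ((Nn * b) * (2 * (Nn * b) + 4)))) ≤ (ε / 128 * η * sig Y l) * q
  hR3 : ∀ b : ℕ, b ≤ K → ∀ f a : ℝ, 4 * κ ≤ a → (K + 2) * a ≤ 1 / 8 →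
    δ * exp ((1 - K * a) * Y) ≤ f →
    4 * ((r : ℝ) + 1) ^ 2 * Λ ^ ((Nn * b) * (2 * (Nn * b) + 4)) * (K + 1) ^ r1 *
      Λ ^ (2 * (Nn * b) + 1) ≤ f
  hR4 : ∀ b : ℕ, b ≤ K → ∀ f a : ℝ, 4 * κ ≤ a → (K + 2) * a ≤ 1 / 8 →
    δ * exp ((1 - K * a) * Y) ≤ f → ∀ B : ℝ, B ≤ exp ((1 - (K + 2) * a) * Y) →
      (2 * Nn : ℕ) * (1 + (((Nn * b : ℕ) : ℝ) * r + M * K) *
        (((Nn * b : ℕ) : ℝ) * (2 * (f / Λ ^ (2 * (Nn * b) + 4))))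
        + 2 * (((Nn * b : ℕ) : ℝ) * r) + M * K + M * B)
        < f / Λ ^ (2 * (Nn * b)) / (Nn : ℝ) ^ (Nn * b)

theorem params (K M Nn : ℕ) (hK : 1 ≤ K) (hNn : 1 ≤ Nn) (ε δ κ : ℝ)
    (hε : 0 < ε) (hε1 : ε ≤ 1) (hδ : 0 < δ) (hκ : 0 < κ) (hκ1 : κ ≤ 1 / 32) :
    ∃ Y0 C : ℝ, 1 ≤ Y0 ∧ 0 ≤ C ∧ ∀ Y l : ℝ, Y0 ≤ Y → Y ≤ l →
      ∃ (r1 r : ℕ) (η Λ q : ℝ), PS K M Nn r1 r ε δ κ Y l η Λ q ∧ (r : ℝ) ≤ C * l := by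
  obtain ⟨T0, g, θ, C1, C2, A, P, hPC⟩ := exists_PC K M Nn hK ε δ κ hε hδ hκ hκ1
  have hC10 := hPC.hC10
  have hC20 := hPC.hC20
  have hθ0 := hPC.hθ0
  have hP4 := hPC.hP4
  have hP0 : 0 ≤ P := by linarith
  obtain ⟨Fc, hFc⟩ : ∃ Fc : ℝ, Fc = (Nat.factorial 14 : ℝ) := ⟨_, rfl⟩
  have hFc0 : 0 < Fc := by rw [hFc]; exact_mod_cast Nat.factorial_pos 14
  obtain ⟨Y1, hY1'⟩ : ∃ Y1 : ℝ, Y1 = P * 2 ^ 7 * Fc / θ ^ 14 := ⟨_, rfl⟩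
  have hY10 : 0 ≤ Y1 := by rw [hY1']; positivity
  refine ⟨1 + Y1, C1 * θ + C2 + 2, by linarith, by positivity, ?_⟩
  intro Y l hY hYl
  have hY1 : 1 ≤ Y := by linarith
  have hYp : 0 < Y := by linarith
  have hl0 : 0 < l := by linarith
  obtain ⟨σ, hσ⟩ : ∃ σ : ℝ, σ = sig Y l := ⟨_, rfl⟩
  have hσ0 : 0 < σ := by rw [hσ]; exact sig_pos hY1
  have hσ2 : σ ≤ 2 := by rw [hσ]; exact sig_le hY1 hYl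
  have hs1 : 1 ≤ 2 * Y * σ ^ 2 := by rw [hσ]; exact sig_sq1 hY1
  have hs2 : Y ≤ l * σ ^ 2 := by rw [hσ]; exact sig_sq2 hY1 hYl
  obtain ⟨η, hη⟩ : ∃ η : ℝ, η = θ * σ := ⟨_, rfl⟩
  obtain ⟨Λ, hΛ⟩ : ∃ Λ : ℝ, Λ = exp (θ * σ * Y) := ⟨_, rfl⟩
  have hΛP : P * Y ^ 6 ≤ Λ := by
    rw [hΛ, hσ]
    apply lam_big hθ0 hY1
    rw [← hFc, ← hY1']
    linarith
  have hY6 : 1 ≤ Y ^ 6 := one_le_pow₀ hY1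
  have hΛP' : P ≤ Λ := by
    have : P * 1 ≤ P * Y ^ 6 := mul_le_mul_of_nonneg_left hY6 hP0
    linarith
  have hΛ4 : 4 ≤ Λ := by linarith
  have hΛ1 : 1 ≤ Λ := by linarith
  have hΛ0 : 0 < Λ := by linarith
  have hQe : Λ ^ (g + 2 * T0 + 4) ≤ exp (κ * Y) := by
    rw [hΛ, ← exp_nat_mul]
    apply exp_le_exp.2
    have h3 := mul_le_mul_of_nonneg_right hPC.hθQ hYp.le
    obtain ⟨Q, hQ⟩ : ∃ Q : ℝ, Q = ((g + 2 * T0 + 4 : ℕ) : ℝ) := ⟨_, rfl⟩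
    rw [← hQ] at h3 ⊢
    have hQ0 : 0 ≤ Q := by rw [hQ]; exact Nat.cast_nonneg _
    calc Q * (θ * σ * Y) = (Q * θ * Y) * σ := by ring
      _ ≤ (Q * θ * Y) * 2 := mul_le_mul_of_nonneg_left hσ2 (by positivity)
      _ = 2 * Q * θ * Y := by ring
      _ ≤ κ * Y := h3
  have hΛκ : Λ ≤ exp (κ * Y) := by
    calc Λ = Λ ^ 1 := (pow_one _).symm
      _ ≤ Λ ^ (g + 2 * T0 + 4) := pow_le_pow_right₀ hΛ1 (by omega)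
      _ ≤ _ := hQe
  have hη0 : 0 < η := by rw [hη]; positivity
  have hη2 : η ≤ 1 / 2 := by
    rw [hη]
    calc θ * σ ≤ (1 / 4) * 2 := mul_le_mul hPC.hθ4 hσ2 hσ0.le (by norm_num)
      _ = 1 / 2 := by norm_num
  obtain ⟨q, hq⟩ : ∃ q : ℝ, q = Λ ^ (g + 1) := ⟨_, rfl⟩
  have hqΛ : Λ ≤ q := by
    calc Λ = Λ ^ 1 := (pow_one _).symm
      _ ≤ Λ ^ (g + 1) := pow_le_pow_right₀ hΛ1 (by omega)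
      _ = q := hq.symm
  have hMΛ : (M:ℝ) ≤ Λ := hPC.hPM.trans hΛP'
  obtain ⟨r1, hr1⟩ : ∃ r1 : ℕ, r1 = ⌈C1 * θ * Y⌉₊ := ⟨_, rfl⟩
  obtain ⟨r2, hr2⟩ : ∃ r2 : ℕ, r2 = ⌈C2 * Y / σ ^ 2⌉₊ := ⟨_, rfl⟩
  have hr1a : C1 * θ * Y ≤ r1 := by rw [hr1]; exact Nat.le_ceil _
  have hr1b : (r1:ℝ) ≤ C1 * θ * Y + 1 := by
    rw [hr1]; exact (Nat.ceil_lt_add_one (by positivity)).le
  have hr2a : C2 * Y / σ ^ 2 ≤ r2 := by rw [hr2]; exact Nat.le_ceil _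
  have hr2b : (r2:ℝ) ≤ C2 * Y / σ ^ 2 + 1 := by
    rw [hr2]; exact (Nat.ceil_lt_add_one (by positivity)).le
  obtain ⟨hrY, hrl⟩ := part_r hY1 hYl hC10 hC20 hθ0 hσ0 hPC.hA hs1 hs2 hr1b hr2b
  have hTb : ∀ b ≤ K, Nn * b ≤ T0 := by
    intro b hb
    rw [hPC.hT0]; exact Nat.mul_le_mul_left _ hb
  refine ⟨r1, r1 + r2, η, Λ, q, ⟨by omega, hη0, by linarith, by linarith, by linarith, ?_, ?_,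
    by linarith, part_q hΛ4 hMΛ hYp.le hκ1 hq hQe, part_M hΛ4 hMΛ hYp.le hκ1 hη hη2 hΛ hΛκ,
    ?_, ?_, ?_, ?_, ?_⟩, hrl⟩
  · rw [← hσ]
    exact growth1 hK hε hε1 hPC.hC1 hσ0 hσ2 hΛ hq hr1a
  · rw [← hσ, Nat.add_sub_cancel_left]
    exact growth2 hK hε hε1 hPC.hC2 hσ0 hσ2 hθ0 hη (by linarith) hr2a
  · exact (hPC.hP8.trans hΛP').trans hΛκ
  · intro b hb
    exact part_R1 (hTb b hb) hY1 hPC.hA0 hPC.hP1 hP0 hΛP hrY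
  · intro b hb
    rw [← hσ]
    exact part_R2 (hTb b hb) hPC.hg hY1 hPC.hA0 hε hθ0 hσ0 hPC.hP2 hP0 hΛ1 hΛP hs1 hη hq hrY
  · intro b hb f a ha hKa hf
    exact (fam_ineq (hTb b hb) hPC.hg hNn hY1 hPC.hA0.le hrY hΛ1 hΛP hQe hδ hκ hκ1
      (part_K hYp.le hPC.hθC hr1b) hP0 hPC.hP3 hPC.hP5 hPC.hP6 hPC.hP7 ha hKa hf).1
  · intro b hb f a ha hKa hf
    exact (fam_ineq (hTb b hb) hPC.hg hNn hY1 hPC.hA0.le hrY hΛ1 hΛP hQe hδ hκ hκ1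
      (part_K hYp.le hPC.hθC hr1b) hP0 hPC.hP3 hPC.hP5 hPC.hP6 hPC.hP7 ha hKa hf).2

end Pool.Agent.H34.Im
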