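import Pool.Agent.H34.ImParam3
import Pool.Agent.H34.ImFam
import Pool.Agent.H34.ImAsm

/-!
# The potential function, small sets
-/

namespace Pool.Agent.H34.Im

open Finset Classical

/-- the potential -/
noncomputable def ps (l t : ℝ) : ℝ := √(t / l) / 2 + (1 - 1 / √(1 + t)) / 2

lemma ps_mono {l u t : ℝ} (hl : 0 < l) (hu : 0 ≤ u) (hut : u ≤ t) : ps l u ≤ ps l t := by
  unfold ps
  have h1 : √(u / l) ≤ √(t / l) := Real.sqrt_le_sqrt (by gcongr)
  have h2 : √(1 + u) ≤ √(1 + t) := Real.sqrt_le_sqrt (by linarith)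
  have h3 : 0 < √(1 + u) := Real.sqrt_pos.2 (by linarith)
  have h4 : 1 / √(1 + t) ≤ 1 / √(1 + u) := one_div_le_one_div_of_le h3 h2
  linarith

lemma ps_nonneg {l t : ℝ} (ht : 0 ≤ t) : 0 ≤ ps l t := by
  unfold ps
  have h1 : 0 ≤ √(t / l) := Real.sqrt_nonneg _
  have h2 : 1 ≤ √(1 + t) := by rw [Real.one_le_sqrt]; linarith
  have h3 : 1 / √(1 + t) ≤ 1 := by
    rw [div_le_one (by linarith)]; exact h2
  linarith

lemma ps_le_one {l t : ℝ} (hl : 0 < l) (ht : 0 ≤ t) (htl : t ≤ l) : ps l t ≤ 1 := by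
  unfold ps
  have h1 : √(t / l) ≤ 1 := by
    rw [Real.sqrt_le_one, div_le_one hl]; exact htl
  have h2 : 0 ≤ 1 / √(1 + t) := by positivity
  linarith

lemma ps_incr {l u Y η : ℝ} (hu : 0 ≤ u) (hY : 2 ≤ Y) (hYl : Y ≤ l) (hη : 0 ≤ η) (hη1 : η ≤ 1)
    (huY : u ≤ (1 - η) * Y) : η / 8 * sig Y l ≤ ps l Y - ps l u := by
  have hl : 0 < l := by linarith
  have hYl0 : 0 ≤ Y / l := by positivity
  have h1 : √(u / l) ≤ (1 - η / 2) * √(Y / l) := by
    rw [Real.sqrt_le_iff]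
    refine ⟨mul_nonneg (by linarith) (Real.sqrt_nonneg _), ?_⟩
    rw [mul_pow, Real.sq_sqrt hYl0]
    have e1 : u / l ≤ (1 - η) * (Y / l) := by
      rw [div_le_iff₀ hl]
      have : (1 - η) * (Y / l) * l = (1 - η) * Y := by field_simp
      rw [this]; exact huY
    have e2 : (1 - η) * (Y / l) ≤ (1 - η / 2) ^ 2 * (Y / l) := by
      apply mul_le_mul_of_nonneg_right _ hYl0
      nlinarith
    linarith
  have h2 : (1 + η / 4) * √(1 + u) ≤ √(1 + Y) := by
    apply Real.le_sqrt_of_sq_le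
    rw [mul_pow, Real.sq_sqrt (by linarith)]
    have e1 : (1 + η / 4) ^ 2 ≤ 1 + 9 / 16 * η := by nlinarith
    have e2 : (1 + η / 4) ^ 2 * (1 + u) ≤ (1 + 9 / 16 * η) * (1 + (1 - η) * Y) :=
      mul_le_mul e1 (by linarith) (by linarith) (by linarith)
    refine e2.trans ?_
    have e3 : 0 ≤ η * η * Y := by positivity
    have e4 : 0 ≤ η * (Y - 2) := mul_nonneg hη (by linarith)
    nlinarith
  have h3 : 0 < √(1 + u) := Real.sqrt_pos.2 (by linarith)
  have h4 : 0 < √(1 + Y) := Real.sqrt_pos.2 (by linarith)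
  have h5 : (1 + η / 4) / √(1 + Y) ≤ 1 / √(1 + u) := by
    rw [div_le_div_iff₀ h4 h3, one_mul]; exact h2
  have h6 : (1 + η / 4) / √(1 + Y) = 1 / √(1 + Y) + η / 4 * (1 / √(1 + Y)) := by
    field_simp
  have h7 : 0 ≤ √(Y / l) := Real.sqrt_nonneg _
  have h8 : 0 ≤ η * √(Y / l) := mul_nonneg hη h7
  rw [h6] at h5
  unfold sig ps
  linarith

lemma e2_hom {U V : Type} (G : SimpleGraph U) (G' : SimpleGraph V) (cl : V → U)
    (hhom : ∀ a b, G'.Adj a b → G.Adj (cl a) (cl b))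
    (hinj : ∀ a b a' b', G'.Adj a b → G'.Adj a' b' → cl a = cl a' → cl b = cl b' →
      a = a' ∧ b = b') (Y : Finset V) (A : Finset U) (hA : ∀ y ∈ Y, cl y ∈ A) :
    e2 G' Y ≤ e2 G A := by
  unfold e2
  apply Finset.card_le_card_of_injOn (fun p => (cl p.1, cl p.2))
  · intro p hp
    rw [Finset.mem_coe, Finset.mem_filter, Finset.mem_product] at hp ⊢
    exact ⟨⟨hA _ hp.1.1, hA _ hp.1.2⟩, hhom _ _ hp.2⟩
  · intro p hp p' hp' h
    rw [Finset.mem_coe, Finset.mem_filter, Finset.mem_product] at hp hp'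
    rw [Prod.mk.injEq] at h
    obtain ⟨h1, h2⟩ := hinj _ _ _ _ hp.2 hp'.2 h.1 h.2
    exact Prod.ext h1 h2

lemma WImmS.mono {k : ℕ} {U : Type} {G : SimpleGraph U} {s s' : ℝ} (h : WImmS k G s)
    (hs : s ≤ s') : WImmS k G s' := by
  obtain ⟨f, hf, P, h1, h2, h3⟩ := h
  exact ⟨f, hf, P, h1, h2, h3.trans hs⟩

/-- a small dense set contains a small immersion -/
lemma small_dense {k : ℕ} {D : ℝ} (hD : Forces k D) {U : Type} [Fintype U]
    (G : SimpleGraph U) (W : Finset U) (hlt : D * W.card < e2 G W) :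
    WImmS k G (k + W.card) := by
  obtain ⟨H, hH⟩ : ∃ H : SimpleGraph U, ∀ a b, H.Adj a b ↔ G.Adj a b ∧ a ∈ W ∧ b ∈ W :=
    ⟨{ Adj := fun a b => G.Adj a b ∧ a ∈ W ∧ b ∈ W
       symm := by constructor; intro a b h; exact ⟨h.1.symm, h.2.2, h.2.1⟩
       loopless := by constructor; intro a h; exact h.1.ne rfl }, fun a b => Iff.rfl⟩
  have h1 : D * W.card < (((W ×ˢ W).filter (fun p => H.Adj p.1 p.2)).card : ℝ) := by
    have : (W ×ˢ W).filter (fun p => H.Adj p.1 p.2) = (W ×ˢ W).filter (fun p => G.Adj p.1 p.2) := by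
      apply Finset.filter_congr
      intro p hp
      rw [Finset.mem_product] at hp
      rw [hH]
      exact ⟨fun h => h.1, fun h => ⟨h, hp⟩⟩
    rw [this]; exact hlt
  obtain ⟨f, E, hf, hE1, hE2⟩ := forces_subset hD H W h1
  have hEW : ∀ i j, i < j → ∀ e ∈ E i j, e ∈ G.edgeSet ∧ ∀ v ∈ e, v ∈ W := by
    intro i j hij e he
    have h2 := (hE1 i j hij).1 e he
    induction e using Sym2.ind with
    | _ a b =>
      rw [SimpleGraph.mem_edgeSet, hH] at h2
      refine ⟨h2.1, ?_⟩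
      intro v hv
      rw [Sym2.mem_iff] at hv
      rcases hv with rfl | rfl
      · exact h2.2.1
      · exact h2.2.2
  have hP : ∀ i j : Fin k, ∃ p : G.Walk (f i) (f j), i < j →
      p.IsPath ∧ ∀ e ∈ p.edges, e ∈ E i j := by
    intro i j
    rcases lt_trichotomy i j with hij | hij | hij
    · obtain ⟨p, hp1, hp2⟩ := path_of_conn (E i j) (fun e he => (hEW i j hij e he).1)
        (hE1 i j hij).2
      exact ⟨p, fun _ => ⟨hp1, hp2⟩⟩
    · subst hij
      exact ⟨SimpleGraph.Walk.nil, fun h => absurd h (lt_irrefl _)⟩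
    · obtain ⟨p, hp1, hp2⟩ := path_of_conn (E j i) (fun e he => (hEW j i hij e he).1)
        (hE1 j i hij).2
      exact ⟨p.reverse, fun h => absurd h (not_lt.2 hij.le)⟩
  choose P hP using hP
  refine ⟨f, hf, P, fun i j hij => (hP i j hij).1, ?_, ?_⟩
  · intro i j i' j' h1 h2 h3 e he he'
    exact (Finset.disjoint_left.1 (hE2 i j i' j' h1 h2 h3)) ((hP i j h1).2 e he)
      ((hP i' j' h2).2 e he')
  · have hsub : {v : U | (∃ i, f i = v) ∨ ∃ i j, i < j ∧ v ∈ (P i j).support} ⊆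
        ((Finset.univ.image f ∪ W : Finset U) : Set U) := by
      intro v hv
      rw [Finset.mem_coe, Finset.mem_union, Finset.mem_image]
      rcases hv with ⟨i, hi⟩ | ⟨i, j, hij, hv⟩
      · exact Or.inl ⟨i, Finset.mem_univ _, hi⟩
      · rcases support_card (P i j) v hv with h | ⟨e, he, hve⟩
        · exact Or.inl ⟨i, Finset.mem_univ _, h.symm⟩
        · exact Or.inr ((hEW i j hij e ((hP i j hij).2 e he)).2 v hve)
    have h2 := Set.ncard_le_ncard hsub (Finset.finite_toSet _)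
    rw [Set.ncard_coe_finset] at h2
    have h3 := Finset.card_union_le (Finset.univ.image f) W
    have h4 : (Finset.univ.image f).card ≤ k := by
      refine Finset.card_image_le.trans ?_
      simp
    have h5 : {v : U | (∃ i, f i = v) ∨ ∃ i j, i < j ∧ v ∈ (P i j).support}.ncard ≤
        k + W.card := by omega
    exact_mod_cast h5

end Pool.Agent.H34.Im
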