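import Pool.Agent.H34.ImStep2
import Pool.Agent.H34.ImCol

/-!
# Selecting members
-/

namespace Pool.Agent.H34.Im

open Finset Classical

variable {V : Type} [Fintype V]

lemma arms_card_le {N : SimpleGraph V} {V1 x : Finset V} {K M b : ℕ} {q : ℝ}
    (h : ClHyp N V1 K M b q x) : b ≤ K := by
  have h1 := bdE_cluster N h.hx
  have h2 := h.hxK
  have h3 := h.hb
  omega

/-- iterating the hub step -/
theorem hub_iter {N : SimpleGraph V} {ω : V → ℕ} {V1 : Finset V} {K M r1 r : ℕ}
    {m Λ cs ce q : ℝ} (hN : NetHyp N ω V1 K M r1 r m Λ cs ce q) {b T : ℕ}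
    {F0 : Finset (Finset V)} (hF0 : FamHyp N V1 K M b T r1 r Λ ce q F0) (hb : 1 ≤ b)
    (hne : Nonempty V) (s : ℕ) (hs : s ≤ T) :
    ∃ (F : Finset (Finset V)) (VH : ℕ → Finset V)
      (EH : ℕ → Finset (Sym2 V)) (z : ℕ → Finset V → V) (Γ : ℕ → Finset V → Finset (Sym2 V)),
      St N V1 r1 r b T Λ F0 s F VH EH z Γ := by
  induction s with
  | zero =>
    obtain ⟨v0⟩ := hne
    refine ⟨F0, fun _ => ∅, fun _ => ∅, fun _ _ => v0, fun _ _ => ∅, ?_⟩
    refine ⟨le_rfl, ?_, ?_, ?_, ?_, ?_, ?_, ?_, ?_, ?_, ?_, ?_, ?_⟩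
    · simp
    · intro t ht; omega
    · intro t ht; omega
    · intro t ht; omega
    · intro t ht; omega
    · intro x _ t ht; omega
    · intro x _ t ht; omega
    · intro x _ t ht; omega
    · intro x _ t ht; omega
    · intro x _ t ht; omega
    · intro x _ j
      refine ⟨∅, Finset.empty_subset _, by simp, fun _ _ => 0, ⟨?_, ?_, ?_⟩, ?_⟩
      · intro u v; simp
      · intro u v; norm_num
      · intro u v h; exact absurd rfl h
      · intro v
        simp [dv, cnt]
    · intro t ht; omega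
  | succ s ih =>
    obtain ⟨F, VH, EH, z, Γ, hSt⟩ := ih (by omega)
    exact hub_step hN hF0 hb (by omega) hSt

/-- all edges used by a cluster -/
noncomputable def allE (T : ℕ) (Γ : ℕ → Finset V → Finset (Sym2 V)) (x : Finset V) :
    Finset (Sym2 V) := (Finset.range T).biUnion (fun t => Γ t x)

/-- rows are linked -/
lemma rows_linked {N : SimpleGraph V} {V1 : Finset V} {K M r1 r : ℕ}
    {Λ ce q : ℝ} {b Nn : ℕ} {F0 : Finset (Finset V)}
    (hF0 : FamHyp N V1 K M b (Nn * b) r1 r Λ ce q F0) (hb : 1 ≤ b)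
    {F : Finset (Finset V)} {VH : ℕ → Finset V}
    {EH : ℕ → Finset (Sym2 V)} {z : ℕ → Finset V → V} {Γ : ℕ → Finset V → Finset (Sym2 V)}
    (hSt : St N V1 r1 r b (Nn * b) Λ F0 (Nn * b) F VH EH z Γ) {x : Finset V} (hx : x ∈ F)
    {j : ℕ} (hj : j < Nn) :
    Lk (allE (Nn * b) Γ x : Set (Sym2 V)) (cnt Prod.snd (arms N V1 x)) (fun t => z t x)
      ((Finset.range (Nn * b)).filter (fun t => t / b = j)) := by
  obtain ⟨I, hI, hIc, hL⟩ := hSt.link x hx j
  rw [row_card hb hj] at hIc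
  have h1 : I = arms N V1 x := by
    apply Finset.eq_of_subset_of_card_le hI
    rw [hIc, (hF0.hcl x (hSt.sub hx)).hb]
  rw [h1] at hL
  apply hL.mono
  intro e he
  rw [Finset.mem_coe, Finset.mem_biUnion] at he
  obtain ⟨t, ht, he⟩ := he
  unfold allE
  rw [Finset.mem_coe, Finset.mem_biUnion]
  exact ⟨t, (Finset.mem_filter.1 ht).1, he⟩

/-- columns for a member -/
lemma cols_linked {N : SimpleGraph V} {V1 : Finset V} {K M r1 r : ℕ}
    {Λ ce q : ℝ} {b Nn : ℕ} {F0 : Finset (Finset V)}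
    (hF0 : FamHyp N V1 K M b (Nn * b) r1 r Λ ce q F0) (hb : 1 ≤ b) (hNn : b * b < Nn)
    {F : Finset (Finset V)} {VH : ℕ → Finset V}
    {EH : ℕ → Finset (Sym2 V)} {z : ℕ → Finset V → V} {Γ : ℕ → Finset V → Finset (Sym2 V)}
    (hSt : St N V1 r1 r b (Nn * b) Λ F0 (Nn * b) F VH EH z Γ) {x : Finset V} (hx : x ∈ F) :
    ∃ col : Fin (Nn * b) → Fin Nn,
      (∀ l : Fin Nn, Lk (allE (Nn * b) Γ x : Set (Sym2 V)) (cnt Prod.snd (arms N V1 x))
        (fun t => z t x)
        ((Finset.range (Nn * b)).filter (fun t => ∃ h : t < Nn * b, col ⟨t, h⟩ = l))) ∧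
      ∀ t t' : Fin (Nn * b), t.1 / b = t'.1 / b → col t = col t' → t = t' := by
  obtain ⟨col, h1, h2, h3⟩ := exists_col hb hNn
    (fun A => Lk (allE (Nn * b) Γ x : Set (Sym2 V)) (cnt Prod.snd (arms N V1 x))
      (fun t => z t x) A)
    (fun A B hA hB hAB a ha => hA.exchange hB hAB ha)
    (fun j hj => rows_linked hF0 hb hSt hx hj)
  refine ⟨fun t => ⟨col t.1, h1 t.1 t.2⟩, ?_, ?_⟩
  · intro l
    have h4 := h2 l.1 l.2
    have h5 : (Finset.range (Nn * b)).filter (fun t => ∃ h : t < Nn * b,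
        (⟨col t, h1 t h⟩ : Fin Nn) = l) = fib (Nn * b) col l.1 := by
      ext t
      rw [mem_fib, Finset.mem_filter, Finset.mem_range]
      constructor
      · rintro ⟨h5, h6, h7⟩
        exact ⟨h5, congrArg Fin.val h7⟩
      · rintro ⟨h5, h6⟩
        exact ⟨h5, h5, Fin.ext h6⟩
    simp only at h4 ⊢
    rw [h5]; exact h4
  · intro t t' ht hc
    exact Fin.ext (h3 t.1 t.2 t'.1 t'.2 ht (congrArg Fin.val hc))

/-- greedy selection of pairwise compatible members -/
lemma greedy {X : Type} (F : Finset X) (C : X → X → Prop) (d : ℝ) (hd : 0 ≤ d) (k : ℕ)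
    (hC : ∀ y ∈ F, ((F.filter (fun x => C x y)).card : ℝ) ≤ d) (hk : k * d < F.card) :
    ∃ g : ℕ → X, ∀ i < k, g i ∈ F ∧ ∀ j < i, ¬ C (g i) (g j) := by
  have hFne : F.Nonempty := by
    rw [← Finset.card_pos]
    have : (0:ℝ) < F.card := lt_of_le_of_lt (by positivity) hk
    exact_mod_cast this
  induction k with
  | zero =>
    obtain ⟨x, _⟩ := hFne
    exact ⟨fun _ => x, fun i hi => absurd hi (Nat.not_lt_zero i)⟩
  | succ k ih =>
    have hk' : (k:ℝ) * d < F.card := by
      refine lt_of_le_of_lt ?_ hk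
      push_cast
      nlinarith
    obtain ⟨g, hg⟩ := ih hk'
    have hex : ∃ x ∈ F, ∀ j < k, ¬ C x (g j) := by
      by_contra hcon
      push Not at hcon
      have hsub : F ⊆ (Finset.range k).biUnion (fun j => F.filter (fun x => C x (g j))) := by
        intro x hx
        obtain ⟨j, hj, hxj⟩ := hcon x hx
        rw [Finset.mem_biUnion]
        exact ⟨j, Finset.mem_range.2 hj, Finset.mem_filter.2 ⟨hx, hxj⟩⟩
      have h1 : (F.card : ℝ) ≤ ∑ j ∈ Finset.range k, ((F.filter (fun x => C x (g j))).card : ℝ) := by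
        exact_mod_cast (Finset.card_le_card hsub).trans Finset.card_biUnion_le
      have h2 : ∑ j ∈ Finset.range k, ((F.filter (fun x => C x (g j))).card : ℝ)
          ≤ ∑ j ∈ Finset.range k, d :=
        Finset.sum_le_sum (fun j hj => hC _ (hg j (Finset.mem_range.1 hj)).1)
      rw [Finset.sum_const, Finset.card_range, nsmul_eq_mul] at h2
      linarith
    obtain ⟨x, hx, hxC⟩ := hex
    refine ⟨fun i => if i < k then g i else x, ?_⟩
    intro i hi
    by_cases hik : i < k
    · simp only [if_pos hik]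
      refine ⟨(hg i hik).1, fun j hj => ?_⟩
      rw [if_pos (by omega)]
      exact (hg i hik).2 j hj
    · have : i = k := by omega
      subst this
      simp only [lt_irrefl, if_false]
      refine ⟨hx, fun j hj => ?_⟩
      rw [if_pos hj]
      exact hxC j hj

end Pool.Agent.H34.Im
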