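import Pool.Agent.H34.ImMader
import Pool.Agent.H34.ImAsm

/-!
# Splitting vertices of large degree; a potential-minimal subgraph
-/

namespace Pool.Agent.H34.Im

open Finset Classical

/-- grouping of a finite set -/
lemma groups {U : Type} [Fintype U] (S : Finset U) (K : ℕ) (hK : 1 ≤ K) :
    ∃ g : U → Fin (Fintype.card U + 1), (∀ c, (S.filter (fun u => g u = c)).card ≤ K) ∧
      ((S.image g).card : ℝ) ≤ S.card / K + 1 := by
  set rk : U → ℕ := fun u => if h : u ∈ S then ((Finset.equivFin S) ⟨u, h⟩).1 else 0 with hrk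
  have hrkS : ∀ u ∈ S, rk u < S.card := by
    intro u hu
    simp only [hrk, dif_pos hu]
    exact ((Finset.equivFin S) ⟨u, hu⟩).2
  have hrkinj : ∀ u ∈ S, ∀ v ∈ S, rk u = rk v → u = v := by
    intro u hu v hv h
    simp only [hrk, dif_pos hu, dif_pos hv] at h
    have := (Finset.equivFin S).injective (Fin.ext h)
    exact congrArg Subtype.val this
  have hlt : ∀ u ∈ S, rk u / K < Fintype.card U + 1 := by
    intro u hu
    have h1 := Nat.div_le_self (rk u) K
    have h2 := hrkS u hu
    have h3 := Finset.card_le_univ S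
    omega
  refine ⟨fun u => if h : u ∈ S then ⟨rk u / K, hlt u h⟩ else 0, ?_, ?_⟩
  · intro c
    have h1 : ((S.filter (fun u => (if h : u ∈ S then
        (⟨rk u / K, hlt u h⟩ : Fin (Fintype.card U + 1)) else 0) = c)).image rk) ⊆
        Finset.Ico (K * c.1) (K * c.1 + K) := by
      intro i hi
      rw [Finset.mem_image] at hi
      obtain ⟨u, hu, rfl⟩ := hi
      rw [Finset.mem_filter] at hu
      obtain ⟨huS, hu⟩ := hu
      rw [dif_pos huS] at hu
      have h2 : rk u / K = c.1 := congrArg Fin.val hu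
      rw [Finset.mem_Ico, ← h2]
      have h3 := Nat.div_add_mod (rk u) K
      have h4 := Nat.mod_lt (rk u) (show 0 < K by omega)
      omega
    have h2 := Finset.card_le_card h1
    rw [Nat.card_Ico, Finset.card_image_of_injOn] at h2
    · refine h2.trans ?_
      omega
    · intro u hu v hv h
      rw [Finset.mem_coe, Finset.mem_filter] at hu hv
      exact hrkinj u hu.1 v hv.1 h
  · have h1 : (S.image (fun u => if h : u ∈ S then
        (⟨rk u / K, hlt u h⟩ : Fin (Fintype.card U + 1)) else 0)).image Fin.val ⊆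
        Finset.range (S.card / K + 1) := by
      intro i hi
      rw [Finset.mem_image] at hi
      obtain ⟨c, hc, rfl⟩ := hi
      rw [Finset.mem_image] at hc
      obtain ⟨u, hu, rfl⟩ := hc
      rw [dif_pos hu, Finset.mem_range]
      have h2 := Nat.div_le_div_right (c := K) (hrkS u hu).le
      simp only
      omega
    have h2 := Finset.card_le_card h1
    rw [Finset.card_image_of_injective _ Fin.val_injective, Finset.card_range] at h2
    have h3 : ((S.card / K : ℕ) : ℝ) ≤ (S.card : ℝ) / K := Nat.cast_div_le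
    have h4 : ((S.image (fun u => if h : u ∈ S then
        (⟨rk u / K, hlt u h⟩ : Fin (Fintype.card U + 1)) else 0)).card : ℝ)
        ≤ ((S.card / K : ℕ) : ℝ) + 1 := by exact_mod_cast h2
    linarith

/-- splitting into a graph of bounded degree -/
theorem split {U : Type} [Fintype U] (G : SimpleGraph U) (K : ℕ) (hK : 1 ≤ K) :
    ∃ (G' : SimpleGraph (U × Fin (Fintype.card U + 1)))
      (V0 : Finset (U × Fin (Fintype.card U + 1))),
      (∀ p q, G'.Adj p q → G.Adj p.1 q.1) ∧
      (∀ p q p' q', G'.Adj p q → G'.Adj p' q' → p.1 = p'.1 → q.1 = q'.1 → p = p' ∧ q = q') ∧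
      (∀ p, (Finset.univ.filter (fun q => G'.Adj p q)).card ≤ K) ∧
      (V0.card : ℝ) ≤ Fintype.card U + (dts G : ℝ) / K ∧
      dts G ≤ e2 G' V0 := by
  have hg : ∀ w : U, ∃ g : U → Fin (Fintype.card U + 1),
      (∀ c, ((nb G Finset.univ w).filter (fun u => g u = c)).card ≤ K) ∧
      (((nb G Finset.univ w).image g).card : ℝ) ≤ (nb G Finset.univ w).card / K + 1 :=
    fun w => groups _ K hK
  choose g hg1 hg2 using hg
  have hnb : ∀ w u, u ∈ nb G Finset.univ w ↔ G.Adj w u := by
    intro w u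
    unfold nb
    simp
  obtain ⟨G', hG'⟩ : ∃ G' : SimpleGraph (U × Fin (Fintype.card U + 1)),
      ∀ p q, G'.Adj p q ↔ (G.Adj p.1 q.1 ∧ g p.1 q.1 = p.2 ∧ g q.1 p.1 = q.2) := by
    refine ⟨
      { Adj := fun p q => G.Adj p.1 q.1 ∧ g p.1 q.1 = p.2 ∧ g q.1 p.1 = q.2
        symm := by
          constructor
          intro p q h
          exact ⟨h.1.symm, h.2.2, h.2.1⟩
        loopless := by
          constructor
          intro p h
          exact G.loopless.irrefl _ h.1 }, fun p q => Iff.rfl⟩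
  set V0 : Finset (U × Fin (Fintype.card U + 1)) := (Finset.univ : Finset U).biUnion
    (fun w => ((nb G Finset.univ w).image (g w)).image (fun c => (w, c))) with hV0
  refine ⟨G', V0, fun p q h => ((hG' p q).1 h).1, ?_, ?_, ?_, ?_⟩
  · rintro ⟨w, c⟩ ⟨u, d⟩ ⟨w', c'⟩ ⟨u', d'⟩ h h' h1 h2
    simp only at h1 h2
    subst h1; subst h2
    rw [hG'] at h h'
    simp only at h h'
    rw [← h.2.1, ← h.2.2, ← h'.2.1, ← h'.2.2]
    exact ⟨rfl, rfl⟩
  · intro p
    refine le_trans ?_ (hg1 p.1 p.2)
    apply Finset.card_le_card_of_injOn Prod.fst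
    · intro q hq
      have h1 := (Finset.mem_filter.1 (Finset.mem_coe.1 hq)).2
      rw [hG'] at h1
      exact Finset.mem_coe.2 (Finset.mem_filter.2 ⟨(hnb _ _).2 h1.1, h1.2.1⟩)
    · intro q hq q' hq' h
      have h1 := (Finset.mem_filter.1 (Finset.mem_coe.1 hq)).2
      have h2 := (Finset.mem_filter.1 (Finset.mem_coe.1 hq')).2
      rw [hG'] at h1 h2
      apply Prod.ext h
      rw [← h1.2.2, ← h2.2.2, h]
  · have h1 : (V0.card : ℝ) ≤ ∑ w : U, ((((nb G Finset.univ w).image (g w)).card : ℝ)) := by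
      have h2 : V0.card ≤ ∑ w : U, ((nb G Finset.univ w).image (g w)).card := by
        refine Finset.card_biUnion_le.trans (Finset.sum_le_sum (fun w _ => ?_))
        exact Finset.card_image_le
      exact_mod_cast h2
    have h2 : ∑ w : U, ((((nb G Finset.univ w).image (g w)).card : ℝ))
        ≤ ∑ w : U, (((nb G Finset.univ w).card : ℝ) / K + 1) :=
      Finset.sum_le_sum (fun w _ => hg2 w)
    have h3 : ∑ w : U, (((nb G Finset.univ w).card : ℝ) / K + 1)
        = Fintype.card U + (dts G : ℝ) / K := by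
      rw [Finset.sum_add_distrib, Finset.sum_const, Finset.card_univ, nsmul_eq_mul, mul_one,
        ← Finset.sum_div, add_comm]
      congr 2
      have h4 : dts G = e2 G Finset.univ := by
        unfold dts e2
        rw [Finset.univ_product_univ]
      rw [h4, e2_eq_sum]
      push_cast; rfl
    linarith
  · unfold dts e2
    apply Finset.card_le_card_of_injOn (fun p => ((p.1, g p.1 p.2), (p.2, g p.2 p.1)))
    · intro p hp
      have h1 := (Finset.mem_filter.1 (Finset.mem_coe.1 hp)).2
      refine Finset.mem_coe.2 (Finset.mem_filter.2 ⟨Finset.mem_product.2 ⟨?_, ?_⟩, ?_⟩)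
      · rw [hV0, Finset.mem_biUnion]
        refine ⟨p.1, Finset.mem_univ _, Finset.mem_image.2 ⟨g p.1 p.2, ?_, rfl⟩⟩
        exact Finset.mem_image_of_mem _ ((hnb _ _).2 h1)
      · rw [hV0, Finset.mem_biUnion]
        refine ⟨p.2, Finset.mem_univ _, Finset.mem_image.2 ⟨g p.2 p.1, ?_, rfl⟩⟩
        exact Finset.mem_image_of_mem _ ((hnb _ _).2 h1.symm)
      · rw [hG']
        exact ⟨h1, rfl, rfl⟩
    · intro p _ q _ h
      simp only [Prod.mk.injEq] at h
      exact Prod.ext h.1.1 h.2.1

/-- ordered pairs between two sets -/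
noncomputable def crs {V : Type} (G : SimpleGraph V) (Y Z : Finset V) : ℕ :=
  ((Y ×ˢ Z).filter (fun p => G.Adj p.1 p.2)).card

lemma e2_split {V : Type} (G : SimpleGraph V) {X Y : Finset V} (h : Y ⊆ X) :
    e2 G X = e2 G Y + e2 G (X \ Y) + 2 * crs G Y (X \ Y) := by
  have h1 : X = Y ∪ (X \ Y) := (Finset.union_sdiff_of_subset h).symm
  have hd : Disjoint Y (X \ Y) := Finset.disjoint_sdiff
  have hcomm : crs G (X \ Y) Y = crs G Y (X \ Y) := by
    unfold crs
    apply Finset.card_bij (fun p _ => p.swap)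
    · intro p hp
      rw [Finset.mem_filter, Finset.mem_product] at hp ⊢
      exact ⟨⟨hp.1.2, hp.1.1⟩, hp.2.symm⟩
    · intro p _ q _ h
      exact Prod.swap_injective h
    · intro p hp
      rw [Finset.mem_filter, Finset.mem_product] at hp
      exact ⟨p.swap, Finset.mem_filter.2 ⟨Finset.mem_product.2 ⟨hp.1.2, hp.1.1⟩, hp.2.symm⟩, by simp⟩
  have key : e2 G X = e2 G Y + crs G Y (X \ Y) + (crs G (X \ Y) Y + e2 G (X \ Y)) := by
    unfold e2 crs
    simp only [Finset.card_filter, Finset.sum_product]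
    conv_lhs => rw [h1]
    rw [Finset.sum_union hd]
    congr 1
    · rw [← Finset.sum_add_distrib]
      refine Finset.sum_congr rfl (fun a _ => ?_)
      rw [Finset.sum_union hd]
    · rw [← Finset.sum_add_distrib]
      refine Finset.sum_congr rfl (fun a _ => ?_)
      rw [Finset.sum_union hd]
  rw [key, hcomm]; ring

/-- a minimal subset with respect to a potential -/
theorem min_sub {V : Type} (G : SimpleGraph V) (V0 : Finset V) (h : ℕ → ℝ) (hmono : Monotone h)
    (hne : V0.Nonempty) (hV0 : h V0.card * V0.card ≤ e2 G V0) :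
    ∃ X ⊆ V0, X.Nonempty ∧ h X.card * X.card ≤ e2 G X ∧
      (∀ Y ⊆ X, Y.Nonempty → Y ≠ X →
        (Y.card : ℝ) * (h X.card - h Y.card) ≤ 2 * crs G Y (X \ Y)) ∧
      (∀ Y ⊆ X, ∀ D : ℝ, (e2 G Y : ℝ) ≤ D * Y.card → D ≤ h X.card →
        (Y.card : ℝ) * (h X.card - D) ≤ 2 * crs G Y (X \ Y)) := by
  have hex : ((V0.powerset).filter
      (fun X => X.Nonempty ∧ h X.card * X.card ≤ e2 G X)).Nonempty :=
    ⟨V0, Finset.mem_filter.2 ⟨Finset.mem_powerset.2 le_rfl, hne, hV0⟩⟩
  obtain ⟨X, hX, hmin⟩ := Finset.exists_min_image _ Finset.card hex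
  rw [Finset.mem_filter, Finset.mem_powerset] at hX
  obtain ⟨hXV, hXne, hXe⟩ := hX
  have hlt : ∀ Y ⊆ X, Y ≠ X → (e2 G Y : ℝ) ≤ h Y.card * Y.card := by
    intro Y hY hYX
    rcases Finset.eq_empty_or_nonempty Y with rfl | hYne
    · simp [e2]
    · by_contra hcon
      push Not at hcon
      have h1 := hmin Y (Finset.mem_filter.2
        ⟨Finset.mem_powerset.2 (hY.trans hXV), hYne, hcon.le⟩)
      exact hYX (Finset.eq_of_subset_of_card_le hY h1)
  have hcompl : ∀ Y ⊆ X, Y.Nonempty → (e2 G (X \ Y) : ℝ) ≤ h X.card * (X \ Y).card := by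
    intro Y hY hYne
    have h1 : X \ Y ≠ X := by
      intro h2
      obtain ⟨u, hu⟩ := hYne
      have h3 : u ∈ X \ Y := by rw [h2]; exact hY hu
      exact (Finset.mem_sdiff.1 h3).2 hu
    refine (hlt _ Finset.sdiff_subset h1).trans ?_
    exact mul_le_mul_of_nonneg_right (hmono (Finset.card_le_card Finset.sdiff_subset))
      (Nat.cast_nonneg _)
  have hcard : ∀ Y ⊆ X, (X.card : ℝ) = Y.card + (X \ Y).card := by
    intro Y hY
    have := Finset.card_sdiff_add_card_eq_card hY
    have h2 : X.card = Y.card + (X \ Y).card := by omega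
    exact_mod_cast h2
  refine ⟨X, hXV, hXne, hXe, ?_, ?_⟩
  · intro Y hY hYne hYX
    have h1 := hcompl Y hY hYne
    have h2 := hlt Y hY hYX
    have h3 : (e2 G X : ℝ) = e2 G Y + e2 G (X \ Y) + 2 * crs G Y (X \ Y) := by
      exact_mod_cast e2_split G hY
    have h4 := hcard Y hY
    rw [h3, h4] at hXe
    nlinarith
  · intro Y hY D hD hDh
    rcases Finset.eq_empty_or_nonempty Y with rfl | hYne
    · simp
    · have h1 := hcompl Y hY hYne
      have h3 : (e2 G X : ℝ) = e2 G Y + e2 G (X \ Y) + 2 * crs G Y (X \ Y) := by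
        exact_mod_cast e2_split G hY
      have h4 := hcard Y hY
      rw [h3, h4] at hXe
      nlinarith

end Pool.Agent.H34.Im
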