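import Pool.Agent.H34.ImHub

/-!
# Iterating the hub construction
-/

namespace Pool.Agent.H34.Im

open Finset Classical

variable {V : Type} [Fintype V]

/-- hypotheses on the network -/
structure NetHyp (N : SimpleGraph V) (ω : V → ℕ) (V1 : Finset V) (K M r1 r : ℕ)
    (m Λ cs ce q : ℝ) : Prop where
  hdeg : ∀ a, (Finset.univ.filter (fun b => N.Adj a b)).card ≤ K * ω a
  hK : 1 ≤ K
  hV1 : ∀ v ∈ V1, ω v = 1
  hgiant : ∀ v ∉ V1, ω v = 0 ∨ q ≤ ω v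
  hexp1 : ∀ X : Finset V, (wt ω X : ℝ) ≤ q + M → cs * wt ω X ≤ bdE N.edgeSet X
  hexp2 : ∀ X : Finset V, (wt ω X : ℝ) ≤ m / Λ + M → ce * wt ω X ≤ bdE N.edgeSet X
  hcs : 0 < cs
  hce : 0 < ce
  hq1 : 1 ≤ q
  h1 : q ≤ (1 + cs / (2 * K * (K + 1))) ^ r1
  h2 : m ≤ (1 + ce / (4 * K)) ^ (r - r1)
  hr : r1 ≤ r
  hΛ : 2 ≤ Λ
  hm : 0 < m
  hwt : (wt ω Finset.univ : ℝ) = m

/-- hypotheses on a cluster -/
structure ClHyp (N : SimpleGraph V) (V1 : Finset V) (K M b : ℕ) (q : ℝ) (x : Finset V) :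
    Prop where
  hx : x ⊆ V1
  hxM : x.card ≤ M
  hxK : bdE N.edgeSet x ≤ K
  hmin : ∀ X, x ⊆ X → X ⊆ V1 → (X.card : ℝ) ≤ q + M → bdE N.edgeSet x ≤ bdE N.edgeSet X
  hb : (arms N V1 x).card = b

/-- popularity thresholds -/
noncomputable def tau (T : ℕ) (Λ M0 : ℝ) (t : ℕ) : ℝ := M0 / Λ ^ ((T - t) * (2 * T + 4))

/-- hypotheses on the family -/
structure FamHyp (N : SimpleGraph V) (V1 : Finset V) (K M b T r1 r : ℕ) (Λ ce q : ℝ)
    (F0 : Finset (Finset V)) : Prop where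
  hcl : ∀ x ∈ F0, ClHyp N V1 K M b q x
  hdisj : ∀ x ∈ F0, ∀ y ∈ F0, x ≠ y → Disjoint x y
  hR1 : 8 * (T : ℝ) * (r + 1) ^ 2 ≤ Λ
  hR2 : 2 * ((K : ℝ) + T * ((r + 1) ^ 2 * Λ ^ (T * (2 * T + 4)))) ≤ ce * q
  hR3 : 4 * ((r : ℝ) + 1) ^ 2 * Λ ^ (T * (2 * T + 4)) * (K + 1) ^ r1 * Λ ^ (2 * T + 1) ≤ F0.card

/-- the state after `s` hubs -/
structure St (N : SimpleGraph V) (V1 : Finset V) (r1 r b T : ℕ) (Λ : ℝ)
    (F0 : Finset (Finset V)) (s : ℕ) (F : Finset (Finset V)) (VH : ℕ → Finset V)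
    (EH : ℕ → Finset (Sym2 V)) (z : ℕ → Finset V → V) (Γ : ℕ → Finset V → Finset (Sym2 V)) :
    Prop where
  sub : F ⊆ F0
  big : (F0.card : ℝ) / Λ ^ (2 * s) ≤ F.card
  ehcard : ∀ t < s, ((EH t).card : ℝ) ≤ (r + 1) ^ 2 * Λ ^ (T * (2 * T + 4))
  hub : ∀ t < s, ∃ c, ∀ y ∈ VH t, ∃ E' ⊆ EH t, E'.card ≤ r ∧ Conn (E' : Set (Sym2 V)) y c
  ehN : ∀ t < s, ∀ e ∈ EH t, e ∈ N.edgeSet ∧ ∀ u ∈ e, u ∈ VH t
  ehdisj : ∀ t < s, ∀ t' < s, t ≠ t' → Disjoint (EH t) (EH t')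
  zmem : ∀ x ∈ F, ∀ t < s, z t x ∈ VH t
  gcard : ∀ x ∈ F, ∀ t < s, (Γ t x).card ≤ r
  gN : ∀ x ∈ F, ∀ t < s, ∀ e ∈ Γ t x, e ∈ N.edgeSet ∧ ∀ u ∈ x, u ∉ e
  gE : ∀ x ∈ F, ∀ t < s, ∀ t' < s, Disjoint (Γ t x) (EH t')
  far : ∀ x ∈ F, ∀ t < s, ∀ y ∈ VH t, y ∉ lay (vrel N V1) (x : Set V) r1
  link : ∀ x ∈ F, ∀ j, ∃ I ⊆ arms N V1 x,
    I.card = ((Finset.range s).filter (fun t => t / b = j)).card ∧
    Lk (((Finset.range s).filter (fun t => t / b = j)).biUnion (fun t => Γ t x) : Set (Sym2 V))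
      (cnt Prod.snd I) (fun t => z t x) ((Finset.range s).filter (fun t => t / b = j))
  pop : ∀ t < s, ∀ e, ((F.filter (fun x => e ∈ Γ t x)).card : ℝ) ≤ 2 * tau T Λ F0.card t

omit [Fintype V] in
lemma cnt_nonneg {ι : Type} (z : ι → V) (A : Finset ι) (v : V) : 0 ≤ cnt z A v := by
  unfold cnt
  apply Finset.sum_nonneg
  intro t _
  split_ifs <;> norm_num

omit [Fintype V] in
lemma cnt_congr {ι : Type} {z z' : ι → V} {A : Finset ι} (h : ∀ t ∈ A, z t = z' t) (v : V) :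
    cnt z A v = cnt z' A v := by
  unfold cnt
  exact Finset.sum_congr rfl (fun t ht => by rw [h t ht])

/-- one more hub for a single cluster -/
lemma link_step {N : SimpleGraph V} {V1 x : Finset V} {A : Finset ℕ} {s : ℕ} (hs : s ∉ A)
    {z z' : ℕ → V} {Γ Γ' : ℕ → Finset (Sym2 V)} {I : Finset (V × V)} (hI : I ⊆ arms N V1 x)
    {f : V → V → ℤ} (hf : IsFlow (A.biUnion Γ : Set (Sym2 V)) f)
    (hdv : ∀ v, dv f v = cnt Prod.snd I v - cnt z A v)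
    {p : ℕ → V} {l : ℕ} (h0 : p 0 ∈ start N V1 x I) (hp : Set.InjOn p (Set.Iic l))
    (hres : ∀ j < l, f (p j) (p (j+1)) ≤ 0) (hzA : ∀ t ∈ A, z t = z' t) (hzs : z' s = p l)
    (hΓA : ∀ t ∈ A, Γ t = Γ' t) (hΓs : Γ' s = pedges p l) :
    ∃ I' ⊆ arms N V1 x, I'.card = I.card + 1 ∧
      Lk ((insert s A).biUnion Γ' : Set (Sym2 V)) (cnt Prod.snd I') z' (insert s A) := by
  obtain ⟨a, ha, haI, ha2⟩ := h0
  have hsub : (A.biUnion Γ : Set (Sym2 V)) ⊆ ((insert s A).biUnion Γ' : Set (Sym2 V)) := by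
    intro e he
    rw [Finset.mem_coe, Finset.mem_biUnion] at he ⊢
    obtain ⟨t, ht, he⟩ := he
    exact ⟨t, Finset.mem_insert_of_mem ht, by rw [← hΓA t ht]; exact he⟩
  have hf' : IsFlow ((insert s A).biUnion Γ' : Set (Sym2 V)) f :=
    ⟨hf.anti, hf.bound, fun u v h => hsub (hf.supp u v h)⟩
  have hE : ∀ j < l, s(p j, p (j+1)) ∈ ((insert s A).biUnion Γ' : Set (Sym2 V)) := by
    intro j hj
    rw [Finset.mem_coe, Finset.mem_biUnion]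
    refine ⟨s, Finset.mem_insert_self s A, ?_⟩
    rw [hΓs, mem_pedges]
    exact ⟨j, hj, rfl⟩
  obtain ⟨h1, h2⟩ := hf'.add_path p l hp hres hE
  refine ⟨insert a I, ?_, Finset.card_insert_of_notMem haI, _, h1, ?_⟩
  · intro a' ha'
    rcases Finset.mem_insert.1 ha' with rfl | h
    · exact ha
    · exact hI h
  · intro v
    rw [h2 v, hdv v, cnt_insert Prod.snd haI, cnt_insert z' hs, ← hzs, ha2, cnt_congr hzA]
    ring

lemma FamHyp.pos {N : SimpleGraph V} {V1 : Finset V} {K M b T r1 r : ℕ} {Λ ce q : ℝ}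
    {F0 : Finset (Finset V)} (h : FamHyp N V1 K M b T r1 r Λ ce q F0) (hΛ : 2 ≤ Λ) :
    (0:ℝ) < F0.card := by
  refine lt_of_lt_of_le ?_ h.hR3
  have : (0:ℝ) < Λ := by linarith
  positivity

lemma tau_pos {T : ℕ} {Λ M0 : ℝ} (hΛ : 2 ≤ Λ) (hM : 0 < M0) (t : ℕ) : 0 < tau T Λ M0 t := by
  unfold tau
  have : (0:ℝ) < Λ := by linarith
  positivity

/-- thresholds are below the size of the family -/
lemma tau_le {T s : ℕ} {Λ M0 : ℝ} (hΛ : 2 ≤ Λ) (hM : 0 < M0) (hs : s < T) :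
    tau T Λ M0 s ≤ M0 / Λ ^ (2 * s + 1) := by
  unfold tau
  have h0 : (0:ℝ) < Λ := by linarith
  apply div_le_div_of_nonneg_left hM.le (by positivity)
  apply pow_le_pow_right₀ (by linarith)
  have h1 : 1 ≤ T - s := by omega
  calc 2 * s + 1 ≤ 1 * (2 * T + 4) := by omega
    _ ≤ (T - s) * (2 * T + 4) := Nat.mul_le_mul_right _ h1

/-- arithmetic for the first kind of bad clusters -/
lemma bad1_arith {T s t r : ℕ} {Λ M0 G e : ℝ} (hΛ : 2 ≤ Λ) (hM : 0 < M0) (hs : s < T) (ht : t < s)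
    (hG : G ≤ M0) (he : e ≤ (r+1)^2 * G / tau T Λ M0 s) :
    e * (2 * tau T Λ M0 t) ≤ 2 * (r+1)^2 * M0 / Λ ^ (2 * T + 4) := by
  have h0 : (0:ℝ) < Λ := by linarith
  have hτ := tau_pos (T := T) hΛ hM s
  have hτt := tau_pos (T := T) hΛ hM t
  have h1 : e ≤ (r+1)^2 * M0 / tau T Λ M0 s := by
    refine he.trans ?_
    apply div_le_div_of_nonneg_right _ hτ.le
    exact mul_le_mul_of_nonneg_left hG (by positivity)
  have h2 : (r+1)^2 * M0 / tau T Λ M0 s = (r+1)^2 * Λ ^ ((T - s) * (2 * T + 4)) := by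
    unfold tau
    field_simp
  rw [h2] at h1
  have h3 : tau T Λ M0 t ≤ M0 / (Λ ^ ((T - s) * (2 * T + 4)) * Λ ^ (2 * T + 4)) := by
    unfold tau
    apply div_le_div_of_nonneg_left hM.le (by positivity)
    rw [← pow_add]
    apply pow_le_pow_right₀ (by linarith)
    have h4 : T - s + 1 ≤ T - t := by omega
    calc (T - s) * (2 * T + 4) + (2 * T + 4) = (T - s + 1) * (2 * T + 4) := by ring
      _ ≤ (T - t) * (2 * T + 4) := Nat.mul_le_mul_right _ h4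
  calc e * (2 * tau T Λ M0 t)
      ≤ ((r+1)^2 * Λ ^ ((T - s) * (2 * T + 4))) * (2 * tau T Λ M0 t) :=
        mul_le_mul_of_nonneg_right h1 (by linarith)
    _ ≤ ((r+1)^2 * Λ ^ ((T - s) * (2 * T + 4))) *
        (2 * (M0 / (Λ ^ ((T - s) * (2 * T + 4)) * Λ ^ (2 * T + 4)))) := by
        apply mul_le_mul_of_nonneg_left (by linarith) (by positivity)
    _ = 2 * (r+1)^2 * M0 / Λ ^ (2 * T + 4) := by field_simp

lemma bad1_arith2 {T r : ℕ} {Λ M0 : ℝ} (hΛ : 2 ≤ Λ) (hM : 0 < M0)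
    (hR1 : 8 * (T : ℝ) * (r + 1) ^ 2 ≤ Λ) :
    T * (2 * (r+1)^2 * M0 / Λ ^ (2 * T + 4)) ≤ (M0 / Λ ^ (2 * T + 1)) / 4 := by
  have h0 : (0:ℝ) < Λ := by linarith
  have h1 : T * (2 * (r+1)^2 * M0 / Λ ^ (2 * T + 4))
      = (8 * (T : ℝ) * (r + 1) ^ 2) * (M0 / (4 * Λ ^ (2 * T + 4))) := by
    field_simp
    ring
  rw [h1]
  calc (8 * (T : ℝ) * (r + 1) ^ 2) * (M0 / (4 * Λ ^ (2 * T + 4)))
      ≤ Λ * (M0 / (4 * Λ ^ (2 * T + 4))) := mul_le_mul_of_nonneg_right hR1 (by positivity)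
    _ = M0 / (4 * Λ ^ (2 * T + 3)) := by
        rw [show 2 * T + 4 = (2 * T + 3) + 1 by ring, pow_succ]
        field_simp
    _ ≤ M0 / (4 * Λ ^ (2 * T + 1)) := by
        apply div_le_div_of_nonneg_left hM.le (by positivity)
        apply mul_le_mul_of_nonneg_left _ (by norm_num)
        exact pow_le_pow_right₀ (by linarith) (by omega)
    _ = (M0 / Λ ^ (2 * T + 1)) / 4 := by field_simp

lemma bad2_arith {T s r r1 K : ℕ} {Λ M0 G v : ℝ} (hΛ : 2 ≤ Λ) (hM : 0 < M0)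
    (hG : G ≤ M0) (hv : v ≤ (r+1)^2 * G / tau T Λ M0 s)
    (hR3 : 4 * ((r : ℝ) + 1) ^ 2 * Λ ^ (T * (2 * T + 4)) * (K + 1) ^ r1 * Λ ^ (2 * T + 1) ≤ M0) :
    v * (K+1)^r1 ≤ (M0 / Λ ^ (2 * T + 1)) / 4 := by
  have h0 : (0:ℝ) < Λ := by linarith
  have hτ := tau_pos (T := T) hΛ hM s
  have h1 : v ≤ (r+1)^2 * M0 / tau T Λ M0 s := by
    refine hv.trans ?_
    apply div_le_div_of_nonneg_right _ hτ.le
    exact mul_le_mul_of_nonneg_left hG (by positivity)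
  have h2 : (r+1)^2 * M0 / tau T Λ M0 s = (r+1)^2 * Λ ^ ((T - s) * (2 * T + 4)) := by
    unfold tau
    field_simp
  have h3 : Λ ^ ((T - s) * (2 * T + 4)) ≤ Λ ^ (T * (2 * T + 4)) :=
    pow_le_pow_right₀ (by linarith) (Nat.mul_le_mul_right _ (Nat.sub_le _ _))
  rw [h2] at h1
  have h4 : v ≤ (r+1)^2 * Λ ^ (T * (2 * T + 4)) :=
    h1.trans (mul_le_mul_of_nonneg_left h3 (by positivity))
  have h5 : v * (K+1)^r1 ≤ (r+1)^2 * Λ ^ (T * (2 * T + 4)) * (K+1)^r1 :=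
    mul_le_mul_of_nonneg_right h4 (by positivity)
  refine h5.trans ?_
  rw [div_div, le_div_iff₀ (by positivity)]
  calc _ = 4 * ((r : ℝ) + 1) ^ 2 * Λ ^ (T * (2 * T + 4)) * (K + 1) ^ r1 * Λ ^ (2 * T + 1) := by
        ring
    _ ≤ M0 := hR3

lemma eh_arith {T s r : ℕ} {Λ M0 G v : ℝ} (hΛ : 2 ≤ Λ) (hM : 0 < M0)
    (hG : G ≤ M0) (hv : v ≤ (r+1)^2 * G / tau T Λ M0 s) :
    v ≤ (r+1)^2 * Λ ^ (T * (2 * T + 4)) := by
  have h0 : (0:ℝ) < Λ := by linarith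
  have hτ := tau_pos (T := T) hΛ hM s
  have h1 : v ≤ (r+1)^2 * M0 / tau T Λ M0 s := by
    refine hv.trans ?_
    apply div_le_div_of_nonneg_right _ hτ.le
    exact mul_le_mul_of_nonneg_left hG (by positivity)
  have h2 : (r+1)^2 * M0 / tau T Λ M0 s = (r+1)^2 * Λ ^ ((T - s) * (2 * T + 4)) := by
    unfold tau
    field_simp
  have h3 : Λ ^ ((T - s) * (2 * T + 4)) ≤ Λ ^ (T * (2 * T + 4)) :=
    pow_le_pow_right₀ (by linarith) (Nat.mul_le_mul_right _ (Nat.sub_le _ _))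
  rw [h2] at h1
  exact h1.trans (mul_le_mul_of_nonneg_left h3 (by positivity))

lemma group_card {b s : ℕ} (hb : 1 ≤ b) :
    ((Finset.range s).filter (fun t => t / b = s / b)).card < b := by
  have h : (Finset.range s).filter (fun t => t / b = s / b) ⊆ Finset.Ico (b * (s / b)) s := by
    intro t ht
    rw [Finset.mem_filter, Finset.mem_range] at ht
    rw [Finset.mem_Ico]
    refine ⟨?_, ht.1⟩
    rw [← ht.2]
    exact Nat.mul_div_le t b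
  refine lt_of_le_of_lt (Finset.card_le_card h) ?_
  rw [Nat.card_Ico]
  have h1 := Nat.div_add_mod s b
  have h2 := Nat.mod_lt s (show 0 < b by omega)
  omega

end Pool.Agent.H34.Im
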