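import Pool.Agent.H34.ImStep

/-!
# The step of the hub iteration
-/

namespace Pool.Agent.H34.Im

open Finset Classical

variable {V : Type} [Fintype V]

theorem hub_step {N : SimpleGraph V} {ω : V → ℕ} {V1 : Finset V} {K M r1 r : ℕ}
    {m Λ cs ce q : ℝ} (hN : NetHyp N ω V1 K M r1 r m Λ cs ce q) {b T : ℕ}
    {F0 : Finset (Finset V)} (hF0 : FamHyp N V1 K M b T r1 r Λ ce q F0) (hb : 1 ≤ b) {s : ℕ}
    (hs : s < T) {F : Finset (Finset V)} {VH : ℕ → Finset V}
    {EH : ℕ → Finset (Sym2 V)} {z : ℕ → Finset V → V} {Γ : ℕ → Finset V → Finset (Sym2 V)}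
    (hSt : St N V1 r1 r b T Λ F0 s F VH EH z Γ) :
    ∃ (F' : Finset (Finset V)) (VH' : ℕ → Finset V) (EH' : ℕ → Finset (Sym2 V))
      (z' : ℕ → Finset V → V) (Γ' : ℕ → Finset V → Finset (Sym2 V)),
      St N V1 r1 r b T Λ F0 (s+1) F' VH' EH' z' Γ' := by
  have hΛ := hN.hΛ
  have hΛ0 : (0:ℝ) < Λ := by linarith
  have hM0 := hF0.pos hΛ
  set M0 : ℝ := (F0.card : ℝ) with hM0def
  set j0 := s / b with hj0
  set A : Finset ℕ := (Finset.range s).filter (fun t => t / b = j0) with hA
  have hAcard : A.card < b := group_card hb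
  have hAs : ∀ t ∈ A, t < s := fun t ht => Finset.mem_range.1 (Finset.mem_filter.1 ht).1
  have hsA : s ∉ A := fun h => lt_irrefl _ (hAs s h)
  -- current flows
  have hdata : ∀ x : Finset V, ∃ (I : Finset (V × V)) (f : V → V → ℤ), x ∈ F →
      (I ⊆ arms N V1 x ∧ I.card = A.card ∧
        IsFlow (A.biUnion (fun t => Γ t x) : Set (Sym2 V)) f ∧
        ∀ v, dv f v = cnt Prod.snd I v - cnt (fun t => z t x) A v) := by
    intro x
    by_cases hx : x ∈ F
    · obtain ⟨I, hI1, hI2, f, hf1, hf2⟩ := hSt.link x hx j0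
      exact ⟨I, f, fun _ => ⟨hI1, hI2, hf1, hf2⟩⟩
    · exact ⟨∅, fun _ _ => 0, fun h => absurd h hx⟩
  choose I f hIf using hdata
  set Q : Finset (Sym2 V) := (Finset.range s).biUnion EH with hQdef
  have hQcard : (Q.card : ℝ) ≤ T * ((r + 1) ^ 2 * Λ ^ (T * (2 * T + 4))) := by
    have h1 : (Q.card : ℝ) ≤ ∑ t ∈ Finset.range s, ((EH t).card : ℝ) := by
      exact_mod_cast Finset.card_biUnion_le
    have h2 : ∑ t ∈ Finset.range s, ((EH t).card : ℝ)
        ≤ ∑ t ∈ Finset.range s, ((r + 1) ^ 2 * Λ ^ (T * (2 * T + 4))) :=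
      Finset.sum_le_sum (fun t ht => hSt.ehcard t (Finset.mem_range.1 ht))
    rw [Finset.sum_const, Finset.card_range, nsmul_eq_mul] at h2
    refine (h1.trans h2).trans ?_
    apply mul_le_mul_of_nonneg_right _ (by positivity)
    exact_mod_cast hs.le
  have hresF : ∀ x ∈ F, IsFlow (resE N Q x) (f x) := by
    intro x hx
    obtain ⟨h1, h2, h3, h4⟩ := hIf x hx
    refine ⟨h3.anti, h3.bound, ?_⟩
    intro u v huv
    have h5 := h3.supp u v huv
    rw [Finset.mem_coe, Finset.mem_biUnion] at h5
    obtain ⟨t, ht, he⟩ := h5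
    have h6 := hSt.gN x hx t (hAs t ht) _ he
    refine ⟨h6.1, ?_, h6.2⟩
    intro hQ
    rw [hQdef, Finset.mem_biUnion] at hQ
    obtain ⟨t', ht', he'⟩ := hQ
    exact Finset.disjoint_left.1 (hSt.gE x hx t (hAs t ht) t' (Finset.mem_range.1 ht')) he he'
  set R : Finset V → Finset V := fun x =>
    layF (rrel N Q x (f x)) (start N V1 x (I x)) r with hRdef
  have hgrow : ∀ x ∈ F, m / Λ ≤ wt ω (R x) := by
    intro x hx
    have hxF0 := hSt.sub hx
    have hcl := hF0.hcl x hxF0
    obtain ⟨h1, h2, h3, h4⟩ := hIf x hx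
    have hss : I x ⊂ arms N V1 x := by
      refine Finset.ssubset_iff_subset_ne.2 ⟨h1, ?_⟩
      intro h
      rw [h, hcl.hb] at h2
      omega
    refine grow N ω V1 x K Q (f x) (I x) hN.hdeg hN.hK hN.hV1 hN.hgiant hcl.hx hcl.hxM hcl.hxK
      hcl.hmin hN.hexp1 hN.hexp2 hss (hresF x hx) ?_ ?_ hN.hcs hN.hce hN.hq1 ?_ hN.h1 hN.h2 hN.hr
      (by linarith) hN.hm
    · intro v
      rw [h4 v]
      have := cnt_nonneg (fun t => z t x) A v
      linarith
    · intro e he u hu
      rw [hQdef, Finset.mem_biUnion] at he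
      obtain ⟨t, ht, he⟩ := he
      rw [Finset.mem_range] at ht
      exact hSt.far x hx t ht u ((hSt.ehN t ht e he).2 u hu)
    · refine le_trans ?_ hF0.hR2
      have := hQcard
      linarith
  obtain ⟨c, hc⟩ := popular F R ω m Λ hN.hwt hN.hm hgrow
  set G := F.filter (fun x => c ∈ R x) with hG
  -- paths
  have hpaths : ∀ x : Finset V, ∃ (l : ℕ) (p : ℕ → V), x ∈ G →
      (l ≤ r ∧ p 0 ∈ start N V1 x (I x) ∧ p l = c ∧
        (∀ j < l, rrel N Q x (f x) (p j) (p (j+1))) ∧ Set.InjOn p (Set.Iic l)) := by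
    intro x
    by_cases hx : x ∈ G
    · have h1 := (Finset.mem_filter.1 hx).2
      rw [hRdef, mem_layF] at h1
      obtain ⟨l, hl, p, hp⟩ := exists_path _ _ _ _ h1
      exact ⟨l, p, fun _ => ⟨hl, hp⟩⟩
    · exact ⟨0, fun _ => c, fun h => absurd h hx⟩
  choose ln p hp using hpaths
  have hGF : G ⊆ F := Finset.filter_subset _ _
  have hGM0 : (G.card : ℝ) ≤ M0 := by
    rw [hM0def]
    exact_mod_cast Finset.card_le_card (hGF.trans hSt.sub)
  have hGbig : M0 / Λ ^ (2 * s + 1) ≤ G.card := by
    refine le_trans ?_ hc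
    have h1 := hSt.big
    have h2 : M0 / Λ ^ (2 * s + 1) = (M0 / Λ ^ (2 * s)) / Λ := by
      rw [pow_succ, div_div]
    rw [h2]
    exact div_le_div_of_nonneg_right h1 hΛ0.le
  have hGbig' : M0 / Λ ^ (2 * T + 1) ≤ G.card := by
    refine le_trans ?_ hGbig
    apply div_le_div_of_nonneg_left hM0.le (by positivity)
    exact pow_le_pow_right₀ (by linarith) (by omega)
  obtain ⟨VHs, EHs, l', hV1, hV2, hV3, hV4, hV5, hV6⟩ := trunc G p ln r c (tau T Λ M0 s)
    (tau_pos hΛ hM0 s) (fun x hx => (hp x hx).1) (fun x hx => (hp x hx).2.2.1)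
    ((tau_le hΛ hM0 hs).trans hGbig)
  -- the new family
  set F' : Finset (Finset V) := G.filter (fun x => (∀ t < s, Disjoint (Γ t x) EHs) ∧
    ∀ y ∈ VHs, y ∉ lay (vrel N V1) (x : Set V) r1) with hF'
  have hF'G : F' ⊆ G := Finset.filter_subset _ _
  have hF'card : (G.card : ℝ) ≤ 2 * F'.card := by
    set bad1 : Finset (Finset V) := (Finset.range s).biUnion (fun t =>
      EHs.biUnion (fun e => F.filter (fun x => e ∈ Γ t x))) with hbad1
    set bad2 : Finset (Finset V) := F0.filter
      (fun x : Finset V => ∃ v ∈ VHs, v ∈ lay (vrel N V1) (x : Set V) r1) with hbad2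
    have hsub : G ⊆ F' ∪ bad1 ∪ bad2 := by
      intro x hx
      by_cases h1 : ∀ t < s, Disjoint (Γ t x) EHs
      · by_cases h2 : ∀ y ∈ VHs, y ∉ lay (vrel N V1) (x : Set V) r1
        · exact Finset.mem_union_left _ (Finset.mem_union_left _
            (Finset.mem_filter.2 ⟨hx, h1, h2⟩))
        · push Not at h2
          exact Finset.mem_union_right _ (Finset.mem_filter.2 ⟨hSt.sub (hGF hx), h2⟩)
      · push Not at h1
        obtain ⟨t, ht, h1⟩ := h1
        rw [Finset.not_disjoint_iff] at h1
        obtain ⟨e, he1, he2⟩ := h1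
        apply Finset.mem_union_left
        apply Finset.mem_union_right
        rw [hbad1, Finset.mem_biUnion]
        refine ⟨t, Finset.mem_range.2 ht, ?_⟩
        rw [Finset.mem_biUnion]
        exact ⟨e, he2, Finset.mem_filter.2 ⟨hGF hx, he1⟩⟩
    have hb1 : (bad1.card : ℝ) ≤ (M0 / Λ ^ (2 * T + 1)) / 4 := by
      have h1 : (bad1.card : ℝ) ≤ ∑ t ∈ Finset.range s,
          ((EHs.biUnion (fun e => F.filter (fun x => e ∈ Γ t x))).card : ℝ) := by
        exact_mod_cast Finset.card_biUnion_le
      have h2 : ∑ t ∈ Finset.range s,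
          ((EHs.biUnion (fun e => F.filter (fun x => e ∈ Γ t x))).card : ℝ)
          ≤ ∑ t ∈ Finset.range s, (2 * (r+1)^2 * M0 / Λ ^ (2 * T + 4)) := by
        apply Finset.sum_le_sum
        intro t ht
        rw [Finset.mem_range] at ht
        have h3 : ((EHs.biUnion (fun e => F.filter (fun x => e ∈ Γ t x))).card : ℝ)
            ≤ ∑ e ∈ EHs, ((F.filter (fun x => e ∈ Γ t x)).card : ℝ) := by
          exact_mod_cast Finset.card_biUnion_le
        have h4 : ∑ e ∈ EHs, ((F.filter (fun x => e ∈ Γ t x)).card : ℝ)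
            ≤ ∑ e ∈ EHs, (2 * tau T Λ M0 t) :=
          Finset.sum_le_sum (fun e _ => hSt.pop t ht e)
        rw [Finset.sum_const, nsmul_eq_mul] at h4
        exact (h3.trans h4).trans (bad1_arith hΛ hM0 hs ht hGM0 hV2)
      rw [Finset.sum_const, Finset.card_range, nsmul_eq_mul] at h2
      refine (h1.trans h2).trans (le_trans ?_ (bad1_arith2 hΛ hM0 hF0.hR1))
      apply mul_le_mul_of_nonneg_right _ (by positivity)
      exact_mod_cast hs.le
    have hb2 : (bad2.card : ℝ) ≤ (M0 / Λ ^ (2 * T + 1)) / 4 := by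
      have h1 := near_card N ω V1 K hN.hdeg hN.hV1 F0 hF0.hdisj VHs r1
      have h2 : (bad2.card : ℝ) ≤ VHs.card * (K+1)^r1 := by exact_mod_cast h1
      exact h2.trans (bad2_arith hΛ hM0 hGM0 hV1 hF0.hR3)
    have h3 : (G.card : ℝ) ≤ F'.card + bad1.card + bad2.card := by
      have h4 := Finset.card_le_card hsub
      have h5 := Finset.card_union_le (F' ∪ bad1) bad2
      have h6 := Finset.card_union_le F' bad1
      have h7 : G.card ≤ F'.card + bad1.card + bad2.card := by omega
      exact_mod_cast h7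
    linarith
  refine ⟨F', Function.update VH s VHs, Function.update EH s EHs,
    Function.update z s (fun x => p x (l' x)),
    Function.update Γ s (fun x => pedges (p x) (l' x)), ?_⟩
  have hup : ∀ {β : Type} (g : ℕ → β) (v : β) (t : ℕ), t < s → Function.update g s v t = g t := by
    intro β g v t ht
    exact Function.update_of_ne (by omega) _ _
  have hFF : F' ⊆ F := hF'G.trans hGF
  -- edges of EHs
  have hEHN : ∀ e ∈ EHs, e ∈ N.edgeSet ∧ (∀ t < s, e ∉ EH t) ∧ ∀ u ∈ e, u ∈ VHs := by
    intro e he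
    obtain ⟨h1, x, hx, j, hj, rfl⟩ := hV5 e he
    obtain ⟨-, -, -, h2, -⟩ := hp x hx
    have h3 := (h2 j hj).1
    refine ⟨h3.1, ?_, h1⟩
    intro t ht h4
    apply h3.2.1
    rw [hQdef, Finset.mem_biUnion]
    exact ⟨t, Finset.mem_range.2 ht, h4⟩
  -- new path edges
  have hnew : ∀ x ∈ G, ∀ e ∈ pedges (p x) (l' x), e ∈ resE N Q x ∧
      ∃ u, u ∈ e ∧ u ∉ VHs ∧ ∃ j ≤ ln x, p x j = u := by
    intro x hx e he
    rw [mem_pedges] at he
    obtain ⟨j, hj, rfl⟩ := he
    obtain ⟨h1, h2, h3⟩ := hV3 x hx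
    obtain ⟨-, -, -, h4, -⟩ := hp x hx
    refine ⟨(h4 j (by omega)).1, p x j, Sym2.mem_mk_left _ _, h3 j hj, j, by omega, rfl⟩
  refine ⟨?_, ?_, ?_, ?_, ?_, ?_, ?_, ?_, ?_, ?_, ?_, ?_, ?_⟩
  · exact hFF.trans hSt.sub
  · -- size
    have h1 : M0 / Λ ^ (2 * (s + 1)) ≤ (M0 / Λ ^ (2 * s + 1)) / 2 := by
      rw [div_div]
      apply div_le_div_of_nonneg_left hM0.le (by positivity)
      rw [show 2 * (s + 1) = (2 * s + 1) + 1 by ring, pow_succ]
      exact mul_le_mul_of_nonneg_left hΛ (by positivity)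
    linarith
  · intro t ht
    rcases Nat.lt_succ_iff_lt_or_eq.1 ht with h | rfl
    · rw [hup _ _ t h]; exact hSt.ehcard t h
    · rw [Function.update_self]
      exact eh_arith hΛ hM0 hGM0 hV2
  · intro t ht
    rcases Nat.lt_succ_iff_lt_or_eq.1 ht with h | rfl
    · rw [hup _ _ t h, hup _ _ t h]; exact hSt.hub t h
    · rw [Function.update_self, Function.update_self]
      exact ⟨c, hV4⟩
  · intro t ht e he
    rcases Nat.lt_succ_iff_lt_or_eq.1 ht with h | rfl
    · rw [hup _ _ t h] at he ⊢
      exact hSt.ehN t h e he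
    · rw [Function.update_self] at he ⊢
      exact ⟨(hEHN e he).1, (hEHN e he).2.2⟩
  · intro t ht t' ht' htt'
    rcases Nat.lt_succ_iff_lt_or_eq.1 ht with h | rfl
    · rcases Nat.lt_succ_iff_lt_or_eq.1 ht' with h' | rfl
      · rw [hup _ _ t h, hup _ _ t' h']; exact hSt.ehdisj t h t' h' htt'
      · rw [hup _ _ t h, Function.update_self, Finset.disjoint_right]
        intro e he
        exact (hEHN e he).2.1 t h
    · rcases Nat.lt_succ_iff_lt_or_eq.1 ht' with h' | rfl
      · rw [hup _ _ t' h', Function.update_self, Finset.disjoint_left]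
        intro e he
        exact (hEHN e he).2.1 t' h'
      · exact absurd rfl htt'
  · intro x hx t ht
    rcases Nat.lt_succ_iff_lt_or_eq.1 ht with h | rfl
    · rw [hup _ _ t h, hup _ _ t h]; exact hSt.zmem x (hFF hx) t h
    · rw [Function.update_self, Function.update_self]
      exact (hV3 x (hF'G hx)).2.1
  · intro x hx t ht
    rcases Nat.lt_succ_iff_lt_or_eq.1 ht with h | rfl
    · rw [hup _ _ t h]; exact hSt.gcard x (hFF hx) t h
    · rw [Function.update_self]
      refine (card_pedges _ _).trans ((hV3 x (hF'G hx)).1.trans (hp x (hF'G hx)).1)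
  · intro x hx t ht e he
    rcases Nat.lt_succ_iff_lt_or_eq.1 ht with h | rfl
    · rw [hup _ _ t h] at he; exact hSt.gN x (hFF hx) t h e he
    · rw [Function.update_self] at he
      have h1 := (hnew x (hF'G hx) e he).1
      exact ⟨h1.1, h1.2.2⟩
  · intro x hx t ht t' ht'
    rcases Nat.lt_succ_iff_lt_or_eq.1 ht with h | rfl
    · rw [hup _ _ t h]
      rcases Nat.lt_succ_iff_lt_or_eq.1 ht' with h' | rfl
      · rw [hup _ _ t' h']; exact hSt.gE x (hFF hx) t h t' h'
      · rw [Function.update_self]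
        exact (Finset.mem_filter.1 hx).2.1 t h
    · rw [Function.update_self, Finset.disjoint_left]
      intro e he
      obtain ⟨h1, u, hu, hu', -⟩ := hnew x (hF'G hx) e he
      rcases Nat.lt_succ_iff_lt_or_eq.1 ht' with h' | rfl
      · rw [hup _ _ t' h']
        intro h2
        apply h1.2.1
        rw [hQdef, Finset.mem_biUnion]
        exact ⟨t', Finset.mem_range.2 h', h2⟩
      · rw [Function.update_self]
        intro h2
        exact hu' ((hEHN e h2).2.2 u hu)
  · intro x hx t ht
    rcases Nat.lt_succ_iff_lt_or_eq.1 ht with h | rfl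
    · rw [hup _ _ t h]; exact hSt.far x (hFF hx) t h
    · rw [Function.update_self]
      exact (Finset.mem_filter.1 hx).2.2
  · intro x hx j
    by_cases hj : j = j0
    · subst hj
      have h1 : (Finset.range (s+1)).filter (fun t => t / b = j0) = insert s A := by
        ext t
        simp only [hA, Finset.mem_filter, Finset.mem_range, Finset.mem_insert]
        constructor
        · rintro ⟨h1, h2⟩
          rcases Nat.lt_succ_iff_lt_or_eq.1 h1 with h | rfl
          · exact Or.inr ⟨h, h2⟩
          · exact Or.inl rfl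
        · rintro (rfl | ⟨h1, h2⟩)
          · exact ⟨by omega, rfl⟩
          · exact ⟨by omega, h2⟩
      rw [h1, Finset.card_insert_of_notMem hsA]
      have hxG := hF'G hx
      obtain ⟨h2, h3, h4, h5⟩ := hIf x (hFF hx)
      obtain ⟨h6, h7, h8, h9, h10⟩ := hp x hxG
      obtain ⟨h11, h12, h13⟩ := hV3 x hxG
      have key := link_step (Γ := fun t => Γ t x)
        (Γ' := fun t => Function.update Γ s (fun x => pedges (p x) (l' x)) t x)
        (z := fun t => z t x) (z' := fun t => Function.update z s (fun x => p x (l' x)) t x)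
        hsA h2 h4 h5 (p := p x) (l := l' x) h7
        (h10.mono (Set.Iic_subset_Iic.2 h11))
        (fun j hj => (h9 j (by omega)).2) ?_ ?_ ?_ ?_
      · obtain ⟨I', hI', hI'c, hL⟩ := key
        exact ⟨I', hI', by rw [hI'c, h3], hL⟩
      · intro t ht
        rw [hup _ _ t (hAs t ht)]
      · rw [Function.update_self]
      · intro t ht
        rw [hup _ _ t (hAs t ht)]
      · rw [Function.update_self]
    · have h1 : (Finset.range (s+1)).filter (fun t => t / b = j)
          = (Finset.range s).filter (fun t => t / b = j) := by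
        ext t
        simp only [Finset.mem_filter, Finset.mem_range]
        constructor
        · rintro ⟨h1, h2⟩
          rcases Nat.lt_succ_iff_lt_or_eq.1 h1 with h | rfl
          · exact ⟨h, h2⟩
          · exact absurd h2.symm hj
        · rintro ⟨h1, h2⟩
          exact ⟨by omega, h2⟩
      obtain ⟨I', hI', hI'c, f', hf', hdf'⟩ := hSt.link x (hFF hx) j
      rw [h1]
      refine ⟨I', hI', hI'c, f', ⟨hf'.anti, hf'.bound, ?_⟩, ?_⟩
      · intro u v huv
        have h2 := hf'.supp u v huv
        rw [Finset.mem_coe, Finset.mem_biUnion] at h2 ⊢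
        obtain ⟨t, ht, he⟩ := h2
        refine ⟨t, ht, ?_⟩
        rw [hup _ _ t (Finset.mem_range.1 (Finset.mem_filter.1 ht).1)]
        exact he
      · intro v
        rw [hdf' v]
        congr 1
        apply cnt_congr
        intro t ht
        rw [hup _ _ t (Finset.mem_range.1 (Finset.mem_filter.1 ht).1)]
  · intro t ht e
    rcases Nat.lt_succ_iff_lt_or_eq.1 ht with h | rfl
    · rw [hup _ _ t h]
      refine le_trans ?_ (hSt.pop t h e)
      exact_mod_cast Finset.card_le_card (Finset.filter_subset_filter _ hFF)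
    · rw [Function.update_self]
      induction e using Sym2.ind with
      | _ a b' =>
        have hsub : F'.filter (fun x => s(a, b') ∈ pedges (p x) (l' x)) ⊆
            (if a ∈ VHs then ∅ else G.filter (fun x => ∃ j ≤ ln x, p x j = a)) ∪
            (if b' ∈ VHs then ∅ else G.filter (fun x => ∃ j ≤ ln x, p x j = b')) := by
          intro x hx
          rw [Finset.mem_filter] at hx
          obtain ⟨-, u, hu, hu', hj⟩ := hnew x (hF'G hx.1) _ hx.2
          rw [Sym2.mem_iff] at hu
          rcases hu with rfl | rfl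
          · apply Finset.mem_union_left
            rw [if_neg hu']
            exact Finset.mem_filter.2 ⟨hF'G hx.1, hj⟩
          · apply Finset.mem_union_right
            rw [if_neg hu']
            exact Finset.mem_filter.2 ⟨hF'G hx.1, hj⟩
        have h1 := (Finset.card_le_card hsub).trans (Finset.card_union_le _ _)
        have h2 : ∀ a : V, (((if a ∈ VHs then ∅ else
            G.filter (fun x => ∃ j ≤ ln x, p x j = a)) : Finset (Finset V)).card : ℝ)
            ≤ tau T Λ M0 t := by
          intro a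
          split_ifs with h
          · simp only [Finset.card_empty, Nat.cast_zero]
            exact (tau_pos hΛ hM0 t).le
          · exact (hV6 a h).le
        have h3 : ((F'.filter (fun x => s(a, b') ∈ pedges (p x) (l' x))).card : ℝ) ≤
            ((if a ∈ VHs then ∅ else
              G.filter (fun x => ∃ j ≤ ln x, p x j = a)) : Finset (Finset V)).card
            + ((if b' ∈ VHs then ∅ else
              G.filter (fun x => ∃ j ≤ ln x, p x j = b')) : Finset (Finset V)).card := by
          exact_mod_cast h1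
        have h4 := h2 a
        have h5 := h2 b'
        linarith

end Pool.Agent.H34.Im
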