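import Mathlib

/-!
# Reduced finitary power monoids: definitions and basic facts
-/

namespace Pool.Agent.H34.PowMon

open scoped Pointwise
open Set

/-! ## General definitions for a monoid -/

section Defs

variable {M : Type*} [Monoid M]

/-- Two-sided divisibility: `y ∈ M x M`. -/
def Divides (x y : M) : Prop := ∃ u v : M, y = u * x * v

/-- `x` is a unit-divisor if it divides the identity. -/
def UnitDivisor (x : M) : Prop := Divides x 1

/-- `x` is a proper divisor of `y` if `x` divides `y` and `y` does not divide `x`. -/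
def ProperDivisor (x y : M) : Prop := Divides x y ∧ ¬ Divides y x

/-- `a` is irreducible: a non-unit-divisor which is not a product of two proper divisors of `a`
that are not unit-divisors. -/
def Irred (a : M) : Prop :=
  ¬ UnitDivisor a ∧ ¬ ∃ b c : M, a = b * c ∧ ProperDivisor b a ∧ ProperDivisor c a ∧
    ¬ UnitDivisor b ∧ ¬ UnitDivisor c

/-- The set of lengths of the factorizations of `x` into irreducibles. -/
def lengths (x : M) : Set ℕ :=
  {m | ∃ w : List M, (∀ a ∈ w, Irred a) ∧ w.prod = x ∧ w.length = m}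

end Defs

/-- The union of all length sets of elements of `M` that contain `k`. -/
def unionLengths (M : Type*) [Monoid M] (k : ℕ) : Set ℕ :=
  {n | ∃ x : M, k ∈ lengths x ∧ n ∈ lengths x}

/-- The monoid of all finite subsets of `H` containing the identity, under setwise product. -/
def PFin (H : Type*) [Monoid H] : Submonoid (Set H) where
  carrier := {X | X.Finite ∧ (1 : H) ∈ X}
  one_mem' := ⟨finite_one, one_mem_one⟩
  mul_mem' := by
    rintro X Y ⟨hX, hX1⟩ ⟨hY, hY1⟩
    exact ⟨hX.mul hY, by simpa using mul_mem_mul hX1 hY1⟩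

/-- A set of natural numbers of the form `{x : a ≤ x ≤ b}` with `a, b ∈ ℕ ∪ {∞}`. -/
def IsInterval (s : Set ℕ) : Prop :=
  ∃ a b : ℕ∞, s = {n : ℕ | a ≤ (n : ℕ∞) ∧ (n : ℕ∞) ≤ b}

/-! ## Working with sets -/

variable {H : Type*} [Monoid H]

/-- Irreducibility for sets, in concrete terms. -/
def Irr (A : Set H) : Prop :=
  A.Finite ∧ (1 : H) ∈ A ∧ A ≠ 1 ∧
    ∀ B C : Set H, (1 : H) ∈ B → (1 : H) ∈ C → B * C = A → B = A ∨ C = A

/-- `X` is a product of `m` irreducible sets. -/
def Len (X : Set H) (m : ℕ) : Prop :=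
  ∃ w : List (Set H), (∀ A ∈ w, Irr A) ∧ w.prod = X ∧ w.length = m

lemma subset_mul_left {B C : Set H} (hC : (1 : H) ∈ C) : B ⊆ B * C := fun b hb => by
  simpa using mul_mem_mul hb hC

lemma subset_mul_right {B C : Set H} (hB : (1 : H) ∈ B) : C ⊆ B * C := fun c hc => by
  simpa using mul_mem_mul hB hc

lemma subset_of_divides {X Y : PFin H} (h : Divides X Y) : (X : Set H) ⊆ Y := by
  obtain ⟨u, v, h⟩ := h
  rw [h]
  exact (subset_mul_right u.2.2).trans (subset_mul_left v.2.2)

lemma unitDivisor_iff {X : PFin H} : UnitDivisor X ↔ X = 1 := by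
  constructor
  · intro h
    have := subset_of_divides h
    apply Subtype.ext
    refine Subset.antisymm this ?_
    rintro x hx
    rw [Submonoid.coe_one, mem_one] at hx
    subst hx
    exact X.2.2
  · rintro rfl
    exact ⟨1, 1, by simp⟩

lemma divides_antisymm {X Y : PFin H} (h : Divides X Y) (h' : Divides Y X) : X = Y :=
  Subtype.ext (Subset.antisymm (subset_of_divides h) (subset_of_divides h'))

lemma divides_mul_left (X Y : PFin H) : Divides X (X * Y) := ⟨1, Y, by simp⟩

lemma divides_mul_right (X Y : PFin H) : Divides Y (X * Y) := ⟨X, 1, by simp⟩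

lemma finite_of_mul_eq {A B C : Set H} (hA : A.Finite) (hB : (1 : H) ∈ B) (hC : (1 : H) ∈ C)
    (h : B * C = A) : B.Finite ∧ C.Finite := by
  subst h
  exact ⟨hA.subset (subset_mul_left hC), hA.subset (subset_mul_right hB)⟩

lemma irred_iff {A : PFin H} : Irred A ↔ Irr (A : Set H) := by
  constructor
  · rintro ⟨h1, h2⟩
    rw [unitDivisor_iff] at h1
    refine ⟨A.2.1, A.2.2, fun h => h1 (Subtype.ext h), ?_⟩
    intro B C hB hC hBC
    by_contra hcon
    push Not at hcon
    obtain ⟨hBA, hCA⟩ := hcon
    obtain ⟨hBf, hCf⟩ := finite_of_mul_eq A.2.1 hB hC hBC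
    apply h2
    refine ⟨⟨B, hBf, hB⟩, ⟨C, hCf, hC⟩, Subtype.ext hBC.symm, ⟨?_, ?_⟩, ⟨?_, ?_⟩, ?_, ?_⟩
    · exact ⟨1, ⟨C, hCf, hC⟩, by rw [one_mul]; exact Subtype.ext hBC.symm⟩
    · intro h
      apply hBA
      have h3 := subset_of_divides h
      refine Subset.antisymm ?_ h3
      rw [← hBC]; exact subset_mul_left hC
    · exact ⟨⟨B, hBf, hB⟩, 1, by rw [mul_one]; exact Subtype.ext hBC.symm⟩
    · intro h
      apply hCA
      have h3 := subset_of_divides h
      refine Subset.antisymm ?_ h3
      rw [← hBC]; exact subset_mul_right hB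
    · rw [unitDivisor_iff]
      intro h
      apply hCA
      have h3 : B = 1 := congrArg Subtype.val h
      rw [← hBC, h3, one_mul]
    · rw [unitDivisor_iff]
      intro h
      apply hBA
      have h3 : C = 1 := congrArg Subtype.val h
      rw [← hBC, h3, mul_one]
  · rintro ⟨-, -, h3, h4⟩
    refine ⟨fun h => h3 (congrArg Subtype.val (unitDivisor_iff.mp h)), ?_⟩
    rintro ⟨B, C, hBC, ⟨-, hB⟩, ⟨-, hC⟩, -, -⟩
    rcases h4 B C B.2.2 C.2.2 (congrArg Subtype.val hBC.symm) with h | h
    · exact hB ⟨1, 1, by rw [one_mul, mul_one]; exact Subtype.ext h⟩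
    · exact hC ⟨1, 1, by rw [one_mul, mul_one]; exact Subtype.ext h⟩

lemma one_mem_prod {w : List (Set H)} (hw : ∀ A ∈ w, (1 : H) ∈ A) : (1 : H) ∈ w.prod := by
  induction w with
  | nil => simp
  | cons A w ih =>
    rw [List.prod_cons]
    have h1 := hw A (by simp)
    have h2 := ih (fun B hB => hw B (by simp [hB]))
    simpa using mul_mem_mul h1 h2

lemma mem_lengths_iff {X : PFin H} {m : ℕ} : m ∈ lengths X ↔ Len (X : Set H) m := by
  constructor
  · rintro ⟨w, hw, hp, hl⟩
    refine ⟨w.map Subtype.val, ?_, ?_, by simpa using hl⟩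
    · intro A hA
      obtain ⟨B, hB, rfl⟩ := List.mem_map.mp hA
      exact irred_iff.mp (hw B hB)
    · rw [← hp]
      exact (map_list_prod (PFin H).subtype w).symm
  · rintro ⟨w, hw, hp, hl⟩
    have key : ∀ w : List (Set H), (∀ A ∈ w, Irr A) →
        ∃ v : List (PFin H), (∀ a ∈ v, Irred a) ∧ v.map Subtype.val = w := by
      intro w
      induction w with
      | nil => intro _; exact ⟨[], by simp, rfl⟩
      | cons A w ih =>
        intro hw
        obtain ⟨v, hv, hvw⟩ := ih (fun B hB => hw B (by simp [hB]))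
        have hA := hw A (by simp)
        refine ⟨(⟨A, hA.1, hA.2.1⟩ : PFin H) :: v, ?_, by simp [hvw]⟩
        intro a ha
        rcases List.mem_cons.mp ha with rfl | ha
        · exact irred_iff.mpr hA
        · exact hv a ha
    obtain ⟨v, hv, hvw⟩ := key w hw
    refine ⟨v, hv, ?_, by rw [← hl, ← hvw, List.length_map]⟩
    apply Subtype.ext
    rw [← hp, ← hvw]
    exact map_list_prod (PFin H).subtype v

lemma Len.finite {X : Set H} {m : ℕ} (h : Len X m) : X.Finite ∧ (1 : H) ∈ X := by
  obtain ⟨w, hw, rfl, -⟩ := h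
  refine ⟨?_, one_mem_prod fun A hA => (hw A hA).2.1⟩
  induction w with
  | nil => simp
  | cons A w ih =>
    rw [List.prod_cons]
    exact (hw A (by simp)).1.mul (ih fun B hB => hw B (by simp [hB]))

lemma mem_unionLengths_iff {k n : ℕ} :
    n ∈ unionLengths (PFin H) k ↔ ∃ X : Set H, Len X k ∧ Len X n := by
  constructor
  · rintro ⟨X, h1, h2⟩
    exact ⟨X, mem_lengths_iff.mp h1, mem_lengths_iff.mp h2⟩
  · rintro ⟨X, h1, h2⟩
    exact ⟨⟨X, h1.finite⟩, mem_lengths_iff.mpr h1, mem_lengths_iff.mpr h2⟩

/-! ## Elementary facts on `Len` -/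

lemma Len.mul {X Y : Set H} {m n : ℕ} (hX : Len X m) (hY : Len Y n) : Len (X * Y) (m + n) := by
  obtain ⟨w, hw, rfl, rfl⟩ := hX
  obtain ⟨v, hv, rfl, rfl⟩ := hY
  refine ⟨w ++ v, ?_, by simp, by simp⟩
  intro A hA
  rcases List.mem_append.mp hA with h | h
  · exact hw A h
  · exact hv A h

lemma Irr.len {A : Set H} (hA : Irr A) : Len A 1 := ⟨[A], by simpa using hA, by simp, rfl⟩

lemma Irr.len_pow {A : Set H} (hA : Irr A) (n : ℕ) : Len (A ^ n) n :=
  ⟨List.replicate n A, by
    intro B hB; rw [List.eq_of_mem_replicate hB]; exact hA, by simp, by simp⟩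

lemma len_zero {X : Set H} (h : Len X 0) : X = 1 := by
  obtain ⟨w, -, hp, hl⟩ := h
  rw [List.length_eq_zero_iff] at hl
  subst hl
  exact hp.symm

lemma len_one_iff {m : ℕ} (h : Len (1 : Set H) m) : m = 0 := by
  obtain ⟨w, hw, hp, hl⟩ := h
  cases w with
  | nil => simpa using hl.symm
  | cons A w =>
    exfalso
    rw [List.prod_cons] at hp
    have hA := hw A (by simp)
    have h1 : (1 : H) ∈ w.prod := one_mem_prod fun B hB => (hw B (by simp [hB])).2.1
    apply hA.2.2.1
    refine Subset.antisymm ?_ ?_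
    · rw [← hp]; exact subset_mul_left h1
    · rintro x hx
      rw [mem_one] at hx; subst hx
      exact hA.2.1

/-- Two-element sets are irreducible. -/
lemma irr_pair {x : H} (hx : x ≠ 1) : Irr ({1, x} : Set H) := by
  refine ⟨by simp, by simp, ?_, ?_⟩
  · intro h
    have : x ∈ ({1, x} : Set H) := by simp
    rw [h, mem_one] at this
    exact hx this
  · intro B C hB hC hBC
    have hBs : B ⊆ {1, x} := hBC ▸ subset_mul_left hC
    have hCs : C ⊆ {1, x} := hBC ▸ subset_mul_right hB
    by_cases hxB : x ∈ B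
    · left
      refine Subset.antisymm hBs ?_
      rintro y (rfl | hy)
      · exact hB
      · rw [mem_singleton_iff.mp hy]; exact hxB
    · right
      have hB1 : B = 1 := by
        refine Subset.antisymm ?_ ?_
        · intro y hy
          rcases hBs hy with rfl | h
          · exact one_mem_one
          · rw [mem_singleton_iff.mp h] at hy; exact absurd hy hxB
        · rintro y hy
          rw [mem_one] at hy; subst hy; exact hB
      rw [← hBC, hB1, one_mul]

/-- If an irreducible set has a factorization of length at least two, then it absorbs an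
irreducible set on one side. -/
lemma absorb_of_len {X : Set H} (hX : Irr X) : ∀ w : List (Set H), (∀ A ∈ w, Irr A) →
    w.prod = X → 2 ≤ w.length → ∃ B : Set H, Irr B ∧ (X * B = X ∨ B * X = X) := by
  intro w
  induction w with
  | nil => intro _ _ h; simp at h
  | cons A w ih =>
    intro hw hp hl
    rw [List.prod_cons] at hp
    have hA := hw A (by simp)
    have hw' : ∀ B ∈ w, Irr B := fun B hB => hw B (by simp [hB])
    have h1 : (1 : H) ∈ w.prod := one_mem_prod fun B hB => (hw' B hB).2.1
    rcases hX.2.2.2 A w.prod hA.2.1 h1 hp with h | h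
    · cases w with
      | nil => simp at hl
      | cons B w =>
        refine ⟨B, hw' B (by simp), Or.inl ?_⟩
        have hB := hw' B (by simp)
        have h2 : (1 : H) ∈ w.prod := one_mem_prod fun C hC => (hw' C (by simp [hC])).2.1
        refine Subset.antisymm ?_ (subset_mul_left hB.2.1)
        calc X * B ⊆ (X * B) * w.prod := subset_mul_left h2
          _ = X := by
            rw [mul_assoc, ← List.prod_cons]
            rw [h] at hp
            exact hp
    · by_cases hl' : 2 ≤ w.length
      · exact ih hw' h hl'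
      · refine ⟨A, hA, Or.inr ?_⟩
        rw [h] at hp
        exact hp

lemma absorb_right_pow {X B : Set H} (h : X * B = X) (n : ℕ) : X * B ^ n = X := by
  induction n with
  | zero => simp
  | succ n ih => rw [pow_succ, ← mul_assoc, ih, h]

lemma absorb_left_pow {X B : Set H} (h : B * X = X) (n : ℕ) : B ^ n * X = X := by
  induction n with
  | zero => simp
  | succ n ih => rw [pow_succ, mul_assoc, h, ih]

/-- If an irreducible set has a factorization of length at least two then it has factorizations
of all positive lengths. -/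
lemma len_all_of_irr {X : Set H} (hX : Irr X) {m : ℕ} (hm : 2 ≤ m) (h : Len X m) (n : ℕ)
    (hn : 1 ≤ n) : Len X n := by
  obtain ⟨w, hw, hp, hl⟩ := h
  obtain ⟨B, hB, h | h⟩ := absorb_of_len hX w hw hp (by omega)
  · have := hX.len.mul (hB.len_pow (n - 1))
    rw [absorb_right_pow h] at this
    convert this using 1
    omega
  · have := (hB.len_pow (n - 1)).mul hX.len
    rw [absorb_left_pow h] at this
    convert this using 1
    omega

/-- In the absence of elements `x ≠ 1` with `x * x = x` or `x * x = 1`, an irreducible set is not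
invariant under right multiplication by an element different from `1`. -/
lemma not_irr_of_right {X : Set H} (hH : ∀ x : H, x ≠ 1 → x * x ≠ x ∧ x * x ≠ 1) {t : H}
    (ht : t ≠ 1) (hXt : ∀ a ∈ X, a * t ∈ X) : ¬ Irr X := by
  intro hX
  have htX : t ∈ X := by simpa using hXt 1 hX.2.1
  have httX : t * t ∈ X := hXt t htX
  have key : (X \ {t}) * {1, t} = X := by
    ext y
    constructor
    · rintro ⟨a, ⟨ha, -⟩, b, hb, rfl⟩
      rcases hb with rfl | hb
      · simpa using ha
      · rw [mem_singleton_iff.mp hb]; exact hXt a ha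
    · intro hy
      by_cases hyt : y = t
      · subst hyt
        exact ⟨1, ⟨hX.2.1, fun h => ht h.symm⟩, y, by simp, by simp⟩
      · exact ⟨y, ⟨hy, hyt⟩, 1, by simp, by simp⟩
  rcases hX.2.2.2 (X \ {t}) {1, t} ⟨hX.2.1, fun h => ht h.symm⟩ (by simp) key with h | h
  · have h2 := htX
    rw [← h] at h2
    exact h2.2 rfl
  · rw [← h] at httX
    rcases httX with h1 | h1
    · exact (hH t ht).2 h1
    · exact (hH t ht).1 (mem_singleton_iff.mp h1)

/-- Left-handed version of `not_irr_of_right`. -/
lemma not_irr_of_left {X : Set H} (hH : ∀ x : H, x ≠ 1 → x * x ≠ x ∧ x * x ≠ 1) {t : H}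
    (ht : t ≠ 1) (hXt : ∀ a ∈ X, t * a ∈ X) : ¬ Irr X := by
  intro hX
  have htX : t ∈ X := by simpa using hXt 1 hX.2.1
  have httX : t * t ∈ X := hXt t htX
  have key : ({1, t} : Set H) * (X \ {t}) = X := by
    ext y
    constructor
    · rintro ⟨b, hb, a, ⟨ha, -⟩, rfl⟩
      rcases hb with rfl | hb
      · simpa using ha
      · rw [mem_singleton_iff.mp hb]; exact hXt a ha
    · intro hy
      by_cases hyt : y = t
      · subst hyt
        exact ⟨y, by simp, 1, ⟨hX.2.1, fun h => ht h.symm⟩, by simp⟩
      · exact ⟨1, by simp, y, ⟨hy, hyt⟩, by simp⟩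
  rcases hX.2.2.2 {1, t} (X \ {t}) (by simp) ⟨hX.2.1, fun h => ht h.symm⟩ key with h | h
  · rw [← h] at httX
    rcases httX with h1 | h1
    · exact (hH t ht).2 h1
    · exact (hH t ht).1 (mem_singleton_iff.mp h1)
  · have h2 := htX
    rw [← h] at h2
    exact h2.2 rfl

lemma exists_ne_one_of_irr {B : Set H} (hB : Irr B) : ∃ t ∈ B, t ≠ 1 := by
  by_contra h
  push Not at h
  apply hB.2.2.1
  refine Subset.antisymm (fun t ht => ?_) ?_
  · rw [h t ht]; exact one_mem_one
  · rintro x hx
    rw [mem_one] at hx; subst hx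
    exact hB.2.1

/-- In the absence of elements `x ≠ 1` with `x * x = x` or `x * x = 1`, irreducible sets only have
the factorization length one. -/
lemma len_eq_one_of_irr {X : Set H} (hH : ∀ x : H, x ≠ 1 → x * x ≠ x ∧ x * x ≠ 1) (hX : Irr X)
    {m : ℕ} (h : Len X m) : m = 1 := by
  rcases Nat.lt_or_ge m 2 with hm | hm
  · interval_cases m
    · exact absurd (len_zero h) hX.2.2.1
    · rfl
  · exfalso
    obtain ⟨w, hw, hp, hl⟩ := h
    obtain ⟨B, hB, h | h⟩ := absorb_of_len hX w hw hp (by omega)
    · obtain ⟨t, htB, ht⟩ := exists_ne_one_of_irr hB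
      exact not_irr_of_right hH ht (fun a ha => h ▸ mul_mem_mul ha htB) hX
    · obtain ⟨t, htB, ht⟩ := exists_ne_one_of_irr hB
      exact not_irr_of_left hH ht (fun a ha => h ▸ mul_mem_mul htB ha) hX

lemma len_one {X : Set H} (h : Len X 1) : Irr X := by
  obtain ⟨w, hw, hp, hl⟩ := h
  rw [List.length_eq_one_iff] at hl
  obtain ⟨A, rfl⟩ := hl
  rw [← hp]
  simpa using hw A (by simp)

/-- If `A`, `B` are irreducible and `A * B` is invariant under right multiplication by `t ≠ 1`,
then `A * B` has factorizations of all lengths at least two. -/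
lemma len_all_of_absorb {A B : Set H} (hA : Irr A) (hB : Irr B) {t : H} (ht : t ≠ 1)
    (h : A * B * {1, t} = A * B) (n : ℕ) (hn : 2 ≤ n) : Len (A * B) n := by
  have := (hA.len.mul hB.len).mul ((irr_pair ht).len_pow (n - 2))
  rw [absorb_right_pow h] at this
  convert this using 1
  omega

end Pool.Agent.H34.PowMon
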