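import Pool.Agent.H34.PowMonInf

/-!
# Elements of odd order different from five
-/

namespace Pool.Agent.H34.PowMon

open scoped Pointwise
open Set

section

variable {G : Type*} [Group G]

lemma eq_one_set {H : Type*} [Monoid H] {B : Set H} (hB : (1 : H) ∈ B) (h : ∀ b ∈ B, b = 1) :
    B = 1 :=
  Subset.antisymm (fun b hb => by rw [h b hb]; exact one_mem_one)
    (fun b hb => by rw [mem_one] at hb; subst hb; exact hB)

lemma irr_odd_of_order {x : G} {j : ℕ} (hj : 1 ≤ j)
    (hm : orderOf x = 4 * j - 1 ∨ (orderOf x = 4 * j - 3 ∧ 3 ≤ j)) : Irr (pw x (oddSet j)) := by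
  set m := orderOf x with hmdef
  have hmod : ∀ {a b : ℕ}, x ^ a = x ^ b → a % m = b % m := fun h => pow_inj_mod.mp h
  have hmpos : 1 < m := by omega
  have hlt : ∀ i ∈ oddSet j, i ≤ 2 * j - 1 := by
    rintro i (rfl | hi)
    · omega
    · have := hi.2; omega
  refine ⟨pw_finite x (oddSet_finite j), one_mem_pw x (by simp [oddSet]), ?_, ?_⟩
  · intro h
    have h1 : x ^ 1 ∈ pw x (oddSet j) := ⟨1, Or.inr ⟨odd_one, by omega⟩, rfl⟩
    rw [h, mem_one] at h1
    have := hmod (a := 1) (b := 0) (by simpa using h1)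
    rw [Nat.mod_eq_of_lt hmpos] at this
    simp at this
  · intro B C hB hC hBC
    by_contra hcon
    push Not at hcon
    obtain ⟨hBA, hCA⟩ := hcon
    have hBs : B ⊆ pw x (oddSet j) := hBC ▸ subset_mul_left hC
    have hCs : C ⊆ pw x (oddSet j) := hBC ▸ subset_mul_right hB
    have hB' : ∃ b ∈ B, b ≠ 1 := by
      by_contra h
      push Not at h
      apply hCA
      rw [← hBC, eq_one_set hB h, one_mul]
    have hC' : ∃ b ∈ C, b ≠ 1 := by
      by_contra h
      push Not at h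
      apply hBA
      rw [← hBC, eq_one_set hC h, mul_one]
    -- the key fact
    have key : ∀ b ∈ B, ∀ c ∈ C, b ≠ 1 → c ≠ 1 → m = 4 * j - 3 ∧ b = x ^ (2 * j - 1) ∧
        c = x ^ (2 * j - 1) := by
      intro b hb c hc hb1 hc1
      obtain ⟨i, hi, rfl⟩ := hBs hb
      obtain ⟨k, hk, rfl⟩ := hCs hc
      have hi2 := hlt i hi
      have hk2 := hlt k hk
      have hi' : Odd i := by
        rcases hi with rfl | hi
        · simp at hb1
        · exact hi.1
      have hk' : Odd k := by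
        rcases hk with rfl | hk
        · simp at hc1
        · exact hk.1
      have h1 : x ^ (i + k) ∈ pw x (oddSet j) := by
        rw [← hBC, pow_add]
        exact mul_mem_mul hb hc
      obtain ⟨l, hl, hle⟩ := h1
      have hl2 := hlt l hl
      have h2 := hmod hle
      have hl3 : l = 0 ∨ Odd l := by
        rcases hl with rfl | hl
        · left; rfl
        · right; exact hl.1
      obtain ⟨i', hi'⟩ := hi'
      obtain ⟨k', hk'⟩ := hk'
      rw [Nat.mod_eq_of_lt (show l < m by omega)] at h2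
      rcases Nat.lt_or_ge (i + k) m with h3 | h3
      · exfalso
        rw [Nat.mod_eq_of_lt h3] at h2
        rcases hl3 with hl3 | ⟨l', hl'⟩ <;> omega
      · have h4 : (i + k) % m = i + k - m := by
          rw [Nat.mod_eq_sub_mod h3, Nat.mod_eq_of_lt (by omega)]
        rw [h4] at h2
        have hik : i = 2 * j - 1 ∧ k = 2 * j - 1 := by
          rcases hl3 with hl3 | ⟨l', hl'⟩ <;> omega
        refine ⟨by omega, ?_, ?_⟩
        · simp only [hik.1]
        · simp only [hik.2]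
    obtain ⟨b₀, hb₀, hb₀1⟩ := hB'
    obtain ⟨c₀, hc₀, hc₀1⟩ := hC'
    obtain ⟨hm3, -, -⟩ := key b₀ hb₀ c₀ hc₀ hb₀1 hc₀1
    have hj3 : 3 ≤ j := by omega
    have hBb : ∀ b ∈ B, b = 1 ∨ b = x ^ (2 * j - 1) := by
      intro b hb
      by_cases h : b = 1
      · exact Or.inl h
      · exact Or.inr (key b hb c₀ hc₀ h hc₀1).2.1
    have hCc : ∀ c ∈ C, c = 1 ∨ c = x ^ (2 * j - 1) := by
      intro c hc
      by_cases h : c = 1
      · exact Or.inl h
      · exact Or.inr (key b₀ hb₀ c hc hb₀1 h).2.2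
    have h3 : x ^ 3 ∈ B * C := by
      rw [hBC]
      exact ⟨3, Or.inr ⟨by decide, by omega⟩, rfl⟩
    obtain ⟨b, hb, c, hc, hbc⟩ := h3
    simp only at hbc
    rcases hBb b hb with rfl | rfl <;> rcases hCc c hc with rfl | rfl
    · have := hmod (a := 0) (b := 3) (by simpa using hbc)
      rw [Nat.mod_eq_of_lt (show 3 < m by omega)] at this
      simp at this
    · have := hmod (a := 2 * j - 1) (b := 3) (by simpa using hbc)
      rw [Nat.mod_eq_of_lt (show 3 < m by omega), Nat.mod_eq_of_lt (by omega)] at this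
      omega
    · have := hmod (a := 2 * j - 1) (b := 3) (by simpa using hbc)
      rw [Nat.mod_eq_of_lt (show 3 < m by omega), Nat.mod_eq_of_lt (by omega)] at this
      omega
    · rw [← pow_add] at hbc
      have := hmod hbc
      rw [Nat.mod_eq_of_lt (show 3 < m by omega), Nat.mod_eq_sub_mod (by omega),
        Nat.mod_eq_of_lt (by omega)] at this
      omega

lemma odd_mul_odd_inv {x : G} {j : ℕ} (hj : 1 ≤ j)
    (hm : orderOf x = 4 * j - 1 ∨ orderOf x = 4 * j - 3) :
    pw x (oddSet j) * pw x⁻¹ (oddSet j) = pw x univ := by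
  have hmp : x ^ (orderOf x) = 1 := pow_orderOf_eq_one x
  have hmpos : 0 < orderOf x := by omega
  ext y
  constructor
  · rintro ⟨_, ⟨i, hi, rfl⟩, _, ⟨k, hk, rfl⟩, rfl⟩
    have hinv : x⁻¹ = x ^ (orderOf x - 1) := by
      rw [inv_eq_iff_mul_eq_one, ← pow_succ', Nat.sub_add_cancel hmpos, hmp]
    refine ⟨i + (orderOf x - 1) * k, mem_univ _, ?_⟩
    simp only
    rw [hinv, ← pow_mul, pow_add]
  · rintro ⟨n, -, rfl⟩
    have hn : x ^ n = x ^ (n % orderOf x) := (pow_mod_orderOf x n).symm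
    simp only
    rw [hn]
    set r := n % orderOf x with hr
    have hrm : r < orderOf x := Nat.mod_lt _ hmpos
    clear_value r
    rcases Nat.lt_or_ge r (2 * j) with h | h
    · rcases Nat.even_or_odd r with he | ho
      · refine ⟨x ^ (r + 1), ⟨r + 1, Or.inr ⟨he.add_one, ?_⟩, rfl⟩, x⁻¹ ^ 1,
          ⟨1, Or.inr ⟨odd_one, by omega⟩, rfl⟩, ?_⟩
        · obtain ⟨s, hs⟩ := he; omega
        · simp [pow_succ]
      · exact ⟨x ^ r, ⟨r, Or.inr ⟨ho, h⟩, rfl⟩, 1, one_mem_pw _ (by simp [oddSet]), by simp⟩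
    · obtain ⟨q, hq⟩ : ∃ q, r + q = orderOf x := ⟨orderOf x - r, by omega⟩
      have hxr : x ^ r = x⁻¹ ^ q := by
        rw [inv_pow, eq_inv_iff_mul_eq_one, ← pow_add, hq, hmp]
      rcases Nat.even_or_odd q with he | ho
      · refine ⟨x ^ 1, ⟨1, Or.inr ⟨odd_one, by omega⟩, rfl⟩, x⁻¹ ^ (q + 1),
          ⟨q + 1, Or.inr ⟨he.add_one, ?_⟩, rfl⟩, ?_⟩
        · obtain ⟨s, hs⟩ := he; omega
        · simp [hxr, pow_succ']
      · refine ⟨1, one_mem_pw _ (by simp [oddSet]), x⁻¹ ^ q, ⟨q, Or.inr ⟨ho, by omega⟩, rfl⟩, ?_⟩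
        simp [hxr]

/-- If `x` has odd order different from `1` and `5`, some set has factorizations of all lengths at
least two. -/
lemma exists_two_of_odd_order {x : G} (hodd : Odd (orderOf x)) (h1 : orderOf x ≠ 1)
    (h5 : orderOf x ≠ 5) : ∃ X : Set G, ∀ n, 2 ≤ n → Len X n := by
  obtain ⟨j, hj, hm⟩ : ∃ j, 1 ≤ j ∧ (orderOf x = 4 * j - 1 ∨ (orderOf x = 4 * j - 3 ∧ 3 ≤ j)) := by
    obtain ⟨r, hr⟩ := hodd
    rcases Nat.even_or_odd' r with ⟨s, hs | hs⟩
    · exact ⟨s + 1, by omega, Or.inr ⟨by omega, by omega⟩⟩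
    · exact ⟨s + 1, by omega, Or.inl (by omega)⟩
  have hinv : orderOf x⁻¹ = orderOf x := orderOf_inv x
  have hA := irr_odd_of_order hj hm
  have hB := irr_odd_of_order (x := x⁻¹) hj (by rw [hinv]; exact hm)
  have hx1 : x ≠ 1 := fun h => h1 (by rw [h, orderOf_one])
  refine ⟨pw x (oddSet j) * pw x⁻¹ (oddSet j), fun n hn => ?_⟩
  refine len_all_of_absorb hA hB hx1 ?_ n hn
  rw [odd_mul_odd_inv hj (hm.imp id And.left)]
  refine Subset.antisymm ?_ (subset_mul_left (by simp))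
  rintro _ ⟨_, ⟨i, -, rfl⟩, b, hb, rfl⟩
  rcases hb with rfl | hb
  · exact ⟨i, mem_univ _, by simp⟩
  · rw [mem_singleton_iff.mp hb]
    exact ⟨i + 1, mem_univ _, by simp [pow_succ]⟩

end

end Pool.Agent.H34.PowMon
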