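import Pool.Agent.H34.PowMonCyc

/-!
# Non-cyclic groups of exponent five
-/

namespace Pool.Agent.H34.PowMon

open scoped Pointwise
open Set

section

variable {G : Type*} [Group G]

/-- The set `{1} ∪ aK ∪ a⁻¹K`. -/
def bset (a : G) (K : Subgroup G) : Set G := {y | y = 1 ∨ a⁻¹ * y ∈ K ∨ a * y ∈ K}

lemma bset_inv (a : G) (K : Subgroup G) : bset a⁻¹ K = bset a K := by
  ext y
  simp only [bset, mem_setOf_eq, inv_inv]
  tauto

lemma mem_of_sq (h5 : ∀ g : G, g ^ 5 = 1) {K : Subgroup G} {h : G} (hh : h * h ∈ K) : h ∈ K := by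
  have h1 : h = (h * h) ^ 3 := by
    have : (h * h) ^ 3 = h ^ 5 * h := by
      rw [← pow_two, ← pow_mul, ← pow_succ]
    rw [this, h5, one_mul]
  rw [h1]
  exact K.pow_mem hh 3

lemma w1 (h5 : ∀ g : G, g ^ 5 = 1) {K : Subgroup G} {a : G} (ha : a ∉ K) {k : G} (hk : k ∈ K) :
    a * k * a ∉ K := by
  intro h
  have h1 : (a * k) * (a * k) ∈ K := by
    have := K.mul_mem h hk
    simpa [mul_assoc] using this
  have h2 := mem_of_sq h5 h1
  exact ha ((K.mul_mem_cancel_right hk).mp h2)

lemma mem_mul_right {K : Subgroup G} {a b : G} (hb : b ∈ K) : a * b ∈ K ↔ a ∈ K :=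
  K.mul_mem_cancel_right hb

lemma mem_mul_left {K : Subgroup G} {a b : G} (ha : a ∈ K) : a * b ∈ K ↔ b ∈ K :=
  K.mul_mem_cancel_left ha

/-- One half of the irreducibility proof. -/
lemma aux (h5 : ∀ g : G, g ^ 5 = 1) {x : G} (hx : x ≠ 1) {a : G}
    (ha : a ∉ Subgroup.zpowers x) {C D : Set G}
    (hCD : C * D = bset a (Subgroup.zpowers x)) (h1C : (1 : G) ∈ C)
    (hC : ∀ c ∈ C, c ≠ 1 → a⁻¹ * c ∈ Subgroup.zpowers x)
    (hD : ∀ d ∈ D, d ≠ 1 → a * d ∈ Subgroup.zpowers x) {d : G} (hd : d ∈ D) (hd1 : d ≠ 1) :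
    False := by
  set K := Subgroup.zpowers x with hK
  have hxK : x ∈ K := Subgroup.mem_zpowers x
  have hord : orderOf x = 5 := by
    have hdvd : orderOf x ∣ 5 := orderOf_dvd_of_pow_eq_one (h5 x)
    rcases (Nat.dvd_prime (by norm_num)).mp hdvd with h | h
    · exact absurd (orderOf_eq_one_iff.mp h) hx
    · exact h
  have hdK : a * d ∈ K := hD d hd hd1
  have hdnK : d ∉ K := fun h => ha ((mem_mul_right h).mp hdK)
  -- `aK ⊆ C`
  have haK : ∀ k ∈ K, a * k ∈ C := by
    intro k hk
    have hy : a * k ∈ C * D := by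
      rw [hCD]
      right; left
      simpa using hk
    obtain ⟨c, hc, e, he, hce⟩ := hy
    simp only at hce
    by_cases he1 : e = 1
    · rw [he1, mul_one] at hce
      rw [← hce]; exact hc
    · exfalso
      have heK := hD e he he1
      have henK : e ∉ K := fun h => ha ((mem_mul_right h).mp heK)
      by_cases hc1 : c = 1
      · rw [hc1, one_mul] at hce
        rw [hce, ← mul_assoc, mem_mul_right hk] at heK
        exact ha (mem_of_sq h5 heK)
      · have hcK := hC c hc hc1
        have h2 : a⁻¹ * c * e = k := by rw [mul_assoc, hce]; simp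
        apply henK
        rw [← mem_mul_left hcK, h2]
        exact hk
  -- for all `k ∈ K`, one of two alternatives
  have halt : ∀ k ∈ K, a * k * d = 1 ∨ a * a * k * d ∈ K := by
    intro k hk
    have h1 : a * k * d ∈ C * D := mul_mem_mul (haK k hk) hd
    rw [hCD] at h1
    rcases h1 with h1 | h1 | h1
    · exact Or.inl h1
    · exfalso
      have h2 : k * d ∈ K := by simpa [mul_assoc] using h1
      exact hdnK ((mem_mul_left hk).mp h2)
    · right
      simpa [mul_assoc] using h1
  have hQ : ∀ k k' : G, a * k * d = 1 → a * k' * d = 1 → k = k' := by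
    intro k k' h h'
    have h2 : a * k * d = a * k' * d := h.trans h'.symm
    exact mul_left_cancel (mul_right_cancel h2)
  have hP : ∀ k ∈ K, ∀ k' ∈ K, a * a * k * d ∈ K → a * a * k' * d ∈ K → k = k' := by
    intro k hk k' hk' h h'
    by_contra hne
    have h2 : d⁻¹ * (k⁻¹ * k') * d ∈ K := by
      have := K.mul_mem (K.inv_mem h) h'
      convert this using 1
      group
    have h3 : a * (k⁻¹ * k') * a⁻¹ ∈ K := by
      have := K.mul_mem (K.mul_mem hdK h2) (K.inv_mem hdK)
      convert this using 1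
      group
    have hk0 : k⁻¹ * k' ∈ K := K.mul_mem (K.inv_mem hk) hk'
    have hk01 : k⁻¹ * k' ≠ 1 := fun h => hne (inv_mul_eq_one.mp h)
    -- `k⁻¹ * k'` generates `K`
    have hgen : Subgroup.zpowers (k⁻¹ * k') = K := by
      have hle : Subgroup.zpowers (k⁻¹ * k') ≤ K := by
        rw [Subgroup.zpowers_le]; exact hk0
      have hfin : Finite K := by
        have : Nat.card K = 5 := by rw [hK, Nat.card_zpowers, hord]
        exact Nat.finite_of_card_ne_zero (by omega)
      have hord' : orderOf (k⁻¹ * k') = 5 := by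
        have hdvd : orderOf (k⁻¹ * k') ∣ 5 := orderOf_dvd_of_pow_eq_one (h5 _)
        rcases (Nat.dvd_prime (by norm_num)).mp hdvd with h | h
        · exact absurd (orderOf_eq_one_iff.mp h) hk01
        · exact h
      apply Subgroup.eq_of_le_of_card_ge hle
      rw [hK, Nat.card_zpowers, Nat.card_zpowers, hord, hord']
    have hkgen : k ∈ Subgroup.zpowers (k⁻¹ * k') := by rw [hgen]; exact hk
    obtain ⟨i, hi⟩ := Subgroup.mem_zpowers_iff.mp hkgen
    have h4 : a * k * a⁻¹ ∈ K := by
      rw [← hi, ← conj_zpow]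
      exact K.zpow_mem h3 i
    have h5' : a * ((a * k * a⁻¹) * (a * d)) ∈ K := by
      convert h using 1
      group
    exact ha ((mem_mul_right (K.mul_mem h4 hdK)).mp h5')
  have hx1 : (1 : G) ≠ x := fun h => hx h.symm
  have hx2 : x ≠ x * x := by
    intro h
    exact hx (by simpa using h)
  have hx3 : (1 : G) ≠ x * x := by
    intro h
    have : orderOf x ∣ 2 := orderOf_dvd_of_pow_eq_one (by rw [pow_two]; exact h.symm)
    rw [hord] at this
    norm_num at this
  have hxxK : x * x ∈ K := K.mul_mem hxK hxK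
  rcases halt 1 K.one_mem with h1 | h1 <;> rcases halt x hxK with h2 | h2 <;>
    rcases halt (x * x) hxxK with h3 | h3
  · exact hx1 (hQ _ _ h1 h2)
  · exact hx1 (hQ _ _ h1 h2)
  · exact hx3 (hQ _ _ h1 h3)
  · exact hx2 (hP _ hxK _ hxxK h2 h3)
  · exact hx2 (hQ _ _ h2 h3)
  · exact hx3 (hP _ K.one_mem _ hxxK h1 h3)
  · exact hx1 (hP _ K.one_mem _ hxK h1 h2)
  · exact hx1 (hP _ K.one_mem _ hxK h1 h2)

lemma irr_bset (h5 : ∀ g : G, g ^ 5 = 1) {x : G} (hx : x ≠ 1) {a : G}
    (ha : a ∉ Subgroup.zpowers x)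
    (hw2 : ∀ k ∈ Subgroup.zpowers x, a * a * k * a ∉ Subgroup.zpowers x) :
    Irr (bset a (Subgroup.zpowers x)) := by
  set K := Subgroup.zpowers x with hK
  have hxK : x ∈ K := Subgroup.mem_zpowers x
  have ha' : a⁻¹ ∉ K := fun h => ha (by simpa using K.inv_mem h)
  have hfin : (K : Set G).Finite := by
    rw [hK, Subgroup.coe_zpowers]
    have : IsOfFinOrder x := isOfFinOrder_iff_pow_eq_one.mpr ⟨5, by norm_num, h5 x⟩
    exact Subgroup.coe_zpowers x ▸ this.finite_zpowers
  refine ⟨?_, Or.inl rfl, ?_, ?_⟩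
  · have : bset a K ⊆ {1} ∪ ((fun y => a * y) '' K ∪ (fun y => a⁻¹ * y) '' K) := by
      rintro y (h | h | h)
      · left; exact h
      · right; left; exact ⟨a⁻¹ * y, h, by simp⟩
      · right; right; exact ⟨a * y, h, by simp⟩
    exact ((finite_singleton _).union ((hfin.image _).union (hfin.image _))).subset this
  · intro h
    have : a ∈ bset a K := Or.inr (Or.inl (by simp))
    rw [h, mem_one] at this
    exact ha (this ▸ K.one_mem)
  · intro C D h1C h1D hCD
    by_contra hcon
    push Not at hcon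
    obtain ⟨hCB, hDB⟩ := hcon
    have hCs : C ⊆ bset a K := hCD ▸ subset_mul_left h1D
    have hDs : D ⊆ bset a K := hCD ▸ subset_mul_right h1C
    have hC' : ∃ c ∈ C, c ≠ 1 := by
      by_contra h
      push Not at h
      apply hDB
      rw [← hCD, eq_one_set h1C h, one_mul]
    have hD' : ∃ d ∈ D, d ≠ 1 := by
      by_contra h
      push Not at h
      apply hCB
      rw [← hCD, eq_one_set h1D h, mul_one]
    obtain ⟨c₀, hc₀, hc₀1⟩ := hC'
    obtain ⟨d₀, hd₀, hd₀1⟩ := hD'
    have hCalt : ∀ c ∈ C, c ≠ 1 → a⁻¹ * c ∈ K ∨ a * c ∈ K := by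
      intro c hc hc1
      rcases hCs hc with h | h
      · exact absurd h hc1
      · exact h
    have hDalt : ∀ c ∈ D, c ≠ 1 → a⁻¹ * c ∈ K ∨ a * c ∈ K := by
      intro c hc hc1
      rcases hDs hc with h | h
      · exact absurd h hc1
      · exact h
    -- not both in `aK`
    have hno1 : ∀ c ∈ C, ∀ d ∈ D, a⁻¹ * c ∈ K → a⁻¹ * d ∈ K → False := by
      intro c hc d hd h h'
      have hcd : c * d ∈ bset a K := hCD ▸ mul_mem_mul hc hd
      have hdn : d ∉ K := fun hdK => ha' ((mem_mul_right hdK).mp h')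
      have hc_eq : c = a * (a⁻¹ * c) := by simp
      have hd_eq : d = a * (a⁻¹ * d) := by simp
      rcases hcd with h1 | h1 | h1
      · apply w1 h5 ha h
        have : a * (a⁻¹ * c) * a = (c * d) * (a⁻¹ * d)⁻¹ := by group
        rw [this, h1, one_mul]
        exact K.inv_mem h'
      · rw [← mul_assoc, mem_mul_left h] at h1
        exact hdn h1
      · apply hw2 _ h
        have : a * a * (a⁻¹ * c) * a = (a * (c * d)) * (a⁻¹ * d)⁻¹ := by group
        rw [this]
        exact K.mul_mem h1 (K.inv_mem h')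
    have hno2 : ∀ c ∈ C, ∀ d ∈ D, a * c ∈ K → a * d ∈ K → False := by
      intro c hc d hd h h'
      have hcd : c * d ∈ bset a K := hCD ▸ mul_mem_mul hc hd
      have hdn : d ∉ K := fun hdK => ha ((mem_mul_right hdK).mp h')
      rcases hcd with h1 | h1 | h1
      · apply w1 h5 ha' h
        have : a⁻¹ * (a * c) * a⁻¹ = (c * d) * (a * d)⁻¹ := by group
        rw [this, h1, one_mul]
        exact K.inv_mem h'
      · have h2 : a⁻¹ * (c * d) * (a * d)⁻¹ ∈ K := K.mul_mem h1 (K.inv_mem h')
        apply hw2 _ h2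
        have : a * a * (a⁻¹ * (c * d) * (a * d)⁻¹) * a = a * c := by group
        rw [this]
        exact h
      · rw [← mul_assoc, mem_mul_left h] at h1
        exact hdn h1
    rcases hCalt c₀ hc₀ hc₀1 with h | h
    · have hD2 : ∀ d ∈ D, d ≠ 1 → a * d ∈ K := by
        intro d hd hd1
        rcases hDalt d hd hd1 with h' | h'
        · exact (hno1 c₀ hc₀ d hd h h').elim
        · exact h'
      have hC2 : ∀ c ∈ C, c ≠ 1 → a⁻¹ * c ∈ K := by
        intro c hc hc1
        rcases hCalt c hc hc1 with h' | h'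
        · exact h'
        · exact (hno2 c hc d₀ hd₀ h' (hD2 d₀ hd₀ hd₀1)).elim
      exact aux h5 hx ha hCD h1C hC2 hD2 hd₀ hd₀1
    · have hD2 : ∀ d ∈ D, d ≠ 1 → a⁻¹ * d ∈ K := by
        intro d hd hd1
        rcases hDalt d hd hd1 with h' | h'
        · exact h'
        · exact (hno2 c₀ hc₀ d hd h h').elim
      have hC2 : ∀ c ∈ C, c ≠ 1 → a * c ∈ K := by
        intro c hc hc1
        rcases hCalt c hc hc1 with h' | h'
        · exact (hno1 c hc d₀ hd₀ h' (hD2 d₀ hd₀ hd₀1)).elim
        · exact h'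
      refine aux h5 hx (a := a⁻¹) ha' (C := C) (D := D) ?_ h1C ?_ hD2 hd₀ hd₀1
      · rw [bset_inv]; exact hCD
      · intro c hc hc1
        rw [inv_inv]; exact hC2 c hc hc1

lemma absorb_bset (x a : G) : ({1, a} : Set G) * bset a (Subgroup.zpowers x) * {1, x} =
    {1, a} * bset a (Subgroup.zpowers x) := by
  set K := Subgroup.zpowers x with hK
  have hxK : x ∈ K := Subgroup.mem_zpowers x
  have key : ({1, a} : Set G) * bset a K =
      {y | y ∈ K ∨ a⁻¹ * y ∈ K ∨ a⁻¹ * (a⁻¹ * y) ∈ K ∨ a * y ∈ K} := by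
    ext y
    constructor
    · rintro ⟨b, hb, z, hz, rfl⟩
      simp only [mem_setOf_eq]
      rcases hb with rfl | hb
      · rw [one_mul]
        rcases hz with rfl | hz | hz
        · left; exact K.one_mem
        · right; left; exact hz
        · right; right; right; exact hz
      · rw [mem_singleton_iff.mp hb]
        rcases hz with rfl | hz | hz
        · right; left; simp
        · right; right; left; simpa using hz
        · left; exact hz
    · rintro (h | h | h | h)
      · exact ⟨a, by simp, a⁻¹ * y, Or.inr (Or.inr (by simpa using h)), by simp⟩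
      · exact ⟨1, by simp, y, Or.inr (Or.inl h), by simp⟩
      · exact ⟨a, by simp, a⁻¹ * y, Or.inr (Or.inl h), by simp⟩
      · exact ⟨1, by simp, y, Or.inr (Or.inr h), by simp⟩
  rw [key]
  refine Subset.antisymm ?_ (subset_mul_left (by simp))
  rintro _ ⟨y, hy, b, hb, rfl⟩
  have hbK : b ∈ K := by
    rcases hb with rfl | hb
    · exact K.one_mem
    · rw [mem_singleton_iff.mp hb]; exact hxK
  simp only [mem_setOf_eq] at hy ⊢
  simp only [← mul_assoc, mem_mul_right hbK] at hy ⊢
  exact hy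

/-- In a group of exponent five which is not cyclic, some set has factorizations of all lengths at
least two. -/
lemma exists_two_of_exp_five (h5 : ∀ g : G, g ^ 5 = 1) {x : G} (hx : x ≠ 1) {a : G}
    (ha : a ∉ Subgroup.zpowers x) : ∃ X : Set G, ∀ n, 2 ≤ n → Len X n := by
  wlog hw2 : ∀ k ∈ Subgroup.zpowers x, a * a * k * a ∉ Subgroup.zpowers x generalizing a
  · push Not at hw2
    obtain ⟨k₀, hk₀, hk₁⟩ := hw2
    set K := Subgroup.zpowers x with hK
    have ha2 : a * a ∉ K := fun h => ha (mem_of_sq h5 h)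
    have ha' : a⁻¹ ∉ K := fun h => ha (by simpa using K.inv_mem h)
    apply this (a := a * a) ha2
    intro k₂ hk₂ hcon
    have h4 : a * a * (a * a) = a⁻¹ := by
      rw [eq_inv_iff_mul_eq_one]
      have := h5 a
      simpa [pow_succ, mul_assoc] using this
    rw [h4] at hcon
    apply w1 h5 ha' (K.mul_mem hk₂ hk₁)
    have : a⁻¹ * (k₂ * (a * a * k₀ * a)) * a⁻¹ = (a⁻¹ * k₂ * (a * a)) * k₀ := by group
    rw [this]
    exact K.mul_mem hcon hk₀
  · refine ⟨{1, a} * bset a (Subgroup.zpowers x), fun n hn => ?_⟩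
    have ha1 : a ≠ 1 := fun h => ha (h ▸ Subgroup.one_mem _)
    exact len_all_of_absorb (irr_pair ha1) (irr_bset h5 hx ha hw2) hx (absorb_bset x a) n hn

end

end Pool.Agent.H34.PowMon
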