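import Pool.Agent.H34.PowMonExp

/-!
# The cyclic group of order five, and torsion groups of odd exponent
-/

namespace Pool.Agent.H34.PowMon

open scoped Pointwise
open Set

section

variable {G : Type*} [Group G]

lemma cases_five {x : G} (hord : orderOf x = 5) (y : G) (hy : y ∈ Subgroup.zpowers x) :
    y = 1 ∨ y = x ∨ y = x ^ 2 ∨ y = x ^ 3 ∨ y = x ^ 4 := by
  obtain ⟨i, rfl⟩ := Subgroup.mem_zpowers_iff.mp hy
  have h : x ^ i = x ^ (i % (5 : ℤ)) := by
    have := (zpow_mod_orderOf x i).symm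
    rwa [hord] at this
  have h1 : 0 ≤ i % 5 := Int.emod_nonneg _ (by norm_num)
  have h2 : i % 5 < 5 := Int.emod_lt_of_pos _ (by norm_num)
  rw [h]
  generalize i % 5 = j at h1 h2 ⊢
  interval_cases j
  · left; simp
  · right; left; simp
  · right; right; left; norm_cast
  · right; right; right; left; norm_cast
  · right; right; right; right; norm_cast

lemma hH_of_exp_five (h5 : ∀ g : G, g ^ 5 = 1) : ∀ x : G, x ≠ 1 → x * x ≠ x ∧ x * x ≠ 1 := by
  intro x hx
  refine ⟨fun h => hx (by simpa using h), fun h => hx ?_⟩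
  have h1 := h5 x
  have h2 : x ^ 5 = (x * x) * (x * x) * x := by simp [pow_succ, mul_assoc]
  rw [h2, h, one_mul, one_mul] at h1
  exact h1

lemma irr_eq_pair (h5 : ∀ g : G, g ^ 5 = 1) (hall : ∀ g : G, g ≠ 1 → ∀ y : G, y = 1 ∨ y = g ∨
    y = g ^ 2 ∨ y = g ^ 3 ∨ y = g ^ 4) {A : Set G} (hA : Irr A) :
    ∃ g, g ≠ 1 ∧ A = {1, g} := by
  have hH := hH_of_exp_five h5
  -- criterion
  have crit : ∀ t ∈ A, t ≠ 1 → (∀ a ∈ A, a * t ∈ A ∨ a * t⁻¹ ∈ A) → A = {1, t} := by
    intro t ht ht1 hT
    have key : {a | a ∈ A ∧ a * t ∈ A} * {1, t} = A := by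
      ext y
      constructor
      · rintro ⟨a, ⟨ha, hat⟩, b, hb, rfl⟩
        rcases hb with rfl | hb
        · simpa using ha
        · rw [mem_singleton_iff.mp hb]; exact hat
      · intro hy
        rcases hT y hy with h | h
        · exact ⟨y, ⟨hy, h⟩, 1, by simp, by simp⟩
        · exact ⟨y * t⁻¹, ⟨h, by simpa using hy⟩, t, by simp, by simp⟩
    have h1S : (1 : G) ∈ {a | a ∈ A ∧ a * t ∈ A} := by
      show (1 : G) ∈ A ∧ 1 * t ∈ A
      exact ⟨hA.2.1, by simpa using ht⟩
    rcases hA.2.2.2 _ _ h1S (by simp) key with h | h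
    · exfalso
      refine not_irr_of_right hH ht1 (fun a ha => ?_) hA
      rw [← h] at ha
      exact ha.2
    · exact h.symm
  obtain ⟨g, hg, hg1⟩ := exists_ne_one_of_irr hA
  by_cases hT : ∀ a ∈ A, a * g ∈ A ∨ a * g⁻¹ ∈ A
  · exact ⟨g, hg1, crit g hg hg1 hT⟩
  · push Not at hT
    obtain ⟨a, ha, h1, h2⟩ := hT
    have hg5 := h5 g
    have hgi : g⁻¹ = g ^ 4 := by
      rw [inv_eq_iff_mul_eq_one, ← pow_succ']; exact hg5
    have ha3 : a = g ^ 3 := by
      rcases hall g hg1 a with rfl | rfl | rfl | rfl | rfl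
      · exact absurd (by simpa using hg) h1
      · exact absurd (by simpa using hA.2.1) h2
      · exfalso; apply h2
        have : g ^ 2 * g⁻¹ = g := by group
        rw [this]; exact hg
      · rfl
      · exfalso; apply h1
        rw [← pow_succ, hg5]; exact hA.2.1
    subst ha3
    have h4 : g ^ 4 ∉ A := by rwa [← pow_succ] at h1
    have h2' : g ^ 2 ∉ A := by
      have : g ^ 3 * g⁻¹ = g ^ 2 := by group
      rwa [this] at h2
    have hne : g ^ 3 ≠ 1 := by
      intro h
      apply hg1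
      have h6 : g ^ 6 = g := by rw [pow_succ, hg5, one_mul]
      rw [← h6, show 6 = 3 * 2 by norm_num, pow_mul, h, one_pow]
    refine ⟨g ^ 3, hne, crit (g ^ 3) ha hne ?_⟩
    intro b hb
    rcases hall g hg1 b with h | h | h | h | h
    · left; rw [h]; simpa using ha
    · right
      have : g * (g ^ 3)⁻¹ = g ^ 3 := by
        rw [mul_inv_eq_iff_eq_mul, ← pow_add, show 3 + 3 = 5 + 1 by norm_num, pow_succ, hg5, one_mul]
      rw [h, this]; exact ha
    · exact absurd (h ▸ hb) h2'
    · right; rw [h]; simpa using hA.2.1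
    · exact absurd (h ▸ hb) h4

lemma univ_of_absorb (hall : ∀ g : G, g ≠ 1 → ∀ y : G, y = 1 ∨ y = g ∨
    y = g ^ 2 ∨ y = g ^ 3 ∨ y = g ^ 4) {S : Set G} (h1 : (1 : G) ∈ S) {g : G} (hg : g ≠ 1)
    (h : S * {1, g} = S) : S = univ := by
  have hpow : ∀ n : ℕ, g ^ n ∈ S := by
    intro n
    induction n with
    | zero => simpa using h1
    | succ n ih =>
      rw [← h, pow_succ]
      exact mul_mem_mul ih (by simp)
  rw [eq_univ_iff_forall]
  intro y
  rcases hall g hg y with rfl | rfl | rfl | rfl | rfl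
  · exact h1
  · simpa using hpow 1
  · exact hpow 2
  · exact hpow 3
  · exact hpow 4

lemma ncard_prod (h5 : ∀ g : G, g ^ 5 = 1) (hall : ∀ g : G, g ≠ 1 → ∀ y : G, y = 1 ∨ y = g ∨
    y = g ^ 2 ∨ y = g ^ 3 ∨ y = g ^ 4) (n : ℕ) : ∀ X : Set G, Len X n →
    X = univ ∨ n + 1 ≤ X.ncard := by
  induction n with
  | zero =>
    intro X h
    right
    rw [len_zero h, ← Set.singleton_one, ncard_singleton]
  | succ n ih =>
    intro X h
    obtain ⟨w, hw, hp, hl⟩ := h
    obtain ⟨v, A, rfl⟩ : ∃ v A, w = v ++ [A] := by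
      rcases List.eq_nil_or_concat w with h | ⟨v, A, h⟩
      · subst h; simp at hl
      · exact ⟨v, A, by simpa using h⟩
    have hA := hw A (by simp)
    obtain ⟨g, hg, rfl⟩ := irr_eq_pair h5 hall hA
    have hv : Len v.prod n := ⟨v, fun B hB => hw B (by simp [hB]), rfl, by simpa using hl⟩
    have hX : v.prod * {1, g} = X := by simpa using hp
    have hfin := hv.finite
    have hsub : v.prod ⊆ X := hX ▸ subset_mul_left (by simp)
    have hXfin : X.Finite := hX ▸ hfin.1.mul (by simp)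
    rcases ih _ hv with h | h
    · left
      rw [h] at hsub
      exact univ_subset_iff.mp hsub
    · by_cases heq : v.prod = X
      · left
        rw [← heq]
        exact univ_of_absorb hall hfin.2 hg (by rw [hX, heq])
      · right
        have : v.prod.ncard < X.ncard := ncard_lt_ncard (hsub.ssubset_of_ne heq) hXfin
        omega

lemma five_case (h5 : ∀ g : G, g ^ 5 = 1) {x : G} (hx : x ≠ 1)
    (hgen : ∀ y : G, y ∈ Subgroup.zpowers x) :
    (∀ n, (∃ X : Set G, Len X 2 ∧ Len X n) → n = 2 ∨ n = 3) ∧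
    (∃ X : Set G, Len X 2 ∧ Len X 3) ∧
    ∀ k, 3 ≤ k → ∀ n, 3 ≤ n → ∃ X : Set G, Len X k ∧ Len X n := by
  have hH := hH_of_exp_five h5
  have hord : ∀ g : G, g ≠ 1 → orderOf g = 5 := by
    intro g hg
    have hdvd : orderOf g ∣ 5 := orderOf_dvd_of_pow_eq_one (h5 g)
    rcases (Nat.dvd_prime (by norm_num)).mp hdvd with h | h
    · exact absurd (orderOf_eq_one_iff.mp h) hg
    · exact h
  have hcard : Nat.card G = 5 := by
    rw [← hord x hx, ← Nat.card_zpowers, show Subgroup.zpowers x = ⊤ from ?_]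
    · simp
    · rw [eq_top_iff]; intro y _; exact hgen y
  have hall : ∀ g : G, g ≠ 1 → ∀ y : G, y = 1 ∨ y = g ∨ y = g ^ 2 ∨ y = g ^ 3 ∨ y = g ^ 4 := by
    intro g hg y
    apply cases_five (hord g hg)
    have : Subgroup.zpowers g = ⊤ := by
      have : Finite G := Nat.finite_of_card_ne_zero (by omega)
      apply Subgroup.eq_top_of_card_eq
      rw [Nat.card_zpowers, hord g hg, hcard]
    rw [this]; trivial
  have hx2 : x ^ 2 ≠ 1 := by rw [pow_two]; exact (hH x hx).2
  have huniv : pw x (Iic 4) = univ := by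
    rw [eq_univ_iff_forall]
    intro y
    rcases hall x hx y with rfl | rfl | rfl | rfl | rfl
    · exact ⟨0, by simp, by simp⟩
    · exact ⟨1, by simp, by simp⟩
    · exact ⟨2, by simp, by simp⟩
    · exact ⟨3, by simp, by simp⟩
    · exact ⟨4, by simp, by simp⟩
  refine ⟨?_, ?_, ?_⟩
  · rintro n ⟨X, h2, hn⟩
    have hle : X.ncard ≤ 4 := by
      obtain ⟨w, hw, hp, hl⟩ := h2
      rw [List.length_eq_two] at hl
      obtain ⟨A, B, rfl⟩ := hl
      obtain ⟨g, -, rfl⟩ := irr_eq_pair h5 hall (hw A (by simp))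
      obtain ⟨h, -, rfl⟩ := irr_eq_pair h5 hall (hw _ (by simp : B ∈ [_, B]))
      have : X ⊆ ({1, g, h, g * h} : Set G) := by
        rw [← hp]
        simp only [List.prod_cons, List.prod_nil, mul_one]
        rintro _ ⟨a, ha, b, hb, rfl⟩
        rcases ha with rfl | ha <;> rcases hb with rfl | hb
        · simp
        · rw [mem_singleton_iff.mp hb]; simp
        · rw [mem_singleton_iff.mp ha]; simp
        · rw [mem_singleton_iff.mp hb, mem_singleton_iff.mp ha]; simp
      refine (ncard_le_ncard this (by simp)).trans ?_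
      refine (ncard_insert_le _ _).trans ?_
      have h3 := ncard_insert_le g ({h, g * h} : Set G)
      have h4 := ncard_insert_le h ({g * h} : Set G)
      rw [ncard_singleton] at h4
      omega
    have hnot : X ≠ univ := by
      rintro rfl
      rw [ncard_univ, hcard] at hle
      omega
    rcases ncard_prod h5 hall n X hn with h | h
    · exact absurd h hnot
    · have hn3 : n ≤ 3 := by omega
      have hn0 : n ≠ 0 := by
        rintro rfl
        rw [len_zero hn] at h2
        have := len_one_iff h2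
        omega
      have hn1 : n ≠ 1 := by
        rintro rfl
        have := len_eq_one_of_irr hH (len_one hn) h2
        omega
      omega
  · refine ⟨pw x (Iic 3), ?_, ?_⟩
    · have h := ((irr_pair hx).len_pow 1).mul (irr_pair hx2).len
      rwa [pair_pow_mul_sq x (le_refl 1)] at h
    · rw [← pair_pow]
      exact (irr_pair hx).len_pow 3
  · have key : ∀ n, 3 ≤ n → Len (univ : Set G) n := by
      intro n hn
      rcases Nat.eq_or_lt_of_le hn with h | h
      · subst h
        have h := ((irr_pair hx).len_pow 2).mul (irr_pair hx2).len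
        rwa [pair_pow_mul_sq x (by norm_num), huniv] at h
      · have h2 := (irr_pair hx).len_pow n
        rw [pair_pow] at h2
        have h' : pw x (Iic n) = univ := by
          rw [← univ_subset_iff, ← huniv]
          exact image_mono (Iic_subset_Iic.mpr h)
        rwa [h'] at h2
    intro k hk n hn
    exact ⟨univ, key k hk, key n hn⟩

/-- The dichotomy for torsion groups without elements of order two. -/
lemma group_case (hH : ∀ x : G, x ≠ 1 → x * x ≠ x ∧ x * x ≠ 1)
    (htor : ∀ x : G, ∃ n : ℕ, 0 < n ∧ x ^ n = 1) {x₀ : G} (hx₀ : x₀ ≠ 1) :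
    (∀ n, 2 ≤ n → ∃ X : Set G, Len X 2 ∧ Len X n) ∨
    ((∀ n, (∃ X : Set G, Len X 2 ∧ Len X n) → n = 2 ∨ n = 3) ∧
    (∃ X : Set G, Len X 2 ∧ Len X 3) ∧
    ∀ k, 3 ≤ k → ∀ n, 3 ≤ n → ∃ X : Set G, Len X k ∧ Len X n) := by
  have hfin : ∀ x : G, 0 < orderOf x := by
    intro x
    obtain ⟨n, hn, hx⟩ := htor x
    exact orderOf_pos_iff.mpr (isOfFinOrder_iff_pow_eq_one.mpr ⟨n, hn, hx⟩)
  have hodd : ∀ x : G, Odd (orderOf x) := by
    intro x
    by_contra h
    rw [Nat.not_odd_iff_even] at h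
    obtain ⟨r, hr⟩ := h
    have hpos := hfin x
    have hne : x ^ r ≠ 1 := by
      intro h1
      have := orderOf_le_of_pow_eq_one (by omega) h1
      omega
    apply (hH _ hne).2
    rw [← pow_add, ← hr, pow_orderOf_eq_one]
  by_cases h5 : ∀ g : G, g ^ 5 = 1
  · by_cases hgen : ∀ y : G, y ∈ Subgroup.zpowers x₀
    · exact Or.inr (five_case h5 hx₀ hgen)
    · left
      push Not at hgen
      obtain ⟨a, ha⟩ := hgen
      obtain ⟨X, hX⟩ := exists_two_of_exp_five h5 hx₀ ha
      exact fun n hn => ⟨X, hX 2 le_rfl, hX n hn⟩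
  · left
    push Not at h5
    obtain ⟨g, hg⟩ := h5
    obtain ⟨X, hX⟩ := exists_two_of_odd_order (hodd g)
      (fun h => hg (by rw [orderOf_eq_one_iff.mp h, one_pow]))
      (fun h => hg (by rw [← h]; exact pow_orderOf_eq_one g))
    exact fun n hn => ⟨X, hX 2 le_rfl, hX n hn⟩

end

/-- The dichotomy for monoids without elements `x ≠ 1` with `x * x = x` or `x * x = 1`. -/
lemma monoid_case {H : Type*} [Monoid H] (hH : ∀ x : H, x ≠ 1 → x * x ≠ x ∧ x * x ≠ 1) {x₀ : H}
    (hx₀ : x₀ ≠ 1) :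
    (∀ n, 2 ≤ n → ∃ X : Set H, Len X 2 ∧ Len X n) ∨
    ((∀ n, (∃ X : Set H, Len X 2 ∧ Len X n) → n = 2 ∨ n = 3) ∧
    (∃ X : Set H, Len X 2 ∧ Len X 3) ∧
    ∀ k, 3 ≤ k → ∀ n, 3 ≤ n → ∃ X : Set H, Len X k ∧ Len X n) := by
  by_cases hinj : ∃ x : H, Function.Injective (fun n : ℕ => x ^ n)
  · obtain ⟨x, hx⟩ := hinj
    exact Or.inl fun n hn => exists_two_of_injective hx n hn
  · push Not at hinj
    have htor : ∀ x : H, ∃ n : ℕ, 0 < n ∧ x ^ n = 1 := fun x =>
      (injective_or_pow_eq_one hH x).resolve_left (hinj x)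
    choose e he1 he2 using htor
    let _ : Group H :=
      { (inferInstance : Monoid H) with
        inv := fun x => x ^ (e x - 1)
        inv_mul_cancel := fun x => by
          show x ^ (e x - 1) * x = 1
          rw [← pow_succ, Nat.sub_add_cancel (he1 x), he2] }
    exact group_case hH (fun x => ⟨e x, he1 x, he2 x⟩) hx₀

end Pool.Agent.H34.PowMon
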