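import Pool.Agent.H34.PowMonBasic

/-!
# Elements with pairwise distinct powers
-/

namespace Pool.Agent.H34.PowMon

open scoped Pointwise
open Set

variable {H : Type*} [Monoid H]

/-- The set of the powers of `x` with exponents in `s`. -/
def pw (x : H) (s : Set ℕ) : Set H := (fun n => x ^ n) '' s

lemma pw_finite (x : H) {s : Set ℕ} (hs : s.Finite) : (pw x s).Finite := hs.image _

lemma one_mem_pw (x : H) {s : Set ℕ} (hs : 0 ∈ s) : (1 : H) ∈ pw x s := ⟨0, hs, by simp⟩

lemma pair_pow (x : H) (n : ℕ) : ({1, x} : Set H) ^ n = pw x (Iic n) := by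
  induction n with
  | zero =>
    ext y
    simp [pw, eq_comm]
  | succ n ih =>
    rw [pow_succ, ih]
    ext y
    constructor
    · rintro ⟨_, ⟨i, hi, rfl⟩, b, hb, rfl⟩
      rw [mem_Iic] at hi
      rcases hb with rfl | hb
      · exact ⟨i, by rw [mem_Iic]; omega, by simp⟩
      · rw [mem_singleton_iff.mp hb]
        exact ⟨i + 1, by rw [mem_Iic]; omega, by simp [pow_succ]⟩
    · rintro ⟨i, hi, rfl⟩
      rw [mem_Iic] at hi
      by_cases h : i ≤ n
      · exact ⟨x ^ i, ⟨i, h, rfl⟩, 1, by simp, by simp⟩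
      · have hin : i = n + 1 := by omega
        subst hin
        exact ⟨x ^ n, ⟨n, by simp, rfl⟩, x, by simp, by simp [pow_succ]⟩

lemma pair_pow_mul_sq (x : H) {n : ℕ} (hn : 1 ≤ n) :
    ({1, x} : Set H) ^ n * {1, x ^ 2} = pw x (Iic (n + 2)) := by
  rw [pair_pow]
  ext y
  constructor
  · rintro ⟨_, ⟨i, hi, rfl⟩, b, hb, rfl⟩
    rw [mem_Iic] at hi
    rcases hb with rfl | hb
    · exact ⟨i, by rw [mem_Iic]; omega, by simp⟩
    · rw [mem_singleton_iff.mp hb]
      exact ⟨i + 2, by rw [mem_Iic]; omega, by simp [pow_add]⟩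
  · rintro ⟨i, hi, rfl⟩
    rw [mem_Iic] at hi
    by_cases h : i ≤ n
    · exact ⟨x ^ i, ⟨i, h, rfl⟩, 1, by simp, by simp⟩
    · refine ⟨x ^ (i - 2), ⟨i - 2, by rw [mem_Iic]; omega, rfl⟩, x ^ 2, by simp, ?_⟩
      simp only [← pow_add]
      congr 1
      omega

/-- Zero together with the odd numbers below `2 * j`. -/
def oddSet (j : ℕ) : Set ℕ := insert 0 {i | Odd i ∧ i < 2 * j}

lemma oddSet_finite (j : ℕ) : (oddSet j).Finite :=
  (((finite_Iio (2 * j)).subset (fun _ hi => hi.2))).insert 0

lemma pair_mul_odd (x : H) {j : ℕ} (hj : 1 ≤ j) :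
    ({1, x} : Set H) * pw x (oddSet j) = pw x (Iic (2 * j)) := by
  ext y
  constructor
  · rintro ⟨b, hb, _, ⟨i, hi, rfl⟩, rfl⟩
    have hi' : i < 2 * j := by
      rcases hi with rfl | hi
      · omega
      · exact hi.2
    rcases hb with rfl | hb
    · exact ⟨i, by rw [mem_Iic]; omega, by simp⟩
    · rw [mem_singleton_iff.mp hb]
      exact ⟨i + 1, by rw [mem_Iic]; omega, by simp [pow_succ']⟩
  · rintro ⟨i, hi, rfl⟩
    rw [mem_Iic] at hi
    rcases Nat.even_or_odd i with h | h
    · rcases Nat.eq_zero_or_pos i with h0 | h0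
      · subst h0
        exact ⟨1, by simp, 1, one_mem_pw x (by simp [oddSet]), by simp⟩
      · refine ⟨x, by simp, x ^ (i - 1), ⟨i - 1, Or.inr ⟨?_, by omega⟩, rfl⟩, ?_⟩
        · obtain ⟨r, hr⟩ := h
          exact ⟨r - 1, by omega⟩
        · simp only [← pow_succ']
          congr 1
          omega
    · refine ⟨1, by simp, x ^ i, ⟨i, Or.inr ⟨h, ?_⟩, rfl⟩, by simp⟩
      obtain ⟨r, hr⟩ := h
      omega

lemma irr_odd_of_injective {x : H} (hx : Function.Injective (fun n : ℕ => x ^ n)) {j : ℕ}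
    (hj : 1 ≤ j) : Irr (pw x (oddSet j)) := by
  have hmem : ∀ i, x ^ i ∈ pw x (oddSet j) ↔ i ∈ oddSet j := by
    intro i
    constructor
    · rintro ⟨k, hk, hki⟩
      rwa [← hx hki]
    · intro h
      exact ⟨i, h, rfl⟩
  refine ⟨pw_finite x (oddSet_finite j), one_mem_pw x (by simp [oddSet]), ?_, ?_⟩
  · intro h
    have h1 : x ^ 1 ∈ pw x (oddSet j) := (hmem 1).mpr (Or.inr ⟨odd_one, by omega⟩)
    rw [h, mem_one] at h1
    have := hx (a₁ := 1) (a₂ := 0) (by simpa using h1)
    omega
  · intro B C hB hC hBC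
    by_contra hcon
    push Not at hcon
    obtain ⟨hBA, hCA⟩ := hcon
    have hBs : B ⊆ pw x (oddSet j) := hBC ▸ subset_mul_left hC
    have hCs : C ⊆ pw x (oddSet j) := hBC ▸ subset_mul_right hB
    have hB' : ∃ b ∈ B, b ≠ 1 := by
      by_contra h
      push Not at h
      apply hCA
      rw [← hBC]
      have : B = 1 := Subset.antisymm (fun b hb => by rw [h b hb]; exact one_mem_one)
        (fun b hb => by rw [mem_one] at hb; subst hb; exact hB)
      rw [this, one_mul]
    have hC' : ∃ b ∈ C, b ≠ 1 := by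
      by_contra h
      push Not at h
      apply hBA
      rw [← hBC]
      have : C = 1 := Subset.antisymm (fun b hb => by rw [h b hb]; exact one_mem_one)
        (fun b hb => by rw [mem_one] at hb; subst hb; exact hC)
      rw [this, mul_one]
    obtain ⟨b, hb, hb1⟩ := hB'
    obtain ⟨c, hc, hc1⟩ := hC'
    obtain ⟨i, hi, rfl⟩ := hBs hb
    obtain ⟨k, hk, rfl⟩ := hCs hc
    have hi' : Odd i := by
      rcases hi with rfl | hi
      · simp at hb1
      · exact hi.1
    have hk' : Odd k := by
      rcases hk with rfl | hk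
      · simp at hc1
      · exact hk.1
    have h1 : x ^ (i + k) ∈ pw x (oddSet j) := by
      rw [← hBC, pow_add]
      exact mul_mem_mul hb hc
    rw [hmem] at h1
    have h2 : Even (i + k) := hi'.add_odd hk'
    rcases h1 with h1 | h1
    · obtain ⟨r, hr⟩ := hi'
      omega
    · exact (Nat.not_even_iff_odd.mpr h1.1) h2

/-- If `x` has pairwise distinct powers, then for every `n ≥ 2` some set has factorizations of
lengths `2` and `n`. -/
lemma exists_two_of_injective {x : H} (hx : Function.Injective (fun n : ℕ => x ^ n)) (n : ℕ)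
    (hn : 2 ≤ n) : ∃ X : Set H, Len X 2 ∧ Len X n := by
  have hx1 : x ≠ 1 := by
    intro h
    have := hx (a₁ := 1) (a₂ := 0) (by simpa using h)
    omega
  have hx2 : x ^ 2 ≠ 1 := by
    intro h
    have := hx (a₁ := 2) (a₂ := 0) (by simpa using h)
    omega
  rcases Nat.even_or_odd' n with ⟨j, rfl | rfl⟩
  · refine ⟨pw x (Iic (2 * j)), ?_, ?_⟩
    · rw [← pair_mul_odd x (by omega)]
      exact (irr_pair hx1).len.mul (irr_odd_of_injective hx (by omega)).len
    · rw [← pair_pow]
      exact (irr_pair hx1).len_pow _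
  · refine ⟨pw x (Iic (2 * (j + 1))), ?_, ?_⟩
    · rw [← pair_mul_odd x (by omega)]
      exact (irr_pair hx1).len.mul (irr_odd_of_injective hx (by omega)).len
    · have h := ((irr_pair hx1).len_pow (2 * j)).mul (irr_pair hx2).len
      rw [pair_pow_mul_sq x (by omega)] at h
      exact h

/-- In the absence of elements `x ≠ 1` with `x * x = x` or `x * x = 1`, an element is either of
finite order or has pairwise distinct powers. -/
lemma injective_or_pow_eq_one (hH : ∀ x : H, x ≠ 1 → x * x ≠ x ∧ x * x ≠ 1) (x : H) :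
    Function.Injective (fun n : ℕ => x ^ n) ∨ ∃ n : ℕ, 0 < n ∧ x ^ n = 1 := by
  by_cases h : Function.Injective (fun n : ℕ => x ^ n)
  · exact Or.inl h
  · right
    rw [Function.Injective] at h
    push Not at h
    obtain ⟨i, j, hij, hne⟩ := h
    wlog hlt : i < j generalizing i j
    · exact this j i hij.symm hne.symm (by omega)
    obtain ⟨p, hp, rfl⟩ : ∃ p, 0 < p ∧ j = i + p := ⟨j - i, by omega, by omega⟩
    have h1 : ∀ k, x ^ (i + k * p) = x ^ i := by
      intro k
      induction k with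
      | zero => simp
      | succ k ih =>
        have : i + (k + 1) * p = (i + k * p) + p := by ring
        rw [this, pow_add, ih, ← pow_add, ← hij]
    have h2 : ∀ m k, i ≤ m → x ^ (m + k * p) = x ^ m := by
      intro m k hm
      obtain ⟨r, rfl⟩ := Nat.exists_eq_add_of_le hm
      have : i + r + k * p = (i + k * p) + r := by ring
      rw [this, pow_add, h1, ← pow_add]
    have hN : i ≤ (i + 1) * p := by nlinarith
    refine ⟨(i + 1) * p, by positivity, ?_⟩
    by_contra hne1
    have := (hH _ hne1).1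
    apply this
    rw [← pow_add]
    exact h2 _ _ hN

end Pool.Agent.H34.PowMon
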